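import Pool.Agent.H770Sun.Sing1

set_option autoImplicit false

/-! The average of the singular factor over a progression of exponents. -/

namespace Pool.Agent.H770Sun
open Finset

/-- the least exponent -/
noncomputable def oT (E : ℕ) (T : Finset ℕ) : ℕ := sInf {s : ℕ | 1 ≤ s ∧ ∀ p ∈ T, p ∣ 3 ^ (E * s) - 1}

lemma oT_mem (E : ℕ) (T : Finset ℕ) (s : ℕ) (hs : 1 ≤ s) (h : ∀ p ∈ T, p ∣ 3 ^ (E * s) - 1) :
    1 ≤ oT E T ∧ ∀ p ∈ T, p ∣ 3 ^ (E * oT E T) - 1 :=
  Nat.sInf_mem (s := {s : ℕ | 1 ≤ s ∧ ∀ p ∈ T, p ∣ 3 ^ (E * s) - 1}) ⟨s, hs, h⟩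

lemma oT_dvd (E : ℕ) (T : Finset ℕ) (s : ℕ) (hs : 1 ≤ s) (h : ∀ p ∈ T, p ∣ 3 ^ (E * s) - 1) : oT E T ∣ s := by
  obtain ⟨h1, h2⟩ := oT_mem E T s hs h
  have h3 : 1 ≤ Nat.gcd s (oT E T) ∧ ∀ p ∈ T, p ∣ 3 ^ (E * Nat.gcd s (oT E T)) - 1 := by
    refine ⟨Nat.gcd_pos_of_pos_left _ hs, fun p hp => ?_⟩
    have h4 := Nat.dvd_gcd (h p hp) (h2 p hp)
    rw [Nat.pow_sub_one_gcd_pow_sub_one, Nat.gcd_mul_left] at h4
    exact h4
  have h4 : oT E T ≤ Nat.gcd s (oT E T) := Nat.sInf_le h3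
  have h5 : Nat.gcd s (oT E T) ≤ oT E T := Nat.gcd_le_right _ h1
  have h6 : Nat.gcd s (oT E T) = oT E T := le_antisymm h5 h4
  rw [← h6]
  exact Nat.gcd_dvd_left _ _

/-- the number of the terms of a progression that are divisible by all the primes of a set -/
lemma card_run (E c0 I : ℕ) (a : ℤ) (T : Finset ℕ) (hT : ∀ p ∈ T, p.Prime ∧ p ≠ 3) (S : Finset ℕ)
    (hS : ∀ i ∈ S, i < I ∧ ∀ p ∈ T, (p : ℤ) ∣ 3 ^ (c0 + E * i) - a) :
    (S.card : ℝ) ≤ I / oT E T + 1 := by
  have key : ∀ i ∈ S, ∀ j ∈ S, i < j → 1 ≤ oT E T ∧ oT E T ∣ j - i := by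
    intro i hi j hj hij
    have h1 : ∀ p ∈ T, p ∣ 3 ^ (E * (j - i)) - 1 := by
      intro p hp
      have h2 := dvd_sub ((hS j hj).2 p hp) ((hS i hi).2 p hp)
      have h3 : (3 : ℤ) ^ (c0 + E * j) - a - (3 ^ (c0 + E * i) - a) = 3 ^ (c0 + E * i) * (3 ^ (E * (j - i)) - 1) := by
        have h4 : c0 + E * j = c0 + E * i + E * (j - i) := by
          rw [Nat.mul_sub]
          have : E * i ≤ E * j := Nat.mul_le_mul_left _ hij.le
          omega
        rw [h4, pow_add]
        ring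
      rw [h3] at h2
      have hpp : Prime (p : ℤ) := Nat.prime_iff_prime_int.1 (hT p hp).1
      rcases hpp.dvd_or_dvd h2 with h4 | h4
      · exfalso
        have h5 := hpp.dvd_of_dvd_pow h4
        have h6 : p ∣ 3 := by exact_mod_cast h5
        exact (hT p hp).2 ((Nat.prime_dvd_prime_iff_eq (hT p hp).1 Nat.prime_three).1 h6)
      · have h5 : ((3 ^ (E * (j - i)) - 1 : ℕ) : ℤ) = 3 ^ (E * (j - i)) - 1 := by
          rw [Nat.cast_sub (Nat.one_le_pow _ _ (by norm_num))]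
          push_cast
          rfl
        rw [← h5] at h4
        exact_mod_cast h4
    exact ⟨(oT_mem E T (j - i) (by omega) h1).1, oT_dvd E T (j - i) (by omega) h1⟩
  rcases Nat.lt_or_ge 1 S.card with h | h
  · obtain ⟨i, hi, j, hj, hij⟩ := Finset.one_lt_card.1 h
    have ho : 1 ≤ oT E T := by
      rcases lt_or_gt_of_ne hij with h1 | h1
      · exact (key i hi j hj h1).1
      · exact (key j hj i hi h1).1
    have h1 : (S.map Nat.castEmbedding : Finset ℤ).card ≤ I / oT E T + 1 := by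
      apply card_cong _ _ _ ho
      intro x hx y hy
      rw [mem_map] at hx hy
      obtain ⟨x', hx', rfl⟩ := hx
      obtain ⟨y', hy', rfl⟩ := hy
      simp only [Nat.castEmbedding_apply]
      have hxI := (hS x' hx').1
      refine ⟨?_, by omega⟩
      rcases lt_trichotomy x' y' with h2 | h2 | h2
      · obtain ⟨c, hc⟩ := (key x' hx' y' hy' h2).2
        refine ⟨-c, ?_⟩
        have : (y' : ℤ) - x' = oT E T * c := by
          rw [← Nat.cast_sub h2.le, hc]
          push_cast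
          rfl
        linarith
      · rw [h2, sub_self]
        exact dvd_zero _
      · obtain ⟨c, hc⟩ := (key y' hy' x' hx' h2).2
        refine ⟨c, ?_⟩
        rw [← Nat.cast_sub h2.le, hc]
        push_cast
        rfl
    rw [card_map] at h1
    have h2 : (S.card : ℝ) ≤ ((I / oT E T : ℕ) : ℝ) + 1 := by exact_mod_cast h1
    have h3 : ((I / oT E T : ℕ) : ℝ) ≤ (I : ℝ) / oT E T := Nat.cast_div_le
    linarith
  · have h1 : (S.card : ℝ) ≤ 1 := by exact_mod_cast h
    have h2 : (0 : ℝ) ≤ (I : ℝ) / oT E T := by positivity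
    linarith

lemma card_pf (k : ℤ) (hk : k ≠ 0) (R : ℕ) (h : |k| ≤ 2 ^ R) : k.natAbs.primeFactors.card ≤ R := by
  have hk' : 0 < k.natAbs := Int.natAbs_pos.2 hk
  have h1 : 2 ^ k.natAbs.primeFactors.card ≤ ∏ p ∈ k.natAbs.primeFactors, p :=
    Finset.pow_card_le_prod _ _ _ (fun p hp => (Nat.prime_of_mem_primeFactors hp).two_le)
  have h2 : ∏ p ∈ k.natAbs.primeFactors, p ≤ k.natAbs := Nat.le_of_dvd hk' (Nat.prod_primeFactors_dvd _)
  have h3 : k.natAbs ≤ 2 ^ R := by
    have : (k.natAbs : ℤ) ≤ 2 ^ R := by rwa [Int.natCast_natAbs]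
    exact_mod_cast this
  exact (Nat.pow_le_pow_iff_right (by norm_num)).1 (h1.trans (h2.trans h3))

/-- **the average of the singular factor** -/
theorem run_sum (E M : ℕ) (hM3 : 3 ∣ M) (v : ℝ)
    (hv : ∀ P : Finset ℕ, (∀ p ∈ P, p.Prime ∧ ¬ p ∣ M) → ∑ T ∈ P.powerset.erase ∅, wT T / oT E T ≤ v)
    (κ : ℕ) (δ : ℝ) (hδ : 0 < δ) : ∃ I0 : ℕ, ∀ I ≥ I0, ∀ (c0 : ℕ) (a : ℤ), |a| ≤ 2 ^ (κ * I) → (3 : ℤ) ^ (c0 + E * I) ≤ 2 ^ (κ * I) →
      ∑ i ∈ (range I).filter (fun i => (3 : ℤ) ^ (c0 + E * i) ≠ a), FM M (3 ^ (c0 + E * i) - a) ≤ (1 + v + δ) * I := by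
  obtain ⟨C, hC0, hC⟩ := mertens_prod
  have hv0 : 0 ≤ v := by
    have := hv ∅ (by simp)
    simpa using this
  obtain ⟨η, hη⟩ : ∃ η, η = min 1 (δ / (2 * (1 + v))) := ⟨_, rfl⟩
  have hη0 : 0 < η := by rw [hη]; positivity
  have hη1 : η ≤ 1 := by rw [hη]; exact min_le_left _ _
  have hη2 : η * (1 + v) ≤ δ / 2 := by
    have : η ≤ δ / (2 * (1 + v)) := by rw [hη]; exact min_le_right _ _
    rw [le_div_iff₀ (by positivity)] at this
    linarith
  refine ⟨max 3 (max ⌈2 * (κ + 1) / η⌉₊ ⌈(16 * C / δ) ^ 2⌉₊), fun I hI c0 a ha h3I => ?_⟩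
  have hI3 : 3 ≤ I := (le_max_left _ _).trans hI
  have hI1 : 2 * (κ + 1) / η ≤ I := (Nat.le_ceil _).trans (by exact_mod_cast (((le_max_left _ _).trans (le_max_right _ _)).trans hI))
  have hI2 : (16 * C / δ) ^ 2 ≤ I := (Nat.le_ceil _).trans (by exact_mod_cast (((le_max_right _ _).trans (le_max_right _ _)).trans hI))
  have hIr : (0 : ℝ) < I := by exact_mod_cast (by omega : 0 < I)
  obtain ⟨z, hz⟩ : ∃ z, z = I ^ 2 := ⟨_, rfl⟩
  have hz3 : 3 ≤ z := by rw [hz]; nlinarith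
  have hzr : (z : ℝ) = (I : ℝ) ^ 2 := by rw [hz]; push_cast; rfl
  set P := ((Icc 1 z).filter Nat.Prime).filter (fun p => ¬ p ∣ M) with hP
  have hPp : ∀ p ∈ P, p.Prime ∧ ¬ p ∣ M := fun p hp => ⟨(mem_filter.1 (mem_filter.1 hp).1).2, (mem_filter.1 hp).2⟩
  set J := (range I).filter (fun i => (3 : ℤ) ^ (c0 + E * i) ≠ a) with hJ
  -- each term
  have hterm : ∀ i ∈ J, FM M (3 ^ (c0 + E * i) - a) ≤ (1 + η) * ∑ T ∈ P.powerset, (if ∀ p ∈ T, (p : ℤ) ∣ 3 ^ (c0 + E * i) - a then wT T else 0) := by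
    intro i hi
    rw [hJ, mem_filter, mem_range] at hi
    obtain ⟨hi1, hi2⟩ := hi
    obtain ⟨k, hk⟩ : ∃ k : ℤ, k = 3 ^ (c0 + E * i) - a := ⟨_, rfl⟩
    have hk0 : k ≠ 0 := by rw [hk]; exact sub_ne_zero.2 hi2
    rw [← hk]
    have hkabs : |k| ≤ 2 ^ (κ * I + 1) := by
      have h1 : (3 : ℤ) ^ (c0 + E * i) ≤ 2 ^ (κ * I) := by
        refine le_trans ?_ h3I
        apply pow_le_pow_right₀ (by norm_num)
        have : E * i ≤ E * I := Nat.mul_le_mul_left _ hi1.le
        omega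
      have h2 : (0 : ℤ) < 3 ^ (c0 + E * i) := by positivity
      rw [hk, pow_succ]
      rw [abs_le] at ha ⊢
      constructor <;> linarith [ha.1, ha.2]
    have hcard := card_pf k hk0 _ hkabs
    refine (FM_le M k hk0).trans ?_
    rw [← prod_filter_mul_prod_filter_not _ (fun p => p ≤ z), mul_comm]
    have hpp : ∀ p ∈ (k.natAbs.primeFactors).filter (fun p => ¬ p ∣ M), p.Prime := fun p hp =>
      Nat.prime_of_mem_primeFactors (mem_filter.1 hp).1
    apply mul_le_mul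
    · -- large primes
      have h3 : ∏ p ∈ ((k.natAbs.primeFactors).filter (fun p => ¬ p ∣ M)).filter (fun p => ¬ p ≤ z), (1 + 1 / ((p : ℝ) - 1)) ≤
          ∏ _p ∈ ((k.natAbs.primeFactors).filter (fun p => ¬ p ∣ M)).filter (fun p => ¬ p ≤ z), (1 + 1 / (z : ℝ)) := by
        apply prod_le_prod
        · intro p hp
          exact zero_le_one.trans (fac_ge_one p (hpp p (mem_filter.1 hp).1))
        · intro p hp
          rw [mem_filter] at hp
          have h4 : (z : ℝ) + 1 ≤ p := by exact_mod_cast (by omega : z + 1 ≤ p)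
          have := one_div_le_one_div_of_le (by rw [hzr]; positivity : (0 : ℝ) < z) (by linarith : (z : ℝ) ≤ (p : ℝ) - 1)
          linarith
      rw [prod_const] at h3
      refine h3.trans ?_
      have h4 : (1 + 1 / (z : ℝ)) ^ (((k.natAbs.primeFactors).filter (fun p => ¬ p ∣ M)).filter (fun p => ¬ p ≤ z)).card ≤
          (1 + 1 / (z : ℝ)) ^ (κ * I + 1) := by
        apply pow_le_pow_right₀
        · have : (0 : ℝ) < 1 / z := by rw [hzr]; positivity
          linarith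
        · exact ((card_filter_le _ _).trans (card_filter_le _ _)).trans hcard
      refine h4.trans ?_
      have h5 : (1 + 1 / (z : ℝ)) ^ (κ * I + 1) ≤ Real.exp (1 / z) ^ (κ * I + 1) := by
        apply pow_le_pow_left₀ (by positivity)
        rw [add_comm]
        exact Real.add_one_le_exp _
      refine h5.trans ?_
      rw [← Real.exp_nat_mul]
      have h6 : ((κ * I + 1 : ℕ) : ℝ) * (1 / z) ≤ η / 2 := by
        rw [mul_one_div, div_le_iff₀ (by rw [hzr]; positivity), hzr]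
        rw [div_le_iff₀ hη0] at hI1
        push_cast
        have h7 : (1 : ℝ) ≤ I := by exact_mod_cast (by omega : 1 ≤ I)
        calc (κ : ℝ) * I + 1 ≤ (κ + 1) * I := by linarith
          _ ≤ (I * η / 2) * I := mul_le_mul_of_nonneg_right (by linarith) hIr.le
          _ = _ := by ring
      have h7 := Real.exp_bound_div_one_sub_of_interval (x := η / 2) (by linarith) (by linarith)
      calc Real.exp (((κ * I + 1 : ℕ) : ℝ) * (1 / z)) ≤ Real.exp (η / 2) := Real.exp_le_exp.2 h6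
        _ ≤ 1 / (1 - η / 2) := h7
        _ ≤ 1 + η := by
            rw [div_le_iff₀ (by linarith)]
            nlinarith
    · -- small primes
      rw [prod_eq_wT]
      refine le_trans ?_ (sum_filter (s := P.powerset) (fun T => ∀ p ∈ T, (p : ℤ) ∣ k) (fun T => wT T)).le
      apply sum_le_sum_of_subset_of_nonneg
      · intro T hT
        rw [mem_powerset] at hT
        rw [mem_filter, mem_powerset]
        constructor
        · intro p hp
          have h1 := hT hp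
          rw [mem_filter, mem_filter, Nat.mem_primeFactors] at h1
          rw [hP, mem_filter, mem_filter, mem_Icc]
          exact ⟨⟨⟨h1.1.1.1.one_lt.le, h1.2⟩, h1.1.1.1⟩, h1.1.2⟩
        · intro p hp
          have h1 := hT hp
          rw [mem_filter, mem_filter, Nat.mem_primeFactors] at h1
          exact Int.natCast_dvd.2 h1.1.1.2.1
      · intro T hT _
        apply wT_nonneg
        intro p hp
        exact (hPp p (mem_powerset.1 (mem_filter.1 hT).1 hp)).1
    · apply prod_nonneg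
      intro p hp
      exact zero_le_one.trans (fac_ge_one p (hpp p (mem_filter.1 hp).1))
    · linarith
  refine (sum_le_sum hterm).trans ?_
  rw [← mul_sum, sum_comm]
  have h1 : ∀ T ∈ P.powerset, ∑ i ∈ J, (if ∀ p ∈ T, (p : ℤ) ∣ 3 ^ (c0 + E * i) - a then wT T else 0) =
      ((J.filter (fun i => ∀ p ∈ T, (p : ℤ) ∣ 3 ^ (c0 + E * i) - a)).card : ℝ) * wT T := by
    intro T _
    refine (sum_filter (s := J) (fun i => ∀ p ∈ T, (p : ℤ) ∣ 3 ^ (c0 + E * i) - a) (fun _ => wT T)).symm.trans ?_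
    rw [sum_const, nsmul_eq_mul]
  rw [sum_congr rfl h1, ← Finset.add_sum_erase _ _ (empty_mem_powerset P)]
  have h2 : ((J.filter (fun i => ∀ p ∈ (∅ : Finset ℕ), (p : ℤ) ∣ 3 ^ (c0 + E * i) - a)).card : ℝ) * wT ∅ ≤ I := by
    have e1 : wT ∅ = 1 := by unfold wT; rw [prod_empty]
    rw [e1, mul_one]
    have e2 : (J.filter (fun i => ∀ p ∈ (∅ : Finset ℕ), (p : ℤ) ∣ 3 ^ (c0 + E * i) - a)).card ≤ I := by
      calc _ ≤ J.card := card_filter_le _ _
        _ ≤ (range I).card := card_filter_le _ _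
        _ = I := card_range I
    exact_mod_cast e2
  have h3 : ∑ T ∈ P.powerset.erase ∅, ((J.filter (fun i => ∀ p ∈ T, (p : ℤ) ∣ 3 ^ (c0 + E * i) - a)).card : ℝ) * wT T ≤
      v * I + C * Real.log z := by
    have h4 : ∀ T ∈ P.powerset.erase ∅, ((J.filter (fun i => ∀ p ∈ T, (p : ℤ) ∣ 3 ^ (c0 + E * i) - a)).card : ℝ) * wT T ≤
        (wT T / oT E T) * I + wT T := by
      intro T hT
      have hTP := mem_powerset.1 (mem_erase.1 hT).2
      have hw := wT_nonneg T (fun p hp => (hPp p (hTP hp)).1)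
      have h5 := card_run E c0 I a T (fun p hp => ⟨(hPp p (hTP hp)).1, fun h => (hPp p (hTP hp)).2 (by rw [h]; exact hM3)⟩)
        (J.filter (fun i => ∀ p ∈ T, (p : ℤ) ∣ 3 ^ (c0 + E * i) - a)) (fun i hi => by
          obtain ⟨h6, h7⟩ := mem_filter.1 hi
          exact ⟨mem_range.1 (mem_filter.1 h6).1, h7⟩)
      calc _ ≤ ((I : ℝ) / oT E T + 1) * wT T := mul_le_mul_of_nonneg_right h5 hw
        _ = _ := by ring
    refine (sum_le_sum h4).trans ?_
    rw [sum_add_distrib, ← sum_mul]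
    apply add_le_add
    · exact mul_le_mul_of_nonneg_right (hv P hPp) hIr.le
    · have h5 : ∑ T ∈ P.powerset.erase ∅, wT T ≤ ∑ T ∈ P.powerset, wT T := by
        apply sum_le_sum_of_subset_of_nonneg (erase_subset _ _)
        intro T hT _
        exact wT_nonneg T (fun p hp => (hPp p (mem_powerset.1 hT hp)).1)
      rw [← prod_eq_wT] at h5
      refine h5.trans (le_trans ?_ (hC z hz3))
      exact prod_mono_fac _ _ (fun p hp => (mem_filter.1 hp).2) (filter_subset _ _)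
  have hlog : C * Real.log z ≤ (δ / 4) * I := by
    have h4 : Real.log z ≤ 4 * √(I : ℝ) := by
      rw [hzr]
      have h5 : Real.log ((I : ℝ) ^ 2) = 4 * Real.log (√(I : ℝ)) := by
        rw [Real.log_sqrt hIr.le, Real.log_pow]
        push_cast
        ring
      rw [h5]
      have h6 := Real.log_le_self (Real.sqrt_nonneg (I : ℝ))
      linarith
    have h5 : 16 * C / δ ≤ √(I : ℝ) := by
      rw [← Real.sqrt_sq (by positivity : 0 ≤ 16 * C / δ)]
      exact Real.sqrt_le_sqrt hI2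
    rw [div_le_iff₀ hδ] at h5
    have h6 : √(I : ℝ) * √(I : ℝ) = I := Real.mul_self_sqrt hIr.le
    have h7 : 0 ≤ √(I : ℝ) := Real.sqrt_nonneg _
    calc C * Real.log z ≤ C * (4 * √(I : ℝ)) := mul_le_mul_of_nonneg_left h4 hC0.le
      _ = (16 * C) * √(I : ℝ) / 4 := by ring
      _ ≤ (√(I : ℝ) * δ) * √(I : ℝ) / 4 := by
          apply div_le_div_of_nonneg_right _ (by norm_num)
          exact mul_le_mul_of_nonneg_right h5 h7
      _ = (δ / 4) * (√(I : ℝ) * √(I : ℝ)) := by ring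
      _ = (δ / 4) * I := by rw [h6]
  calc (1 + η) * _ ≤ (1 + η) * (I + (v * I + (δ / 4) * I)) := by
        apply mul_le_mul_of_nonneg_left _ (by linarith)
        linarith
    _ = (1 + v) * I + (η * (1 + v)) * I + ((1 + η) * (δ / 4)) * I := by ring
    _ ≤ (1 + v) * I + (δ / 2) * I + (δ / 2) * I := by
        have e1 := mul_le_mul_of_nonneg_right hη2 hIr.le
        have e2 : (1 + η) * (δ / 4) ≤ δ / 2 := by nlinarith
        have e3 := mul_le_mul_of_nonneg_right e2 hIr.le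
        linarith
    _ = _ := by ring

end Pool.Agent.H770Sun
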