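import Pool.Agent.H770Sun.LS1
import Pool.Agent.H770Sun.Sing2

set_option autoImplicit false

/-! The second moment of the number of admissible exponents, over the residues. -/

namespace Pool.Agent.H770Sun
open Finset

lemma prod_filter_dvd (P : Finset ℕ) (k : ℤ) :
    ∏ p ∈ P, (if (p : ℤ) ∣ k then (1 + 1 / ((p : ℝ) - 1)) else 1) =
      ∑ T ∈ P.powerset, (if ∀ p ∈ T, (p : ℤ) ∣ k then wT T else 0) := by
  classical
  rw [← prod_filter, prod_eq_wT]
  rw [← sum_filter]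
  apply sum_congr _ (fun _ _ => rfl)
  ext T
  rw [mem_powerset, mem_filter, mem_powerset]
  constructor
  · intro h
    exact ⟨fun p hp => (mem_filter.1 (h hp)).1, fun p hp => (mem_filter.1 (h hp)).2⟩
  · rintro ⟨h1, h2⟩ p hp
    exact mem_filter.2 ⟨h1 hp, h2 p hp⟩

/-- the sum over pairs of exponents -/
lemma pair_sum (E c1 I : ℕ) (P : Finset ℕ) (hP : ∀ p ∈ P, p.Prime ∧ p ≠ 3) (v : ℝ)
    (hv : ∑ T ∈ P.powerset.erase ∅, wT T / oT E T ≤ v) :
    ∑ i ∈ range I, ∑ j ∈ range I, ∏ p ∈ P, (if (p : ℤ) ∣ 3 ^ (c1 + E * i) - 3 ^ (c1 + E * j) then (1 + 1 / ((p : ℝ) - 1)) else 1) ≤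
      (1 + v) * (I : ℝ) ^ 2 + (∑ T ∈ P.powerset, wT T) * I := by
  have hw : ∀ T ∈ P.powerset, 0 ≤ wT T := fun T hT => wT_nonneg T (fun p hp => (hP p (mem_powerset.1 hT hp)).1)
  have h1 : ∀ j ∈ range I, ∑ i ∈ range I, ∏ p ∈ P, (if (p : ℤ) ∣ 3 ^ (c1 + E * i) - 3 ^ (c1 + E * j) then (1 + 1 / ((p : ℝ) - 1)) else 1) ≤
      (1 + v) * I + ∑ T ∈ P.powerset, wT T := by
    intro j _
    have e1 : ∑ i ∈ range I, ∏ p ∈ P, (if (p : ℤ) ∣ 3 ^ (c1 + E * i) - 3 ^ (c1 + E * j) then (1 + 1 / ((p : ℝ) - 1)) else 1) =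
        ∑ T ∈ P.powerset, ∑ i ∈ range I, (if ∀ p ∈ T, (p : ℤ) ∣ 3 ^ (c1 + E * i) - 3 ^ (c1 + E * j) then wT T else 0) := by
      rw [sum_comm]
      apply sum_congr rfl
      intro i _
      exact prod_filter_dvd P _
    rw [e1, ← Finset.add_sum_erase _ _ (empty_mem_powerset P)]
    have e2 : ∑ i ∈ range I, (if ∀ p ∈ (∅ : Finset ℕ), (p : ℤ) ∣ 3 ^ (c1 + E * i) - 3 ^ (c1 + E * j) then wT ∅ else 0) = I := by
      have e3 : wT ∅ = 1 := by unfold wT; rw [prod_empty]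
      have e4 : ∀ i ∈ range I, (if ∀ p ∈ (∅ : Finset ℕ), (p : ℤ) ∣ 3 ^ (c1 + E * i) - 3 ^ (c1 + E * j) then wT ∅ else 0) = 1 := by
        intro i _
        rw [if_pos (fun p hp => absurd hp (notMem_empty p)), e3]
      rw [sum_congr rfl e4, sum_const, card_range, nsmul_eq_mul, mul_one]
    rw [e2]
    have e5 : ∀ T ∈ P.powerset.erase ∅, ∑ i ∈ range I, (if ∀ p ∈ T, (p : ℤ) ∣ 3 ^ (c1 + E * i) - 3 ^ (c1 + E * j) then wT T else 0) ≤
        (wT T / oT E T) * I + wT T := by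
      intro T hT
      have hTP := (mem_erase.1 hT).2
      have e6 := (sum_filter (s := range I) (fun i => ∀ p ∈ T, (p : ℤ) ∣ 3 ^ (c1 + E * i) - 3 ^ (c1 + E * j)) (fun _ => wT T)).symm
      rw [e6, sum_const, nsmul_eq_mul]
      have e7 := card_run E c1 I (3 ^ (c1 + E * j)) T (fun p hp => hP p (mem_powerset.1 hTP hp))
        ((range I).filter (fun i => ∀ p ∈ T, (p : ℤ) ∣ 3 ^ (c1 + E * i) - 3 ^ (c1 + E * j))) (fun i hi => by
          obtain ⟨h1, h2⟩ := mem_filter.1 hi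
          exact ⟨mem_range.1 h1, h2⟩)
      calc _ ≤ ((I : ℝ) / oT E T + 1) * wT T := mul_le_mul_of_nonneg_right e7 (hw T hTP)
        _ = _ := by ring
    have e8 : ∑ T ∈ P.powerset.erase ∅, wT T ≤ ∑ T ∈ P.powerset, wT T :=
      sum_le_sum_of_subset_of_nonneg (erase_subset _ _) (fun T hT _ => hw T hT)
    have e9 := sum_le_sum e5
    rw [sum_add_distrib, ← sum_mul] at e9
    have e10 := mul_le_mul_of_nonneg_right hv (show (0 : ℝ) ≤ I by positivity)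
    linarith
  rw [sum_comm]
  refine (sum_le_sum h1).trans (le_of_eq ?_)
  rw [sum_const, card_range, nsmul_eq_mul]
  ring

set_option maxHeartbeats 4000000 in
/-- **the number of the residues with an admissible exponent** -/
theorem local_moment (E : ℕ) (P : Finset ℕ) (hP : ∀ p ∈ P, p.Prime ∧ p ≠ 3) (v : ℝ)
    (hv : ∑ T ∈ P.powerset.erase ∅, wT T / oT E T ≤ v) (m : ℕ) (hm : ∀ p ∈ P, ¬ p ∣ m) (c1 : ℕ) (a b : ℤ)
    (G : Finset ℕ) (hG : ∀ t ∈ range (∏ p ∈ P, p), (∃ i : ℕ, ∀ p ∈ P, ¬ (p : ℤ) ∣ a + m * t - 3 ^ (c1 + E * i) - b) → t ∈ G) :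
    ((∏ p ∈ P, p : ℕ) : ℝ) ≤ (1 + v) * G.card := by
  classical
  have hPp : ∀ p ∈ P, p.Prime := fun p hp => (hP p hp).1
  have hw : ∀ T ∈ P.powerset, 0 ≤ wT T := fun T hT => wT_nonneg T (fun p hp => (hP p (mem_powerset.1 hT hp)).1)
  have hv0 : 0 ≤ v := by
    refine le_trans (sum_nonneg ?_) hv
    intro T hT
    have := hw T (mem_erase.1 hT).2
    positivity
  obtain ⟨Z, hZ⟩ : ∃ Z, Z = ∏ p ∈ P, p := ⟨_, rfl⟩
  have hZ0 : 0 < Z := by rw [hZ]; exact prod_pos (fun p hp => (hPp p hp).pos)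
  have hZr : (0 : ℝ) < Z := by exact_mod_cast hZ0
  rw [← hZ] at hG ⊢
  obtain ⟨W, hW⟩ : ∃ W, W = ∑ T ∈ P.powerset, wT T := ⟨_, rfl⟩
  have hW0 : 0 ≤ W := by rw [hW]; exact sum_nonneg hw
  obtain ⟨Φ, hΦ⟩ : ∃ Φ : ℝ, Φ = ∏ p ∈ P, ((p : ℝ) - 1) := ⟨_, rfl⟩
  have hΦ0 : 0 < Φ := by
    rw [hΦ]
    apply prod_pos
    intro p hp
    have : (1 : ℝ) < p := by exact_mod_cast (hPp p hp).one_lt
    linarith
  -- the main inequality
  have key : ∀ I : ℕ, 1 ≤ I → (Z : ℝ) * (I : ℝ) ^ 2 ≤ G.card * ((1 + v) * (I : ℝ) ^ 2 + W * I) := by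
    intro I hI
    obtain ⟨F, hF⟩ : ∃ F : ℕ → ℕ, F = fun t : ℕ => ((range I).filter (fun i => ∀ p ∈ P, ¬ (p : ℤ) ∣ (a - 3 ^ (c1 + E * i) - b) + m * t)).card := ⟨_, rfl⟩
    have hper : ∀ x : ℤ, ∀ p ∈ P, ∀ t : ℕ, (¬ (p : ℤ) ∣ x + m * t) ↔ ¬ (p : ℤ) ∣ x + m * ((t % p : ℕ) : ℤ) := by
      intro x p _ t
      rw [not_iff_not]
      have h1 : (p : ℤ) ∣ (x + m * t) - (x + m * ((t % p : ℕ) : ℤ)) := by
        have e : (t : ℤ) = p * ((t / p : ℕ) : ℤ) + ((t % p : ℕ) : ℤ) := by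
          exact_mod_cast (Nat.div_add_mod t p).symm
        refine ⟨m * ((t / p : ℕ) : ℤ), ?_⟩
        rw [e]
        push_cast
        ring
      exact dvd_iff_dvd_of_dvd_sub h1
    -- first moment
    have hS1 : ∑ t ∈ range Z, (F t : ℝ) = I * Φ := by
      have e1 : ∑ t ∈ range Z, (F t : ℝ) = ∑ i ∈ range I, (((range Z).filter (fun t : ℕ => ∀ p ∈ P, ¬ (p : ℤ) ∣ (a - 3 ^ (c1 + E * i) - b) + m * t)).card : ℝ) := by
        rw [hF]
        simp only [card_filter, Nat.cast_sum]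
        rw [sum_comm]
      rw [e1]
      have e2 : ∀ i ∈ range I, (((range Z).filter (fun t : ℕ => ∀ p ∈ P, ¬ (p : ℤ) ∣ (a - 3 ^ (c1 + E * i) - b) + m * t)).card : ℝ) = Φ := by
        intro i _
        have e3 := crt_count P hPp (fun p t => ¬ (p : ℤ) ∣ (a - 3 ^ (c1 + E * i) - b) + m * t) (fun p hp t => hper _ p hp t)
        rw [← hZ] at e3
        have e4 : ∏ p ∈ P, ((range p).filter (fun t : ℕ => ¬ (p : ℤ) ∣ (a - 3 ^ (c1 + E * i) - b) + m * t)).card = ∏ p ∈ P, (p - 1) := by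
          apply prod_congr rfl
          intro p hp
          exact count_one p (hPp p hp) m (hm p hp) _
        have e5 : ((range Z).filter (fun t : ℕ => ∀ p ∈ P, ¬ (p : ℤ) ∣ (a - 3 ^ (c1 + E * i) - b) + m * t)).card = ∏ p ∈ P, (p - 1) := by
          rw [← e4]
          convert e3
        rw [e5, hΦ]
        push_cast
        apply prod_congr rfl
        intro p hp
        rw [Nat.cast_sub (hPp p hp).one_lt.le]
        simp
      rw [sum_congr rfl e2, sum_const, card_range, nsmul_eq_mul]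
    -- second moment
    have hS2 : ∑ t ∈ range Z, (F t : ℝ) ^ 2 ≤ (Φ ^ 2 / Z) * ((1 + v) * (I : ℝ) ^ 2 + W * I) := by
      have e1 : ∑ t ∈ range Z, (F t : ℝ) ^ 2 = ∑ i ∈ range I, ∑ j ∈ range I, (((range Z).filter (fun t : ℕ =>
          ∀ p ∈ P, (¬ (p : ℤ) ∣ (a - 3 ^ (c1 + E * i) - b) + m * t ∧ ¬ (p : ℤ) ∣ (a - 3 ^ (c1 + E * j) - b) + m * t))).card : ℝ) := by
        have e2 : ∀ t ∈ range Z, (F t : ℝ) ^ 2 = ∑ i ∈ range I, ∑ j ∈ range I,
            (if ∀ p ∈ P, (¬ (p : ℤ) ∣ (a - 3 ^ (c1 + E * i) - b) + m * t ∧ ¬ (p : ℤ) ∣ (a - 3 ^ (c1 + E * j) - b) + m * t) then (1 : ℝ) else 0) := by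
          intro t _
          rw [hF]
          simp only [card_filter, Nat.cast_sum]
          rw [sq, sum_mul_sum]
          apply sum_congr rfl
          intro i _
          apply sum_congr rfl
          intro j _
          by_cases h1 : ∀ p ∈ P, ¬ (p : ℤ) ∣ (a - 3 ^ (c1 + E * i) - b) + m * t
          · by_cases h2 : ∀ p ∈ P, ¬ (p : ℤ) ∣ (a - 3 ^ (c1 + E * j) - b) + m * t
            · have h3 : ∀ p ∈ P, (¬ (p : ℤ) ∣ (a - 3 ^ (c1 + E * i) - b) + m * t ∧ ¬ (p : ℤ) ∣ (a - 3 ^ (c1 + E * j) - b) + m * t) :=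
                fun p hp => ⟨h1 p hp, h2 p hp⟩
              rw [if_pos h1, if_pos h2, if_pos h3]
              simp
            · have h3 : ¬ ∀ p ∈ P, (¬ (p : ℤ) ∣ (a - 3 ^ (c1 + E * i) - b) + m * t ∧ ¬ (p : ℤ) ∣ (a - 3 ^ (c1 + E * j) - b) + m * t) :=
                fun h => h2 (fun p hp => (h p hp).2)
              rw [if_neg h2, if_neg h3]
              simp
          · have h3 : ¬ ∀ p ∈ P, (¬ (p : ℤ) ∣ (a - 3 ^ (c1 + E * i) - b) + m * t ∧ ¬ (p : ℤ) ∣ (a - 3 ^ (c1 + E * j) - b) + m * t) :=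
              fun h => h1 (fun p hp => (h p hp).1)
            rw [if_neg h1, if_neg h3]
            simp
        rw [sum_congr rfl e2, sum_comm]
        apply sum_congr rfl
        intro i _
        rw [sum_comm]
        apply sum_congr rfl
        intro j _
        rw [card_filter, Nat.cast_sum]
        apply sum_congr rfl
        intro t _
        split_ifs <;> simp
      rw [e1]
      have e3 : ∀ i ∈ range I, ∀ j ∈ range I, (((range Z).filter (fun t : ℕ =>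
          ∀ p ∈ P, (¬ (p : ℤ) ∣ (a - 3 ^ (c1 + E * i) - b) + m * t ∧ ¬ (p : ℤ) ∣ (a - 3 ^ (c1 + E * j) - b) + m * t))).card : ℝ) ≤
          (Φ ^ 2 / Z) * ∏ p ∈ P, (if (p : ℤ) ∣ 3 ^ (c1 + E * i) - 3 ^ (c1 + E * j) then (1 + 1 / ((p : ℝ) - 1)) else 1) := by
        intro i _ j _
        have e4 := crt_count P hPp (fun p t => ¬ (p : ℤ) ∣ (a - 3 ^ (c1 + E * i) - b) + m * t ∧ ¬ (p : ℤ) ∣ (a - 3 ^ (c1 + E * j) - b) + m * t)
          (fun p hp t => and_congr (hper _ p hp t) (hper _ p hp t))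
        rw [← hZ] at e4
        have e5 : (((range Z).filter (fun t : ℕ =>
          ∀ p ∈ P, (¬ (p : ℤ) ∣ (a - 3 ^ (c1 + E * i) - b) + m * t ∧ ¬ (p : ℤ) ∣ (a - 3 ^ (c1 + E * j) - b) + m * t))).card : ℝ) =
          ∏ p ∈ P, ((((range p).filter (fun t : ℕ => ¬ (p : ℤ) ∣ (a - 3 ^ (c1 + E * i) - b) + m * t ∧
            ¬ (p : ℤ) ∣ (a - 3 ^ (c1 + E * j) - b) + m * t)).card : ℕ) : ℝ) := by
          rw [← Nat.cast_prod]
          congr 1
          convert e4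
        rw [e5]
        have e6 : Φ ^ 2 / Z = ∏ p ∈ P, (((p : ℝ) - 1) ^ 2 / p) := by
          rw [prod_div_distrib, prod_pow, hΦ, hZ]
          push_cast
          rfl
        rw [e6, ← prod_mul_distrib]
        apply prod_le_prod
        · intro p _
          exact Nat.cast_nonneg _
        · intro p hp
          have e7 := count_two p (hPp p hp) m (hm p hp) (a - 3 ^ (c1 + E * i) - b) (a - 3 ^ (c1 + E * j) - b)
          refine e7.trans (le_of_eq ?_)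
          congr 1
          have e8 : ((p : ℤ) ∣ a - 3 ^ (c1 + E * i) - b - (a - 3 ^ (c1 + E * j) - b)) ↔ ((p : ℤ) ∣ 3 ^ (c1 + E * i) - 3 ^ (c1 + E * j)) := by
            rw [← dvd_neg]
            have : -(a - 3 ^ (c1 + E * i) - b - (a - 3 ^ (c1 + E * j) - b)) = (3 : ℤ) ^ (c1 + E * i) - 3 ^ (c1 + E * j) := by ring
            rw [this]
          by_cases h : (p : ℤ) ∣ 3 ^ (c1 + E * i) - 3 ^ (c1 + E * j)
          · rw [if_pos h, if_pos (e8.2 h)]
          · rw [if_neg h, if_neg (fun h' => h (e8.1 h'))]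
      calc _ ≤ ∑ i ∈ range I, ∑ j ∈ range I, (Φ ^ 2 / Z) * ∏ p ∈ P, (if (p : ℤ) ∣ 3 ^ (c1 + E * i) - 3 ^ (c1 + E * j) then (1 + 1 / ((p : ℝ) - 1)) else 1) :=
            sum_le_sum (fun i hi => sum_le_sum (fun j hj => e3 i hi j hj))
        _ = (Φ ^ 2 / Z) * ∑ i ∈ range I, ∑ j ∈ range I, ∏ p ∈ P, (if (p : ℤ) ∣ 3 ^ (c1 + E * i) - 3 ^ (c1 + E * j) then (1 + 1 / ((p : ℝ) - 1)) else 1) := by
            rw [mul_sum]
            apply sum_congr rfl
            intro i _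
            rw [mul_sum]
        _ ≤ _ := by
            apply mul_le_mul_of_nonneg_left _ (by positivity)
            rw [hW]
            exact pair_sum E c1 I P hP v hv
    -- Cauchy-Schwarz
    have hcs : (∑ t ∈ range Z, (F t : ℝ)) ^ 2 ≤ G.card * ∑ t ∈ range Z, (F t : ℝ) ^ 2 := by
      have e1 : ∑ t ∈ range Z, (F t : ℝ) = ∑ t ∈ (range Z).filter (fun t => F t ≠ 0), (F t : ℝ) := by
        symm
        apply sum_filter_of_ne
        intro t _ h
        exact_mod_cast h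
      have e2 : (∑ t ∈ (range Z).filter (fun t => F t ≠ 0), (F t : ℝ)) ^ 2 ≤
          (((range Z).filter (fun t => F t ≠ 0)).card : ℝ) * ∑ t ∈ (range Z).filter (fun t => F t ≠ 0), (F t : ℝ) ^ 2 := sq_sum_le_card_mul_sum_sq
      have e3 : ((range Z).filter (fun t => F t ≠ 0)).card ≤ G.card := by
        apply card_le_card
        intro t ht
        rw [mem_filter] at ht
        apply hG t ht.1
        have ht2 := ht.2
        rw [hF] at ht2
        obtain ⟨i, hi⟩ := card_pos.1 (Nat.pos_of_ne_zero ht2)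
        rw [mem_filter] at hi
        refine ⟨i, fun p hp => ?_⟩
        have e4 := hi.2 p hp
        have e5 : (a - 3 ^ (c1 + E * i) - b) + (m : ℤ) * t = a + m * t - 3 ^ (c1 + E * i) - b := by ring
        rwa [e5] at e4
      have e4 : ∑ t ∈ (range Z).filter (fun t => F t ≠ 0), (F t : ℝ) ^ 2 ≤ ∑ t ∈ range Z, (F t : ℝ) ^ 2 :=
        sum_le_sum_of_subset_of_nonneg (filter_subset _ _) (fun _ _ _ => sq_nonneg _)
      rw [e1]
      refine e2.trans ?_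
      apply mul_le_mul _ e4 (sum_nonneg (fun _ _ => sq_nonneg _)) (Nat.cast_nonneg _)
      exact Nat.cast_le.2 e3
    rw [hS1] at hcs
    have h2 : ((I : ℝ) * Φ) ^ 2 ≤ G.card * ((Φ ^ 2 / Z) * ((1 + v) * (I : ℝ) ^ 2 + W * I)) :=
      hcs.trans (mul_le_mul_of_nonneg_left hS2 (by positivity))
    have h3 : ((Z : ℝ) * (I : ℝ) ^ 2) * (Φ ^ 2 / Z) ≤ (G.card * ((1 + v) * (I : ℝ) ^ 2 + W * I)) * (Φ ^ 2 / Z) := by
      calc ((Z : ℝ) * (I : ℝ) ^ 2) * (Φ ^ 2 / Z) = ((I : ℝ) * Φ) ^ 2 := by field_simp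
        _ ≤ _ := h2
        _ = _ := by ring
    exact le_of_mul_le_mul_right h3 (by positivity)
  -- the limit
  by_contra hcon
  push Not at hcon
  obtain ⟨g, hg⟩ : ∃ g, g = (Z : ℝ) - (1 + v) * G.card := ⟨_, rfl⟩
  have hg0 : 0 < g := by rw [hg]; linarith
  obtain ⟨I, hI⟩ : ∃ I : ℕ, I = ⌈(G.card * W) / g⌉₊ + 1 := ⟨_, rfl⟩
  have hI1 : (G.card * W) / g < I := by
    rw [hI]
    push_cast
    have := Nat.le_ceil ((G.card * W) / g)
    linarith
  rw [div_lt_iff₀ hg0] at hI1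
  have hIpos : (0 : ℝ) < I := by rw [hI]; positivity
  have h1 := key I (by omega)
  have h2 : g * (I : ℝ) ^ 2 ≤ (G.card * W) * I := by rw [hg]; linarith
  have h3 : (G.card * W) * I < (I * g) * I := mul_lt_mul_of_pos_right hI1 hIpos
  nlinarith

end Pool.Agent.H770Sun
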