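import Pool.Agent.H770Sun.NB3

set_option autoImplicit false

/-! The numerical bound of the sum over sets of primes. -/

namespace Pool.Agent.H770Sun
open Finset

attribute [local irreducible] treeP treeS gW gS F0 prodS prodL foldB LL

lemma stepq (P : Finset ℕ) (hP : AdmP P) (t t' y k B li : ℕ) (q : ℝ) (ht : 1 ≤ t) (htt : t < t')
    (hxy : (t' - 1 + 1) / 2 ≤ y) (hy : y ≤ 312) (hg : Nat.gcd (prodS y) (prodL (LL.drop k)) = 1)
    (hB : foldB (LL.take k) 1000000000000 = B) (hli : (524288 + 143 * y ^ 2 / 21) * 10 ^ 24 ≤ li ^ 4 * 524288)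
    (hq : ((B : ℝ) * li / 10 ^ 18 - 1) * (1 / (t : ℝ) - 1 / t') ≤ q) : Vt P t ≤ q + Vt P t' := by
  have h1 := Vt_step P hP t t' ht htt
  have h2 := bet_bound in_LL LL_two P hP (t' - 1) y k B li hxy hy hg hB hli
  have ht0 : (0 : ℝ) < t := by exact_mod_cast ht
  have h3 : 0 ≤ 1 / (t : ℝ) - 1 / t' := by
    have : 1 / (t' : ℝ) ≤ 1 / t := one_div_le_one_div_of_le ht0 (by exact_mod_cast htt.le)
    linarith
  have h4 := mul_le_mul_of_nonneg_right h2 h3
  linarith

/-- the tail function -/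
lemma bet_tail (P : Finset ℕ) (hP : AdmP P) (x : ℕ) (hx : 625 ≤ x) : bet P x ≤ 0.1024 * √(x : ℝ) - 1 := by
  classical
  have h1 := bet_le_prod P hP x
  obtain ⟨Q, hQ⟩ : ∃ Q, Q = P.filter (fun p => p ∣ prodS ((x + 1) / 2)) := ⟨_, rfl⟩
  rw [← hQ, ← prod_filter_mul_prod_filter_not Q (fun p => p < 2 ^ 21)] at h1
  have hQp : ∀ p ∈ Q, p.Prime ∧ p % 4 = 3 ∧ p ≠ 3 ∧ ¬ p ∣ 3 ^ 360 - 1 ∧ p ∣ prodS ((x + 1) / 2) := by
    intro p hp
    rw [hQ, mem_filter] at hp
    obtain ⟨h2, h3, h4, h5⟩ := hP p hp.1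
    exact ⟨h2, h3, h4, h5, hp.2⟩
  have hs := all_small (Q.filter (fun p => p < 2 ^ 21)) (by
    intro p hp
    rw [mem_filter] at hp
    obtain ⟨h2, h3, h4, h5, _⟩ := hQp p hp.1
    exact ⟨h2, h3, h4, h5, hp.2⟩)
  have hl := large_bound (Q.filter (fun p => ¬ p < 2 ^ 21)) ((x + 1) / 2) (by
    intro p hp
    rw [mem_filter] at hp
    obtain ⟨h2, h3, h4, h5, h6⟩ := hQp p hp.1
    exact ⟨h2, h3, by omega, h6⟩)
  have hl0 : 1 ≤ ∏ p ∈ Q.filter (fun p => ¬ p < 2 ^ 21), (1 + 1 / ((p : ℝ) - 1)) :=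
    prod_ge_one _ (fun p hp => (hQp p (mem_filter.1 hp).1).1)
  have hs0 : 1 ≤ ∏ p ∈ Q.filter (fun p => p < 2 ^ 21), (1 + 1 / ((p : ℝ) - 1)) :=
    prod_ge_one _ (fun p hp => (hQp p (mem_filter.1 hp).1).1)
  obtain ⟨s, hsd⟩ : ∃ s, s = ∏ p ∈ Q.filter (fun p => p < 2 ^ 21), (1 + 1 / ((p : ℝ) - 1)) := ⟨_, rfl⟩
  obtain ⟨l, hld⟩ : ∃ l, l = ∏ p ∈ Q.filter (fun p => ¬ p < 2 ^ 21), (1 + 1 / ((p : ℝ) - 1)) := ⟨_, rfl⟩
  rw [← hsd] at h1 hs hs0
  rw [← hld] at h1 hl hl0
  -- the size of the large part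
  have hxr : (625 : ℝ) ≤ x := by exact_mod_cast hx
  have hN : (((143 * ((x + 1) / 2) ^ 2 / 21 : ℕ) : ℕ) : ℝ) ≤ 143 * ((x : ℝ) + 1) ^ 2 / 84 := by
    have h2 : ((143 * ((x + 1) / 2) ^ 2 / 21 : ℕ) : ℝ) ≤ ((143 * ((x + 1) / 2) ^ 2 : ℕ) : ℝ) / (21 : ℕ) := Nat.cast_div_le
    have h3 : (((x + 1) / 2 : ℕ) : ℝ) ≤ ((x + 1 : ℕ) : ℝ) / (2 : ℕ) := Nat.cast_div_le
    push_cast at h2 h3 ⊢
    have h4 : (((x + 1) / 2 : ℕ) : ℝ) ^ 2 ≤ (((x : ℝ) + 1) / 2) ^ 2 := pow_le_pow_left₀ (by positivity) h3 2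
    have h5 : (((x : ℝ) + 1) / 2) ^ 2 = ((x : ℝ) + 1) ^ 2 / 4 := by ring
    rw [h5] at h4
    linarith
  have hκ : l ^ 4 ≤ 0.0000058175 * (x : ℝ) ^ 2 := by
    refine hl.trans ?_
    rw [div_le_iff₀ (by norm_num)]
    have h2 : ((x : ℝ) + 1) ^ 2 ≤ 1.00321 * (x : ℝ) ^ 2 := by
      have h3 : (x : ℝ) + 1 ≤ 1.0016 * x := by linarith
      calc ((x : ℝ) + 1) ^ 2 ≤ (1.0016 * x) ^ 2 := pow_le_pow_left₀ (by positivity) h3 2
        _ = 1.00320256 * (x : ℝ) ^ 2 := by ring
        _ ≤ 1.00321 * (x : ℝ) ^ 2 := by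
          have : 0 ≤ (x : ℝ) ^ 2 := by positivity
          linarith
    have h3 : (390625 : ℝ) ≤ (x : ℝ) ^ 2 := by
      calc (390625 : ℝ) = 625 ^ 2 := by norm_num
        _ ≤ (x : ℝ) ^ 2 := pow_le_pow_left₀ (by norm_num) hxr 2
    linarith
  have h2 : s * l ≤ 0.1024 * √(x : ℝ) := by
    have h3 : (s * l) ^ 4 ≤ (0.1024 * √(x : ℝ)) ^ 4 := by
      have e1 : √(x : ℝ) ^ 4 = (x : ℝ) ^ 2 := by
        have : √(x : ℝ) ^ 2 = x := Real.sq_sqrt (by positivity)
        calc √(x : ℝ) ^ 4 = (√(x : ℝ) ^ 2) ^ 2 := by ring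
          _ = (x : ℝ) ^ 2 := by rw [this]
      rw [mul_pow, mul_pow, e1]
      have h4 : s ^ 4 ≤ 2.0835 ^ 4 := pow_le_pow_left₀ (by linarith) hs 4
      calc s ^ 4 * l ^ 4 ≤ 2.0835 ^ 4 * (0.0000058175 * (x : ℝ) ^ 2) := mul_le_mul h4 hκ (by positivity) (by norm_num)
        _ = (2.0835 ^ 4 * 0.0000058175) * (x : ℝ) ^ 2 := by ring
        _ ≤ 0.1024 ^ 4 * (x : ℝ) ^ 2 := by
          apply mul_le_mul_of_nonneg_right _ (by positivity)
          norm_num
    exact le_of_pow_le_pow_left₀ (by norm_num) (by positivity) h3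
  linarith

set_option maxHeartbeats 4000000 in
/-- **the numerical bound** -/
theorem V_small (P : Finset ℕ) (hP : AdmP P) : ∑ T ∈ P.powerset.erase ∅, wT T / oT 360 T ≤ 0.0342 := by
  rw [Vt_one P hP]
  have h0 := Vt_step P hP 1 3 (by norm_num) (by norm_num)
  have h0' := bet_two P hP
  have h0'' : bet P (3 - 1) * (1 / ((1 : ℕ) : ℝ) - 1 / ((3 : ℕ) : ℝ)) ≤ 0 := by
    have : (3 - 1 : ℕ) = 2 := by norm_num
    rw [this]
    norm_num
    linarith
  have s0 := stepq P hP 3 5 2 4 1000555088977 1000013 0.0000757462 (by norm_num) (by norm_num) (by norm_num) (by norm_num) certG0 certB0 (by norm_num) (by norm_num)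
  have s1 := stepq P hP 5 7 3 9 1007773996166 1000030 0.0004459560 (by norm_num) (by norm_num) (by norm_num) (by norm_num) certG1 certB1 (by norm_num) (by norm_num)
  have s2 := stepq P hP 7 9 4 18 1065727002996 1000052 0.0020883309 (by norm_num) (by norm_num) (by norm_num) (by norm_num) certG2 certB2 (by norm_num) (by norm_num)
  have s3 := stepq P hP 9 11 5 22 1073943595997 1000082 0.0014955891 (by norm_num) (by norm_num) (by norm_num) (by norm_num) certG3 certB3 (by norm_num) (by norm_num)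
  have s4 := stepq P hP 11 13 6 34 1151132095208 1000117 0.0021156193 (by norm_num) (by norm_num) (by norm_num) (by norm_num) certG4 certB4 (by norm_num) (by norm_num)
  have s5 := stepq P hP 13 17 8 40 1176346519315 1000208 0.0031962209 (by norm_num) (by norm_num) (by norm_num) (by norm_num) certG5 certB5 (by norm_num) (by norm_num)
  have s6 := stepq P hP 17 19 9 48 1194556272911 1000263 0.0012066282 (by norm_num) (by norm_num) (by norm_num) (by norm_num) certG6 certB6 (by norm_num) (by norm_num)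
  have s7 := stepq P hP 19 23 11 55 1207070975812 1000393 0.0018997287 (by norm_num) (by norm_num) (by norm_num) (by norm_num) certG7 certB7 (by norm_num) (by norm_num)
  have s8 := stepq P hP 23 29 14 72 1254444113200 1000636 0.0022960295 (by norm_num) (by norm_num) (by norm_num) (by norm_num) certG8 certB8 (by norm_num) (by norm_num)
  have s9 := stepq P hP 29 41 20 95 1292725200731 1001297 0.0029712552 (by norm_num) (by norm_num) (by norm_num) (by norm_num) certG9 certB9 (by norm_num) (by norm_num)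
  have s10 := stepq P hP 41 53 26 122 1326723192799 1002188 0.0018203004 (by norm_num) (by norm_num) (by norm_num) (by norm_num) certG10 certB10 (by norm_num) (by norm_num)
  have s11 := stepq P hP 53 71 35 144 1347497018386 1003955 0.0016877159 (by norm_num) (by norm_num) (by norm_num) (by norm_num) certG11 certB11 (by norm_num) (by norm_num)
  have s12 := stepq P hP 71 83 41 169 1359139170811 1005415 0.0007463070 (by norm_num) (by norm_num) (by norm_num) (by norm_num) certG12 certB12 (by norm_num) (by norm_num)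
  have s13 := stepq P hP 83 107 53 206 1390687915414 1008999 0.0010896144 (by norm_num) (by norm_num) (by norm_num) (by norm_num) certG13 certB13 (by norm_num) (by norm_num)
  have s14 := stepq P hP 107 131 65 255 1416545635957 1013446 0.0007458244 (by norm_num) (by norm_num) (by norm_num) (by norm_num) certG14 certB14 (by norm_num) (by norm_num)
  have s15 := stepq P hP 131 173 86 325 1439772435486 1023196 0.0008768970 (by norm_num) (by norm_num) (by norm_num) (by norm_num) certG15 certB15 (by norm_num) (by norm_num)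
  have s16 := stepq P hP 173 233 116 425 1476080573795 1041090 0.0007989274 (by norm_num) (by norm_num) (by norm_num) (by norm_num) certG16 certB16 (by norm_num) (by norm_num)
  have s17 := stepq P hP 233 323 161 544 1516077044658 1075241 0.0007535755 (by norm_num) (by norm_num) (by norm_num) (by norm_num) certG17 certB17 (by norm_num) (by norm_num)
  have s18 := stepq P hP 323 443 221 706 1545416617130 1130672 0.0006267646 (by norm_num) (by norm_num) (by norm_num) (by norm_num) certG18 certB18 (by norm_num) (by norm_num)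
  have s19 := stepq P hP 443 625 312 924 1575572276019 1226689 0.0006131221 (by norm_num) (by norm_num) (by norm_num) (by norm_num) certG19 certB19 (by norm_num) (by norm_num)
  have ht := Vt_tail P hP 625 (by norm_num) 0.1024 (by norm_num) (fun x hx => bet_tail P hP x hx)
  have hsq : √((625 : ℕ) : ℝ) = 25 := by
    rw [show ((625 : ℕ) : ℝ) = 25 ^ 2 by norm_num]
    exact Real.sqrt_sq (by norm_num)
  rw [hsq] at ht
  norm_num at ht
  linarith

end Pool.Agent.H770Sun
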