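import Pool.Agent.H770Sun.BC2
import Pool.Agent.H770Sun.NB4
import Pool.Agent.H770Sun.LS2
import Pool.Agent.H770Sun.LG2

set_option autoImplicit false

/-! The explicit lower density. -/

namespace Pool.Agent.H770Sun
open Finset Filter

lemma pers (q : ℤ) (hq : q ∣ 3 * (3 ^ 360 - 1)) (c i : ℕ) (hc : 1 ≤ c) : q ∣ 3 ^ (c + 360 * i) - 3 ^ c := by
  have h1 : (3 : ℤ) ^ (c + 360 * i) - 3 ^ c = 3 ^ c * ((3 ^ 360) ^ i - 1) := by
    rw [pow_add, pow_mul]
    ring
  rw [h1]
  refine hq.trans (mul_dvd_mul (dvd_pow_self _ (by omega)) ?_)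
  have := sub_dvd_pow_sub_pow ((3 : ℤ) ^ 360) 1 i
  rwa [one_pow] at this

lemma card_split (Q K Z : ℕ) (hQ : Q = K * Z) (p : ℕ → Prop) [DecidablePred p] :
    ∑ ρ ∈ range K, ((range Z).filter (fun t => p (ρ + K * t))).card ≤ ((range Q).filter p).card := by
  classical
  rw [← card_sigma]
  apply card_le_card_of_injOn (fun x => x.1 + K * x.2)
  · rintro ⟨ρ, t⟩ hx
    rw [mem_coe, mem_sigma, mem_range, mem_filter, mem_range] at hx
    simp only at hx
    rw [mem_coe, mem_filter, mem_range]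
    refine ⟨?_, hx.2.2⟩
    simp only
    have h1 : K * t + K ≤ K * Z := by
      calc K * t + K = K * (t + 1) := by ring
        _ ≤ K * Z := Nat.mul_le_mul_left _ (by omega)
    omega
  · rintro ⟨ρ, t⟩ hx ⟨ρ', t'⟩ hx' h
    rw [mem_coe, mem_sigma, mem_range] at hx hx'
    simp only at hx hx' h
    have hK : 0 < K := by omega
    have h1 : ρ = ρ' := by
      have h2 := congrArg (fun z => z % K) h
      simp only [Nat.add_mul_mod_self_left] at h2
      rwa [Nat.mod_eq_of_lt hx.1, Nat.mod_eq_of_lt hx'.1] at h2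
    have h2 : t = t' := by
      rw [h1] at h
      exact Nat.eq_of_mul_eq_mul_left hK (Nat.add_left_cancel h)
    rw [h1, h2]

/-- **most residues are locally representable** -/
theorem res_count (R : ℕ) (hR0 : 0 < R) (hR2 : ¬ 2 ∣ R) (hR3 : ¬ 3 ∣ R) (hRs : ∀ p : ℕ, p.Prime → R.factorization p ≤ 1)
    (G : Finset ℕ) (hG : ∀ r ∈ range (96 * R), LocAt 2 (96 * R) r → r ∈ G) :
    ((96 * R : ℕ) : ℝ) ≤ (1 + 0.0342) * (G.card : ℝ) := by
  classical
  obtain ⟨P, hP⟩ : ∃ P, P = R.primeFactors.filter (fun p => p % 4 = 3 ∧ ¬ p ∣ 3 ^ 360 - 1) := ⟨_, rfl⟩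
  have hPm : ∀ p, p ∈ P ↔ p.Prime ∧ p ∣ R ∧ p % 4 = 3 ∧ ¬ p ∣ 3 ^ 360 - 1 := by
    intro p
    rw [hP, mem_filter, Nat.mem_primeFactors]
    constructor
    · rintro ⟨⟨h1, h2, _⟩, h3⟩; exact ⟨h1, h2, h3⟩
    · rintro ⟨h1, h2, h3⟩; exact ⟨⟨h1, h2, hR0.ne'⟩, h3⟩
  have hne3 : ∀ p, p ∣ R → p ≠ 3 := by
    intro p hp h
    rw [h] at hp
    exact hR3 hp
  have hAdm : AdmP P := by
    intro p hp
    obtain ⟨h1, h2, h3, h4⟩ := (hPm p).1 hp
    exact ⟨h1, h3, hne3 p h2, h4⟩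
  have hPP : ∀ p ∈ P, p.Prime ∧ p ≠ 3 := fun p hp => ⟨(hAdm p hp).1, (hAdm p hp).2.2.1⟩
  obtain ⟨Z, hZ⟩ : ∃ Z, Z = ∏ p ∈ P, p := ⟨_, rfl⟩
  have hZR : Z ∣ R := by
    rw [hZ]
    have h1 : ∏ p ∈ P, p ∣ ∏ p ∈ R.primeFactors, p := by
      apply Finset.prod_dvd_prod_of_subset
      rw [hP]
      exact filter_subset _ _
    exact h1.trans (Nat.prod_primeFactors_dvd R)
  obtain ⟨W, hW⟩ := hZR
  obtain ⟨K, hK⟩ : ∃ K, K = 96 * W := ⟨_, rfl⟩
  obtain ⟨Q, hQ⟩ : ∃ Q, Q = 96 * R := ⟨_, rfl⟩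
  have hQKZ : Q = K * Z := by rw [hQ, hK, hW]; ring
  have hQ0 : 0 < Q := by rw [hQ]; omega
  have hm : ∀ p ∈ P, ¬ p ∣ K := by
    intro p hp hpK
    obtain ⟨h1, h2, h3, h4⟩ := (hPm p).1 hp
    rw [hK] at hpK
    rcases (Nat.Prime.dvd_mul h1).1 hpK with h5 | h5
    · have h6 : p ∣ 2 ^ 5 * 3 := by norm_num; exact h5
      rcases (Nat.Prime.dvd_mul h1).1 h6 with h7 | h7
      · have h8 := (Nat.prime_dvd_prime_iff_eq h1 Nat.prime_two).1 (h1.dvd_of_dvd_pow h7)
        omega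
      · exact hne3 p h2 ((Nat.prime_dvd_prime_iff_eq h1 Nat.prime_three).1 h7)
    · have h6 : p ∣ Z := by
        rw [hZ]
        exact dvd_prod_of_mem _ hp
      have h7 : p ^ 2 ∣ R := by
        rw [hW, sq]
        exact mul_dvd_mul h6 h5
      have h8 := (Nat.Prime.pow_dvd_iff_le_factorization h1 hR0.ne').1 h7
      have := hRs p h1
      omega
  -- every class
  have hcl : ∀ ρ ∈ range K, (Z : ℝ) ≤ (1 + 0.0342) * (((range Z).filter (fun t => LocAt 2 Q (ρ + K * t))).card : ℝ) := by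
    intro ρ _
    obtain ⟨c, d, hc, hd, hb1, hb2, hb3⟩ := base_class ρ Q hQ0
    rw [hZ]
    apply local_moment 360 P hPP 0.0342 (V_small P hAdm) K hm c (ρ : ℤ) (5 ^ d)
    rintro t ht ⟨i, hi⟩
    rw [mem_filter]
    refine ⟨ht, ?_⟩
    obtain ⟨x, hx⟩ : ∃ x : ℤ, x = ((ρ + K * t : ℕ) : ℤ) - 3 ^ (c + 360 * i) - 5 ^ d := ⟨_, rfl⟩
    obtain ⟨x0, hx0⟩ : ∃ x0 : ℤ, x0 = (ρ : ℤ) - 3 ^ c - 5 ^ d := ⟨_, rfl⟩
    have hdiff : ∀ q : ℤ, q ∣ (K : ℤ) → q ∣ 3 * (3 ^ 360 - 1) → q ∣ x - x0 := by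
      intro q h1 h2
      have h3 := pers q h2 c i (by omega)
      have h4 : x - x0 = (K : ℤ) * t - (3 ^ (c + 360 * i) - 3 ^ c) := by
        rw [hx, hx0]
        push_cast
        ring
      rw [h4]
      exact dvd_sub (h1.mul_right _) h3
    rw [← hx0] at hb1 hb2 hb3
    rw [hQ]
    rw [hQ] at hc hd
    have hKW : (96 : ℤ) ∣ (K : ℤ) := by
      rw [hK]
      push_cast
      exact dvd_mul_right _ _
    apply locAt_of R hR0 hR2 hR3 hRs (c + 360 * i) d (ρ + K * t) (by omega) hd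
    · rw [← hx]
      have h360 : (32 : ℤ) ∣ 3 * (3 ^ 360 - 1) := by
        have h1 := three_pow 0 45
        have e : 0 + 8 * 45 = 360 := by norm_num
        rw [e, pow_zero] at h1
        exact h1.mul_left _
      obtain ⟨w, hw⟩ := hdiff 32 (dvd_trans (by norm_num) hKW) h360
      omega
    · rw [← hx]
      intro p hp hpR hp4 hpx
      by_cases hp3 : p = 3
      · have h1 := hdiff 3 (dvd_trans (by norm_num) hKW) (dvd_mul_right _ _)
        apply hb2
        rw [hp3] at hpx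
        have h2 := dvd_sub hpx h1
        have h3 : x - (x - x0) = x0 := by ring
        push_cast at h2
        rwa [h3] at h2
      · have hpR' : p ∣ R := by
          rcases (Nat.Prime.dvd_mul hp).1 hpR with h5 | h5
          · exfalso
            have h6 : p ∣ 2 ^ 5 * 3 := by norm_num; exact h5
            rcases (Nat.Prime.dvd_mul hp).1 h6 with h7 | h7
            · have h8 := (Nat.prime_dvd_prime_iff_eq hp Nat.prime_two).1 (hp.dvd_of_dvd_pow h7)
              omega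
            · exact hp3 ((Nat.prime_dvd_prime_iff_eq hp Nat.prime_three).1 h7)
          · exact h5
        by_cases hpE : p ∣ 3 ^ 360 - 1
        · have h1 : p ∣ K := by
            have h2 : ¬ p ∣ Z := by
              rw [hZ, Prime.dvd_finsetProd_iff hp.prime]
              rintro ⟨q, hq, hpq⟩
              obtain ⟨h3, _, _, h4⟩ := (hPm q).1 hq
              have h5 := (Nat.prime_dvd_prime_iff_eq hp h3).1 hpq
              rw [← h5] at h4
              exact h4 hpE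
            have h3 : p ∣ K * Z := by
              rw [← hQKZ, hQ]
              exact hpR'.mul_left _
            exact ((Nat.Prime.dvd_mul hp).1 h3).resolve_right h2
          have h2 : (p : ℤ) ∣ 3 * (3 ^ 360 - 1) := by
            apply Dvd.dvd.mul_left
            have h3 : ((3 ^ 360 - 1 : ℕ) : ℤ) = (3 : ℤ) ^ 360 - 1 := by
              rw [Nat.cast_sub (Nat.one_le_pow _ _ (by norm_num))]
              push_cast
              rfl
            rw [← h3]
            exact_mod_cast hpE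
          have h3 := hdiff p (by exact_mod_cast h1) h2
          apply hb3 p (ex_mem p hp hp4 hp3 hpE)
          have h4 := dvd_sub hpx h3
          have h5 : x - (x - x0) = x0 := by ring
          rwa [h5] at h4
        · apply hi p ((hPm p).2 ⟨hp, hpR', hp4, hpE⟩)
          have h1 : (ρ : ℤ) + K * t - 3 ^ (c + 360 * i) - 5 ^ d = x := by
            rw [hx]
            push_cast
            ring
          rw [h1]
          exact hpx
  -- the sum over the classes
  have h1 := card_split Q K Z hQKZ (fun r => LocAt 2 Q r)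
  have h2 : ((range Q).filter (fun r => LocAt 2 Q r)).card ≤ G.card := by
    apply card_le_card
    intro r hr
    rw [mem_filter] at hr
    rw [hQ] at hr
    exact hG r hr.1 hr.2
  have h3 : ((K * Z : ℕ) : ℝ) ≤ (1 + 0.0342) * ((∑ ρ ∈ range K, ((range Z).filter (fun t => LocAt 2 Q (ρ + K * t))).card : ℕ) : ℝ) := by
    have h4 := sum_le_sum hcl
    rw [sum_const, card_range, nsmul_eq_mul, ← mul_sum] at h4
    push_cast
    exact h4
  rw [← hQ, hQKZ]
  refine h3.trans ?_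
  apply mul_le_mul_of_nonneg_left _ (by norm_num)
  exact_mod_cast h1.trans h2

/-- the exceptional set -/
theorem exc_bound : ∀ᶠ N : ℕ in atTop, ∀ S : Finset ℕ, (∀ n ∈ S, 1 ≤ n ∧ n ≤ N ∧ ¬ Rp n) → (S.card : ℝ) ≤ 0.0333 * N := by
  classical
  obtain ⟨Y0, hY0⟩ := local_global_at 2 (by norm_num) 0.0001 (by norm_num)
  have hev := hY0 Y0 le_rfl
  obtain ⟨E, hE⟩ : ∃ E, E = Ey Y0 := ⟨_, rfl⟩
  have hE0 : 0 < E := by rw [hE]; exact Ey_pos Y0
  rw [← hE] at hev
  obtain ⟨R, hR⟩ : ∃ R, R = Rad3 E := ⟨_, rfl⟩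
  have hR0 : 0 < R := by rw [hR]; exact Rad3_pos E
  have hRs : ∀ p : ℕ, p.Prime → R.factorization p ≤ 1 := by
    intro p _
    rw [hR]
    exact (Rad3_fac E p hE0).2
  have hR3 : ¬ 3 ∣ R := by
    intro h
    have h1 := (Nat.Prime.dvd_iff_one_le_factorization Nat.prime_three hR0.ne').1 h
    have h2 : R.factorization 3 ≤ (3 ^ E - 1).factorization 3 := by rw [hR]; exact (Rad3_fac E 3 hE0).1
    have h3 : (3 ^ E - 1).factorization 3 = 0 := by
      apply Nat.factorization_eq_zero_of_not_dvd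
      intro h4
      have h5 : 3 ∣ 3 ^ E := dvd_pow_self _ hE0.ne'
      have h6 : 1 ≤ 3 ^ E := Nat.one_le_pow _ _ (by norm_num)
      omega
    omega
  have hR2 : ¬ 2 ∣ R := by
    rw [hR]
    unfold Rad3
    rw [Prime.dvd_finsetProd_iff Nat.prime_two.prime]
    rintro ⟨q, hq, h2q⟩
    rw [mem_erase, Nat.mem_primeFactors] at hq
    exact hq.1 ((Nat.prime_dvd_prime_iff_eq Nat.prime_two hq.2.1).1 h2q).symm
  rw [← hR] at hev
  obtain ⟨Q, hQ⟩ : ∃ Q, Q = 96 * R := ⟨_, rfl⟩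
  have hQ' : 2 * (12 * R) * 2 ^ 2 = Q := by rw [hQ]; ring
  rw [hQ'] at hev
  have hQ0 : 0 < Q := by omega
  have hQr : (0 : ℝ) < Q := by exact_mod_cast hQ0
  -- the good and bad residues
  obtain ⟨G, hG⟩ : ∃ G, G = (range Q).filter (fun r => LocAt 2 Q r) := ⟨_, rfl⟩
  obtain ⟨B, hB⟩ : ∃ B, B = (range Q).filter (fun r => ¬ LocAt 2 Q r) := ⟨_, rfl⟩
  have hGc := res_count R hR0 hR2 hR3 hRs G (by
    intro r hr hl
    rw [hG, mem_filter, hQ]
    exact ⟨hr, hl⟩)
  rw [← hQ] at hGc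
  have hGB : G.card + B.card = Q := by
    rw [hG, hB, card_filter_add_card_filter_not, card_range]
  have hBc : (B.card : ℝ) ≤ 0.03307 * Q := by
    have h1 : (G.card : ℝ) + B.card = Q := by exact_mod_cast hGB
    have h2 : (Q : ℝ) / 1.0342 ≤ G.card := by
      rw [div_le_iff₀ (by norm_num)]
      linarith
    have h3 : (B.card : ℝ) ≤ Q - Q / 1.0342 := by linarith
    have h4 : (Q : ℝ) - Q / 1.0342 ≤ 0.03307 * Q := by
      have : (0.96693 : ℝ) * Q ≤ Q / 1.0342 := by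
        rw [le_div_iff₀ (by norm_num)]
        nlinarith
      linarith
    linarith
  filter_upwards [hev, eventually_ge_atTop (10000 * Q)] with N hN1 hN2 S hS
  have hNr : (10000 : ℝ) * Q ≤ N := by exact_mod_cast hN2
  rw [← card_filter_add_card_filter_not (s := S) (fun n => LocAt 2 Q n)]
  have c1 : ((S.filter (fun n => LocAt 2 Q n)).card : ℝ) ≤ 0.0001 * N := by
    apply hN1
    intro n hn
    rw [mem_filter] at hn
    obtain ⟨h1, h2, h3⟩ := hS n hn.1
    exact ⟨h1, h2, hn.2, h3⟩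
  have c2 : (S.filter (fun n => ¬ LocAt 2 Q n)).card ≤ (N / Q + 1) * B.card := by
    have h1 : (S.filter (fun n => ¬ LocAt 2 Q n)).card ≤ ((range (N / Q + 1)) ×ˢ B).card := by
      apply card_le_card_of_injOn (fun n => (n / Q, n % Q))
      · intro n hn
        rw [mem_coe, mem_filter] at hn
        obtain ⟨h1, h2, h3⟩ := hS n hn.1
        rw [mem_coe, mem_product, mem_range]
        refine ⟨Nat.lt_succ_of_le (Nat.div_le_div_right h2), ?_⟩
        simp only
        rw [hB, mem_filter, mem_range]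
        refine ⟨Nat.mod_lt _ hQ0, ?_⟩
        rintro ⟨a, b, c, d, hc, hd, hg, hm⟩
        exact hn.2 ⟨a, b, c, d, hc, hd, hg, (Nat.mod_modEq n Q).symm.trans hm⟩
      · intro n _ m _ h
        simp only [Prod.mk.injEq] at h
        rw [← Nat.div_add_mod n Q, ← Nat.div_add_mod m Q, h.1, h.2]
    rw [card_product, card_range] at h1
    exact h1
  have c3 : ((S.filter (fun n => ¬ LocAt 2 Q n)).card : ℝ) ≤ 0.03307 * N + 0.03307 * Q := by
    have h1 : ((S.filter (fun n => ¬ LocAt 2 Q n)).card : ℝ) ≤ (((N / Q : ℕ) : ℝ) + 1) * B.card := by exact_mod_cast c2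
    have h2 : ((N / Q : ℕ) : ℝ) ≤ (N : ℝ) / Q := Nat.cast_div_le
    have h3 : (((N / Q : ℕ) : ℝ) + 1) * B.card ≤ ((N : ℝ) / Q + 1) * (0.03307 * Q) := by
      apply mul_le_mul _ hBc (by positivity) (by positivity)
      linarith
    have h4 : ((N : ℝ) / Q + 1) * (0.03307 * Q) = 0.03307 * N + 0.03307 * Q := by
      field_simp
    linarith
  push_cast
  linarith

end Pool.Agent.H770Sun
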