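import Mathlib

set_option autoImplicit false

/-! Sums of two squares in a residue class, with a unit. -/

namespace Pool.Agent.H770Sun

/-- gluing local solutions -/
theorem glue (m : ℤ) : ∀ q : ℕ, q ≠ 0 → (∀ p : ℕ, p.Prime → p ∣ q → ∃ α β : ℤ, IsCoprime α (p : ℤ) ∧
    ((p ^ q.factorization p : ℕ) : ℤ) ∣ α ^ 2 + β ^ 2 - m) →
    ∃ α β : ℤ, IsCoprime α (q : ℤ) ∧ (q : ℤ) ∣ α ^ 2 + β ^ 2 - m := by
  intro q
  induction q using Nat.recOnPosPrimePosCoprime with
  | zero => intro h; exact absurd rfl h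
  | one =>
    intro _ _
    refine ⟨1, 0, ?_, ?_⟩
    · exact isCoprime_one_left
    · simp
  | prime_pow p n hp hn =>
    intro _ h
    obtain ⟨α, β, h1, h2⟩ := h p hp (dvd_pow_self p hn.ne')
    refine ⟨α, β, ?_, ?_⟩
    · push_cast
      exact h1.pow_right
    · rwa [hp.factorization_pow, Finsupp.single_eq_same] at h2
  | coprime a b ha hb hab iha ihb =>
    intro _ h
    have ha0 : a ≠ 0 := by omega
    have hb0 : b ≠ 0 := by omega
    obtain ⟨α1, β1, h1, h2⟩ := iha ha0 (fun p hp hpa => by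
      obtain ⟨α, β, h1, h2⟩ := h p hp (hpa.mul_right b)
      refine ⟨α, β, h1, ?_⟩
      have e : (a * b).factorization p = a.factorization p := by
        rw [Nat.factorization_mul ha0 hb0]
        have : b.factorization p = 0 := by
          apply Nat.factorization_eq_zero_of_not_dvd
          intro hpb
          exact Nat.not_coprime_of_dvd_of_dvd hp.one_lt hpa hpb hab
        simp [this]
      rwa [e] at h2)
    obtain ⟨α2, β2, h3, h4⟩ := ihb hb0 (fun p hp hpb => by
      obtain ⟨α, β, h1, h2⟩ := h p hp (hpb.mul_left a)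
      refine ⟨α, β, h1, ?_⟩
      have e : (a * b).factorization p = b.factorization p := by
        rw [Nat.factorization_mul ha0 hb0]
        have : a.factorization p = 0 := by
          apply Nat.factorization_eq_zero_of_not_dvd
          intro hpa
          exact Nat.not_coprime_of_dvd_of_dvd hp.one_lt hpa hpb hab
        simp [this]
      rwa [e] at h2)
    have hcop : IsCoprime (a : ℤ) (b : ℤ) := Nat.isCoprime_iff_coprime.2 hab
    obtain ⟨u, v, huv⟩ := hcop
    -- the solution
    refine ⟨α1 * (v * b) + α2 * (u * a), β1 * (v * b) + β2 * (u * a), ?_, ?_⟩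
    · push_cast
      apply IsCoprime.mul_right
      · have e : α1 * (v * b) + α2 * (u * a) = α1 + a * (u * (α2 - α1)) := by
          have : v * b = 1 - u * a := by linarith
          rw [this]
          ring
        rw [e]
        exact IsCoprime.add_mul_left_left h1 _
      · have e : α1 * (v * b) + α2 * (u * a) = α2 + b * (v * (α1 - α2)) := by
          have : u * a = 1 - v * b := by linarith
          rw [this]
          ring
        rw [e]
        exact IsCoprime.add_mul_left_left h3 _
    · push_cast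
      apply IsCoprime.mul_dvd ⟨u, v, huv⟩
      · obtain ⟨c, hc⟩ := h2
        have e1 : α1 * (v * b) + α2 * (u * a) = α1 + a * (u * (α2 - α1)) := by
          have : v * b = 1 - u * a := by linarith
          rw [this]
          ring
        have e2 : β1 * (v * b) + β2 * (u * a) = β1 + a * (u * (β2 - β1)) := by
          have : v * b = 1 - u * a := by linarith
          rw [this]
          ring
        rw [e1, e2]
        refine ⟨c + 2 * α1 * (u * (α2 - α1)) + a * (u * (α2 - α1)) ^ 2 + 2 * β1 * (u * (β2 - β1)) + a * (u * (β2 - β1)) ^ 2, ?_⟩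
        have : α1 ^ 2 + β1 ^ 2 = m + a * c := by linarith
        linear_combination this
      · obtain ⟨c, hc⟩ := h4
        have e1 : α1 * (v * b) + α2 * (u * a) = α2 + b * (v * (α1 - α2)) := by
          have : u * a = 1 - v * b := by linarith
          rw [this]
          ring
        have e2 : β1 * (v * b) + β2 * (u * a) = β2 + b * (v * (β1 - β2)) := by
          have : u * a = 1 - v * b := by linarith
          rw [this]
          ring
        rw [e1, e2]
        refine ⟨c + 2 * α2 * (v * (α1 - α2)) + b * (v * (α1 - α2)) ^ 2 + 2 * β2 * (v * (β1 - β2)) + b * (v * (β1 - β2)) ^ 2, ?_⟩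
        have : α2 ^ 2 + β2 ^ 2 = m + b * c := by linarith
        linear_combination this

/-- one of the two coordinates is a unit at each prime -/
theorem swap (q : ℕ) (hq : q ≠ 0) (a b : ℤ) (h : ∀ p : ℕ, p.Prime → p ∣ q → ¬ ((p : ℤ) ∣ a ∧ (p : ℤ) ∣ b)) :
    ∃ α β : ℤ, IsCoprime α (q : ℤ) ∧ (q : ℤ) ∣ α ^ 2 + β ^ 2 - (a ^ 2 + b ^ 2) := by
  apply glue _ q hq
  intro p hp hpq
  have h1 := h p hp hpq
  have hpp : Prime (p : ℤ) := Nat.prime_iff_prime_int.1 hp
  by_cases ha : (p : ℤ) ∣ a
  · have hb : ¬ (p : ℤ) ∣ b := fun hb => h1 ⟨ha, hb⟩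
    refine ⟨b, a, ?_, ?_⟩
    · exact ((Prime.coprime_iff_not_dvd hpp).2 hb).symm
    · rw [show b ^ 2 + a ^ 2 - (a ^ 2 + b ^ 2) = 0 by ring]
      exact dvd_zero _
  · refine ⟨a, b, ?_, ?_⟩
    · exact ((Prime.coprime_iff_not_dvd hpp).2 ha).symm
    · rw [sub_self]
      exact dvd_zero _

/-- the period of the powers -/
theorem period (b q : ℕ) (hb : b.Prime) (hq : q ≠ 0) : ∃ E' : ℕ, 0 < E' ∧ ∀ d : ℕ, q ≤ d → ∀ j : ℕ, (q : ℤ) ∣ (b : ℤ) ^ (d + E' * j) - (b : ℤ) ^ d := by
  obtain ⟨k, m, hm, hqm⟩ := Nat.exists_eq_pow_mul_and_not_dvd hq b hb.ne_one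
  have hm0 : m ≠ 0 := by
    intro h
    rw [h, mul_zero] at hqm
    exact hq hqm
  refine ⟨m.totient, Nat.totient_pos.2 (Nat.pos_of_ne_zero hm0), fun d hd j => ?_⟩
  have hkd : k ≤ d := by
    have h1 : k < b ^ k := Nat.lt_pow_self hb.one_lt
    have h2 : b ^ k ≤ q := by
      rw [hqm]
      exact Nat.le_mul_of_pos_right _ (Nat.pos_of_ne_zero hm0)
    omega
  have hcop : Nat.Coprime b m := (Nat.Prime.coprime_iff_not_dvd hb).2 hm
  have h1 : (m : ℤ) ∣ (b : ℤ) ^ (m.totient * j) - 1 := by
    have h2 := (Nat.ModEq.pow_totient hcop).pow j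
    rw [one_pow, ← pow_mul] at h2
    have h3 := (Nat.modEq_iff_dvd.1 h2.symm)
    push_cast at h3
    exact h3
  rw [pow_add, ← mul_sub_one, hqm]
  push_cast
  apply mul_dvd_mul _ h1
  exact pow_dvd_pow _ hkd

end Pool.Agent.H770Sun
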