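import Pool.Agent.H770Sun.LG2
import Pool.Agent.H770Sun.Glue

set_option autoImplicit false

/-! Local solutions. -/

namespace Pool.Agent.H770Sun
open Finset

lemma loc_odd (p : ℕ) (hp : p.Prime) (m : ℤ) (h : p % 4 = 3 → ¬ (p : ℤ) ∣ m) :
    ∃ α β : ℤ, IsCoprime α (p : ℤ) ∧ (p : ℤ) ∣ α ^ 2 + β ^ 2 - m := by
  have := Fact.mk hp
  have hpp : Prime (p : ℤ) := Nat.prime_iff_prime_int.1 hp
  have hcop : ∀ x : ℤ, ¬ (p : ℤ) ∣ x → IsCoprime x (p : ℤ) := fun x hx => ((Prime.coprime_iff_not_dvd hpp).2 hx).symm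
  by_cases hm : (p : ℤ) ∣ m
  · have h4 : p % 4 ≠ 3 := fun h3 => h h3 hm
    obtain ⟨y, hy⟩ := ZMod.exists_sq_eq_neg_one_iff.2 h4
    refine ⟨1, (y.val : ℤ), isCoprime_one_left, ?_⟩
    have h1 : (p : ℤ) ∣ 1 ^ 2 + (y.val : ℤ) ^ 2 := by
      rw [← ZMod.intCast_zmod_eq_zero_iff_dvd]
      push_cast
      rw [ZMod.natCast_zmod_val, sq y, ← hy]
      ring
    exact dvd_sub h1 hm
  · obtain ⟨a, b, hab⟩ := ZMod.sq_add_sq p (m : ZMod p)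
    have h1 : (p : ℤ) ∣ (a.val : ℤ) ^ 2 + (b.val : ℤ) ^ 2 - m := by
      rw [← ZMod.intCast_zmod_eq_zero_iff_dvd]
      push_cast
      rw [ZMod.natCast_zmod_val, ZMod.natCast_zmod_val, hab, sub_self]
    by_cases ha : (p : ℤ) ∣ (a.val : ℤ)
    · have hb : ¬ (p : ℤ) ∣ (b.val : ℤ) := by
        intro hb
        apply hm
        have h2 : (p : ℤ) ∣ (a.val : ℤ) ^ 2 + (b.val : ℤ) ^ 2 := dvd_add (dvd_pow ha (by norm_num)) (dvd_pow hb (by norm_num))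
        have h3 := dvd_sub h2 h1
        simpa using h3
      refine ⟨(b.val : ℤ), (a.val : ℤ), hcop _ hb, ?_⟩
      rw [add_comm ((b.val : ℤ) ^ 2)]
      exact h1
    · exact ⟨(a.val : ℤ), (b.val : ℤ), hcop _ ha, h1⟩

lemma loc_two (m : ℤ) (h : m % 8 = 1 ∨ m % 8 = 2 ∨ m % 8 = 5) : ∃ α β : ℤ, IsCoprime α ((2 : ℕ) : ℤ) ∧ (32 : ℤ) ∣ α ^ 2 + β ^ 2 - m := by
  have key : ∀ r : Fin 32, (r.val % 8 = 1 ∨ r.val % 8 = 2 ∨ r.val % 8 = 5) → ∃ a : Fin 16, ∃ b : Fin 32, ((2 * a.val + 1) ^ 2 + b.val ^ 2) % 32 = r.val := by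
    decide +kernel
  obtain ⟨r, hr⟩ : ∃ r : ℕ, (r : ℤ) = m % 32 := ⟨(m % 32).toNat, Int.toNat_of_nonneg (Int.emod_nonneg _ (by norm_num))⟩
  have hr32 : r < 32 := by
    have := Int.emod_lt_of_pos m (show (0 : ℤ) < 32 by norm_num)
    omega
  obtain ⟨a, b, hab⟩ := key ⟨r, hr32⟩ (by simp only; omega)
  simp only at hab
  refine ⟨2 * (a.val : ℤ) + 1, (b.val : ℤ), ⟨1, -(a.val : ℤ), by push_cast; ring⟩, ?_⟩
  have h1 : (((2 * a.val + 1) ^ 2 + b.val ^ 2 : ℕ) : ℤ) % 32 = r := by exact_mod_cast hab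
  push_cast at h1
  have h2 : ((2 * (a.val : ℤ) + 1) ^ 2 + (b.val : ℤ) ^ 2) % 32 = m % 32 := by rw [h1, hr]
  exact Int.dvd_of_emod_eq_zero (by omega)

lemma glue_all (q : ℕ) (hq : q ≠ 0) (h2 : q.factorization 2 ≤ 5) (h1 : ∀ p : ℕ, p.Prime → p ≠ 2 → p ∣ q → q.factorization p ≤ 1)
    (m : ℤ) (h8 : m % 8 = 1 ∨ m % 8 = 2 ∨ m % 8 = 5) (hm : ∀ p : ℕ, p.Prime → p ∣ q → p % 4 = 3 → ¬ (p : ℤ) ∣ m) :
    ∃ α β : ℤ, IsCoprime α (q : ℤ) ∧ (q : ℤ) ∣ α ^ 2 + β ^ 2 - m := by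
  apply glue m q hq
  intro p hp hpq
  by_cases hp2 : p = 2
  · subst hp2
    obtain ⟨α, β, h3, h4⟩ := loc_two m h8
    refine ⟨α, β, h3, dvd_trans ?_ h4⟩
    have : (32 : ℤ) = ((2 ^ 5 : ℕ) : ℤ) := by norm_num
    rw [this]
    exact_mod_cast pow_dvd_pow 2 h2
  · obtain ⟨α, β, h3, h4⟩ := loc_odd p hp m (hm p hp hpq)
    refine ⟨α, β, h3, dvd_trans ?_ h4⟩
    have h5 : p ^ q.factorization p ∣ p ^ 1 := pow_dvd_pow p (h1 p hp hp2 hpq)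
    rw [pow_one] at h5
    exact_mod_cast h5

/-- local representability from the residues -/
theorem locAt_of (R : ℕ) (hR0 : 0 < R) (hR2 : ¬ 2 ∣ R) (hR3 : ¬ 3 ∣ R) (hRs : ∀ p : ℕ, p.Prime → R.factorization p ≤ 1)
    (c d n : ℕ) (hc : 96 * R ≤ c) (hd : 96 * R ≤ d)
    (h8 : ((n : ℤ) - 3 ^ c - 5 ^ d) % 8 = 1 ∨ ((n : ℤ) - 3 ^ c - 5 ^ d) % 8 = 2 ∨ ((n : ℤ) - 3 ^ c - 5 ^ d) % 8 = 5 ∨
      ((n : ℤ) - 3 ^ c - 5 ^ d) % 32 = 4 ∨ ((n : ℤ) - 3 ^ c - 5 ^ d) % 32 = 8 ∨ ((n : ℤ) - 3 ^ c - 5 ^ d) % 32 = 20)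
    (h3 : ∀ p : ℕ, p.Prime → p ∣ 96 * R → p % 4 = 3 → ¬ (p : ℤ) ∣ (n : ℤ) - 3 ^ c - 5 ^ d) :
    LocAt 2 (96 * R) n := by
  obtain ⟨x, hx⟩ : ∃ x : ℤ, x = (n : ℤ) - 3 ^ c - 5 ^ d := ⟨_, rfl⟩
  rw [← hx] at h8 h3
  -- the factorizations
  have hf : ∀ k : ℕ, k ≠ 0 → ∀ p : ℕ, (k * R).factorization p = k.factorization p + R.factorization p := by
    intro k hk p
    rw [Nat.factorization_mul hk hR0.ne']
    rfl
  have hR2f : R.factorization 2 = 0 := Nat.factorization_eq_zero_of_not_dvd hR2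
  have hR3f : R.factorization 3 = 0 := Nat.factorization_eq_zero_of_not_dvd hR3
  have hfac : ∀ e : ℕ, ∀ p : ℕ, p.Prime → (2 ^ e * 3 ^ 1).factorization p = (if p = 2 then e else 0) + (if p = 3 then 1 else 0) := by
    intro e p _
    rw [Nat.factorization_mul (by positivity) (by positivity), Nat.Prime.factorization_pow Nat.prime_two,
      Nat.Prime.factorization_pow Nat.prime_three]
    simp only [Finsupp.add_apply, Finsupp.single_apply]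
    congr 1
    · split_ifs <;> first | rfl | omega
    · split_ifs <;> first | rfl | omega
  have gen : ∀ k e σ : ℕ, k = 2 ^ e * 3 ^ 1 → e ≤ 5 → σ ^ 2 * k = 96 → (∀ p : ℕ, p.Prime → p ∣ 96 * R → p ∣ k * R) →
      (∃ m : ℤ, x = (σ : ℤ) ^ 2 * m ∧ (m % 8 = 1 ∨ m % 8 = 2 ∨ m % 8 = 5)) → σ ∣ 2 → LocAt 2 (96 * R) n := by
    rintro k e σ hk he hσk hpr ⟨m, hxm, hm8⟩ hσ2
    have hk0 : k ≠ 0 := by rw [hk]; positivity
    obtain ⟨α, β, hα, hαβ⟩ := glue_all (k * R) (Nat.mul_ne_zero hk0 hR0.ne') (by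
        rw [hf k hk0, hR2f, hk, hfac e 2 Nat.prime_two]
        simp
        exact he) (by
        intro p hp hp2 _
        rw [hf k hk0, hk, hfac e p hp, if_neg hp2]
        have := hRs p hp
        by_cases hp3 : p = 3
        · rw [hp3, hR3f]; simp
        · rw [if_neg hp3]; omega) m hm8 (by
        intro p hp hpk hp4 hpm
        apply h3 p hp _ hp4
        · rw [hxm]
          exact hpm.mul_left _
        · rw [← hσk, mul_assoc]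
          exact hpk.mul_left _)
    -- the coprimality to `96 R`
    have hcop : Nat.Coprime α.natAbs (96 * R) := by
      by_contra hcon
      obtain ⟨p, hp, hpα, hpR⟩ := Nat.Prime.not_coprime_iff_dvd.1 hcon
      have h4 : (p : ℤ) ∣ α := Int.natCast_dvd.2 hpα
      have h5 : (p : ℤ) ∣ ((k * R : ℕ) : ℤ) := by exact_mod_cast hpr p hp hpR
      have h6 : IsUnit (p : ℤ) := hα.isUnit_of_dvd' h4 h5
      exact (Nat.prime_iff_prime_int.1 hp).not_isUnit h6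
    refine ⟨σ * α.natAbs, σ * β.natAbs, c, d, hc, hd, ?_, ?_⟩
    · have hg1 : Nat.gcd (Nat.gcd (σ * α.natAbs) (σ * β.natAbs)) (96 * R) ∣ σ * α.natAbs := (Nat.gcd_dvd_left _ _).trans (Nat.gcd_dvd_left _ _)
      have hg2 : Nat.gcd (Nat.gcd (σ * α.natAbs) (σ * β.natAbs)) (96 * R) ∣ 96 * R := Nat.gcd_dvd_right _ _
      exact (Nat.Coprime.dvd_of_dvd_mul_right (Nat.Coprime.coprime_dvd_left hg2 hcop.symm) hg1).trans hσ2
    · rw [Nat.modEq_iff_dvd]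
      obtain ⟨w, hw⟩ := hαβ
      refine ⟨w, ?_⟩
      have h7 : ((σ : ℤ)) ^ 2 * k = 96 := by exact_mod_cast hσk
      push_cast at hw ⊢
      rw [mul_pow, mul_pow, sq_abs, sq_abs]
      have h8 : (n : ℤ) = x + 3 ^ c + 5 ^ d := by rw [hx]; ring
      rw [h8, hxm]
      have h9 : (σ : ℤ) ^ 2 * α ^ 2 + (σ : ℤ) ^ 2 * β ^ 2 + 3 ^ c + 5 ^ d - ((σ : ℤ) ^ 2 * m + 3 ^ c + 5 ^ d) = (σ : ℤ) ^ 2 * (α ^ 2 + β ^ 2 - m) := by ring
      rw [h9, hw, ← h7]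
      ring
  have hcase : (x % 8 = 1 ∨ x % 8 = 2 ∨ x % 8 = 5) ∨ (x % 32 = 4 ∨ x % 32 = 8 ∨ x % 32 = 20) := by tauto
  rcases hcase with h | h
  · exact gen 96 5 1 (by norm_num) le_rfl (by norm_num) (fun p _ h => h) ⟨x, by norm_num, h⟩ (by norm_num)
  · refine gen 24 3 2 (by norm_num) (by norm_num) (by norm_num) ?_ ⟨x / 4, by push_cast; omega, by omega⟩ (by norm_num)
    intro p hp hpR
    have h4 : 96 * R = 4 * (24 * R) := by ring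
    rw [h4] at hpR
    rcases (Nat.Prime.dvd_mul hp).1 hpR with h5 | h5
    · have h6 : p ∣ 2 := by
        apply hp.dvd_of_dvd_pow (n := 2)
        norm_num
        exact h5
      exact (h6.trans (by norm_num : 2 ∣ 24)).mul_right _
    · exact h5

end Pool.Agent.H770Sun
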