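import Pool.Agent.H770Sun.Sing5
import Pool.Agent.H770Sun.NData

set_option autoImplicit false

/-! Generic lemmas for the numerical bound of the sum over sets of primes. -/

namespace Pool.Agent.H770Sun
open Finset

lemma prodS_succ (k : ℕ) : prodS (k + 1) = prodS k * (3 ^ (90 * (2 * k + 1)) - 1) := rfl

lemma prodL_cons (p : ℕ) (l : List ℕ) : prodL (p :: l) = p * prodL l := rfl

lemma foldB_nil (B : ℕ) : foldB [] B = B := rfl

lemma foldB_cons (p : ℕ) (l : List ℕ) (B : ℕ) : foldB (p :: l) B = foldB l (B * p / (p - 1) + 1) := rfl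

lemma prodL_dvd (l : List ℕ) (p : ℕ) (h : p ∈ l) : p ∣ prodL l := by
  induction l with
  | nil => exact absurd h List.not_mem_nil
  | cons q l ih =>
    rw [prodL_cons]
    rcases List.mem_cons.1 h with h | h
    · rw [h]; exact dvd_mul_right _ _
    · exact (ih h).mul_left _

lemma prodL_prime (l : List ℕ) (p : ℕ) (hp : p.Prime) (h : p ∣ prodL l) : ∃ q ∈ l, p ∣ q := by
  induction l with
  | nil => exact absurd (Nat.dvd_one.1 h) hp.one_lt.ne'
  | cons q l ih =>
    rw [prodL_cons] at h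
    rcases (Nat.Prime.dvd_mul hp).1 h with h | h
    · exact ⟨q, List.mem_cons_self, h⟩
    · obtain ⟨r, hr, hpr⟩ := ih h
      exact ⟨r, List.mem_cons_of_mem _ hr, hpr⟩

lemma dvd_prodS (k n : ℕ) (h : n < k) : (3 ^ (90 * (2 * n + 1)) - 1) ∣ prodS k := by
  induction k with
  | zero => omega
  | succ k ih =>
    rw [prodS_succ]
    rcases Nat.lt_succ_iff_lt_or_eq.1 h with h | h
    · exact (ih h).mul_right _
    · rw [h]; exact dvd_mul_left _ _

lemma prodS_pos (k : ℕ) : 0 < prodS k := by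
  induction k with
  | zero => exact Nat.one_pos
  | succ k ih =>
    rw [prodS_succ]
    apply Nat.mul_pos ih
    have : 3 ^ 1 ≤ 3 ^ (90 * (2 * k + 1)) := Nat.pow_le_pow_right (by norm_num) (by omega)
    omega

lemma prodS_le (k : ℕ) : prodS k ≤ 2 ^ (143 * k ^ 2) := by
  induction k with
  | zero => exact le_rfl
  | succ k ih =>
    rw [prodS_succ]
    have h1 : 3 ^ (90 * (2 * k + 1)) - 1 ≤ 2 ^ (143 * (2 * k + 1)) := by
      refine (Nat.sub_le _ _).trans ?_
      rw [pow_mul, pow_mul]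
      exact Nat.pow_le_pow_left (by norm_num) _
    calc prodS k * (3 ^ (90 * (2 * k + 1)) - 1) ≤ 2 ^ (143 * k ^ 2) * 2 ^ (143 * (2 * k + 1)) := Nat.mul_le_mul ih h1
      _ = 2 ^ (143 * (k + 1) ^ 2) := by
        rw [← pow_add]
        congr 1
        ring

lemma dvd_half (g a b : ℕ) (h : g ∣ 2 ^ a * b) (h4 : ¬ 4 ∣ g) : g ∣ 2 * b := by
  have hg : g ≠ 0 := by
    rintro rfl
    exact h4 (dvd_zero _)
  obtain ⟨s, m, hm, rfl⟩ := Nat.exists_eq_two_pow_mul_odd hg
  have hs : s ≤ 1 := by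
    by_contra hs
    apply h4
    have : 2 ^ 2 ∣ 2 ^ s := pow_dvd_pow 2 (by omega)
    exact Dvd.dvd.mul_right this _
  have h1 : m ∣ b := by
    have h2 : Nat.Coprime m (2 ^ a) := (Nat.coprime_two_right.2 hm).pow_right a
    exact h2.dvd_of_dvd_mul_left ((dvd_mul_left _ _).trans h)
  apply Nat.mul_dvd_mul _ h1
  calc 2 ^ s ∣ 2 ^ 1 := pow_dvd_pow 2 hs
    _ = 2 := by norm_num

/-- only odd exponents matter for the primes `3 mod 4` -/
lemma odd_exp (p t : ℕ) (hp : p.Prime) (hp4 : p % 4 = 3) (hp3 : p ≠ 3) (ht : 1 ≤ t) (h : p ∣ 3 ^ (360 * t) - 1) :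
    ∃ n, 2 * n + 1 ≤ t ∧ p ∣ 3 ^ (90 * (2 * n + 1)) - 1 := by
  obtain ⟨k, m, hm, htm⟩ := Nat.exists_eq_two_pow_mul_odd (show t ≠ 0 by omega)
  obtain ⟨n, hn⟩ := hm
  have h1 : p ∣ 3 ^ (p - 1) - 1 := by
    have h2 : Nat.Coprime 3 p := (Nat.coprime_primes Nat.prime_three hp).2 (Ne.symm hp3)
    have h3 := Nat.ModEq.pow_totient h2
    rw [Nat.totient_prime hp] at h3
    exact (Nat.modEq_iff_dvd' (Nat.one_le_pow _ _ (by norm_num))).1 h3.symm
  have h2 := Nat.dvd_gcd h h1
  rw [Nat.pow_sub_one_gcd_pow_sub_one] at h2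
  refine ⟨n, ?_, h2.trans (Nat.pow_sub_one_dvd_pow_sub_one 3 ?_)⟩
  · rw [← hn, htm]
    exact Nat.le_mul_of_pos_left _ (by positivity)
  · have h3 : Nat.gcd (360 * t) (p - 1) ∣ 2 ^ (k + 3) * (45 * m) := by
      have : 2 ^ (k + 3) * (45 * m) = 360 * t := by rw [htm]; ring
      rw [this]
      exact Nat.gcd_dvd_left _ _
    have h4 : ¬ 4 ∣ Nat.gcd (360 * t) (p - 1) := by
      intro h4
      have h5 := h4.trans (Nat.gcd_dvd_right _ _)
      have := hp.two_le
      omega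
    have h5 := dvd_half _ _ _ h3 h4
    rw [← hn]
    have : 2 * (45 * m) = 90 * m := by ring
    rwa [this] at h5

/-- the product over a set bounded by a rounded computation -/
lemma foldB_bound (l : List ℕ) : (∀ q ∈ l, 2 ≤ q) → ∀ S : Finset ℕ, (∀ p ∈ S, p ∈ l) → (∀ p ∈ S, p.Prime) → ∀ B : ℕ,
    (∏ p ∈ S, (1 + 1 / ((p : ℝ) - 1))) * B ≤ foldB l B := by
  classical
  induction l with
  | nil =>
    intro _ S hS _ B
    have : S = ∅ := by
      ext p
      constructor
      · intro hp; exact absurd (hS p hp) List.not_mem_nil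
      · intro hp; exact absurd hp (notMem_empty p)
    rw [this, prod_empty, one_mul, foldB_nil]
  | cons q l ih =>
    intro hl S hS hSp B
    rw [foldB_cons]
    have hq2 : 2 ≤ q := hl q List.mem_cons_self
    have hq : (2 : ℝ) ≤ q := by exact_mod_cast hq2
    have hstep : (1 + 1 / ((q : ℝ) - 1)) * B ≤ ((B * q / (q - 1) + 1 : ℕ) : ℝ) := by
      have h1 : ((B * q : ℕ) : ℝ) / ((q - 1 : ℕ) : ℝ) ≤ ((B * q / (q - 1) : ℕ) : ℝ) + 1 := by
        have h2 := Nat.lt_succ_floor ((((B * q : ℕ) : ℝ)) / ((q - 1 : ℕ) : ℝ))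
        rw [Nat.floor_div_natCast, Nat.floor_natCast] at h2
        push_cast at h2 ⊢
        exact h2.le
      have h3 : ((q - 1 : ℕ) : ℝ) = q - 1 := by
        rw [Nat.cast_sub (by omega)]
        norm_num
      rw [h3] at h1
      have h4 : (1 + 1 / ((q : ℝ) - 1)) * B = ((B * q : ℕ) : ℝ) / ((q : ℝ) - 1) := by
        have : (q : ℝ) - 1 ≠ 0 := by linarith
        push_cast
        field_simp
        ring
      rw [h4]
      push_cast at h1 ⊢
      exact h1
    have hq1 : (1 : ℝ) ≤ 1 + 1 / ((q : ℝ) - 1) := by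
      have : 0 ≤ 1 / ((q : ℝ) - 1) := by
        apply div_nonneg (by norm_num)
        linarith
      linarith
    by_cases hqS : q ∈ S
    · have h1 := ih (fun r hr => hl r (List.mem_cons_of_mem _ hr)) (S.erase q) (by
        intro p hp
        rw [mem_erase] at hp
        rcases List.mem_cons.1 (hS p hp.2) with h | h
        · exact absurd h hp.1
        · exact h) (fun p hp => hSp p (mem_erase.1 hp).2) (B * q / (q - 1) + 1)
      refine le_trans ?_ h1
      rw [← mul_prod_erase S _ hqS]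
      have h2 : 0 ≤ ∏ p ∈ S.erase q, (1 + 1 / ((p : ℝ) - 1)) :=
        le_trans zero_le_one (prod_ge_one _ (fun p hp => hSp p (mem_erase.1 hp).2))
      calc (1 + 1 / ((q : ℝ) - 1)) * (∏ p ∈ S.erase q, (1 + 1 / ((p : ℝ) - 1))) * B
          = (∏ p ∈ S.erase q, (1 + 1 / ((p : ℝ) - 1))) * ((1 + 1 / ((q : ℝ) - 1)) * B) := by ring
        _ ≤ _ := mul_le_mul_of_nonneg_left hstep h2
    · have h1 := ih (fun r hr => hl r (List.mem_cons_of_mem _ hr)) S (by
        intro p hp
        rcases List.mem_cons.1 (hS p hp) with h | h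
        · exact absurd (h ▸ hp) hqS
        · exact h) hSp (B * q / (q - 1) + 1)
      refine le_trans ?_ h1
      have h2 : 0 ≤ ∏ p ∈ S, (1 + 1 / ((p : ℝ) - 1)) := le_trans zero_le_one (prod_ge_one _ hSp)
      apply mul_le_mul_of_nonneg_left _ h2
      have h3 : (B : ℝ) ≤ (1 + 1 / ((q : ℝ) - 1)) * B := by
        have : (0 : ℝ) ≤ B := by positivity
        nlinarith
      exact h3.trans hstep

/-- the product over distinct naturals from `k0` on -/
lemma prod_tel (k0 : ℕ) (hk0 : 1 ≤ k0) : ∀ n : ℕ, ∀ S : Finset ℕ, S.card = n → (∀ k ∈ S, k0 ≤ k) →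
    ∏ k ∈ S, (1 + 1 / (k : ℝ)) ≤ ((k0 : ℝ) + n) / k0 := by
  have hk0' : (1 : ℝ) ≤ k0 := by exact_mod_cast hk0
  intro n
  induction n with
  | zero =>
    intro S hS _
    rw [card_eq_zero] at hS
    rw [hS, prod_empty]
    simp only [Nat.cast_zero, add_zero]
    rw [div_self (by linarith)]
  | succ n ih =>
    intro S hS hSk
    have hne : S.Nonempty := by rw [← card_pos]; omega
    obtain ⟨m, hm⟩ : ∃ m, m = S.max' hne := ⟨_, rfl⟩
    have hmS : m ∈ S := by rw [hm]; exact max'_mem _ _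
    have hmb : k0 + n ≤ m := by
      have h1 : S ⊆ Icc k0 m := by
        intro k hk
        rw [mem_Icc, hm]
        exact ⟨hSk k hk, le_max' _ _ hk⟩
      have h2 := card_le_card h1
      rw [Nat.card_Icc] at h2
      omega
    have h1 := ih (S.erase m) (by rw [card_erase_of_mem hmS]; omega) (fun k hk => hSk k (mem_erase.1 hk).2)
    rw [← mul_prod_erase S _ hmS]
    have h3 : (1 + 1 / (m : ℝ)) ≤ ((k0 : ℝ) + n + 1) / (k0 + n) := by
      have h4 : ((k0 : ℝ) + n) ≤ m := by exact_mod_cast hmb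
      have h5 : (0 : ℝ) < (k0 : ℝ) + n := by positivity
      have h6 : 1 / (m : ℝ) ≤ 1 / ((k0 : ℝ) + n) := one_div_le_one_div_of_le h5 h4
      have h7 : ((k0 : ℝ) + n + 1) / (k0 + n) = 1 + 1 / ((k0 : ℝ) + n) := by
        field_simp
      rw [h7]
      linarith
    calc (1 + 1 / (m : ℝ)) * ∏ k ∈ S.erase m, (1 + 1 / (k : ℝ)) ≤ (((k0 : ℝ) + n + 1) / (k0 + n)) * (((k0 : ℝ) + n) / k0) := by
          apply mul_le_mul h3 h1
          · apply prod_nonneg
            intro k _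
            positivity
          · positivity
      _ = ((k0 : ℝ) + ((n + 1 : ℕ) : ℝ)) / k0 := by
          have h5 : (k0 : ℝ) + n ≠ 0 := by positivity
          push_cast
          field_simp
          ring

/-- the product over large primes `3 mod 4` -/
lemma prod_large (k0 N : ℕ) (hk0 : 1 ≤ k0) (S : Finset ℕ) (hS : ∀ p ∈ S, p % 4 = 3 ∧ 4 * k0 ≤ p) (hN : S.card ≤ N) :
    (∏ p ∈ S, (1 + 1 / ((p : ℝ) - 1))) ^ 4 ≤ ((k0 : ℝ) + N) / k0 := by
  have hk0' : (1 : ℝ) ≤ k0 := by exact_mod_cast hk0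
  rw [← prod_pow]
  have h1 : ∏ p ∈ S, (1 + 1 / ((p : ℝ) - 1)) ^ 4 ≤ ∏ p ∈ S, (1 + 1 / ((p / 4 : ℕ) : ℝ)) := by
    apply prod_le_prod
    · intro p _
      positivity
    · intro p hp
      obtain ⟨h2, h3⟩ := hS p hp
      obtain ⟨k, hk⟩ : ∃ k, k = p / 4 := ⟨_, rfl⟩
      have hpk : p = 4 * k + 3 := by omega
      have hk1 : 1 ≤ k := by omega
      rw [← hk]
      have hkr : (1 : ℝ) ≤ k := by exact_mod_cast hk1
      have hpr : (p : ℝ) = 4 * k + 3 := by exact_mod_cast hpk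
      rw [hpr]
      have e1 : 1 + 1 / ((4 : ℝ) * k + 3 - 1) = (4 * k + 3) / (4 * k + 2) := by
        have : (4 : ℝ) * k + 2 ≠ 0 := by positivity
        rw [show (4 : ℝ) * k + 3 - 1 = 4 * k + 2 by ring]
        field_simp
        ring
      have e2 : 1 + 1 / (k : ℝ) = (k + 1) / k := by
        field_simp
      rw [e1, e2, div_pow, div_le_div_iff₀ (by positivity) (by positivity)]
      have e3 : ((k : ℝ) + 1) * (4 * k + 2) ^ 4 - (4 * k + 3) ^ 4 * k = 32 * (k : ℝ) ^ 3 + 80 * k ^ 2 + 63 * k + 16 := by ring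
      have : 0 ≤ 32 * (k : ℝ) ^ 3 + 80 * k ^ 2 + 63 * k + 16 := by positivity
      linarith
  refine h1.trans ?_
  have h2 : ∏ p ∈ S, (1 + 1 / ((p / 4 : ℕ) : ℝ)) = ∏ k ∈ (S.image (fun p : ℕ => p / 4)), (1 + 1 / (k : ℝ)) := by
    rw [prod_image]
    intro p hp q hq hpq
    have := hS p hp
    have := hS q hq
    simp only at hpq
    omega
  rw [h2]
  have h3 := prod_tel k0 hk0 _ (S.image (fun p : ℕ => p / 4)) rfl (by
    intro k hk
    rw [mem_image] at hk
    obtain ⟨p, hp, rfl⟩ := hk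
    have := hS p hp
    omega)
  refine h3.trans ?_
  have h4 : (((S.image (fun p : ℕ => p / 4)).card : ℕ) : ℝ) ≤ N := by exact_mod_cast card_image_le.trans hN
  apply div_le_div_of_nonneg_right _ (by positivity)
  linarith

end Pool.Agent.H770Sun
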