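import Pool.Agent.H770Sun.BC1
import Pool.Agent.H770Sun.NB1

set_option autoImplicit false

/-! The base class modulo `360`. -/

namespace Pool.Agent.H770Sun
open Finset

/-- the primes `3 mod 4` dividing `3 ^ 360 - 1` -/
def exL : List ℕ := [7, 11, 19, 31, 271, 387631, 755551]

lemma killed_card (p m : ℕ) (hm : 0 < m) (h45 : m ∣ 45) (hp : p.Prime) (hp3 : p ≠ 3)
    (hord : ∀ k < 45, (3 ^ (8 * k) - 1) % p = 0 → k % m = 0) (a : ℤ) (c0 : ℕ) :
    ((range 45).filter (fun i => (p : ℤ) ∣ a - 3 ^ (c0 + 8 * i))).card ≤ 45 / m := by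
  have hpp : Prime (p : ℤ) := Nat.prime_iff_prime_int.1 hp
  have key : ∀ i j : ℕ, i < j → j < 45 → (p : ℤ) ∣ a - 3 ^ (c0 + 8 * i) → (p : ℤ) ∣ a - 3 ^ (c0 + 8 * j) → m ∣ j - i := by
    intro i j hij hj h1 h2
    have h3 := dvd_sub h1 h2
    have h4 : a - 3 ^ (c0 + 8 * i) - (a - 3 ^ (c0 + 8 * j)) = (3 : ℤ) ^ (c0 + 8 * i) * (3 ^ (8 * (j - i)) - 1) := by
      have h5 : c0 + 8 * j = c0 + 8 * i + 8 * (j - i) := by omega
      rw [h5, pow_add (3 : ℤ) (c0 + 8 * i)]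
      ring
    rw [h4] at h3
    rcases hpp.dvd_or_dvd h3 with h5 | h5
    · exfalso
      have h6 := hpp.dvd_of_dvd_pow h5
      have h7 : p ∣ 3 := by exact_mod_cast h6
      exact hp3 ((Nat.prime_dvd_prime_iff_eq hp Nat.prime_three).1 h7)
    · have h6 : p ∣ 3 ^ (8 * (j - i)) - 1 := by
        have h7 : ((3 ^ (8 * (j - i)) - 1 : ℕ) : ℤ) = (3 : ℤ) ^ (8 * (j - i)) - 1 := by
          rw [Nat.cast_sub (Nat.one_le_pow _ _ (by norm_num))]
          push_cast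
          rfl
        rw [← h7] at h5
        exact_mod_cast h5
      exact Nat.dvd_of_mod_eq_zero (hord (j - i) (by omega) (Nat.mod_eq_zero_of_dvd h6))
  have h1 : ((range 45).filter (fun i => (p : ℤ) ∣ a - 3 ^ (c0 + 8 * i))).card ≤ (range (45 / m)).card := by
    apply card_le_card_of_injOn (fun i => i / m)
    · intro i hi
      rw [mem_coe, mem_filter, mem_range] at hi
      rw [mem_coe, mem_range]
      apply Nat.div_lt_of_lt_mul
      rw [Nat.mul_div_cancel' h45]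
      exact hi.1
    · intro i hi j hj hij
      rw [mem_coe, mem_filter, mem_range] at hi hj
      simp only at hij
      rcases lt_trichotomy i j with h | h | h
      · exfalso
        obtain ⟨w, hw⟩ := key i j h hj.1 hi.2 hj.2
        have h2 : j = i + m * w := by omega
        rw [h2, Nat.add_mul_div_left _ _ hm] at hij
        have h3 : w = 0 := by omega
        rw [h3] at h2
        omega
      · exact h
      · exfalso
        obtain ⟨w, hw⟩ := key j i h hi.1 hj.2 hi.2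
        have h2 : i = j + m * w := by omega
        rw [h2, Nat.add_mul_div_left _ _ hm] at hij
        have h3 : w = 0 := by omega
        rw [h3] at h2
        omega
  rw [card_range] at h1
  exact h1

/-- the residues modulo `32` and `3` -/
lemma tab : ∀ r < 96, ∃ c < 8, ∃ d < 8,
    ((96000 + r - 3 ^ c - 5 ^ d) % 8 = 1 ∨ (96000 + r - 3 ^ c - 5 ^ d) % 8 = 2 ∨ (96000 + r - 3 ^ c - 5 ^ d) % 8 = 5 ∨
      (96000 + r - 3 ^ c - 5 ^ d) % 32 = 4 ∨ (96000 + r - 3 ^ c - 5 ^ d) % 32 = 8 ∨ (96000 + r - 3 ^ c - 5 ^ d) % 32 = 20) ∧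
    (96000 + r - 5 ^ d) % 3 ≠ 0 := by
  decide +kernel

/-- the conditions for a base class -/
def Base (x : ℤ) : Prop := (x % 8 = 1 ∨ x % 8 = 2 ∨ x % 8 = 5 ∨ x % 32 = 4 ∨ x % 32 = 8 ∨ x % 32 = 20) ∧
  ¬ (3 : ℤ) ∣ x ∧ ∀ p ∈ exL, ¬ (p : ℤ) ∣ x

lemma three_pow (c k : ℕ) : (32 : ℤ) ∣ 3 ^ (c + 8 * k) - 3 ^ c := by
  have h1 : (3 : ℤ) ^ (c + 8 * k) - 3 ^ c = 3 ^ c * ((3 ^ 8) ^ k - 1) := by
    rw [pow_add, pow_mul]
    ring
  rw [h1]
  apply Dvd.dvd.mul_left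
  have h2 : (3 : ℤ) ^ 8 - 1 ∣ (3 ^ 8) ^ k - 1 := by
    have := sub_dvd_pow_sub_pow ((3 : ℤ) ^ 8) 1 k
    rwa [one_pow] at this
  exact dvd_trans (by norm_num) h2

lemma five_pow (d k : ℕ) : (96 : ℤ) ∣ 5 ^ (d + 8 * k) - 5 ^ d := by
  have h1 : (5 : ℤ) ^ (d + 8 * k) - 5 ^ d = 5 ^ d * ((5 ^ 8) ^ k - 1) := by
    rw [pow_add, pow_mul]
    ring
  rw [h1]
  apply Dvd.dvd.mul_left
  have h2 : (5 : ℤ) ^ 8 - 1 ∣ (5 ^ 8) ^ k - 1 := by
    have := sub_dvd_pow_sub_pow ((5 : ℤ) ^ 8) 1 k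
    rwa [one_pow] at this
  exact dvd_trans (by norm_num) h2

lemma exL_prime : ∀ p ∈ exL, p.Prime ∧ p ≠ 3 := by
  intro p hp
  simp only [exL, List.mem_cons, List.not_mem_nil, or_false] at hp
  rcases hp with rfl | rfl | rfl | rfl | rfl | rfl | rfl <;> exact ⟨by norm_num, by norm_num⟩

/-- **there is always a base class** -/
theorem base_class (n Q : ℕ) (hQ : 1 ≤ Q) : ∃ c d : ℕ, Q ≤ c ∧ Q ≤ d ∧ Base ((n : ℤ) - 3 ^ c - 5 ^ d) := by
  classical
  obtain ⟨r, hr⟩ : ∃ r, r = n % 96 := ⟨_, rfl⟩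
  obtain ⟨c', hc', d', hd', h32, h3⟩ := tab r (by omega)
  obtain ⟨d, hd⟩ : ∃ d, d = d' + 8 * Q := ⟨_, rfl⟩
  obtain ⟨c0, hc0⟩ : ∃ c0, c0 = c' + 360 * Q := ⟨_, rfl⟩
  obtain ⟨a, ha⟩ : ∃ a : ℤ, a = (n : ℤ) - 5 ^ d := ⟨_, rfl⟩
  -- the killed classes
  have K1 := killed_card 7 3 (by norm_num) (by norm_num) (by norm_num) (by norm_num) (by decide +kernel) a c0
  have K2 := killed_card 11 5 (by norm_num) (by norm_num) (by norm_num) (by norm_num) (by decide +kernel) a c0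
  have K3 := killed_card 19 9 (by norm_num) (by norm_num) (by norm_num) (by norm_num) (by decide +kernel) a c0
  have K4 := killed_card 31 15 (by norm_num) (by norm_num) (by norm_num) (by norm_num) (by decide +kernel) a c0
  have K5 := killed_card 271 15 (by norm_num) (by norm_num) (by norm_num) (by norm_num) (by decide +kernel) a c0
  have K6 := killed_card 387631 45 (by norm_num) (by norm_num) (by norm_num) (by norm_num) (by decide +kernel) a c0
  have K7 := killed_card 755551 45 (by norm_num) (by norm_num) (by norm_num) (by norm_num) (by decide +kernel) a c0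
  obtain ⟨F, hF⟩ : ∃ F : ℕ → Finset ℕ, F = fun p : ℕ => (range 45).filter (fun i => (p : ℤ) ∣ a - 3 ^ (c0 + 8 * i)) := ⟨_, rfl⟩
  have hU : (F 7 ∪ (F 11 ∪ (F 19 ∪ (F 31 ∪ (F 271 ∪ (F 387631 ∪ F 755551)))))).card < (range 45).card := by
    rw [card_range]
    have u1 := card_union_le (F 7) (F 11 ∪ (F 19 ∪ (F 31 ∪ (F 271 ∪ (F 387631 ∪ F 755551)))))
    have u2 := card_union_le (F 11) (F 19 ∪ (F 31 ∪ (F 271 ∪ (F 387631 ∪ F 755551))))
    have u3 := card_union_le (F 19) (F 31 ∪ (F 271 ∪ (F 387631 ∪ F 755551)))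
    have u4 := card_union_le (F 31) (F 271 ∪ (F 387631 ∪ F 755551))
    have u5 := card_union_le (F 271) (F 387631 ∪ F 755551)
    have u6 := card_union_le (F 387631) (F 755551)
    have k1 : (F 7).card ≤ 45 / 3 := by rw [hF]; exact K1
    have k2 : (F 11).card ≤ 45 / 5 := by rw [hF]; exact K2
    have k3 : (F 19).card ≤ 45 / 9 := by rw [hF]; exact K3
    have k4 : (F 31).card ≤ 45 / 15 := by rw [hF]; exact K4
    have k5 : (F 271).card ≤ 45 / 15 := by rw [hF]; exact K5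
    have k6 : (F 387631).card ≤ 45 / 45 := by rw [hF]; exact K6
    have k7 : (F 755551).card ≤ 45 / 45 := by rw [hF]; exact K7
    omega
  obtain ⟨i, hi1, hi2⟩ := exists_mem_notMem_of_card_lt_card hU
  simp only [mem_union, not_or] at hi2
  obtain ⟨e1, e2, e3, e4, e5, e6, e7⟩ := hi2
  have hi45 := mem_range.1 hi1
  have hnot : ∀ p : ℕ, i ∉ F p → ¬ (p : ℤ) ∣ a - 3 ^ (c0 + 8 * i) := by
    intro p hp hd
    apply hp
    rw [hF]
    exact mem_filter.2 ⟨hi1, hd⟩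
  refine ⟨c0 + 8 * i, d, by omega, by omega, ?_, ?_, ?_⟩
  · -- modulo 32
    have f1 := three_pow c' (45 * Q + i)
    have f2 := five_pow d' Q
    have f3 : c' + 8 * (45 * Q + i) = c0 + 8 * i := by omega
    rw [f3] at f1
    rw [← hd] at f2
    have hX : ((96000 + r - 3 ^ c' - 5 ^ d' : ℕ) : ℤ) = 96000 + r - 3 ^ c' - 5 ^ d' := by
      have g1 : 3 ^ c' ≤ 3 ^ 7 := Nat.pow_le_pow_right (by norm_num) (by omega)
      have g2 : 5 ^ d' ≤ 5 ^ 7 := Nat.pow_le_pow_right (by norm_num) (by omega)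
      have g3 : 3 ^ c' + 5 ^ d' ≤ 96000 + r := by
        have : 3 ^ 7 + 5 ^ 7 ≤ 96000 := by norm_num
        omega
      rw [Nat.sub_sub, Nat.cast_sub g3]
      push_cast
      ring
    obtain ⟨X, hXd⟩ : ∃ X : ℕ, X = 96000 + r - 3 ^ c' - 5 ^ d' := ⟨_, rfl⟩
    rw [← hXd] at h32 hX
    have hn : (n : ℤ) = 96 * ((n / 96 : ℕ) : ℤ) + r := by
      rw [hr]
      exact_mod_cast (Nat.div_add_mod n 96).symm
    obtain ⟨u, hu⟩ := f1
    obtain ⟨v, hv⟩ := f2
    obtain ⟨w, hw⟩ : ∃ w : ℤ, w = ((n / 96 : ℕ) : ℤ) := ⟨_, rfl⟩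
    rw [← hw] at hn
    have hx : (n : ℤ) - 3 ^ (c0 + 8 * i) - 5 ^ d = X + 32 * (3 * w - 3000 - u - 3 * v) := by
      rw [hX, hn]
      linear_combination -hu - hv
    rw [hx]
    omega
  · -- modulo 3
    intro h
    have f1 : (3 : ℤ) ∣ 3 ^ (c0 + 8 * i) := dvd_pow_self _ (by omega)
    have f2 := five_pow d' Q
    rw [← hd] at f2
    have f3 : (3 : ℤ) ∣ 5 ^ d - 5 ^ d' := dvd_trans (by norm_num) f2
    have g2 : 5 ^ d' ≤ 5 ^ 7 := Nat.pow_le_pow_right (by norm_num) (by omega)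
    have hX : ((96000 + r - 5 ^ d' : ℕ) : ℤ) = 96000 + r - 5 ^ d' := by
      have g3 : 5 ^ d' ≤ 96000 + r := by
        have : 5 ^ 7 ≤ 96000 := by norm_num
        omega
      rw [Nat.cast_sub g3]
      push_cast
      ring
    obtain ⟨X, hXd⟩ : ∃ X : ℕ, X = 96000 + r - 5 ^ d' := ⟨_, rfl⟩
    rw [← hXd] at h3 hX
    have hn : (n : ℤ) = 96 * ((n / 96 : ℕ) : ℤ) + r := by
      rw [hr]
      exact_mod_cast (Nat.div_add_mod n 96).symm
    obtain ⟨u, hu⟩ := f1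
    obtain ⟨v, hv⟩ := f3
    obtain ⟨z, hz⟩ := h
    obtain ⟨w, hw⟩ : ∃ w : ℤ, w = ((n / 96 : ℕ) : ℤ) := ⟨_, rfl⟩
    rw [← hw] at hn
    have hx : (X : ℤ) = 3 * (z + u + v + 32000 - 32 * w) := by
      rw [hX]
      linear_combination hz + hu + hv - hn
    omega
  · intro p hp hpd
    have hx : (n : ℤ) - 3 ^ (c0 + 8 * i) - 5 ^ d = a - 3 ^ (c0 + 8 * i) := by rw [ha]; ring
    rw [hx] at hpd
    simp only [exL, List.mem_cons, List.not_mem_nil, or_false] at hp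
    rcases hp with rfl | rfl | rfl | rfl | rfl | rfl | rfl
    · exact hnot _ e1 hpd
    · exact hnot _ e2 hpd
    · exact hnot _ e3 hpd
    · exact hnot _ e4 hpd
    · exact hnot _ e5 hpd
    · exact hnot _ e6 hpd
    · exact hnot _ e7 hpd

/-- the factorization of `3 ^ 90 - 1` -/
def facL : List ℕ := [2, 2, 2, 13, 11, 11, 7, 757, 61, 4561, 19, 37, 31, 271, 181, 1621, 927001, 387631, 755551]

lemma facL_prod : 3 ^ 90 - 1 = prodL facL := by decide +kernel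

lemma facL_prime : ∀ q ∈ facL, q.Prime := by
  intro q hq
  simp only [facL, List.mem_cons, List.not_mem_nil, or_false] at hq
  rcases hq with rfl | rfl | rfl | rfl | rfl | rfl | rfl | rfl | rfl | rfl | rfl | rfl | rfl | rfl | rfl | rfl | rfl | rfl | rfl <;> norm_num

lemma facL_mod : ∀ q ∈ facL, q % 4 = 3 → q ∈ exL := by decide +kernel

/-- the primes `3 mod 4` dividing `3 ^ 360 - 1` -/
lemma ex_mem (p : ℕ) (hp : p.Prime) (hp4 : p % 4 = 3) (hp3 : p ≠ 3) (h : p ∣ 3 ^ 360 - 1) : p ∈ exL := by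
  obtain ⟨n, hn, hpn⟩ := odd_exp p 1 hp hp4 hp3 le_rfl (by rw [mul_one]; exact h)
  have hn0 : n = 0 := by omega
  rw [hn0] at hpn
  have h1 : p ∣ 3 ^ 90 - 1 := by
    have : 90 * (2 * 0 + 1) = 90 := by norm_num
    rwa [this] at hpn
  rw [facL_prod] at h1
  obtain ⟨q, hq, hpq⟩ := prodL_prime _ p hp h1
  have h2 := (Nat.prime_dvd_prime_iff_eq hp (facL_prime q hq)).1 hpq
  rw [h2]
  exact facL_mod q hq (by rw [← h2]; exact hp4)

end Pool.Agent.H770Sun
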