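import Pool.Agent.H770Sun.Core

set_option autoImplicit false

/-! The number of points of a box. -/

namespace Pool.Agent.H770Sun
open Finset

/-- the integers of a class in an interval -/
lemma card_class_bounds (M : ℕ) (hM : 0 < M) (α a0 a1 : ℤ) :
    (((Ioc a0 a1).filter (fun x => (M : ℤ) ∣ x - α)).card : ℝ) ≤ max (((a1 : ℝ) - a0) / M + 1) 0 ∧
    ((a1 : ℝ) - a0) / M - 1 ≤ (((Ioc a0 a1).filter (fun x => (M : ℤ) ∣ x - α)).card : ℝ) := by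
  have hMi : (0 : ℤ) < M := by exact_mod_cast hM
  have hMq : (0 : ℚ) < M := by exact_mod_cast hM
  have h := Int.Ioc_filter_modEq_card a0 a1 (r := (M : ℤ)) hMi α
  have he : (Ioc a0 a1).filter (fun x => x ≡ α [ZMOD M]) = (Ioc a0 a1).filter (fun x => (M : ℤ) ∣ x - α) := by
    apply filter_congr
    intro x _
    rw [Int.modEq_iff_dvd, ← dvd_neg, neg_sub]
  rw [he] at h
  obtain ⟨u, hu⟩ : ∃ u : ℤ, u = ⌊((a1 : ℚ) - α) / ((M : ℤ) : ℚ)⌋ := ⟨_, rfl⟩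
  obtain ⟨v, hv⟩ : ∃ v : ℤ, v = ⌊((a0 : ℚ) - α) / ((M : ℤ) : ℚ)⌋ := ⟨_, rfl⟩
  rw [← hu, ← hv] at h
  have hu1 : (u : ℚ) ≤ ((a1 : ℚ) - α) / M := by rw [hu]; have := Int.floor_le (((a1 : ℚ) - α) / ((M : ℤ) : ℚ)); push_cast at this ⊢; exact this
  have hu2 : ((a1 : ℚ) - α) / M < u + 1 := by rw [hu]; have := Int.lt_floor_add_one (((a1 : ℚ) - α) / ((M : ℤ) : ℚ)); push_cast at this ⊢; exact this
  have hv1 : (v : ℚ) ≤ ((a0 : ℚ) - α) / M := by rw [hv]; have := Int.floor_le (((a0 : ℚ) - α) / ((M : ℤ) : ℚ)); push_cast at this ⊢; exact this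
  have hv2 : ((a0 : ℚ) - α) / M < v + 1 := by rw [hv]; have := Int.lt_floor_add_one (((a0 : ℚ) - α) / ((M : ℤ) : ℚ)); push_cast at this ⊢; exact this
  have e1 : ((a1 : ℚ) - α) / M - ((a0 : ℚ) - α) / M = ((a1 : ℚ) - a0) / M := by rw [← sub_div]; ring
  have k1 : ((u - v : ℤ) : ℚ) ≤ ((a1 : ℚ) - a0) / M + 1 := by push_cast; linarith
  have k2 : ((a1 : ℚ) - a0) / M - 1 ≤ ((u - v : ℤ) : ℚ) := by push_cast; linarith
  have k1' : ((u - v : ℤ) : ℝ) ≤ ((a1 : ℝ) - a0) / M + 1 := by exact_mod_cast k1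
  have k2' : ((a1 : ℝ) - a0) / M - 1 ≤ ((u - v : ℤ) : ℝ) := by exact_mod_cast k2
  have h' : (((Ioc a0 a1).filter (fun x => (M : ℤ) ∣ x - α)).card : ℝ) = max ((u - v : ℤ) : ℝ) 0 := by exact_mod_cast h
  rw [h']
  constructor
  · exact max_le_max k1' le_rfl
  · exact k2'.trans (le_max_left _ _)

lemma Bx_eq (M α β a0 a1 b0 b1 : ℤ) : Bx M α β a0 a1 b0 b1 =
    ((Ioc a0 a1).filter (fun x => M ∣ x - α)) ×ˢ ((Ioc b0 b1).filter (fun x => M ∣ x - β)) := by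
  ext w
  rw [mem_Bx, mem_product, mem_filter, mem_filter, mem_Ioc, mem_Ioc]
  tauto

lemma Bx_upper (M : ℕ) (hM : 0 < M) (α β a0 a1 b0 b1 : ℤ) (X Y : ℝ) (hX : ((a1 : ℝ) - a0) / M + 1 ≤ X) (hX0 : 0 ≤ X)
    (hY : ((b1 : ℝ) - b0) / M + 1 ≤ Y) (hY0 : 0 ≤ Y) :
    ((Bx M α β a0 a1 b0 b1).card : ℝ) ≤ X * Y := by
  rw [Bx_eq, card_product]
  push_cast
  apply mul_le_mul _ _ (by positivity) hX0
  · exact (card_class_bounds M hM α a0 a1).1.trans (max_le hX hX0)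
  · exact (card_class_bounds M hM β b0 b1).1.trans (max_le hY hY0)

lemma Bx_lower (M : ℕ) (hM : 0 < M) (α β a0 a1 b0 b1 : ℤ) (X Y : ℝ) (hX : X ≤ ((a1 : ℝ) - a0) / M - 1) (hX0 : 0 ≤ X)
    (hY : Y ≤ ((b1 : ℝ) - b0) / M - 1) (hY0 : 0 ≤ Y) :
    X * Y ≤ ((Bx M α β a0 a1 b0 b1).card : ℝ) := by
  rw [Bx_eq, card_product]
  push_cast
  apply mul_le_mul _ _ hY0 (by positivity)
  · exact hX.trans (card_class_bounds M hM α a0 a1).2
  · exact hY.trans (card_class_bounds M hM β b0 b1).2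

end Pool.Agent.H770Sun
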