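import Pool.Agent.H770Sun.Pair

set_option autoImplicit false

/-! The number of pairs of points of a flat box with equal norms. -/

namespace Pool.Agent.H770Sun
open Finset

/-- positive solutions of `a² + b² = x² + y²` -/
lemma diag_data (a b x y : ℤ) (ha : 0 < a) (hb : 0 < b) (hx : 0 < x) (hy : 0 < y) (h : x ^ 2 + y ^ 2 = a ^ 2 + b ^ 2)
    (hne : (a, b) ≠ (x, y)) :
    ∃ q l G t : ℕ, 0 < q ∧ 0 < l ∧ 0 < G ∧ 0 < t ∧ (G * q : ℤ) = |y - b| ∧ (G * t : ℤ) = |x - a| ∧
      (l * q : ℤ) = a + x ∧ (l * t : ℤ) = b + y := by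
  have hprod : (x - a) * (a + x) = -((y - b) * (b + y)) := by linarith
  have hd : x - a ≠ 0 := by
    intro h0
    rw [h0, zero_mul] at hprod
    have h1 : (y - b) * (b + y) = 0 := by linarith
    rcases mul_eq_zero.1 h1 with h2 | h2
    · apply hne
      rw [Prod.mk.injEq]
      constructor <;> linarith
    · linarith
  have he : y - b ≠ 0 := by
    intro h0
    rw [h0, zero_mul, neg_zero] at hprod
    rcases mul_eq_zero.1 hprod with h2 | h2
    · exact hd h2
    · linarith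
  have habs : |x - a| * (a + x) = |y - b| * (b + y) := by
    have h1 : |(x - a) * (a + x)| = |(y - b) * (b + y)| := by rw [hprod, abs_neg]
    rw [abs_mul, abs_mul, abs_of_pos (show 0 < a + x by linarith), abs_of_pos (show 0 < b + y by linarith)] at h1
    exact h1
  -- naturals
  obtain ⟨D, hD⟩ : ∃ D : ℕ, D = (x - a).natAbs := ⟨_, rfl⟩
  obtain ⟨E, hE⟩ : ∃ E : ℕ, E = (y - b).natAbs := ⟨_, rfl⟩
  obtain ⟨S, hS⟩ : ∃ S : ℕ, (S : ℤ) = a + x := ⟨(a + x).toNat, by rw [Int.toNat_of_nonneg (by linarith)]⟩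
  obtain ⟨T, hT⟩ : ∃ T : ℕ, (T : ℤ) = b + y := ⟨(b + y).toNat, by rw [Int.toNat_of_nonneg (by linarith)]⟩
  have hDa : (D : ℤ) = |x - a| := by rw [hD, Int.natCast_natAbs]
  have hEa : (E : ℤ) = |y - b| := by rw [hE, Int.natCast_natAbs]
  have hD0 : 0 < D := by rw [hD]; exact Int.natAbs_pos.2 hd
  have hE0 : 0 < E := by rw [hE]; exact Int.natAbs_pos.2 he
  have hmain : D * S = E * T := by
    have : (D : ℤ) * S = E * T := by rw [hDa, hEa, hS, hT]; exact habs
    exact_mod_cast this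
  obtain ⟨G, t, q, hG, hcop, hDt, hEq⟩ := Nat.exists_coprime' (m := D) (n := E) (Nat.gcd_pos_of_pos_left _ hD0)
  have hq0 : 0 < q := by
    rcases Nat.eq_zero_or_pos q with h0 | h0
    · rw [h0, zero_mul] at hEq; omega
    · exact h0
  have ht0 : 0 < t := by
    rcases Nat.eq_zero_or_pos t with h0 | h0
    · rw [h0, zero_mul] at hDt; omega
    · exact h0
  have h1 : t * S = q * T := by
    have h2 : G * (t * S) = G * (q * T) := by
      calc G * (t * S) = (t * G) * S := by ring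
        _ = D * S := by rw [hDt]
        _ = E * T := hmain
        _ = (q * G) * T := by rw [hEq]
        _ = _ := by ring
    exact Nat.eq_of_mul_eq_mul_left hG h2
  have h2 : q ∣ S := by
    have h3 : q ∣ t * S := by rw [h1]; exact dvd_mul_right _ _
    exact (Nat.Coprime.dvd_mul_left hcop.symm).1 h3
  obtain ⟨l, hl⟩ := h2
  have hS0 : 0 < S := by
    have : (0 : ℤ) < S := by rw [hS]; linarith
    exact_mod_cast this
  have hl0 : 0 < l := by
    rcases Nat.eq_zero_or_pos l with h0 | h0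
    · rw [h0, mul_zero] at hl; omega
    · exact h0
  have h3 : T = l * t := by
    rw [hl] at h1
    have h4 : q * T = q * (l * t) := by rw [← h1]; ring
    exact Nat.eq_of_mul_eq_mul_left hq0 h4
  refine ⟨q, l, G, t, hq0, hl0, hG, ht0, ?_, ?_, ?_, ?_⟩
  · rw [← hEa, hEq]; push_cast; ring
  · rw [← hDa, hDt]; push_cast; ring
  · rw [← hS, hl]; push_cast; ring
  · rw [← hT, h3]; push_cast; ring

/-- the pairs of different points with equal norms -/
theorem diag_bound (M α β : ℤ) (A A1 B : ℕ) (hA : 0 < A) :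
    (((Pk M α β A A1 B 0).filter (fun p => p.1 ≠ p.2)).card : ℝ) ≤
      2 * ((B : ℝ) ^ 2 / A) * (2 * A1 * (1 + Real.log B) + B) := by
  classical
  set P := (Pk M α β A A1 B 0).filter (fun p => p.1 ≠ p.2) with hP
  have hAr : (0 : ℝ) < A := by exact_mod_cast hA
  have hdat : ∀ p : (ℤ × ℤ) × (ℤ × ℤ), ∃ c : (ℕ × ℕ) × (ℕ × ℕ), p ∈ P → (0 < c.1.1 ∧ 0 < c.1.2 ∧ 0 < c.2.1 ∧ 0 < c.2.2 ∧
      (c.2.1 * c.1.1 : ℤ) = |p.2.2 - p.1.2| ∧ (c.2.1 * c.2.2 : ℤ) = |p.2.1 - p.1.1| ∧
      (c.1.2 * c.1.1 : ℤ) = p.1.1 + p.2.1 ∧ (c.1.2 * c.2.2 : ℤ) = p.1.2 + p.2.2) := by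
    intro p
    by_cases hp : p ∈ P
    · obtain ⟨h1, h2⟩ := mem_filter.1 hp
      obtain ⟨h3, h4, h5⟩ := mem_Pk.1 h1
      have hw := mem_Bx.1 h3
      have hz := mem_Bx.1 h4
      unfold N2 at h5
      have hA0 : (0 : ℤ) ≤ A := by positivity
      obtain ⟨q, l, G, t, e1, e2, e3, e4, e5, e6, e7, e8⟩ := diag_data p.1.1 p.1.2 p.2.1 p.2.2 (by linarith [hw.1.1]) hw.2.1.1
        (by linarith [hz.1.1]) hz.2.1.1 (by linarith) h2
      exact ⟨((q, l), (G, t)), fun _ => ⟨e1, e2, e3, e4, e5, e6, e7, e8⟩⟩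
    · exact ⟨0, fun h => absurd h hp⟩
  choose c hc using hdat
  -- the set of the pairs `(q, l)`
  set Λ : ℕ → Finset ℕ := fun q => (Icc 1 (2 * (A + A1))).filter (fun l => 2 * A < l * q ∧ l * q ≤ 2 * (A + A1)) with hΛ
  set T := (Icc 1 B).sigma Λ with hT
  have hPpos : ∀ p ∈ P, 0 < p.1.1 ∧ 0 < p.1.2 ∧ 0 < p.2.1 ∧ 0 < p.2.2 ∧ p.1.1 + p.2.1 ≤ 2 * (A + A1) ∧ 2 * (A : ℤ) < p.1.1 + p.2.1 ∧
      p.1.2 + p.2.2 ≤ 2 * B ∧ |p.2.2 - p.1.2| < B := by
    intro p hp
    obtain ⟨h1, h2⟩ := mem_filter.1 hp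
    obtain ⟨h3, h4, h5⟩ := mem_Pk.1 h1
    have hw := mem_Bx.1 h3
    have hz := mem_Bx.1 h4
    have hA0 : (0 : ℤ) ≤ A := by positivity
    refine ⟨by linarith [hw.1.1], hw.2.1.1, by linarith [hz.1.1], hz.2.1.1, by linarith [hw.1.2, hz.1.2],
      by linarith [hw.1.1, hz.1.1], by linarith [hw.2.1.2, hz.2.1.2], abs_e_lt h1⟩
  have hmaps : ∀ p ∈ P, (⟨(c p).1.1, (c p).1.2⟩ : Σ _ : ℕ, ℕ) ∈ T := by
    intro p hp
    obtain ⟨c1, c2, c3, c4, c5, c6, c7, c8⟩ := hc p hp
    obtain ⟨d1, d2, d3, d4, d5, d6, d7, d8⟩ := hPpos p hp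
    rw [hT, mem_sigma, mem_Icc, hΛ]
    simp only
    rw [mem_filter, mem_Icc]
    have e1 : (c p).1.2 * (c p).1.1 ≤ 2 * (A + A1) := by
      have : (((c p).1.2 * (c p).1.1 : ℕ) : ℤ) ≤ 2 * (A + A1) := by push_cast; rw [c7]; exact d5
      exact_mod_cast this
    have e2 : 2 * A < (c p).1.2 * (c p).1.1 := by
      have : 2 * (A : ℤ) < (((c p).1.2 * (c p).1.1 : ℕ) : ℤ) := by push_cast; rw [c7]; exact d6
      exact_mod_cast this
    have e3 : (c p).2.1 * (c p).1.1 < B := by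
      have : (((c p).2.1 * (c p).1.1 : ℕ) : ℤ) < B := by push_cast; rw [c5]; exact d8
      exact_mod_cast this
    refine ⟨⟨c1, ?_⟩, ⟨c2, ?_⟩, e2, e1⟩
    · exact (Nat.le_mul_of_pos_left _ c3).trans e3.le
    · exact (Nat.le_mul_of_pos_right _ c1).trans e1
  have hfib : ∀ s ∈ T, ((P.filter (fun p => (⟨(c p).1.1, (c p).1.2⟩ : Σ _ : ℕ, ℕ) = s)).card : ℝ) ≤ 2 * ((B : ℝ) ^ 2 / A) := by
    rintro ⟨q, l⟩ hs
    rw [hT, mem_sigma, mem_Icc, hΛ] at hs
    simp only at hs
    rw [mem_filter, mem_Icc] at hs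
    obtain ⟨⟨hq1, hqB⟩, ⟨hl1, hl2⟩, hl3, hl4⟩ := hs
    have hqr : (0 : ℝ) < q := by exact_mod_cast hq1
    have hlr : (0 : ℝ) < l := by exact_mod_cast hl1
    have h1 : (P.filter (fun p => (⟨(c p).1.1, (c p).1.2⟩ : Σ _ : ℕ, ℕ) = ⟨q, l⟩)).card ≤
        ((Icc 1 (B / q) ×ˢ Icc 1 (2 * B / l)) ×ˢ (univ : Finset Bool)).card := by
      apply card_le_card_of_injOn (fun p => (((c p).2.1, (c p).2.2), decide (p.1.1 < p.2.1)))
      · intro p hp
        rw [mem_coe, mem_filter] at hp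
        obtain ⟨hp1, hp2⟩ := hp
        obtain ⟨c1, c2, c3, c4, c5, c6, c7, c8⟩ := hc p hp1
        obtain ⟨d1, d2, d3, d4, d5, d6, d7, d8⟩ := hPpos p hp1
        simp only [Sigma.mk.injEq, heq_eq_eq] at hp2
        rw [hp2.1] at c5
        rw [hp2.2] at c8
        rw [mem_coe, mem_product, mem_product, mem_Icc, mem_Icc]
        refine ⟨⟨⟨c3, ?_⟩, ⟨c4, ?_⟩⟩, mem_univ _⟩
        · rw [Nat.le_div_iff_mul_le hq1]
          have : (((c p).2.1 * q : ℕ) : ℤ) ≤ B := by push_cast; rw [c5]; exact d8.le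
          exact_mod_cast this
        · rw [Nat.le_div_iff_mul_le hl1, mul_comm]
          have : ((l * (c p).2.2 : ℕ) : ℤ) ≤ 2 * B := by push_cast; rw [c8]; exact d7
          exact_mod_cast this
      · rintro ⟨⟨a, b⟩, ⟨x, y⟩⟩ hp ⟨⟨a', b'⟩, ⟨x', y'⟩⟩ hp' heq
        rw [mem_coe, mem_filter] at hp hp'
        obtain ⟨hp1, hp2⟩ := hp
        obtain ⟨hp1', hp2'⟩ := hp'
        obtain ⟨c1, c2, c3, c4, c5, c6, c7, c8⟩ := hc _ hp1
        obtain ⟨c1', c2', c3', c4', c5', c6', c7', c8'⟩ := hc _ hp1'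
        have n1 := (mem_Pk.1 (mem_filter.1 hp1).1).2.2
        have n1' := (mem_Pk.1 (mem_filter.1 hp1').1).2.2
        obtain ⟨d1, d2, d3, d4, -⟩ := hPpos _ hp1
        obtain ⟨d1', d2', d3', d4', -⟩ := hPpos _ hp1'
        simp only [Sigma.mk.injEq, heq_eq_eq] at hp2 hp2'
        simp only [Prod.mk.injEq] at heq
        obtain ⟨⟨g1, g2⟩, g3⟩ := heq
        simp only at c5 c6 c7 c8 c5' c6' c7' c8' d1 d2 d3 d4 d1' d2' d3' d4'
        rw [hp2.1] at c5 c7
        rw [hp2.2] at c7 c8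
        rw [hp2'.1, ← g1] at c5'
        rw [← g1, ← g2] at c6'
        rw [hp2'.1, hp2'.2] at c7'
        rw [hp2'.2, ← g2] at c8'
        have s1 : a + x = a' + x' := by rw [← c7, ← c7']
        have s2 : b + y = b' + y' := by rw [← c8, ← c8']
        have s3 : |x - a| = |x' - a'| := by rw [← c6, ← c6']
        have s4 : |y - b| = |y' - b'| := by rw [← c5, ← c5']
        unfold N2 at n1 n1'
        simp only at n1 n1'
        have hprod : (x - a) * (a + x) = -((y - b) * (b + y)) := by linarith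
        have hprod' : (x' - a') * (a' + x') = -((y' - b') * (b' + y')) := by linarith
        have hdec : (a < x) ↔ (a' < x') := by
          have := g3
          simp only [decide_eq_decide] at this
          exact this
        have s5 : x - a = x' - a' := by
          rcases lt_or_ge a x with h | h
          · have h' := hdec.1 h
            rw [abs_of_pos (by linarith), abs_of_pos (by linarith)] at s3
            exact s3
          · have h' : ¬ a' < x' := fun h0 => absurd (hdec.2 h0) (not_lt.2 h)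
            rw [abs_of_nonpos (by linarith), abs_of_nonpos (by linarith)] at s3
            linarith
        have s6 : y - b = y' - b' := by
          rw [s5, s1, hprod', s2] at hprod
          have h2 : (y' - b') * (b' + y') = (y - b) * (b' + y') := by linarith
          exact (mul_right_cancel₀ (show b' + y' ≠ 0 by linarith) h2).symm
        simp only [Prod.mk.injEq]
        refine ⟨⟨by linarith, by linarith⟩, by linarith, by linarith⟩
    rw [card_product, card_product, Nat.card_Icc, Nat.card_Icc, Nat.add_sub_cancel, Nat.add_sub_cancel, card_univ, Fintype.card_bool] at h1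
    have h2 : ((P.filter (fun p => (⟨(c p).1.1, (c p).1.2⟩ : Σ _ : ℕ, ℕ) = ⟨q, l⟩)).card : ℝ) ≤ (((B / q : ℕ) : ℝ) * ((2 * B / l : ℕ) : ℝ)) * 2 := by
      exact_mod_cast h1
    have h3 : ((B / q : ℕ) : ℝ) ≤ B / q := Nat.cast_div_le
    have h4 : ((2 * B / l : ℕ) : ℝ) ≤ (2 * B) / l := by
      have := @Nat.cast_div_le ℝ _ _ _ (2 * B) l
      push_cast at this
      exact this
    have h5 : (2 * B : ℝ) / l ≤ B * q / A := by
      rw [div_le_div_iff₀ hlr hAr]
      have h6 : (2 * A : ℝ) ≤ l * q := by exact_mod_cast hl3.le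
      have h7 : (0 : ℝ) ≤ B := by positivity
      nlinarith
    have h6 : ((B / q : ℕ) : ℝ) * ((2 * B / l : ℕ) : ℝ) ≤ (B / q) * (B * q / A) :=
      mul_le_mul h3 (h4.trans h5) (by positivity) (by positivity)
    have h7 : ((B : ℝ) / q) * (B * q / A) = (B : ℝ) ^ 2 / A := by field_simp
    rw [h7] at h6
    linarith
  have h1 : (P.card : ℝ) ≤ T.card * (2 * ((B : ℝ) ^ 2 / A)) := by
    rw [card_eq_sum_card_fiberwise hmaps]
    push_cast
    refine (sum_le_sum hfib).trans ?_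
    rw [sum_const, nsmul_eq_mul]
  have h2 : (T.card : ℝ) ≤ 2 * A1 * (1 + Real.log B) + B := by
    rw [hT, card_sigma]
    push_cast
    have h3 : ∀ q ∈ Icc 1 B, ((Λ q).card : ℝ) ≤ 2 * A1 * (1 / q) + 1 := by
      intro q hq
      rw [mem_Icc] at hq
      have hqr : (0 : ℝ) < q := by exact_mod_cast hq.1
      have h4 : (Λ q).card = ((Λ q).image (fun l : ℕ => (l : ℤ))).card := by
        rw [card_image_of_injective _ Nat.cast_injective]
      have h5 : ((Λ q).image (fun l : ℕ => (l : ℤ))).card ≤ (2 * A1 / q) / 1 + 1 := by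
        apply card_cong _ _ _ one_pos
        intro x hx y hy
        refine ⟨by simp, ?_⟩
        obtain ⟨l1, hl1, rfl⟩ := mem_image.1 hx
        obtain ⟨l2, hl2, rfl⟩ := mem_image.1 hy
        rw [hΛ] at hl1 hl2
        simp only at hl1 hl2
        rw [mem_filter] at hl1 hl2
        push_cast
        rw [Int.le_ediv_iff_mul_le (by exact_mod_cast hq.1)]
        have g1 : ((l1 * q : ℕ) : ℤ) ≤ 2 * (A + A1) := by exact_mod_cast hl1.2.2
        have g2 : 2 * (A : ℤ) ≤ ((l2 * q : ℕ) : ℤ) := by exact_mod_cast hl2.2.1.le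
        push_cast at g1 g2
        linarith
      rw [Nat.div_one] at h5
      rw [h4]
      have h6 : (((Λ q).image (fun l : ℕ => (l : ℤ))).card : ℝ) ≤ ((2 * A1 / q : ℕ) : ℝ) + 1 := by exact_mod_cast h5
      have h7 : ((2 * A1 / q : ℕ) : ℝ) ≤ (2 * A1) / q := by
        have := @Nat.cast_div_le ℝ _ _ _ (2 * A1) q
        push_cast at this
        exact this
      have h8 : (2 * A1 : ℝ) / q = 2 * A1 * (1 / q) := by ring
      linarith
    refine (sum_le_sum h3).trans ?_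
    rw [sum_add_distrib, ← mul_sum, sum_const, Nat.card_Icc, Nat.add_sub_cancel, nsmul_eq_mul, mul_one]
    have h9 : ∑ q ∈ Icc 1 B, (1 : ℝ) / q ≤ 1 + Real.log B := by
      have := harmonic_le_one_add_log B
      rw [harmonic_eq_sum_Icc] at this
      push_cast at this
      simpa [one_div] using this
    have : (2 * A1 : ℝ) * ∑ q ∈ Icc 1 B, (1 : ℝ) / q ≤ 2 * A1 * (1 + Real.log B) := mul_le_mul_of_nonneg_left h9 (by positivity)
    linarith
  calc (P.card : ℝ) ≤ T.card * (2 * ((B : ℝ) ^ 2 / A)) := h1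
    _ ≤ (2 * A1 * (1 + Real.log B) + B) * (2 * ((B : ℝ) ^ 2 / A)) := mul_le_mul_of_nonneg_right h2 (by positivity)
    _ = _ := by ring

/-- the number of the pairs of points with equal norms -/
theorem Pk_zero (M α β : ℤ) (A A1 B : ℕ) (hA : 0 < A) :
    ((Pk M α β A A1 B 0).card : ℝ) ≤ (Bx M α β A (A + A1) 0 B).card +
      2 * ((B : ℝ) ^ 2 / A) * (2 * A1 * (1 + Real.log B) + B) := by
  classical
  have h1 := diag_bound M α β A A1 B hA
  have h2 : ((Pk M α β A A1 B 0).filter (fun p => ¬ p.1 ≠ p.2)).card ≤ (Bx M α β A (A + A1) 0 B).card := by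
    apply card_le_card_of_injOn (fun p => p.1)
    · intro p hp
      rw [mem_coe, mem_filter] at hp
      exact (mem_Pk.1 hp.1).1
    · intro p hp q hq hpq
      rw [mem_coe, mem_filter, not_not] at hp hq
      simp only at hpq
      exact Prod.ext hpq (by rw [← hp.2, ← hq.2, hpq])
  have h3 : (Pk M α β A A1 B 0).card = ((Pk M α β A A1 B 0).filter (fun p => p.1 ≠ p.2)).card +
      ((Pk M α β A A1 B 0).filter (fun p => ¬ p.1 ≠ p.2)).card := by
    rw [card_filter_add_card_filter_not]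
  rw [h3]
  push_cast
  have h2' : (((Pk M α β A A1 B 0).filter (fun p => ¬ p.1 ≠ p.2)).card : ℝ) ≤ (Bx M α β A (A + A1) 0 B).card := by exact_mod_cast h2
  linarith

end Pool.Agent.H770Sun
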