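import Pool.Agent.H770Sun.Pair2
import Pool.Agent.H770Sun.Diag

set_option autoImplicit false

/-! First and second moments of the number of representations by shifted norms of a flat box. -/

namespace Pool.Agent.H770Sun
open Finset

/-- the number of representations `n = h + N(w)` -/
noncomputable def rep (H : Finset ℕ) (Ω : Finset (ℤ × ℤ)) (n : ℤ) : ℕ :=
  ((H ×ˢ Ω).filter (fun q => (q.1 : ℤ) + N2 q.2 = n)).card

lemma first_moment (M α β : ℤ) (A A1 B δ : ℕ) (H : Finset ℕ) (hH : ∀ h ∈ H, h ≤ B ^ 2) (hδ : δ ≤ A1)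
    (hδ2 : 2 * B ^ 2 ≤ δ * A) :
    H.card * (Bx M α β A (A + A1 - δ) 0 B).card ≤
      ∑ n ∈ Ioc ((A : ℤ) ^ 2) (((A : ℤ) + A1) ^ 2), rep H (Bx M α β A (A + A1) 0 B) n := by
  classical
  have h1 : ∑ n ∈ Ioc ((A : ℤ) ^ 2) (((A : ℤ) + A1) ^ 2), rep H (Bx M α β A (A + A1) 0 B) n =
      ((H ×ˢ (Bx M α β A (A + A1) 0 B)).filter (fun q => (q.1 : ℤ) + N2 q.2 ∈ Ioc ((A : ℤ) ^ 2) (((A : ℤ) + A1) ^ 2))).card := by
    unfold rep
    rw [card_eq_sum_card_fiberwise (f := fun q : ℕ × (ℤ × ℤ) => (q.1 : ℤ) + N2 q.2) (t := Ioc ((A : ℤ) ^ 2) (((A : ℤ) + A1) ^ 2))]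
    · apply sum_congr rfl
      intro n hn
      congr 1
      ext q
      rw [mem_filter, mem_filter, mem_filter]
      constructor
      · rintro ⟨h1, h2⟩
        exact ⟨⟨h1, by rw [h2]; exact hn⟩, h2⟩
      · rintro ⟨⟨h1, _⟩, h2⟩
        exact ⟨h1, h2⟩
    · intro q hq
      exact (mem_filter.1 hq).2
  rw [h1, ← card_product]
  apply card_le_card
  rintro ⟨h, w⟩ hq
  rw [mem_product] at hq
  obtain ⟨hh, hw⟩ := hq
  simp only at hh hw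
  have hw' := mem_Bx.1 hw
  rw [mem_filter, mem_product]
  have hδi : (δ : ℤ) ≤ A1 := by exact_mod_cast hδ
  have hδ2i : 2 * (B : ℤ) ^ 2 ≤ δ * A := by exact_mod_cast hδ2
  have hhi : (h : ℤ) ≤ (B : ℤ) ^ 2 := by exact_mod_cast hH h hh
  have hh0 : (0 : ℤ) ≤ h := by positivity
  have hA0 : (0 : ℤ) ≤ A := by positivity
  have hδ0 : (0 : ℤ) ≤ δ := by positivity
  refine ⟨⟨hh, ?_⟩, ?_⟩
  · rw [mem_Bx]
    exact ⟨⟨hw'.1.1, by linarith [hw'.1.2]⟩, hw'.2⟩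
  · rw [mem_Ioc]
    simp only
    unfold N2
    obtain ⟨⟨a1, a2⟩, ⟨b1, b2⟩, _⟩ := hw'
    constructor
    · nlinarith
    · have h3 : w.2 ^ 2 ≤ (B : ℤ) ^ 2 := by nlinarith
      have h4 : w.1 ^ 2 ≤ ((A : ℤ) + A1 - δ) ^ 2 := by nlinarith
      have h5 : ((A : ℤ) + A1 - δ) ^ 2 + 2 * B ^ 2 ≤ (A + A1) ^ 2 := by nlinarith
      linarith

lemma second_moment (M α β : ℤ) (A A1 B : ℕ) (H : Finset ℕ) (T : Finset ℤ) :
    ∑ n ∈ T, (rep H (Bx M α β A (A + A1) 0 B) n) ^ 2 ≤ ∑ h ∈ H, ∑ h' ∈ H, (Pk M α β A A1 B ((h : ℤ) - h')).card := by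
  classical
  set Ω := Bx M α β A (A + A1) 0 B with hΩ
  set φ : ℕ × (ℤ × ℤ) → ℤ := fun q => (q.1 : ℤ) + N2 q.2 with hφ
  set D := ((H ×ˢ Ω) ×ˢ (H ×ˢ Ω)).filter (fun q => φ q.1 = φ q.2) with hD
  have h1 : ∑ n ∈ T, (rep H Ω n) ^ 2 ≤ D.card := by
    have h2 : ∀ n ∈ T, (rep H Ω n) ^ 2 = (D.filter (fun q => φ q.1 = n)).card := by
      intro n _
      unfold rep
      rw [sq, ← card_product]
      congr 1
      ext q
      simp only [hD, mem_product, mem_filter, hφ]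
      constructor
      · rintro ⟨⟨h1, h2⟩, h3, h4⟩
        exact ⟨⟨⟨h1, h3⟩, by rw [h2, h4]⟩, h2⟩
      · rintro ⟨⟨⟨h1, h3⟩, h4⟩, h2⟩
        exact ⟨⟨h1, h2⟩, h3, by rw [← h4]; exact h2⟩
    rw [sum_congr rfl h2]
    have h3 : ∑ n ∈ T, (D.filter (fun q => φ q.1 = n)).card = (D.filter (fun q => φ q.1 ∈ T)).card := by
      rw [card_eq_sum_card_fiberwise (f := fun q => φ q.1) (t := T)]
      · apply sum_congr rfl
        intro n hn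
        congr 1
        ext q
        simp only [mem_filter]
        constructor
        · rintro ⟨h1, h2⟩
          exact ⟨⟨h1, by rw [h2]; exact hn⟩, h2⟩
        · rintro ⟨⟨h1, _⟩, h2⟩
          exact ⟨h1, h2⟩
      · intro q hq
        exact (mem_filter.1 hq).2
    rw [h3]
    exact card_filter_le _ _
  refine h1.trans ?_
  have h2 : D.card = ∑ s ∈ H ×ˢ H, (D.filter (fun q => (q.1.1, q.2.1) = s)).card := by
    apply card_eq_sum_card_fiberwise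
    intro q hq
    rw [hD, mem_coe, mem_filter, mem_product, mem_product, mem_product] at hq
    rw [mem_coe, mem_product]
    exact ⟨hq.1.1.1, hq.1.2.1⟩
  rw [h2, sum_product]
  apply sum_le_sum
  intro h _
  apply sum_le_sum
  intro h' _
  apply card_le_card_of_injOn (fun q => (q.1.2, q.2.2))
  · intro q hq
    rw [mem_coe, mem_filter, hD, mem_filter, mem_product, mem_product, mem_product] at hq
    obtain ⟨⟨⟨⟨q1, q2⟩, q3, q4⟩, q5⟩, q6⟩ := hq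
    rw [Prod.mk.injEq] at q6
    rw [mem_coe, mem_Pk]
    refine ⟨q2, q4, ?_⟩
    simp only [hφ] at q5
    rw [q6.1, q6.2] at q5
    linarith
  · intro q hq q' hq' heq
    rw [mem_coe, mem_filter] at hq hq'
    obtain ⟨_, q6⟩ := hq
    obtain ⟨_, q6'⟩ := hq'
    rw [Prod.mk.injEq] at q6 q6'
    simp only [Prod.mk.injEq] at heq
    refine Prod.ext (Prod.ext ?_ heq.1) (Prod.ext ?_ heq.2)
    · rw [q6.1, q6'.1]
    · rw [q6.2, q6'.2]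

/-- the number of integers of a class that are not represented -/
theorem good_bad (M A A1 B : ℕ) (α β ν : ℤ) (hM2 : 2 ∣ M) (hM : 0 < M) (H : Finset ℕ)
    (hν : ∀ h ∈ H, (2 * M : ℤ) ∣ ν - h - α ^ 2 - β ^ 2) (S1 S2 : ℝ) (hS10 : 0 ≤ S1) (hS20 : 0 < S2)
    (hS1 : S1 ≤ ∑ n ∈ Ioc ((A : ℤ) ^ 2) (((A : ℤ) + A1) ^ 2), (rep H (Bx M α β A (A + A1) 0 B) n : ℝ))
    (hS2 : ∑ n ∈ Ioc ((A : ℤ) ^ 2) (((A : ℤ) + A1) ^ 2), (rep H (Bx M α β A (A + A1) 0 B) n : ℝ) ^ 2 ≤ S2)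
    (T : Finset ℤ) (hT : ∀ n ∈ T, n ∈ Ioc ((A : ℤ) ^ 2) (((A : ℤ) + A1) ^ 2) ∧ (2 * M : ℤ) ∣ n - ν ∧
      ¬ ∃ h ∈ H, ∃ a b : ℤ, n = h + a ^ 2 + b ^ 2) :
    (T.card : ℝ) ≤ (((A : ℝ) + A1) ^ 2 - (A : ℝ) ^ 2) / (2 * M) + 1 - S1 ^ 2 / S2 := by
  classical
  set Ω := Bx M α β A (A + A1) 0 B with hΩ
  set 𝔅 := Ioc ((A : ℤ) ^ 2) (((A : ℤ) + A1) ^ 2) with h𝔅
  set Gd := 𝔅.filter (fun n => rep H Ω n ≠ 0) with hGd
  have hrep : ∀ n : ℤ, rep H Ω n ≠ 0 → (2 * M : ℤ) ∣ n - ν ∧ ∃ h ∈ H, ∃ a b : ℤ, n = h + a ^ 2 + b ^ 2 := by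
    intro n hn
    unfold rep at hn
    obtain ⟨⟨h, w⟩, hq⟩ := card_pos.1 (Nat.pos_of_ne_zero hn)
    rw [mem_filter, mem_product] at hq
    obtain ⟨⟨hh, hw⟩, hn2⟩ := hq
    simp only at hh hw hn2
    have hw' := mem_Bx.1 hw
    unfold N2 at hn2
    refine ⟨?_, h, hh, w.1, w.2, by linarith⟩
    have hsq : ∀ x y : ℤ, (M : ℤ) ∣ x - y → (2 * M : ℤ) ∣ x ^ 2 - y ^ 2 := by
      intro x y hxy
      obtain ⟨c, hc⟩ := hxy
      obtain ⟨m, hm⟩ := hM2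
      have hxe : x = y + M * c := by linarith
      have hMe : (M : ℤ) = 2 * m := by rw [hm]; push_cast; ring
      refine ⟨c * (y + m * c), ?_⟩
      rw [hxe]
      have : (M : ℤ) ^ 2 = M * (2 * m) := by rw [← hMe]; ring
      calc (y + M * c) ^ 2 - y ^ 2 = 2 * M * c * y + M ^ 2 * c ^ 2 := by ring
        _ = 2 * M * c * y + M * (2 * m) * c ^ 2 := by rw [this]
        _ = _ := by ring
    have h1 := hsq w.1 α hw'.2.2.1
    have h2 := hsq w.2 β hw'.2.2.2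
    have h3 := hν h hh
    have h4 : n - ν = (w.1 ^ 2 - α ^ 2) + (w.2 ^ 2 - β ^ 2) - (ν - h - α ^ 2 - β ^ 2) := by rw [← hn2]; ring
    rw [h4]
    exact dvd_sub (dvd_add h1 h2) h3
  -- Cauchy-Schwarz
  have hcs : S1 ^ 2 ≤ Gd.card * S2 := by
    have h1 : ∑ n ∈ 𝔅, (rep H Ω n : ℝ) = ∑ n ∈ Gd, (rep H Ω n : ℝ) := by
      rw [hGd]
      symm
      apply sum_filter_of_ne
      intro n _ h
      exact_mod_cast h
    have h2 : (∑ n ∈ Gd, (rep H Ω n : ℝ)) ^ 2 ≤ Gd.card * ∑ n ∈ Gd, (rep H Ω n : ℝ) ^ 2 := sq_sum_le_card_mul_sum_sq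
    have h3 : ∑ n ∈ Gd, (rep H Ω n : ℝ) ^ 2 ≤ ∑ n ∈ 𝔅, (rep H Ω n : ℝ) ^ 2 :=
      sum_le_sum_of_subset_of_nonneg (filter_subset _ _) (fun _ _ _ => by positivity)
    calc S1 ^ 2 ≤ (∑ n ∈ 𝔅, (rep H Ω n : ℝ)) ^ 2 := pow_le_pow_left₀ hS10 hS1 2
      _ = (∑ n ∈ Gd, (rep H Ω n : ℝ)) ^ 2 := by rw [h1]
      _ ≤ Gd.card * ∑ n ∈ Gd, (rep H Ω n : ℝ) ^ 2 := h2
      _ ≤ Gd.card * S2 := mul_le_mul_of_nonneg_left (h3.trans hS2) (by positivity)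
  have hG : S1 ^ 2 / S2 ≤ Gd.card := by
    rw [div_le_iff₀ hS20]
    exact hcs
  -- the class
  have hdisj : Disjoint T Gd := by
    rw [disjoint_left]
    intro n hn hn2
    exact (hT n hn).2.2 (hrep n (mem_filter.1 hn2).2).2
  have hsub : T ∪ Gd ⊆ 𝔅.filter (fun n => (2 * M : ℤ) ∣ n - ν) := by
    intro n hn
    rw [mem_union] at hn
    rw [mem_filter]
    rcases hn with hn | hn
    · exact ⟨(hT n hn).1, (hT n hn).2.1⟩
    · exact ⟨(mem_filter.1 hn).1, (hrep n (mem_filter.1 hn).2).1⟩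
  have hcls : ((𝔅.filter (fun n => (2 * M : ℤ) ∣ n - ν)).card : ℝ) ≤ (((A : ℝ) + A1) ^ 2 - (A : ℝ) ^ 2) / (2 * M) + 1 := by
    obtain ⟨L, hL⟩ : ∃ L : ℕ, L = (A + A1) ^ 2 - A ^ 2 := ⟨_, rfl⟩
    have hle : A ^ 2 ≤ (A + A1) ^ 2 := Nat.pow_le_pow_left (by omega) 2
    have h1 : (𝔅.filter (fun n => (2 * M : ℤ) ∣ n - ν)).card ≤ L / (2 * M) + 1 := by
      apply card_cong _ _ _ (by positivity)
      intro x hx y hy
      rw [mem_filter, h𝔅, mem_Ioc] at hx hy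
      constructor
      · push_cast
        have := dvd_sub hx.2 hy.2
        simpa using this
      · rw [hL]
        push_cast [hle]
        linarith [hx.1.2, hy.1.1]
    have h2 : ((L / (2 * M) : ℕ) : ℝ) ≤ (L : ℝ) / (2 * M) := by
      have := @Nat.cast_div_le ℝ _ _ _ L (2 * M)
      push_cast at this
      exact this
    have h3 : (L : ℝ) = ((A : ℝ) + A1) ^ 2 - (A : ℝ) ^ 2 := by rw [hL]; push_cast [hle]; ring
    have h4 : ((𝔅.filter (fun n => (2 * M : ℤ) ∣ n - ν)).card : ℝ) ≤ ((L / (2 * M) : ℕ) : ℝ) + 1 := by exact_mod_cast h1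
    rw [← h3]
    linarith
  have hcard : (T.card : ℝ) + Gd.card ≤ ((𝔅.filter (fun n => (2 * M : ℤ) ∣ n - ν)).card : ℝ) := by
    rw [← Nat.cast_add, ← card_union_of_disjoint hdisj]
    exact_mod_cast card_le_card hsub
  linarith

end Pool.Agent.H770Sun
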