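import Mathlib
import Pool.Agent.H505R2.DivB

set_option autoImplicit false

/-! The choice of the parameters. -/

namespace Pool.Agent.H770Sun
open Finset Filter Topology

lemma tendsto_log2 : Tendsto (fun A : ℕ => Nat.log 2 A) atTop atTop := by
  rw [tendsto_atTop_atTop]
  intro b
  refine ⟨2 ^ b, fun A hA => ?_⟩
  exact Nat.le_log_of_pow_le (by norm_num) hA

lemma tendsto_div_nat (d : ℕ) (hd : 0 < d) : Tendsto (fun A : ℕ => Nat.log 2 A / d) atTop atTop := by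
  have h : Tendsto (fun n : ℕ => n / d) atTop atTop := by
    rw [tendsto_atTop_atTop]
    intro b
    refine ⟨b * d, fun n hn => ?_⟩
    exact (Nat.le_div_iff_mul_le hd).2 hn
  exact h.comp tendsto_log2

lemma tendsto_s1 : Tendsto (fun A : ℕ => 1 / (Nat.log 2 A : ℝ)) atTop (𝓝 0) := by
  have h : Tendsto (fun A : ℕ => (Nat.log 2 A : ℝ)) atTop atTop := tendsto_natCast_atTop_atTop.comp tendsto_log2
  exact (tendsto_inv_atTop_zero.comp h).congr (fun A => by simp [one_div])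

lemma tendsto_s3 (d : ℕ) (hd : 0 < d) : Tendsto (fun A : ℕ => 1 / (2 : ℝ) ^ (Nat.log 2 A / d)) atTop (𝓝 0) := by
  have h : Tendsto (fun n : ℕ => (2 : ℝ) ^ n) atTop atTop := tendsto_pow_atTop_atTop_of_one_lt (by norm_num)
  have h2 := h.comp (tendsto_div_nat d hd)
  exact (tendsto_inv_atTop_zero.comp h2).congr (fun A => by simp [one_div])

lemma tendsto_s2 : Tendsto (fun A : ℕ => (Nat.log 2 A : ℝ) ^ 2 / (2 : ℝ) ^ (Nat.log 2 A / 8)) atTop (𝓝 0) := by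
  -- `L ≤ 8 t + 7` with `t = L / 8`
  have h1 : Tendsto (fun t : ℕ => ((8 * (t : ℝ) + 8) ^ 2) / (2 : ℝ) ^ t) atTop (𝓝 0) := by
    have e : (fun t : ℕ => ((8 * (t : ℝ) + 8) ^ 2) / (2 : ℝ) ^ t) =
        (fun t : ℕ => 64 * ((t : ℝ) ^ 2 / 2 ^ t) + 128 * ((t : ℝ) ^ 1 / 2 ^ t) + 64 * ((t : ℝ) ^ 0 / 2 ^ t)) := by
      funext t
      ring
    rw [e]
    have h (k : ℕ) : Tendsto (fun t : ℕ => (t : ℝ) ^ k / 2 ^ t) atTop (𝓝 0) :=
      tendsto_pow_const_div_const_pow_of_one_lt k (by norm_num)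
    have := (((h 2).const_mul 64).add ((h 1).const_mul 128)).add ((h 0).const_mul 64)
    simpa using this
  have h2 := h1.comp (tendsto_div_nat 8 (by norm_num))
  apply squeeze_zero (fun A => by positivity) _ h2
  intro A
  simp only [Function.comp]
  apply div_le_div_of_nonneg_right _ (by positivity)
  apply pow_le_pow_left₀ (by positivity)
  have h3 : Nat.log 2 A ≤ 8 * (Nat.log 2 A / 8) + 8 := by omega
  exact_mod_cast h3

lemma aux_pow (n : ℕ) (hn : 10 ≤ n) : 2 * n ^ 2 ≤ 2 ^ n := by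
  induction n, hn using Nat.le_induction with
  | base => norm_num
  | succ n hn ih =>
    have e1 : 2 ^ (n + 1) = 2 ^ n * 2 := pow_succ 2 n
    have e2 : 2 * (n + 1) ^ 2 ≤ 2 * (2 * n ^ 2) := by
      apply Nat.mul_le_mul_left
      nlinarith
    rw [e1]
    omega

lemma aux_Blo (A L B : ℝ) (hL : 10 ≤ L) (h : 2 * L ^ 2 ≤ A) (h2 : A < L * (B + 1)) : A ≤ B * (2 * L) := by
  nlinarith

lemma aux_log (L x l : ℝ) (hL : 10 ≤ L) (h4 : x ≤ (L + 1) * l) (h5 : l < 0.6931471808) : x ≤ L + 1 := by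
  nlinarith

set_option maxHeartbeats 4000000 in
/-- the choice of the parameters -/
theorem params (M K : ℕ) (hM : 0 < M) (hK : 0 < K) (c ε : ℝ) (hc : 0 < c) (hε : 0 < ε) :
    ∃ A0 : ℕ, ∀ A ≥ A0, ∃ κ J r K0 τ : ℕ, 0 < K0 ∧ 0 < J ∧ 0 < A / Nat.log 2 A ∧ A / Nat.log 2 A ≤ A ∧ 0 < A ∧
      M * M ^ κ * J + K0 * ((A / Nat.log 2 A) ^ 2 / A) ≤ K0 * r ∧
      (∀ n : ℕ, 1 ≤ n → n ≤ 3 * (A / Nat.log 2 A) ^ 2 → n.divisors.card ≤ τ) ∧
      (2 * r + ((A / Nat.log 2 A : ℕ) : ℝ) / K0 ≤ ε * ((A / Nat.log 2 A : ℕ) : ℝ)) ∧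
      ((A : ℝ) / J ≤ ε) ∧
      ((K : ℝ) * (((A / Nat.log 2 A : ℕ) : ℝ) + M) ≤ ε * A) ∧
      (2 * (r : ℝ) + M ≤ ε * ((A / Nat.log 2 A : ℕ) : ℝ)) ∧
      ((τ : ℝ) / 2 ^ κ ≤ ε) ∧
      (2 * (τ : ℝ) * M ^ 3 * A ≤ ε * ((A / Nat.log 2 A : ℕ) : ℝ) ^ 2) ∧
      (2 * (τ : ℝ) ^ 2 * (2 * K0 + 1) * M ^ 3 * K ≤ ε * ((A / Nat.log 2 A : ℕ) : ℝ)) ∧
      (4 * (M : ℝ) ^ 3 * A ≤ ε * c * (Nat.log 2 A : ℝ) ^ 2 * ((A / Nat.log 2 A : ℕ) : ℝ)) ∧
      (2 * (M : ℝ) ^ 3 * (2 * (1 + Real.log ((A / Nat.log 2 A : ℕ) : ℝ)) + 1) ≤ ε * c * (Nat.log 2 A : ℝ) ^ 2) ∧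
      ((K : ℝ) * (((2 * (A / Nat.log 2 A) ^ 2 / A : ℕ) : ℝ) + 1 + M) ≤ ε * A) ∧
      ((M : ℝ) ≤ ε * ((A / Nat.log 2 A : ℕ) : ℝ)) ∧
      ((M : ℝ) * K ≤ ε * (A : ℝ) ^ 2) ∧ (1 ≤ Nat.log 2 A) := by
  -- the constant in the divisor bound
  obtain ⟨C, hC1, hC⟩ : ∃ C : ℕ, 1 ≤ C ∧ ∀ n : ℕ, n ≠ 0 → (n.divisors.card) ^ (32 * M) ≤ C * n :=
    ⟨((32 * M) ^ (32 * M) * 2) ^ (2 ^ (32 * M)), Nat.one_le_pow _ _ (by positivity),
      fun n hn => Pool.Agent.H505R2.card_divisors_pow_le (32 * M) (by omega) n hn⟩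
  obtain ⟨C3, hC3⟩ : ∃ C3 : ℕ, C3 = 24 * C := ⟨_, rfl⟩
  have hC31 : 1 ≤ C3 := by omega
  have hMr : (1 : ℝ) ≤ M := by exact_mod_cast hM
  have hKr : (1 : ℝ) ≤ K := by exact_mod_cast hK
  have hC3r : (1 : ℝ) ≤ C3 := by exact_mod_cast hC31
  -- eventually
  have ev1 : ∀ᶠ A : ℕ in atTop, 1 / (Nat.log 2 A : ℝ) ≤ min (ε / (20 * (M : ℝ) ^ 3 * K)) (ε * c / (20 * (M : ℝ) ^ 3 * K)) :=
    tendsto_s1.eventually (eventually_le_nhds (by positivity))
  have ev2 : ∀ᶠ A : ℕ in atTop, (Nat.log 2 A : ℝ) ^ 2 / (2 : ℝ) ^ (Nat.log 2 A / 8) ≤ ε / (40 * (C3 : ℝ) ^ 2 * M ^ 3 * K) :=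
    tendsto_s2.eventually (eventually_le_nhds (by positivity))
  have ev3 : ∀ᶠ A : ℕ in atTop, 1 / (2 : ℝ) ^ (Nat.log 2 A / (16 * M)) ≤ ε / C3 :=
    (tendsto_s3 (16 * M) (by positivity)).eventually (eventually_le_nhds (by positivity))
  have ev4 : ∀ᶠ A : ℕ in atTop, 10 ≤ Nat.log 2 A := tendsto_log2.eventually (eventually_ge_atTop 10)
  obtain ⟨A0, hA0⟩ := eventually_atTop.1 (((ev1.and ev2).and (ev3.and ev4)).and (eventually_ge_atTop 1024))
  refine ⟨A0, fun A hA => ?_⟩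
  obtain ⟨⟨⟨g1, g2⟩, g3, g4⟩, g5⟩ := hA0 A hA
  obtain ⟨L, hL⟩ : ∃ L, L = Nat.log 2 A := ⟨_, rfl⟩
  rw [← hL] at g1 g2 g3 g4 ⊢
  obtain ⟨B, hB⟩ : ∃ B, B = A / L := ⟨_, rfl⟩
  rw [← hB]
  have hApos : 0 < A := by omega
  have hAr : (0 : ℝ) < A := by exact_mod_cast hApos
  have hLr : (10 : ℝ) ≤ L := by exact_mod_cast g4
  have hL0 : (0 : ℝ) < L := by linarith
  -- bounds for `A`
  have hAlo : 2 ^ L ≤ A := by rw [hL]; exact Nat.pow_log_le_self 2 (by omega)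
  have hAhi : A < 2 ^ (L + 1) := by rw [hL]; exact Nat.lt_pow_succ_log_self (by norm_num) A
  -- `2 L² ≤ A`
  have hL2A : 2 * L ^ 2 ≤ A := (aux_pow L g4).trans hAlo
  have hL2Ar : 2 * (L : ℝ) ^ 2 ≤ A := by exact_mod_cast hL2A
  obtain ⟨q, hq⟩ : ∃ q : ℕ, q = 2 ^ (L / 8) := ⟨_, rfl⟩
  obtain ⟨q2, hq2⟩ : ∃ q2 : ℕ, q2 = 2 ^ (L / (16 * M)) := ⟨_, rfl⟩
  have hqr : (q : ℝ) = (2 : ℝ) ^ (L / 8) := by rw [hq]; push_cast; rfl
  have hq2r : (q2 : ℝ) = (2 : ℝ) ^ (L / (16 * M)) := by rw [hq2]; push_cast; rfl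
  rw [← hqr] at g2
  rw [← hq2r] at g3
  have hq1 : 1 ≤ q := by rw [hq]; exact Nat.one_le_two_pow
  have hq21 : 1 ≤ q2 := by rw [hq2]; exact Nat.one_le_two_pow
  have hq1r : (1 : ℝ) ≤ q := by exact_mod_cast hq1
  have hq21r : (1 : ℝ) ≤ q2 := by exact_mod_cast hq21
  have hq0 : (0 : ℝ) < q := by linarith
  have hq20 : (0 : ℝ) < q2 := by linarith
  have hq8 : q ^ 8 ≤ A := by
    refine le_trans ?_ hAlo
    rw [hq, ← pow_mul]
    exact Nat.pow_le_pow_right (by norm_num) (by omega)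
  have hq8r : (q : ℝ) ^ 8 ≤ A := by exact_mod_cast hq8
  have hdiv16 : 16 * M * (L / (16 * M)) ≤ L := Nat.mul_div_le _ _
  have hdiv8 : 8 * M * (L / (8 * M)) ≤ L := Nat.mul_div_le _ _
  have hq2q : q2 ^ 2 ≤ q := by
    rw [hq, hq2, ← pow_mul]
    apply Nat.pow_le_pow_right (by norm_num)
    rw [Nat.le_div_iff_mul_le (by norm_num)]
    have h1 : 16 * 1 * (L / (16 * M)) ≤ 16 * M * (L / (16 * M)) := by
      apply Nat.mul_le_mul_right
      omega
    omega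
  have hq2qr : (q2 : ℝ) ^ 2 ≤ q := by exact_mod_cast hq2q
  -- bounds for `B`
  have hBhi : (B : ℝ) ≤ A / L := by rw [hB]; exact Nat.cast_div_le
  have hBlo : (A : ℝ) / (2 * L) ≤ B := by
    have h1 : A < L * (B + 1) := by rw [hB]; exact Nat.lt_mul_div_succ A (by omega)
    have h2 : (A : ℝ) < L * (B + 1) := by exact_mod_cast h1
    rw [div_le_iff₀ (by positivity)]
    exact aux_Blo _ _ _ hLr hL2Ar h2
  have hA2LB : (A : ℝ) ≤ 2 * L * B := by
    rw [div_le_iff₀ (by positivity)] at hBlo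
    linarith
  have hLB : (L : ℝ) ≤ B := by
    refine le_trans ?_ hBlo
    rw [le_div_iff₀ (by positivity)]
    calc (L : ℝ) * (2 * L) = 2 * (L : ℝ) ^ 2 := by ring
      _ ≤ A := hL2Ar
  have hBpos : 0 < B := by
    have : (0 : ℝ) < B := by linarith
    exact_mod_cast this
  have hBr : (0 : ℝ) < B := by exact_mod_cast hBpos
  have hBA : B ≤ A := by rw [hB]; exact Nat.div_le_self _ _
  have hBAr : (B : ℝ) ≤ A := by exact_mod_cast hBA
  -- the small quantities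
  obtain ⟨s1, hs1⟩ : ∃ s1 : ℝ, s1 = 1 / L := ⟨_, rfl⟩
  obtain ⟨s2, hs2⟩ : ∃ s2 : ℝ, s2 = (L : ℝ) ^ 2 / q := ⟨_, rfl⟩
  rw [← hs1] at g1
  rw [← hs2] at g2
  have hs10 : 0 < s1 := by rw [hs1]; positivity
  have hs20 : 0 < s2 := by rw [hs2]; positivity
  have hs1L : s1 * L = 1 := by rw [hs1]; field_simp
  have hs2q : s2 * q = (L : ℝ) ^ 2 := by rw [hs2]; field_simp
  have hM3 : (1 : ℝ) ≤ (M : ℝ) ^ 3 := one_le_pow₀ hMr
  have hMM3 : (M : ℝ) ≤ (M : ℝ) ^ 3 := le_self_pow₀ hMr (by norm_num)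
  have hM3K : (1 : ℝ) ≤ (M : ℝ) ^ 3 * K := one_le_mul_of_one_le_of_one_le hM3 hKr
  have g1a : 20 * (M : ℝ) ^ 3 * K * s1 ≤ ε := by
    have h1 := g1.trans (min_le_left _ _)
    rw [le_div_iff₀ (by positivity)] at h1
    linarith
  have g1b : 20 * (M : ℝ) ^ 3 * K * s1 ≤ ε * c := by
    have h1 := g1.trans (min_le_right _ _)
    rw [le_div_iff₀ (by positivity)] at h1
    linarith
  have g2a : 40 * (C3 : ℝ) ^ 2 * M ^ 3 * K * s2 ≤ ε := by
    rw [le_div_iff₀ (by positivity)] at g2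
    linarith
  have hC32 : (C3 : ℝ) ≤ (C3 : ℝ) ^ 2 := le_self_pow₀ hC3r (by norm_num)
  -- consequences
  have k1 : ∀ x : ℝ, x ≤ 20 * (M : ℝ) ^ 3 * K → x * s1 ≤ ε := fun x hx =>
    (mul_le_mul_of_nonneg_right hx hs10.le).trans g1a
  have k2 : ∀ x : ℝ, x ≤ 40 * (C3 : ℝ) ^ 2 * M ^ 3 * K → x * s2 ≤ ε := fun x hx =>
    (mul_le_mul_of_nonneg_right hx hs20.le).trans g2a
  have hMK : (M : ℝ) ≤ (M : ℝ) ^ 3 * K := hMM3.trans (le_mul_of_one_le_right (by positivity) hKr)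
  have hM3le : (M : ℝ) ^ 3 ≤ (M : ℝ) ^ 3 * K := le_mul_of_one_le_right (by positivity) hKr
  have hC3MK : (M : ℝ) ^ 3 * K ≤ (C3 : ℝ) ^ 2 * M ^ 3 * K := by
    have : (1 : ℝ) ≤ (C3 : ℝ) ^ 2 := one_le_pow₀ hC3r
    calc (M : ℝ) ^ 3 * K = 1 * ((M : ℝ) ^ 3 * K) := by ring
      _ ≤ (C3 : ℝ) ^ 2 * ((M : ℝ) ^ 3 * K) := mul_le_mul_of_nonneg_right this (by positivity)
      _ = _ := by ring
  -- parameters
  obtain ⟨κ, hκ⟩ : ∃ κ, κ = L / (8 * M) := ⟨_, rfl⟩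
  obtain ⟨K0, hK0⟩ : ∃ K0, K0 = 2 ^ (L / 4) := ⟨_, rfl⟩
  obtain ⟨J, hJ⟩ : ∃ J, J = A * L := ⟨_, rfl⟩
  obtain ⟨r, hr⟩ : ∃ r, r = B ^ 2 / A + M * M ^ κ * J / K0 + 1 := ⟨_, rfl⟩
  have hK0pos : 0 < K0 := by rw [hK0]; positivity
  have hK0r : (0 : ℝ) < K0 := by exact_mod_cast hK0pos
  have hMκ : M ^ κ ≤ q := by
    calc M ^ κ ≤ (2 ^ M) ^ κ := Nat.pow_le_pow_left Nat.lt_two_pow_self.le _
      _ = 2 ^ (M * κ) := by rw [← pow_mul]
      _ ≤ q := by
        rw [hq]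
        apply Nat.pow_le_pow_right (by norm_num)
        rw [Nat.le_div_iff_mul_le (by norm_num), hκ]
        calc M * (L / (8 * M)) * 8 = 8 * M * (L / (8 * M)) := by ring
          _ ≤ L := hdiv8
  have hK0q : q ^ 2 ≤ K0 := by
    rw [hq, hK0, ← pow_mul]
    exact Nat.pow_le_pow_right (by norm_num) (by omega)
  have hK0q2 : K0 ≤ 2 * q ^ 2 := by
    rw [hq, hK0, ← pow_mul, ← pow_succ']
    exact Nat.pow_le_pow_right (by norm_num) (by omega)
  have hMκr : ((M ^ κ : ℕ) : ℝ) ≤ q := by exact_mod_cast hMκ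
  have hK0qr : (q : ℝ) ^ 2 ≤ K0 := by exact_mod_cast hK0q
  have hK0q2r : (K0 : ℝ) ≤ 2 * (q : ℝ) ^ 2 := by exact_mod_cast hK0q2
  -- `r`
  have hrr : (r : ℝ) ≤ B * s1 + 2 * M * s2 * B + B * s1 := by
    have h1 : ((B ^ 2 / A : ℕ) : ℝ) ≤ B * s1 := by
      have h2 : ((B ^ 2 / A : ℕ) : ℝ) ≤ ((B ^ 2 : ℕ) : ℝ) / A := Nat.cast_div_le
      refine h2.trans ?_
      push_cast
      rw [div_le_iff₀ hAr]
      have h3 : (B : ℝ) ≤ s1 * A := by
        rw [hs1]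
        calc (B : ℝ) ≤ A / L := hBhi
          _ = _ := by ring
      calc (B : ℝ) ^ 2 = B * B := by ring
        _ ≤ B * (s1 * A) := mul_le_mul_of_nonneg_left h3 hBr.le
        _ = _ := by ring
    have h2 : ((M * M ^ κ * J / K0 : ℕ) : ℝ) ≤ 2 * M * s2 * B := by
      have h3 : ((M * M ^ κ * J / K0 : ℕ) : ℝ) ≤ ((M * M ^ κ * J : ℕ) : ℝ) / K0 := Nat.cast_div_le
      refine h3.trans ?_
      rw [div_le_iff₀ hK0r, hJ]
      have h4 : ((M * M ^ κ * (A * L) : ℕ) : ℝ) = M * ((M ^ κ : ℕ) : ℝ) * (A * L) := by push_cast; ring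
      rw [h4]
      calc (M : ℝ) * ((M ^ κ : ℕ) : ℝ) * (A * L) ≤ M * q * ((2 * L * B) * L) := by
            apply mul_le_mul (mul_le_mul_of_nonneg_left hMκr (by positivity)) _ (by positivity) (by positivity)
            exact mul_le_mul_of_nonneg_right hA2LB hL0.le
        _ = 2 * M * (L : ℝ) ^ 2 * B * q := by ring
        _ = 2 * M * s2 * B * q ^ 2 := by rw [← hs2q]; ring
        _ ≤ 2 * M * s2 * B * K0 := mul_le_mul_of_nonneg_left hK0qr (by positivity)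
    have h3 : (1 : ℝ) ≤ B * s1 := by
      rw [hs1, mul_one_div, le_div_iff₀ hL0]
      linarith
    rw [hr]
    push_cast at h1 h2 ⊢
    linarith
  have hBK0 : (B : ℝ) / K0 ≤ B * s2 := by
    rw [div_le_iff₀ hK0r]
    have h1 : 1 ≤ s2 * K0 := by
      calc (1 : ℝ) ≤ (L : ℝ) ^ 2 * q := one_le_mul_of_one_le_of_one_le (one_le_pow₀ (by linarith)) hq1r
        _ = s2 * q ^ 2 := by rw [← hs2q]; ring
        _ ≤ s2 * K0 := mul_le_mul_of_nonneg_left hK0qr hs20.le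
    calc (B : ℝ) = B * 1 := by ring
      _ ≤ B * (s2 * K0) := mul_le_mul_of_nonneg_left h1 hBr.le
      _ = _ := by ring
  have hMB : (M : ℝ) ≤ B * (M * s1) := by
    have h1 : (1 : ℝ) ≤ B * s1 := by
      rw [hs1, mul_one_div, le_div_iff₀ hL0]
      linarith
    calc (M : ℝ) = M * 1 := by ring
      _ ≤ M * (B * s1) := mul_le_mul_of_nonneg_left h1 (by positivity)
      _ = _ := by ring
  have hsum : 2 * (r : ℝ) + B / K0 + M ≤ ε * B := by
    have h1 : 2 * (r : ℝ) + B / K0 + M ≤ B * ((4 + M) * s1 + (4 * M + 1) * s2) := by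
      have : B * ((4 + M) * s1 + (4 * M + 1) * s2) = 2 * (B * s1 + 2 * M * s2 * B + B * s1) + B * s2 + B * (M * s1) := by ring
      rw [this]
      linarith
    refine h1.trans ?_
    have h2 : (4 + M) * s1 ≤ ε / 2 := by
      have := k1 (2 * (4 + M)) (by linarith)
      linarith
    have h3 : (4 * M + 1) * s2 ≤ ε / 2 := by
      have := k2 (2 * (4 * M + 1)) (by linarith)
      linarith
    calc B * ((4 + M) * s1 + (4 * M + 1) * s2) ≤ B * (ε / 2 + ε / 2) :=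
          mul_le_mul_of_nonneg_left (add_le_add h2 h3) hBr.le
      _ = _ := by ring
  -- `τ`
  obtain ⟨τ, hτ⟩ : ∃ τ, τ = C3 * q2 := ⟨_, rfl⟩
  have hτr : (τ : ℝ) = C3 * q2 := by rw [hτ]; push_cast; rfl
  refine ⟨κ, J, r, K0, τ, hK0pos, by rw [hJ]; positivity, hBpos, hBA, hApos, ?_, ?_, ?_, ?_, ?_, ?_, ?_, ?_, ?_, ?_, ?_, ?_, ?_, ?_, by omega⟩
  · rw [hr]
    have h1 : M * M ^ κ * J ≤ K0 * (M * M ^ κ * J / K0 + 1) := (Nat.lt_mul_div_succ _ hK0pos).le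
    calc M * M ^ κ * J + K0 * (B ^ 2 / A) ≤ K0 * (M * M ^ κ * J / K0 + 1) + K0 * (B ^ 2 / A) := by omega
      _ = _ := by ring
  · intro n hn1 hn2
    have h1 := hC n (by omega)
    have h2 : n ≤ 3 * A ^ 2 := hn2.trans (Nat.mul_le_mul_left _ (Nat.pow_le_pow_left hBA 2))
    have h3 : A ^ 2 ≤ 4 * 2 ^ (2 * L) := by
      calc A ^ 2 ≤ (2 ^ (L + 1)) ^ 2 := Nat.pow_le_pow_left hAhi.le 2
        _ = 4 * 2 ^ (2 * L) := by rw [← pow_mul]; ring_nf
    have h4 : (n.divisors.card) ^ (32 * M) ≤ (12 * C) * 2 ^ (2 * L) := by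
      calc (n.divisors.card) ^ (32 * M) ≤ C * n := h1
        _ ≤ C * (3 * (4 * 2 ^ (2 * L))) := Nat.mul_le_mul_left _ (h2.trans (Nat.mul_le_mul_left _ h3))
        _ = _ := by ring
    have h5 : (12 * C) * 2 ^ (2 * L) ≤ τ ^ (32 * M) := by
      have h6 : 2 * L ≤ (L / (16 * M) + 1) * (32 * M) := by
        have := Nat.lt_mul_div_succ L (show 0 < 16 * M by positivity)
        calc 2 * L ≤ 2 * (16 * M * (L / (16 * M) + 1)) := by omega
          _ = _ := by ring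
      have h7 : τ = 12 * C * 2 ^ (L / (16 * M) + 1) := by
        rw [hτ, hC3, hq2, pow_succ]
        ring
      calc (12 * C) * 2 ^ (2 * L) ≤ (12 * C) ^ (32 * M) * 2 ^ ((L / (16 * M) + 1) * (32 * M)) := by
            apply Nat.mul_le_mul
            · exact Nat.le_self_pow (by omega) _
            · exact Nat.pow_le_pow_right (by norm_num) h6
        _ = (12 * C) ^ (32 * M) * (2 ^ (L / (16 * M) + 1)) ^ (32 * M) := by rw [← pow_mul]
        _ = (12 * C * 2 ^ (L / (16 * M) + 1)) ^ (32 * M) := (mul_pow _ _ _).symm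
        _ = τ ^ (32 * M) := by rw [h7]
    exact (Nat.pow_le_pow_iff_left (by omega)).1 (h4.trans h5)
  · linarith [show (0 : ℝ) ≤ M by positivity]
  · rw [hJ]
    push_cast
    have : (A : ℝ) / (A * L) = s1 := by rw [hs1]; field_simp
    rw [this]
    have := k1 1 (by linarith)
    linarith
  · have h1 : (B : ℝ) ≤ A * s1 := by rw [hs1]; calc (B : ℝ) ≤ A / L := hBhi
                                        _ = _ := by ring
    have h2 : (M : ℝ) ≤ A * (M * s1) := by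
      refine hMB.trans ?_
      exact mul_le_mul_of_nonneg_right hBAr (by positivity)
    have h3 : (K : ℝ) * (B + M) ≤ A * ((K * (1 + M)) * s1) := by
      calc (K : ℝ) * (B + M) ≤ K * (A * s1 + A * (M * s1)) := mul_le_mul_of_nonneg_left (add_le_add h1 h2) (by positivity)
        _ = _ := by ring
    refine h3.trans ?_
    have h4 : (K * (1 + M) : ℝ) ≤ 20 * (M : ℝ) ^ 3 * K := by
      calc (K * (1 + M) : ℝ) ≤ K * ((M : ℝ) ^ 3 + (M : ℝ) ^ 3) := mul_le_mul_of_nonneg_left (add_le_add hM3 hMM3) (by positivity)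
        _ = 2 * ((M : ℝ) ^ 3 * K) := by ring
        _ ≤ 20 * ((M : ℝ) ^ 3 * K) := mul_le_mul_of_nonneg_right (by norm_num) (by positivity)
        _ = _ := by ring
    have := k1 _ h4
    calc (A : ℝ) * ((K * (1 + M)) * s1) ≤ A * ε := mul_le_mul_of_nonneg_left this hAr.le
      _ = _ := by ring
  · have : (0 : ℝ) ≤ B / K0 := by positivity
    linarith
  · have h1 : q2 ^ 2 ≤ 2 ^ κ := by
      rw [hq2, ← pow_mul]
      apply Nat.pow_le_pow_right (by norm_num)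
      rw [hκ, Nat.le_div_iff_mul_le (by positivity)]
      calc L / (16 * M) * 2 * (8 * M) = 16 * M * (L / (16 * M)) := by ring
        _ ≤ L := hdiv16
    have h2 : (q2 : ℝ) ^ 2 ≤ 2 ^ κ := by exact_mod_cast h1
    rw [hτr, div_le_iff₀ (by positivity)]
    have h3 : (C3 : ℝ) ≤ ε * q2 := by
      rw [div_le_div_iff₀ hq20 (by linarith), one_mul] at g3
      exact g3
    calc (C3 : ℝ) * q2 ≤ (ε * q2) * q2 := mul_le_mul_of_nonneg_right h3 hq20.le
      _ = ε * q2 ^ 2 := by ring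
      _ ≤ ε * 2 ^ κ := mul_le_mul_of_nonneg_left h2 hε.le
  · -- 2 τ M³ A ≤ ε B²
    have h1 : (τ : ℝ) ≤ C3 * q := by
      rw [hτr]
      apply mul_le_mul_of_nonneg_left _ (by linarith)
      exact (le_self_pow₀ hq21r (by norm_num)).trans hq2qr
    have h2 : (8 * C3 * M ^ 3 : ℝ) * s2 ≤ ε := by
      apply k2
      calc (8 * C3 * M ^ 3 : ℝ) = 8 * (C3 * M ^ 3) := by ring
        _ ≤ 40 * ((C3 : ℝ) ^ 2 * (M ^ 3 * K)) := by
          apply mul_le_mul (by norm_num) _ (by positivity) (by norm_num)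
          exact mul_le_mul hC32 hM3le (by positivity) (by positivity)
        _ = _ := by ring
    have h3 : 8 * (C3 * q) * M ^ 3 * (L : ℝ) ^ 2 ≤ ε * A := by
      calc 8 * (C3 * q) * M ^ 3 * (L : ℝ) ^ 2 = (8 * C3 * M ^ 3 * s2) * q ^ 2 := by rw [← hs2q]; ring
        _ ≤ ε * q ^ 2 := mul_le_mul_of_nonneg_right h2 (by positivity)
        _ ≤ ε * A := by
            apply mul_le_mul_of_nonneg_left _ hε.le
            exact (pow_le_pow_right₀ hq1r (by norm_num)).trans hq8r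
    have h4 : (A : ℝ) ^ 2 ≤ 4 * L ^ 2 * B ^ 2 := by
      calc (A : ℝ) ^ 2 ≤ (2 * L * B) ^ 2 := pow_le_pow_left₀ hAr.le hA2LB 2
        _ = _ := by ring
    -- multiply
    have h5 : 2 * (τ : ℝ) * M ^ 3 * A * (4 * L ^ 2) ≤ ε * B ^ 2 * (4 * L ^ 2) := by
      calc 2 * (τ : ℝ) * M ^ 3 * A * (4 * L ^ 2) ≤ 2 * (C3 * q) * M ^ 3 * A * (4 * L ^ 2) := by
            apply mul_le_mul_of_nonneg_right _ (by positivity)
            apply mul_le_mul_of_nonneg_right _ hAr.le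
            apply mul_le_mul_of_nonneg_right _ (by positivity)
            linarith
        _ = (8 * (C3 * q) * M ^ 3 * (L : ℝ) ^ 2) * A := by ring
        _ ≤ (ε * A) * A := mul_le_mul_of_nonneg_right h3 hAr.le
        _ = ε * A ^ 2 := by ring
        _ ≤ ε * (4 * L ^ 2 * B ^ 2) := mul_le_mul_of_nonneg_left h4 hε.le
        _ = _ := by ring
    exact le_of_mul_le_mul_right h5 (by positivity)
  · -- 2 τ² (2 K0 + 1) M³ K ≤ ε B
    have h1 : (τ : ℝ) ^ 2 ≤ C3 ^ 2 * q := by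
      rw [hτr, mul_pow]
      exact mul_le_mul_of_nonneg_left hq2qr (by positivity)
    have h2 : (2 * K0 + 1 : ℝ) ≤ 5 * q ^ 2 := by
      have : (1 : ℝ) ≤ (q : ℝ) ^ 2 := one_le_pow₀ hq1r
      linarith
    have h3 : (20 * C3 ^ 2 * M ^ 3 * K : ℝ) * s2 ≤ ε := by
      apply k2
      have : (0 : ℝ) ≤ C3 ^ 2 * M ^ 3 * K := by positivity
      linarith
    have h4 : 2 * (τ : ℝ) ^ 2 * (2 * K0 + 1) * M ^ 3 * K ≤ 10 * C3 ^ 2 * M ^ 3 * K * q ^ 3 := by
      calc 2 * (τ : ℝ) ^ 2 * (2 * K0 + 1) * M ^ 3 * K ≤ 2 * (C3 ^ 2 * q) * (5 * q ^ 2) * M ^ 3 * K := by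
            apply mul_le_mul_of_nonneg_right _ (by positivity)
            apply mul_le_mul_of_nonneg_right _ (by positivity)
            apply mul_le_mul _ h2 (by positivity) (by positivity)
            linarith
        _ = _ := by ring
    refine h4.trans ?_
    have h5 : (10 * C3 ^ 2 * M ^ 3 * K * q ^ 3) * (2 * L) ≤ (ε * B) * (2 * L) := by
      calc (10 * C3 ^ 2 * M ^ 3 * K * q ^ 3 : ℝ) * (2 * L) = (20 * C3 ^ 2 * M ^ 3 * K) * L * q ^ 3 := by ring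
        _ ≤ (20 * C3 ^ 2 * M ^ 3 * K) * L ^ 2 * q ^ 3 := by
            apply mul_le_mul_of_nonneg_right _ (by positivity)
            apply mul_le_mul_of_nonneg_left _ (by positivity)
            exact le_self_pow₀ (by linarith) (by norm_num)
        _ = (20 * C3 ^ 2 * M ^ 3 * K * s2) * q ^ 4 := by rw [← hs2q]; ring
        _ ≤ ε * q ^ 4 := mul_le_mul_of_nonneg_right h3 (by positivity)
        _ ≤ ε * A := by
            apply mul_le_mul_of_nonneg_left _ hε.le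
            exact (pow_le_pow_right₀ hq1r (by norm_num)).trans hq8r
        _ ≤ ε * (2 * L * B) := mul_le_mul_of_nonneg_left hA2LB hε.le
        _ = _ := by ring
    exact le_of_mul_le_mul_right h5 (by positivity)
  · -- 4 M³ A ≤ ε c L² B
    have h1 : (8 * M ^ 3 : ℝ) * s1 ≤ ε * c := by
      refine le_trans (mul_le_mul_of_nonneg_right ?_ hs10.le) g1b
      linarith [show (0 : ℝ) < (M : ℝ) ^ 3 by positivity]
    calc 4 * (M : ℝ) ^ 3 * A ≤ 4 * (M : ℝ) ^ 3 * (2 * L * B) := mul_le_mul_of_nonneg_left hA2LB (by positivity)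
      _ = (8 * M ^ 3 * (s1 * L)) * L * B := by rw [hs1L]; ring
      _ = (8 * M ^ 3 * s1) * (L ^ 2 * B) := by ring
      _ ≤ (ε * c) * (L ^ 2 * B) := mul_le_mul_of_nonneg_right h1 (by positivity)
      _ = _ := by ring
  · -- logs
    have h1 : (14 * M ^ 3 : ℝ) * s1 ≤ ε * c := by
      refine le_trans (mul_le_mul_of_nonneg_right ?_ hs10.le) g1b
      linarith [show (0 : ℝ) < (M : ℝ) ^ 3 by positivity]
    have h2 : Real.log B ≤ L + 1 := by
      have h3 : (B : ℝ) ≤ 2 ^ (L + 1) := by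
        have : B ≤ 2 ^ (L + 1) := hBA.trans hAhi.le
        exact_mod_cast this
      have h4 := Real.log_le_log hBr h3
      rw [Real.log_pow] at h4
      push_cast at h4
      exact aux_log L _ _ hLr h4 Real.log_two_lt_d9
    calc 2 * (M : ℝ) ^ 3 * (2 * (1 + Real.log B) + 1) ≤ 2 * (M : ℝ) ^ 3 * (7 * L) := by
          apply mul_le_mul_of_nonneg_left _ (by positivity)
          linarith
      _ = (14 * M ^ 3 * (s1 * L)) * L := by rw [hs1L]; ring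
      _ = (14 * M ^ 3 * s1) * L ^ 2 := by ring
      _ ≤ (ε * c) * L ^ 2 := mul_le_mul_of_nonneg_right h1 (by positivity)
      _ = _ := by ring
  · -- K (2 B² / A + 1 + M) ≤ ε A
    have h1 : ((2 * B ^ 2 / A : ℕ) : ℝ) ≤ A * (2 * s1) := by
      have h2 : ((2 * B ^ 2 / A : ℕ) : ℝ) ≤ ((2 * B ^ 2 : ℕ) : ℝ) / A := Nat.cast_div_le
      refine h2.trans ?_
      push_cast
      rw [div_le_iff₀ hAr]
      have h3 : (B : ℝ) ≤ A * s1 := by rw [hs1]; calc (B : ℝ) ≤ A / L := hBhi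
                                          _ = _ := by ring
      calc 2 * (B : ℝ) ^ 2 = 2 * (B * B) := by ring
        _ ≤ 2 * (A * (A * s1)) := by
          apply mul_le_mul_of_nonneg_left _ (by norm_num)
          exact mul_le_mul hBAr h3 hBr.le hAr.le
        _ = _ := by ring
    have h2 : (M : ℝ) ≤ A * (M * s1) := by
      refine hMB.trans ?_
      exact mul_le_mul_of_nonneg_right hBAr (by positivity)
    have h3 : (1 : ℝ) ≤ A * s1 := by
      rw [hs1, mul_one_div, le_div_iff₀ hL0]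
      linarith
    calc (K : ℝ) * (((2 * B ^ 2 / A : ℕ) : ℝ) + 1 + M) ≤ K * (A * (2 * s1) + A * s1 + A * (M * s1)) := by
          apply mul_le_mul_of_nonneg_left _ (by positivity)
          linarith
      _ = A * ((K * (3 + M)) * s1) := by ring
      _ ≤ A * ε := by
          apply mul_le_mul_of_nonneg_left _ hAr.le
          apply k1
          calc (K * (3 + M) : ℝ) ≤ K * (3 * (M : ℝ) ^ 3 + (M : ℝ) ^ 3) := by
                apply mul_le_mul_of_nonneg_left _ (by positivity)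
                linarith
            _ = 4 * ((M : ℝ) ^ 3 * K) := by ring
            _ ≤ 20 * ((M : ℝ) ^ 3 * K) := mul_le_mul_of_nonneg_right (by norm_num) (by positivity)
            _ = _ := by ring
      _ = _ := by ring
  · refine hMB.trans ?_
    have := k1 M (by linarith)
    calc (B : ℝ) * (M * s1) ≤ B * ε := mul_le_mul_of_nonneg_left this hBr.le
      _ = _ := by ring
  · have h1 : (M * K : ℝ) * s1 ≤ ε := by
      apply k1
      calc (M * K : ℝ) ≤ M ^ 3 * K := mul_le_mul_of_nonneg_right hMM3 (by positivity)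
        _ ≤ 20 * ((M : ℝ) ^ 3 * K) := by linarith
        _ = _ := by ring
    have h2 : (L : ℝ) ≤ (A : ℝ) ^ 2 := by
      have : (1 : ℝ) ≤ A := by exact_mod_cast hApos
      exact (hLB.trans hBAr).trans (le_self_pow₀ this (by norm_num))
    calc (M : ℝ) * K = (M * K * s1) * L := by
          have : (M * K * s1 : ℝ) * L = M * K * (s1 * L) := by ring
          rw [this, hs1L, mul_one]
      _ ≤ ε * L := mul_le_mul_of_nonneg_right h1 hL0.le
      _ ≤ ε * (A : ℝ) ^ 2 := mul_le_mul_of_nonneg_left h2 hε.le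

end Pool.Agent.H770Sun
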