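import Pool.Agent.H770Sun.BoxSz
import Pool.Agent.H770Sun.Mom
import Pool.Agent.H770Sun.Par

set_option autoImplicit false

/-! The counting theorem for a block of integers. -/

namespace Pool.Agent.H770Sun
open Finset Filter Topology

lemma eps_choice (V δ : ℝ) (hV : 0 ≤ V) (hδ : 0 < δ) : ∃ ε : ℝ, 0 < ε ∧ ε ≤ 1 / 2 ∧
    1 + ε - (1 - ε) ^ 4 / ((1 + ε) ^ 4 * (1 + V + ε) + 4 * ε) ≤ V / (1 + V) + δ := by
  have hc : ContinuousAt (fun ε : ℝ => 1 + ε - (1 - ε) ^ 4 / ((1 + ε) ^ 4 * (1 + V + ε) + 4 * ε)) 0 := by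
    apply ContinuousAt.sub (by fun_prop)
    apply ContinuousAt.div (by fun_prop) (by fun_prop)
    norm_num
    linarith
  have h0 : (fun ε : ℝ => 1 + ε - (1 - ε) ^ 4 / ((1 + ε) ^ 4 * (1 + V + ε) + 4 * ε)) 0 < V / (1 + V) + δ := by
    have h1 : (1 : ℝ) + V ≠ 0 := by linarith
    have h2 : (fun ε : ℝ => 1 + ε - (1 - ε) ^ 4 / ((1 + ε) ^ 4 * (1 + V + ε) + 4 * ε)) 0 = V / (1 + V) := by
      norm_num
      field_simp
      ring
    rw [h2]
    linarith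
  have h1 := hc.eventually (eventually_lt_nhds h0)
  obtain ⟨η, hη, h2⟩ := Metric.eventually_nhds_iff.1 h1
  refine ⟨min (1 / 2) (η / 2), by positivity, min_le_left _ _, (h2 ?_).le⟩
  rw [Real.dist_eq, sub_zero, abs_of_pos (by positivity)]
  exact (min_le_right _ _).trans_lt (by linarith)

/-- the bound for a pair of different shifts -/
lemma pair_est (M κ J A A1 r B K0 τ K : ℕ) (ε : ℝ) (hε : 0 < ε) (hM4 : 4 ∣ M) (hM : 0 < M) (hK0 : 0 < K0)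
    (hA : 0 < A) (hJ : 0 < J) (hB : 0 < B) (hA1 : A ≤ K * A1)
    (hr : M * M ^ κ * J + K0 * (B ^ 2 / A) ≤ K0 * r)
    (hτ : ∀ n : ℕ, 1 ≤ n → n ≤ 3 * B ^ 2 → n.divisors.card ≤ τ)
    (e1 : 2 * r + (B : ℝ) / K0 ≤ ε * B) (e2 : (A : ℝ) / J ≤ ε) (e3 : (K : ℝ) * (B + M) ≤ ε * A)
    (e4 : 2 * (r : ℝ) + M ≤ ε * B) (e5 : (τ : ℝ) / 2 ^ κ ≤ ε) (e6 : 2 * (τ : ℝ) * M ^ 3 * A ≤ ε * (B : ℝ) ^ 2)
    (e7 : 2 * (τ : ℝ) ^ 2 * (2 * K0 + 1) * M ^ 3 * K ≤ ε * B)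
    (α β k : ℤ) (hα : IsCoprime α (M : ℤ)) (hk0 : k ≠ 0) (hk : |k| ≤ (B : ℤ) ^ 2) :
    ((Pk M α β A A1 B k).card : ℝ) ≤ (A1 * B ^ 2 / (M ^ 3 * A)) * ((1 + ε) ^ 4 * (FM M k + ε) + 2 * ε) := by
  have h := Pk_bound M κ J A A1 r B K0 τ hM4 hM hK0 hA hJ hr α β k hα hk0 hk hτ
  have hMr : (0 : ℝ) < M := by exact_mod_cast hM
  have hAr : (0 : ℝ) < A := by exact_mod_cast hA
  have hJr : (0 : ℝ) < J := by exact_mod_cast hJ
  have hBr : (0 : ℝ) < B := by exact_mod_cast hB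
  have hK0r : (0 : ℝ) < K0 := by exact_mod_cast hK0
  have hA1r : (A : ℝ) ≤ K * A1 := by exact_mod_cast hA1
  have hA1p : 0 < A1 := by
    rcases Nat.eq_zero_or_pos A1 with h | h
    · rw [h] at hA1; omega
    · exact h
  have hA1pr : (0 : ℝ) < A1 := by exact_mod_cast hA1p
  have hKp : 0 < K := by
    rcases Nat.eq_zero_or_pos K with h | h
    · rw [h] at hA1; omega
    · exact h
  have hKr : (0 : ℝ) < K := by exact_mod_cast hKp
  have e3' : (B : ℝ) + M ≤ ε * A1 := by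
    have h1 : (K : ℝ) * (B + M) ≤ K * (ε * A1) := by
      calc (K : ℝ) * (B + M) ≤ ε * A := e3
        _ ≤ ε * (K * A1) := mul_le_mul_of_nonneg_left hA1r hε.le
        _ = _ := by ring
    exact le_of_mul_le_mul_left h1 hKr
  have hFM : 0 ≤ FM M k := by unfold FM; positivity
  -- the number of points of the larger box
  have hOx : ((Ox M α β A A1 B r).card : ℝ) ≤ ((1 + ε) * A1 / M) * ((1 + ε) * B / M) := by
    unfold Ox
    apply Bx_upper M hM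
    · push_cast
      rw [div_add_one hMr.ne']
      apply div_le_div_of_nonneg_right _ hMr.le
      linarith
    · positivity
    · push_cast
      rw [div_add_one hMr.ne']
      apply div_le_div_of_nonneg_right _ hMr.le
      linarith
    · positivity
  have h1 : (1 / (A : ℝ) + 1 / J) ≤ (1 + ε) / A := by
    have : 1 / (J : ℝ) ≤ ε / A := by
      rw [div_le_div_iff₀ hJr hAr]
      rw [div_le_iff₀ hJr] at e2
      linarith
    calc (1 / (A : ℝ) + 1 / J) ≤ 1 / A + ε / A := by linarith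
      _ = _ := by ring
  have h2 : (B + 2 * r + B / K0) / M ≤ (1 + ε) * B / M := by
    apply div_le_div_of_nonneg_right _ hMr.le
    linarith
  have hW : (1 / (A : ℝ) + 1 / J) * ((B + 2 * r + B / K0) / M) * (Ox M α β A A1 B r).card ≤ (1 + ε) ^ 4 * (A1 * B ^ 2 / (M ^ 3 * A)) := by
    calc (1 / (A : ℝ) + 1 / J) * ((B + 2 * r + B / K0) / M) * (Ox M α β A A1 B r).card
        ≤ ((1 + ε) / A) * ((1 + ε) * B / M) * (((1 + ε) * A1 / M) * ((1 + ε) * B / M)) := by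
          apply mul_le_mul _ hOx (by positivity) (by positivity)
          exact mul_le_mul h1 h2 (by positivity) (by positivity)
      _ = _ := by field_simp
  have h3 : (A1 : ℝ) * (2 * τ) ≤ ε * (A1 * B ^ 2 / (M ^ 3 * A)) := by
    have : ε * (A1 * B ^ 2 / (M ^ 3 * A)) = (A1 * (ε * B ^ 2)) / (M ^ 3 * A) := by ring
    rw [this, le_div_iff₀ (by positivity)]
    calc (A1 : ℝ) * (2 * τ) * (M ^ 3 * A) = A1 * (2 * (τ : ℝ) * M ^ 3 * A) := by ring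
      _ ≤ _ := mul_le_mul_of_nonneg_left e6 hA1pr.le
  have h4 : ((τ : ℝ) * (2 * K0 + 1) * B) * (2 * τ) ≤ ε * (A1 * B ^ 2 / (M ^ 3 * A)) := by
    have : ε * (A1 * B ^ 2 / (M ^ 3 * A)) = (ε * B) * (A1 * B) / (M ^ 3 * A) := by ring
    rw [this, le_div_iff₀ (by positivity)]
    calc ((τ : ℝ) * (2 * K0 + 1) * B) * (2 * τ) * (M ^ 3 * A)
        = (2 * (τ : ℝ) ^ 2 * (2 * K0 + 1) * M ^ 3 * B) * A := by ring
      _ ≤ (2 * (τ : ℝ) ^ 2 * (2 * K0 + 1) * M ^ 3 * B) * (K * A1) := mul_le_mul_of_nonneg_left hA1r (by positivity)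
      _ = (2 * (τ : ℝ) ^ 2 * (2 * K0 + 1) * M ^ 3 * K) * (A1 * B) := by ring
      _ ≤ _ := mul_le_mul_of_nonneg_right e7 (by positivity)
  calc ((Pk M α β A A1 B k).card : ℝ) ≤ _ := h
    _ ≤ ((1 + ε) ^ 4 * (A1 * B ^ 2 / (M ^ 3 * A))) * (FM M k + ε) +
        (ε * (A1 * B ^ 2 / (M ^ 3 * A)) + ε * (A1 * B ^ 2 / (M ^ 3 * A))) := by
        apply add_le_add
        · apply mul_le_mul hW (by linarith) (by positivity) (by positivity)
        · exact add_le_add h3 h4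
    _ = _ := by ring

/-- the bound for the diagonal -/
lemma diag_est (M A A1 B K L : ℕ) (ε c : ℝ) (hε : 0 < ε) (hε1 : ε ≤ 1 / 2) (hM : 0 < M)
    (hA : 0 < A) (hB : 0 < B) (hA1 : A ≤ K * A1)
    (e3 : (K : ℝ) * (B + M) ≤ ε * A)
    (e8 : 4 * (M : ℝ) ^ 3 * A ≤ ε * c * (L : ℝ) ^ 2 * B)
    (e9 : 2 * (M : ℝ) ^ 3 * (2 * (1 + Real.log B) + 1) ≤ ε * c * (L : ℝ) ^ 2)
    (e11 : (M : ℝ) ≤ ε * B)
    (α β : ℤ) :
    ((Pk M α β A A1 B 0).card : ℝ) ≤ (A1 * B ^ 2 / (M ^ 3 * A)) * (2 * ε * (c * (L : ℝ) ^ 2)) := by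
  have h := Pk_zero M α β A A1 B hA
  have hMr1 : (1 : ℝ) ≤ M := by exact_mod_cast hM
  have hMr : (0 : ℝ) < M := by linarith
  have hAr : (0 : ℝ) < A := by exact_mod_cast hA
  have hBr1 : (1 : ℝ) ≤ B := by exact_mod_cast hB
  have hBr : (0 : ℝ) < B := by linarith
  have hA1r : (A : ℝ) ≤ K * A1 := by exact_mod_cast hA1
  have hA1p : 0 < A1 := by
    rcases Nat.eq_zero_or_pos A1 with h | h
    · rw [h] at hA1; omega
    · exact h
  have hA1pr : (0 : ℝ) < A1 := by exact_mod_cast hA1p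
  have hKp : 0 < K := by
    rcases Nat.eq_zero_or_pos K with h | h
    · rw [h] at hA1; omega
    · exact h
  have hKr : (0 : ℝ) < K := by exact_mod_cast hKp
  have e3' : (B : ℝ) + M ≤ ε * A1 := by
    have h1 : (K : ℝ) * (B + M) ≤ K * (ε * A1) := by
      calc (K : ℝ) * (B + M) ≤ ε * A := e3
        _ ≤ ε * (K * A1) := mul_le_mul_of_nonneg_left hA1r hε.le
        _ = _ := by ring
    exact le_of_mul_le_mul_left h1 hKr
  have hlog : 0 ≤ Real.log B := Real.log_nonneg hBr1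
  have hBx : ((Bx M α β A (A + A1) 0 B).card : ℝ) ≤ (2 * A1 / M) * (2 * B / M) := by
    apply Bx_upper M hM
    · push_cast
      rw [div_add_one hMr.ne']
      apply div_le_div_of_nonneg_right _ hMr.le
      nlinarith
    · positivity
    · push_cast
      rw [div_add_one hMr.ne']
      apply div_le_div_of_nonneg_right _ hMr.le
      nlinarith
    · positivity
  have h1 : (2 * A1 / M) * (2 * B / M) ≤ (A1 * B ^ 2 / (M ^ 3 * A)) * (ε * (c * (L : ℝ) ^ 2)) := by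
    have e : (2 * (A1 : ℝ) / M) * (2 * B / M) = (A1 * B / (M ^ 3 * A)) * (4 * M * A) := by
      field_simp
      ring
    rw [e]
    have e' : (A1 * (B : ℝ) ^ 2 / (M ^ 3 * A)) * (ε * (c * (L : ℝ) ^ 2)) = (A1 * B / (M ^ 3 * A)) * (ε * c * (L : ℝ) ^ 2 * B) := by ring
    rw [e']
    apply mul_le_mul_of_nonneg_left _ (by positivity)
    refine le_trans ?_ e8
    apply mul_le_mul_of_nonneg_right _ hAr.le
    have : (M : ℝ) ≤ M ^ 3 := le_self_pow₀ hMr1 (by norm_num)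
    linarith
  have h2 : 2 * ((B : ℝ) ^ 2 / A) * (2 * A1 * (1 + Real.log B) + B) ≤ (A1 * B ^ 2 / (M ^ 3 * A)) * (ε * (c * (L : ℝ) ^ 2)) := by
    have hBA1 : (B : ℝ) ≤ A1 := by nlinarith
    calc 2 * ((B : ℝ) ^ 2 / A) * (2 * A1 * (1 + Real.log B) + B)
        ≤ 2 * ((B : ℝ) ^ 2 / A) * (A1 * (2 * (1 + Real.log B) + 1)) := by
          apply mul_le_mul_of_nonneg_left _ (by positivity)
          nlinarith
      _ = (A1 * B ^ 2 / (M ^ 3 * A)) * (2 * M ^ 3 * (2 * (1 + Real.log B) + 1)) := by field_simp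
      _ ≤ (A1 * B ^ 2 / (M ^ 3 * A)) * (ε * c * (L : ℝ) ^ 2) := mul_le_mul_of_nonneg_left e9 (by positivity)
      _ = _ := by ring
  calc ((Pk M α β A A1 B 0).card : ℝ) ≤ _ := h
    _ ≤ (A1 * B ^ 2 / (M ^ 3 * A)) * (ε * (c * (L : ℝ) ^ 2)) + (A1 * B ^ 2 / (M ^ 3 * A)) * (ε * (c * (L : ℝ) ^ 2)) :=
        add_le_add (hBx.trans h1) h2
    _ = _ := by ring

set_option maxHeartbeats 4000000 in
/-- **the number of the integers of a class that are not represented in a block** -/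
theorem block_bound (M : ℕ) (hM4 : 4 ∣ M) (hM : 0 < M) (K : ℕ) (hK : 0 < K) (c V δ : ℝ) (hc : 0 < c) (hV : 0 ≤ V) (hδ : 0 < δ) :
    ∃ A0 : ℕ, ∀ A ≥ A0, ∀ A1 : ℕ, A ≤ K * A1 → ∀ (α β ν : ℤ), IsCoprime α (M : ℤ) → ∀ H : Finset ℕ,
      (∀ h ∈ H, h ≤ (A / Nat.log 2 A) ^ 2) → (∀ h ∈ H, (2 * M : ℤ) ∣ ν - h - α ^ 2 - β ^ 2) →
      c * (Nat.log 2 A : ℝ) ^ 2 ≤ H.card →
      (∑ h ∈ H, ∑ h' ∈ H.filter (fun h' => h' ≠ h), FM M ((h : ℤ) - h') ≤ (1 + V) * (H.card : ℝ) ^ 2) →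
      ∀ T : Finset ℤ, (∀ n ∈ T, n ∈ Ioc ((A : ℤ) ^ 2) (((A : ℤ) + A1) ^ 2) ∧ (2 * M : ℤ) ∣ n - ν ∧
        ¬ ∃ h ∈ H, ∃ a b : ℤ, n = h + a ^ 2 + b ^ 2) →
      (T.card : ℝ) ≤ (V / (1 + V) + A1 / (2 * A) + δ) * ((((A : ℝ) + A1) ^ 2 - (A : ℝ) ^ 2) / (2 * M)) := by
  obtain ⟨ε, hε, hε1, hεV⟩ := eps_choice V δ hV hδ
  obtain ⟨A0, hA0⟩ := params M K hM hK c ε hc hε
  refine ⟨A0, fun A hA A1 hA1 α β ν hα H hHB hν hHc hHF T hT => ?_⟩
  obtain ⟨κ, J, r, K0, τ, hK0, hJ, hB, hBA, hAp, e0, hτ, e1, e2, e3, e4, e5, e6, e7, e8, e9, e10, e11, e12, hL⟩ := hA0 A hA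
  obtain ⟨L, hLd⟩ : ∃ L, L = Nat.log 2 A := ⟨_, rfl⟩
  rw [← hLd] at hHB hHc hB hBA e0 hτ e1 e3 e4 e6 e7 e8 e9 e10 e11 hL
  obtain ⟨B, hBd⟩ : ∃ B, B = A / L := ⟨_, rfl⟩
  rw [← hBd] at hHB hB hBA e0 hτ e1 e3 e4 e6 e7 e8 e9 e10 e11
  have hMr1 : (1 : ℝ) ≤ M := by exact_mod_cast hM
  have hMr : (0 : ℝ) < M := by linarith
  have hAr : (0 : ℝ) < A := by exact_mod_cast hAp
  have hBr : (0 : ℝ) < B := by exact_mod_cast hB
  have hKr : (0 : ℝ) < K := by exact_mod_cast hK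
  have hA1r : (A : ℝ) ≤ K * A1 := by exact_mod_cast hA1
  have hLr : (1 : ℝ) ≤ L := by exact_mod_cast hL
  have hA1p : 0 < A1 := by
    rcases Nat.eq_zero_or_pos A1 with h | h
    · rw [h] at hA1; omega
    · exact h
  have hA1pr : (0 : ℝ) < A1 := by exact_mod_cast hA1p
  obtain ⟨W0, hW0⟩ : ∃ W0 : ℝ, W0 = A1 * B ^ 2 / (M ^ 3 * A) := ⟨_, rfl⟩
  have hW0p : 0 < W0 := by rw [hW0]; positivity
  obtain ⟨G, hG⟩ : ∃ G : ℝ, G = (1 + ε) ^ 4 * (1 + V + ε) + 4 * ε := ⟨_, rfl⟩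
  rw [← hG] at hεV
  have hGp : 0 < G := by rw [hG]; positivity
  have hHpos : (0 : ℝ) < H.card := lt_of_lt_of_le (by positivity) hHc
  -- the second moment
  have hS2 : ∑ n ∈ Ioc ((A : ℤ) ^ 2) (((A : ℤ) + A1) ^ 2), (rep H (Bx M α β A (A + A1) 0 B) n : ℝ) ^ 2 ≤
      (H.card : ℝ) ^ 2 * W0 * G := by
    have h1 : ∑ n ∈ Ioc ((A : ℤ) ^ 2) (((A : ℤ) + A1) ^ 2), (rep H (Bx M α β A (A + A1) 0 B) n : ℝ) ^ 2 ≤
        ∑ h ∈ H, ∑ h' ∈ H, ((Pk M α β A A1 B ((h : ℤ) - h')).card : ℝ) := by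
      obtain ⟨TT, hTT⟩ : ∃ TT, TT = Ioc ((A : ℤ) ^ 2) (((A : ℤ) + A1) ^ 2) := ⟨_, rfl⟩
      rw [← hTT]
      have hsm := second_moment M α β A A1 B H TT
      have hsm2 : ((∑ n ∈ TT, (rep H (Bx M α β A (A + A1) 0 B) n) ^ 2 : ℕ) : ℝ) ≤
          ((∑ h ∈ H, ∑ h' ∈ H, (Pk M α β A A1 B ((h : ℤ) - h')).card : ℕ) : ℝ) := Nat.cast_le.2 hsm
      rw [Nat.cast_sum, Nat.cast_sum] at hsm2
      refine le_trans (le_of_eq ?_) (hsm2.trans (le_of_eq ?_))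
      · apply sum_congr rfl
        intro n _
        rw [Nat.cast_pow]
      · apply sum_congr rfl
        intro h _
        rw [Nat.cast_sum]
    refine h1.trans ?_
    have h2 : ∀ h ∈ H, ∑ h' ∈ H, ((Pk M α β A A1 B ((h : ℤ) - h')).card : ℝ) ≤
        W0 * (2 * ε * (H.card : ℝ)) + ∑ h' ∈ H.filter (fun h' => h' ≠ h), W0 * ((1 + ε) ^ 4 * (FM M ((h : ℤ) - h') + ε) + 2 * ε) := by
      intro h hh
      rw [← sum_filter_add_sum_filter_not H (fun h' => h' ≠ h)]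
      rw [add_comm]
      apply add_le_add
      · have h3 : H.filter (fun h' => ¬ h' ≠ h) = {h} := by
          ext x
          rw [mem_filter, mem_singleton, not_not]
          exact ⟨fun hx => hx.2, fun hx => ⟨hx ▸ hh, hx⟩⟩
        rw [h3, sum_singleton, sub_self]
        have h4 := diag_est M A A1 B K L ε c hε hε1 hM hAp hB hA1 e3 e8 e9 e11 α β
        rw [← hW0] at h4
        refine h4.trans ?_
        apply mul_le_mul_of_nonneg_left _ hW0p.le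
        exact mul_le_mul_of_nonneg_left hHc (by positivity)
      · apply sum_le_sum
        intro h' hh'
        obtain ⟨hh1, hh2⟩ := mem_filter.1 hh'
        rw [hW0]
        have b1 : (h : ℤ) ≤ (B : ℤ) ^ 2 := by exact_mod_cast hHB h hh
        have b2 : (h' : ℤ) ≤ (B : ℤ) ^ 2 := by exact_mod_cast hHB h' hh1
        have b3 : (0 : ℤ) ≤ h := by positivity
        have b4 : (0 : ℤ) ≤ h' := by positivity
        apply pair_est M κ J A A1 r B K0 τ K ε hε hM4 hM hK0 hAp hJ hB hA1 e0 hτ e1 e2 e3 e4 e5 e6 e7 α β _ hα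
        · intro h0
          apply hh2
          have : (h : ℤ) = h' := by linarith
          exact_mod_cast this.symm
        · rw [abs_le]
          constructor <;> linarith
    refine (sum_le_sum h2).trans ?_
    rw [sum_add_distrib, sum_const, nsmul_eq_mul]
    have h3 : ∑ h ∈ H, ∑ h' ∈ H.filter (fun h' => h' ≠ h), W0 * ((1 + ε) ^ 4 * (FM M ((h : ℤ) - h') + ε) + 2 * ε) =
        W0 * ((1 + ε) ^ 4 * (∑ h ∈ H, ∑ h' ∈ H.filter (fun h' => h' ≠ h), FM M ((h : ℤ) - h')) +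
        ((1 + ε) ^ 4 * ε + 2 * ε) * ∑ h ∈ H, ((H.filter (fun h' => h' ≠ h)).card : ℝ)) := by
      rw [mul_sum, mul_sum, ← sum_add_distrib, mul_sum]
      apply sum_congr rfl
      intro h _
      rw [card_eq_sum_ones, Nat.cast_sum, mul_sum, mul_sum, ← sum_add_distrib, mul_sum]
      apply sum_congr rfl
      intro h' _
      rw [Nat.cast_one]
      ring
    rw [h3]
    have h4 : ∑ h ∈ H, ((H.filter (fun h' => h' ≠ h)).card : ℝ) ≤ (H.card : ℝ) ^ 2 := by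
      calc ∑ h ∈ H, ((H.filter (fun h' => h' ≠ h)).card : ℝ) ≤ ∑ h ∈ H, (H.card : ℝ) := by
            apply sum_le_sum
            intro h _
            exact_mod_cast card_filter_le _ _
        _ = _ := by rw [sum_const, nsmul_eq_mul]; ring
    calc (H.card : ℝ) * (W0 * (2 * ε * (H.card : ℝ))) + W0 * ((1 + ε) ^ 4 * (∑ h ∈ H, ∑ h' ∈ H.filter (fun h' => h' ≠ h), FM M ((h : ℤ) - h')) +
        ((1 + ε) ^ 4 * ε + 2 * ε) * ∑ h ∈ H, ((H.filter (fun h' => h' ≠ h)).card : ℝ))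
        ≤ (H.card : ℝ) * (W0 * (2 * ε * (H.card : ℝ))) + W0 * ((1 + ε) ^ 4 * ((1 + V) * (H.card : ℝ) ^ 2) +
        ((1 + ε) ^ 4 * ε + 2 * ε) * (H.card : ℝ) ^ 2) := by
          apply add_le_add le_rfl
          apply mul_le_mul_of_nonneg_left _ hW0p.le
          apply add_le_add
          · exact mul_le_mul_of_nonneg_left hHF (by positivity)
          · exact mul_le_mul_of_nonneg_left h4 (by positivity)
      _ = (H.card : ℝ) ^ 2 * W0 * G := by rw [hG]; ring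
  -- the first moment
  obtain ⟨δ', hδ'⟩ : ∃ δ' : ℕ, δ' = 2 * B ^ 2 / A + 1 := ⟨_, rfl⟩
  have e10' : (δ' : ℝ) + M ≤ ε * A1 := by
    have h1 : (K : ℝ) * (δ' + M) ≤ K * (ε * A1) := by
      calc (K : ℝ) * (δ' + M) = (K : ℝ) * (((2 * B ^ 2 / A : ℕ) : ℝ) + 1 + M) := by rw [hδ']; push_cast; ring
        _ ≤ ε * A := e10
        _ ≤ ε * (K * A1) := mul_le_mul_of_nonneg_left hA1r hε.le
        _ = _ := by ring
    exact le_of_mul_le_mul_left h1 hKr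
  have hδ'1 : (δ' : ℝ) ≤ A1 := by
    have h1 : ε * (A1 : ℝ) ≤ 1 * A1 := mul_le_mul_of_nonneg_right (by linarith) hA1pr.le
    linarith
  have hδ'1' : δ' ≤ A1 := by exact_mod_cast hδ'1
  have hδ'2 : 2 * B ^ 2 ≤ δ' * A := by
    rw [hδ', mul_comm (2 * B ^ 2 / A + 1) A]
    exact (Nat.lt_mul_div_succ _ hAp).le
  have hfm := first_moment M α β A A1 B δ' H hHB hδ'1' hδ'2
  have hΩ : ((1 - ε) * A1 / M) * ((1 - ε) * B / M) ≤ ((Bx M α β A (A + A1 - δ') 0 B).card : ℝ) := by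
    apply Bx_lower M hM
    · push_cast
      rw [div_sub_one hMr.ne']
      apply div_le_div_of_nonneg_right _ hMr.le
      linarith
    · have : 0 ≤ 1 - ε := by linarith
      positivity
    · push_cast
      rw [div_sub_one hMr.ne']
      apply div_le_div_of_nonneg_right _ hMr.le
      linarith
    · have : 0 ≤ 1 - ε := by linarith
      positivity
  have hS1 : (H.card : ℝ) * (((1 - ε) * A1 / M) * ((1 - ε) * B / M)) ≤
      ∑ n ∈ Ioc ((A : ℤ) ^ 2) (((A : ℤ) + A1) ^ 2), (rep H (Bx M α β A (A + A1) 0 B) n : ℝ) := by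
    have h1 : (H.card : ℝ) * ((Bx M α β A (A + A1 - δ') 0 B).card : ℝ) ≤
      ∑ n ∈ Ioc ((A : ℤ) ^ 2) (((A : ℤ) + A1) ^ 2), (rep H (Bx M α β A (A + A1) 0 B) n : ℝ) := by
      exact_mod_cast hfm
    exact (mul_le_mul_of_nonneg_left hΩ hHpos.le).trans h1
  have hM2 : 2 ∣ M := dvd_trans (by norm_num) hM4
  have hε2 : 0 ≤ 1 - ε := by linarith
  have hgb := good_bad M A A1 B α β ν hM2 hM H hν _ _ (by positivity) (by positivity) hS1 hS2 T hT
  have hmain : ((H.card : ℝ) * (((1 - ε) * A1 / M) * ((1 - ε) * B / M))) ^ 2 / ((H.card : ℝ) ^ 2 * W0 * G) =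
      ((1 - ε) ^ 4 / G) * (A * A1 / M) := by
    rw [hW0]
    field_simp
  rw [hmain] at hgb
  have h1' : (1 : ℝ) ≤ ε * (A * A1 / M) := by
    rw [← mul_div_assoc, le_div_iff₀ hMr]
    have h2 : (M : ℝ) * K ≤ (ε * (A * A1)) * K := by
      calc (M : ℝ) * K ≤ ε * (A : ℝ) ^ 2 := e12
        _ = ε * A * A := by ring
        _ ≤ ε * A * (K * A1) := mul_le_mul_of_nonneg_left hA1r (by positivity)
        _ = _ := by ring
    have h3 := le_of_mul_le_mul_right h2 hKr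
    linarith
  have hcl : (((A : ℝ) + A1) ^ 2 - (A : ℝ) ^ 2) / (2 * M) = (A * A1 / M) * (1 + A1 / (2 * A)) := by
    field_simp
    ring
  have hXc : 0 ≤ V / (1 + V) + A1 / (2 * A) + δ := by positivity
  calc (T.card : ℝ) ≤ (((A : ℝ) + A1) ^ 2 - (A : ℝ) ^ 2) / (2 * M) + 1 - ((1 - ε) ^ 4 / G) * (A * A1 / M) := hgb
    _ ≤ (A * A1 / M) * (1 + A1 / (2 * A)) + ε * (A * A1 / M) - ((1 - ε) ^ 4 / G) * (A * A1 / M) := by rw [hcl]; linarith
    _ = (A * A1 / M) * ((1 + ε - (1 - ε) ^ 4 / G) + A1 / (2 * A)) := by ring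
    _ ≤ (A * A1 / M) * (V / (1 + V) + A1 / (2 * A) + δ) := by
        apply mul_le_mul_of_nonneg_left _ (by positivity)
        linarith
    _ ≤ (V / (1 + V) + A1 / (2 * A) + δ) * ((((A : ℝ) + A1) ^ 2 - (A : ℝ) ^ 2) / (2 * M)) := by
        rw [hcl]
        have : 0 ≤ (A1 : ℝ) / (2 * A) := by positivity
        have h5 : (A * A1 / M : ℝ) * (V / (1 + V) + A1 / (2 * A) + δ) ≤ ((A * A1 / M) * (1 + A1 / (2 * A))) * (V / (1 + V) + A1 / (2 * A) + δ) := by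
          apply mul_le_mul_of_nonneg_right _ hXc
          have h6 : (0 : ℝ) ≤ A * A1 / M := by positivity
          exact le_mul_of_one_le_right h6 (by linarith)
        linarith

end Pool.Agent.H770Sun
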