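import Pool.Agent.H770Sun.Sing2

set_option autoImplicit false

/-! The set of the shifts `3 ^ c + 5 ^ d`. -/

namespace Pool.Agent.H770Sun
open Finset Filter

lemma sq_le_pow_div : ∃ L1 : ℕ, ∀ L ≥ L1, 8 * L ^ 2 ≤ 2 ^ (L / 8) := by
  have h := tendsto_pow_const_div_const_pow_of_one_lt 2 (show (1 : ℝ) < 2 by norm_num)
  have h1 := h.eventually (eventually_le_nhds (show (0 : ℝ) < 1 / 2048 by norm_num))
  obtain ⟨N, hN⟩ := eventually_atTop.1 h1
  refine ⟨8 * (N + 1), fun L hL => ?_⟩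
  obtain ⟨t, ht⟩ : ∃ t, t = L / 8 := ⟨_, rfl⟩
  have ht1 : N ≤ t := by omega
  have ht2 : L ≤ 16 * t := by omega
  have h2 := hN t ht1
  rw [div_le_iff₀ (by positivity)] at h2
  have h3 : 2048 * t ^ 2 ≤ 2 ^ t := by
    have : (2048 : ℝ) * (t : ℝ) ^ 2 ≤ 2 ^ t := by linarith
    exact_mod_cast this
  rw [← ht]
  calc 8 * L ^ 2 ≤ 8 * (16 * t) ^ 2 := Nat.mul_le_mul_left _ (Nat.pow_le_pow_left ht2 2)
    _ = 2048 * t ^ 2 := by ring
    _ ≤ _ := h3

lemma FM_nonneg (M : ℕ) (k : ℤ) : 0 ≤ FM M k := by unfold FM; positivity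

set_option maxHeartbeats 4000000 in
/-- **the shifts** -/
theorem shifts (E E' M c0 d1 : ℕ) (hE : 0 < E) (hE' : 0 < E') (hM3 : 3 ∣ M) (v : ℝ)
    (hv : ∀ P : Finset ℕ, (∀ p ∈ P, p.Prime ∧ ¬ p ∣ M) → ∑ T ∈ P.powerset.erase ∅, wT T / oT E T ≤ v)
    (δ : ℝ) (hδ : 0 < δ) : ∃ L0 : ℕ, ∃ c : ℝ, 0 < c ∧ ∀ A : ℕ, L0 ≤ Nat.log 2 A → ∃ H : Finset ℕ,
      (∀ h ∈ H, ∃ i j : ℕ, h = 3 ^ (c0 + E * i) + 5 ^ (d1 + E' * j)) ∧ (∀ h ∈ H, h ≤ (A / Nat.log 2 A) ^ 2) ∧
      c * (Nat.log 2 A : ℝ) ^ 2 ≤ H.card ∧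
      (∑ h ∈ H, ∑ h' ∈ H.filter (fun h' => h' ≠ h), FM M ((h : ℤ) - h') ≤ (1 + v + δ) * (H.card : ℝ) ^ 2) := by
  obtain ⟨I0, hI0⟩ := run_sum E M hM3 v hv (64 * E) δ hδ
  obtain ⟨L1, hL1⟩ := sq_le_pow_div
  refine ⟨max (max L1 (32 * E * (I0 + 1))) (max (32 * E') (max (16 * c0) (16 * (d1 + 2 * E')))),
    1 / ((32 * E) * (32 * E')), by positivity, fun A hA => ?_⟩
  obtain ⟨L, hL⟩ : ∃ L, L = Nat.log 2 A := ⟨_, rfl⟩
  rw [← hL] at hA ⊢
  have g1 : L1 ≤ L := ((le_max_left _ _).trans (le_max_left _ _)).trans hA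
  have g2 : 32 * E * (I0 + 1) ≤ L := ((le_max_right _ _).trans (le_max_left _ _)).trans hA
  have g3 : 32 * E' ≤ L := ((le_max_left _ _).trans (le_max_right _ _)).trans hA
  have g4 : 16 * c0 ≤ L := ((le_max_left _ _).trans ((le_max_right _ _).trans (le_max_right _ _))).trans hA
  have g5 : 16 * (d1 + 2 * E') ≤ L := ((le_max_right _ _).trans ((le_max_right _ _).trans (le_max_right _ _))).trans hA
  have g6 := hL1 L g1
  have gL : 0 < L := by omega
  obtain ⟨I, hI⟩ : ∃ I, I = L / (16 * E) := ⟨_, rfl⟩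
  obtain ⟨J, hJ⟩ : ∃ J, J = L / (16 * E') := ⟨_, rfl⟩
  obtain ⟨u, hu⟩ : ∃ u, u = L / (2 * E') := ⟨_, rfl⟩
  have i1 : 16 * E * I ≤ L := by rw [hI]; exact Nat.mul_div_le _ _
  have i2 : L < 16 * E * (I + 1) := by rw [hI]; exact Nat.lt_mul_div_succ _ (by positivity)
  have j1 : 16 * E' * J ≤ L := by rw [hJ]; exact Nat.mul_div_le _ _
  have j2 : L < 16 * E' * (J + 1) := by rw [hJ]; exact Nat.lt_mul_div_succ _ (by positivity)
  have u1 : 2 * E' * u ≤ L := by rw [hu]; exact Nat.mul_div_le _ _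
  have u2 : L < 2 * E' * (u + 1) := by rw [hu]; exact Nat.lt_mul_div_succ _ (by positivity)
  have i3 : L ≤ 32 * E * I := by
    have : 32 * E ≤ L := le_trans (Nat.le_mul_of_pos_right _ (by omega)) g2
    have e : 16 * E * (I + 1) = 16 * E * I + 16 * E := by ring
    have e' : 32 * E * I = 2 * (16 * E * I) := by ring
    omega
  have j3 : L ≤ 32 * E' * J := by
    have e : 16 * E' * (J + 1) = 16 * E' * J + 16 * E' := by ring
    have e' : 32 * E' * J = 2 * (16 * E' * J) := by ring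
    omega
  have i4 : I0 ≤ I := by
    by_contra hcon
    have h1 : I + 1 ≤ I0 := by omega
    have h2 : 16 * E * (I + 1) ≤ 16 * E * I0 := Nat.mul_le_mul_left _ h1
    have h3 : 16 * E * I0 ≤ 32 * E * (I0 + 1) := by nlinarith
    omega
  -- sizes of the powers
  have hAlo : 2 ^ L ≤ A := by
    rw [hL]
    apply Nat.pow_log_le_self 2
    intro h0
    rw [h0] at hL
    simp at hL
    omega
  have hAhi : A < 2 ^ (L + 1) := by rw [hL]; exact Nat.lt_pow_succ_log_self (by norm_num) A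
  obtain ⟨B, hB⟩ : ∃ B, B = A / L := ⟨_, rfl⟩
  rw [← hB]
  have hB1 : A < L * (B + 1) := by rw [hB]; exact Nat.lt_mul_div_succ A gL
  -- exponents of `3`
  have hc : ∀ i, i ≤ I → 3 ^ (c0 + E * i) ≤ 2 ^ (L / 4) := by
    intro i hi
    have h1 : E * i ≤ E * I := Nat.mul_le_mul_left _ hi
    have h2 : 16 * (E * I) ≤ L := by rw [← mul_assoc]; exact i1
    calc 3 ^ (c0 + E * i) ≤ 4 ^ (c0 + E * i) := Nat.pow_le_pow_left (by norm_num) _
      _ = 2 ^ (2 * (c0 + E * i)) := by rw [pow_mul]; norm_num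
      _ ≤ 2 ^ (L / 4) := Nat.pow_le_pow_right (by norm_num) (by omega)
  -- exponents of `5`
  obtain ⟨D, hD⟩ : ∃ D, D = d1 + E' * (u + 2) := ⟨_, rfl⟩
  have hDlo : L + 1 ≤ 2 * D := by
    have e : 2 * E' * (u + 1) = 2 * (E' * u) + 2 * E' := by ring
    have e' : E' * (u + 2) = E' * u + 2 * E' := by ring
    omega
  have hd1 : ∀ j, 2 ^ (L + 1) ≤ 5 ^ (D + E' * j) := by
    intro j
    calc 2 ^ (L + 1) ≤ 2 ^ (2 * D) := Nat.pow_le_pow_right (by norm_num) hDlo
      _ = 4 ^ D := by rw [pow_mul]; norm_num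
      _ ≤ 5 ^ D := Nat.pow_le_pow_left (by norm_num) _
      _ ≤ 5 ^ (D + E' * j) := Nat.pow_le_pow_right (by norm_num) (by omega)
  have hd2 : ∀ j, j ≤ J → 5 ^ (D + E' * j) ≤ 2 ^ (2 * L - L / 8) := by
    intro j hj
    have h1 : E' * j ≤ E' * J := Nat.mul_le_mul_left _ hj
    have h2 : 16 * (E' * J) ≤ L := by rw [← mul_assoc]; exact j1
    have h3 : 2 * (E' * u) ≤ L := by rw [← mul_assoc]; exact u1
    have e' : E' * (u + 2) = E' * u + 2 * E' := by ring
    calc 5 ^ (D + E' * j) ≤ 8 ^ (D + E' * j) := Nat.pow_le_pow_left (by norm_num) _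
      _ = 2 ^ (3 * (D + E' * j)) := by rw [pow_mul]; norm_num
      _ ≤ 2 ^ (2 * L - L / 8) := Nat.pow_le_pow_right (by norm_num) (by omega)
  have hc2 : ∀ i, i ≤ I → 3 ^ (c0 + E * i) < 2 ^ (L + 1) := by
    intro i hi
    exact lt_of_le_of_lt (hc i hi) (Nat.pow_lt_pow_right (by norm_num) (by omega))
  -- `B` is large
  have hB2 : 2 * 2 ^ (2 * L - L / 8) ≤ B ^ 2 := by
    have h1 : 2 ^ L ≤ 2 * (L * B) := by
      have h2 : 2 * L ≤ 2 ^ L := by
        have h3 : 2 * L ≤ 8 * L ^ 2 := by nlinarith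
        exact (h3.trans g6).trans (Nat.pow_le_pow_right (by norm_num) (by omega))
      have e : L * (B + 1) = L * B + L := by ring
      omega
    have h2 : 2 ^ (2 * L) ≤ 4 * (L ^ 2 * B ^ 2) := by
      calc 2 ^ (2 * L) = (2 ^ L) ^ 2 := by rw [← pow_mul]; congr 1; ring
        _ ≤ (2 * (L * B)) ^ 2 := Nat.pow_le_pow_left h1 2
        _ = _ := by ring
    have h3 : 2 ^ (2 * L) = 2 ^ (2 * L - L / 8) * 2 ^ (L / 8) := by
      rw [← pow_add]
      congr 1
      omega
    have h4 : (2 * 2 ^ (2 * L - L / 8)) * (4 * L ^ 2) ≤ B ^ 2 * (4 * L ^ 2) := by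
      calc (2 * 2 ^ (2 * L - L / 8)) * (4 * L ^ 2) = 2 ^ (2 * L - L / 8) * (8 * L ^ 2) := by ring
        _ ≤ 2 ^ (2 * L - L / 8) * 2 ^ (L / 8) := Nat.mul_le_mul_left _ g6
        _ = 2 ^ (2 * L) := h3.symm
        _ ≤ _ := h2
        _ = _ := by ring
    exact Nat.le_of_mul_le_mul_right h4 (by positivity)
  obtain ⟨φ, hφ⟩ : ∃ φ : ℕ × ℕ → ℕ, φ = fun q => 3 ^ (c0 + E * q.1) + 5 ^ (D + E' * q.2) := ⟨_, rfl⟩
  have hinj : Set.InjOn φ ((range I ×ˢ range J : Finset (ℕ × ℕ)) : Set (ℕ × ℕ)) := by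
    have key : ∀ i i' j j' : ℕ, i < I → i' < I → j < j' → 3 ^ (c0 + E * i) + 5 ^ (D + E' * j) ≠ 3 ^ (c0 + E * i') + 5 ^ (D + E' * j') := by
      intro i i' j j' hi hi' hj h
      have h1 : D + E' * j + 1 ≤ D + E' * j' := by
        have : E' * (j + 1) ≤ E' * j' := Nat.mul_le_mul_left _ hj
        have e : E' * (j + 1) = E' * j + E' := by ring
        omega
      have h2 : 5 ^ (D + E' * j) * 5 ≤ 5 ^ (D + E' * j') := by
        rw [← pow_succ]
        exact Nat.pow_le_pow_right (by norm_num) h1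
      have h3 := hc2 i hi.le
      have h4 := hd1 j
      have h5 : 0 < 3 ^ (c0 + E * i') := by positivity
      generalize 3 ^ (c0 + E * i') = z1 at *
      generalize 3 ^ (c0 + E * i) = z2 at *
      generalize 5 ^ (D + E' * j) = z3 at *
      generalize 5 ^ (D + E' * j') = z4 at *
      generalize 2 ^ (L + 1) = z5 at *
      omega
    rintro ⟨i, j⟩ hq ⟨i', j'⟩ hq' heq
    rw [mem_coe, mem_product, mem_range, mem_range] at hq hq'
    rw [hφ] at heq
    simp only at hq hq' heq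
    rcases lt_trichotomy j j' with h | h | h
    · exact absurd heq (key i i' j j' hq.1 hq'.1 h)
    · subst h
      have h1 : 3 ^ (c0 + E * i) = 3 ^ (c0 + E * i') := by omega
      have h2 := Nat.pow_right_injective (le_refl 2 |>.trans (by norm_num : 2 ≤ 3)) h1
      have h3 : E * i = E * i' := by simpa using h2
      have h4 := Nat.eq_of_mul_eq_mul_left hE h3
      rw [h4]
    · exact absurd heq.symm (key i' i j' j hq'.1 hq.1 h)
  refine ⟨(range I ×ˢ range J).image φ, ?_, ?_, ?_, ?_⟩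
  · intro h hh
    rw [mem_image] at hh
    obtain ⟨⟨i, j⟩, _, rfl⟩ := hh
    refine ⟨i, u + 2 + j, ?_⟩
    rw [hφ, hD]
    simp only
    congr 2
    ring
  · intro h hh
    rw [mem_image] at hh
    obtain ⟨⟨i, j⟩, hq, rfl⟩ := hh
    rw [mem_product, mem_range, mem_range] at hq
    simp only at hq
    rw [hφ]
    simp only
    have h1 := hc i hq.1.le
    have h2 := hd2 j hq.2.le
    have h3 : 2 ^ (L / 4) ≤ 2 ^ (2 * L - L / 8) := Nat.pow_le_pow_right (by norm_num) (by omega)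
    omega
  · rw [card_image_of_injOn hinj, card_product, card_range, card_range]
    push_cast
    have e1 : (L : ℝ) ≤ 32 * E * I := by exact_mod_cast i3
    have e2 : (L : ℝ) ≤ 32 * E' * J := by exact_mod_cast j3
    have hEr : (0 : ℝ) < E := by exact_mod_cast hE
    have hEr' : (0 : ℝ) < E' := by exact_mod_cast hE'
    rw [div_mul_eq_mul_div, one_mul, div_le_iff₀ (by positivity)]
    calc (L : ℝ) ^ 2 = L * L := by ring
      _ ≤ (32 * E * I) * (32 * E' * J) := mul_le_mul e1 e2 (by positivity) (by positivity)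
      _ = _ := by ring
  · rw [card_image_of_injOn hinj, card_product, card_range, card_range, sum_image hinj]
    have h1 : ∀ q ∈ range I ×ˢ range J, ∑ h' ∈ ((range I ×ˢ range J).image φ).filter (fun h' => h' ≠ φ q), FM M ((φ q : ℤ) - h') =
        ∑ q' ∈ range I ×ˢ range J, (if φ q' ≠ φ q then FM M ((φ q : ℤ) - φ q') else 0) := by
      intro q _
      rw [sum_filter, sum_image hinj]
    rw [sum_congr rfl h1, sum_comm, sum_product]
    have h2 : ∀ i' ∈ range I, ∀ j' ∈ range J, ∑ q ∈ range I ×ˢ range J, (if φ (i', j') ≠ φ q then FM M ((φ q : ℤ) - φ (i', j')) else 0) ≤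
        (J : ℝ) * ((1 + v + δ) * I) := by
      intro i' hi' j' hj'
      rw [mem_range] at hi' hj'
      rw [sum_product, sum_comm]
      have h3 : ∀ j ∈ range J, ∑ i ∈ range I, (if φ (i', j') ≠ φ (i, j) then FM M ((φ (i, j) : ℤ) - φ (i', j')) else 0) ≤ (1 + v + δ) * I := by
        intro j hj
        rw [mem_range] at hj
        obtain ⟨a, ha⟩ : ∃ a : ℤ, a = 3 ^ (c0 + E * i') + 5 ^ (D + E' * j') - 5 ^ (D + E' * j) := ⟨_, rfl⟩
        have hκ : 2 * L ≤ 64 * E * I := by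
          have e' : 64 * E * I = 2 * (32 * E * I) := by ring
          omega
        have b1 : ((3 ^ (c0 + E * i') : ℕ) : ℤ) ≤ ((2 ^ (L / 4) : ℕ) : ℤ) := by exact_mod_cast hc i' hi'.le
        have b2 : ((5 ^ (D + E' * j') : ℕ) : ℤ) ≤ ((2 ^ (2 * L - L / 8) : ℕ) : ℤ) := by exact_mod_cast hd2 j' hj'.le
        have b3 : ((5 ^ (D + E' * j) : ℕ) : ℤ) ≤ ((2 ^ (2 * L - L / 8) : ℕ) : ℤ) := by exact_mod_cast hd2 j hj.le
        have b4 : 2 ^ (L / 4) + 2 ^ (2 * L - L / 8) ≤ 2 ^ (64 * E * I) := by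
          have e1 : 2 ^ (L / 4) ≤ 2 ^ (2 * L - 1) := Nat.pow_le_pow_right (by norm_num) (by omega)
          have hL8 : 8 ≤ L := by
            by_contra hcon
            have h0 : L / 8 = 0 := by omega
            rw [h0] at g6
            nlinarith
          have e2 : 2 ^ (2 * L - L / 8) ≤ 2 ^ (2 * L - 1) := Nat.pow_le_pow_right (by norm_num) (by omega)
          have e3 : 2 ^ (2 * L - 1) + 2 ^ (2 * L - 1) = 2 ^ (2 * L) := by
            rw [← two_mul, ← pow_succ']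
            congr 1
            omega
          have e4 : 2 ^ (2 * L) ≤ 2 ^ (64 * E * I) := Nat.pow_le_pow_right (by norm_num) hκ
          omega
        have b4' : ((2 ^ (L / 4) : ℕ) : ℤ) + ((2 ^ (2 * L - L / 8) : ℕ) : ℤ) ≤ ((2 ^ (64 * E * I) : ℕ) : ℤ) := by exact_mod_cast b4
        have habs : |a| ≤ 2 ^ (64 * E * I) := by
          push_cast at b1 b2 b3 b4'
          have p1 : (0 : ℤ) < 3 ^ (c0 + E * i') := by positivity
          have p2 : (0 : ℤ) < 5 ^ (D + E' * j') := by positivity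
          have p3 : (0 : ℤ) < 5 ^ (D + E' * j) := by positivity
          have p4 : (0 : ℤ) < 2 ^ (L / 4) := by positivity
          rw [ha, abs_le]
          constructor <;> linarith
        have h3I : (3 : ℤ) ^ (c0 + E * I) ≤ 2 ^ (64 * E * I) := by
          have e1 : ((3 ^ (c0 + E * I) : ℕ) : ℤ) ≤ ((2 ^ (L / 4) : ℕ) : ℤ) := by exact_mod_cast hc I le_rfl
          push_cast at e1 b4'
          have p5 : (0 : ℤ) < 2 ^ (2 * L - L / 8) := by positivity
          linarith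
        have h4 := hI0 I i4 c0 a habs h3I
        refine le_trans (le_of_eq ?_) h4
        rw [sum_filter]
        apply sum_congr rfl
        intro i _
        have e1 : (φ (i, j) : ℤ) - φ (i', j') = 3 ^ (c0 + E * i) - a := by
          rw [hφ, ha]
          push_cast
          ring
        have e2 : (φ (i', j') ≠ φ (i, j)) ↔ ((3 : ℤ) ^ (c0 + E * i) ≠ a) := by
          rw [not_iff_not]
          constructor
          · intro h
            rw [h, sub_self] at e1
            linarith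
          · intro h
            rw [h, sub_self] at e1
            have : (φ (i', j') : ℤ) = φ (i, j) := by linarith
            exact_mod_cast this
        rw [e1]
        by_cases h : φ (i', j') ≠ φ (i, j)
        · rw [if_pos h, if_pos (e2.1 h)]
        · rw [if_neg h, if_neg (fun h' => h (e2.2 h'))]
      refine (sum_le_sum h3).trans ?_
      rw [sum_const, card_range, nsmul_eq_mul]
    calc ∑ i' ∈ range I, ∑ j' ∈ range J, ∑ q ∈ range I ×ˢ range J, (if φ (i', j') ≠ φ q then FM M ((φ q : ℤ) - φ (i', j')) else 0)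
        ≤ ∑ i' ∈ range I, ∑ j' ∈ range J, (J : ℝ) * ((1 + v + δ) * I) :=
          sum_le_sum (fun i' hi' => sum_le_sum (fun j' hj' => h2 i' hi' j' hj'))
      _ = (1 + v + δ) * (((I * J : ℕ) : ℝ)) ^ 2 := by
          rw [sum_const, sum_const, card_range, card_range, nsmul_eq_mul, nsmul_eq_mul]
          push_cast
          ring

end Pool.Agent.H770Sun
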