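import Pool.Agent.H770Sun.CT
import Pool.Agent.H770Sun.Shift

set_option autoImplicit false

/-! The integers of a class that are not of the form `a ^ 2 + b ^ 2 + 3 ^ c + 5 ^ d`. -/

namespace Pool.Agent.H770Sun
open Finset Filter

/-- the integers of the form `a ^ 2 + b ^ 2 + 3 ^ c + 5 ^ d` -/
def Rp (z : ℤ) : Prop := ∃ a b c d : ℕ, z = a ^ 2 + b ^ 2 + 3 ^ c + 5 ^ d

lemma FM_scale (M : ℕ) (s k : ℤ) (hs : s ≠ 0) : FM M k ≤ FM M (s * k) := by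
  rcases eq_or_ne k 0 with h | h
  · subst h
    rw [mul_zero]
  unfold FM
  apply sum_le_sum_of_subset_of_nonneg
  · apply filter_subset_filter
    apply Nat.divisors_subset_of_dvd
    · exact Int.natAbs_ne_zero.2 (mul_ne_zero hs h)
    · exact Int.natAbs_dvd_natAbs.2 (dvd_mul_left _ _)
  · intro _ _ _
    positivity

/-- one block -/
theorem class_block (E E' M σ c0 d1 : ℕ) (hE : 0 < E) (hE' : 0 < E') (hM4 : 4 ∣ M) (hM : 0 < M) (hM3 : 3 ∣ M) (hσ : 0 < σ)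
    (v : ℝ) (hv : ∀ P : Finset ℕ, (∀ p ∈ P, p.Prime ∧ ¬ p ∣ M) → ∑ T ∈ P.powerset.erase ∅, wT T / oT E T ≤ v)
    (α β : ℤ) (hα : IsCoprime α (M : ℤ))
    (hc : ∀ i : ℕ, ((2 * M * σ ^ 2 : ℕ) : ℤ) ∣ 3 ^ (c0 + E * i) - 3 ^ c0)
    (hd : ∀ j : ℕ, ((2 * M * σ ^ 2 : ℕ) : ℤ) ∣ 5 ^ (d1 + E' * j) - 5 ^ d1)
    (r ρ : ℤ) (hr : 3 ^ c0 + 5 ^ d1 = (σ : ℤ) ^ 2 * ρ + r) (hr0 : 0 ≤ r) (hr1 : r < (σ : ℤ) ^ 2)
    (K : ℕ) (hK : 0 < K) (δ : ℝ) (hδ : 0 < δ) :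
    ∃ A0 : ℕ, ∀ A ≥ A0, ∀ A1 : ℕ, A ≤ K * A1 → ∀ T : Finset ℤ,
      (∀ n ∈ T, n ∈ Ioc ((A : ℤ) ^ 2) (((A : ℤ) + A1) ^ 2) ∧ (2 * M : ℤ) ∣ n - (α ^ 2 + β ^ 2 + ρ) ∧ ¬ Rp ((σ : ℤ) ^ 2 * n + r)) →
      (T.card : ℝ) ≤ (v / (1 + v) + A1 / (2 * A) + δ) * ((((A : ℝ) + A1) ^ 2 - (A : ℝ) ^ 2) / (2 * M)) := by
  have hv0 : 0 ≤ v := by
    have := hv ∅ (by simp)
    simpa using this
  obtain ⟨L0, c, hc0, hsh⟩ := shifts E E' M c0 d1 hE hE' hM3 v hv (δ / 2) (by positivity)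
  obtain ⟨A2, hA2⟩ := block_bound M hM4 hM K hK c (v + δ / 2) (δ / 2) hc0 (by positivity) (by positivity)
  refine ⟨max A2 (2 ^ L0), fun A hA A1 hA1 T hT => ?_⟩
  have hAA2 : A2 ≤ A := (le_max_left _ _).trans hA
  have hAL : L0 ≤ Nat.log 2 A := Nat.le_log_of_pow_le (by norm_num) ((le_max_right _ _).trans hA)
  obtain ⟨H, hH1, hH2, hH3, hH4⟩ := hsh A hAL
  have hσi : (0 : ℤ) < (σ : ℤ) ^ 2 := by positivity
  -- the shifts in the class of `r`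
  have hHr : ∀ h ∈ H, ∃ k : ℤ, (h : ℤ) = (σ : ℤ) ^ 2 * (ρ + 2 * M * k) + r := by
    intro h hh
    obtain ⟨i, j, hij⟩ := hH1 h hh
    obtain ⟨x, hx⟩ := hc i
    obtain ⟨y, hy⟩ := hd j
    refine ⟨x + y, ?_⟩
    rw [hij]
    push_cast at hx hy ⊢
    have h1 : (3 : ℤ) ^ (c0 + E * i) = 3 ^ c0 + 2 * M * σ ^ 2 * x := by linarith
    have h2 : (5 : ℤ) ^ (d1 + E' * j) = 5 ^ d1 + 2 * M * σ ^ 2 * y := by linarith
    rw [h1, h2]
    have h3 : (3 : ℤ) ^ c0 + 2 * M * σ ^ 2 * x + (5 ^ d1 + 2 * M * σ ^ 2 * y) = (3 ^ c0 + 5 ^ d1) + σ ^ 2 * (2 * M * (x + y)) := by ring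
    rw [h3, hr]
    ring
  -- the quotients
  have hq : ∀ h ∈ H, ∃ h1 : ℕ, (h : ℤ) = (σ : ℤ) ^ 2 * h1 + r ∧ (2 * M : ℤ) ∣ (h1 : ℤ) - ρ := by
    intro h hh
    obtain ⟨k, hk⟩ := hHr h hh
    have h0 : 0 ≤ ρ + 2 * M * k := by
      by_contra hcon
      push Not at hcon
      have h1 : (σ : ℤ) ^ 2 * (ρ + 2 * M * k) ≤ -(σ : ℤ) ^ 2 := by nlinarith
      have h2 : (0 : ℤ) ≤ h := by positivity
      linarith
    refine ⟨(ρ + 2 * M * k).toNat, ?_, ?_⟩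
    · rw [Int.toNat_of_nonneg h0]
      exact hk
    · rw [Int.toNat_of_nonneg h0]
      exact ⟨k, by ring⟩
  obtain ⟨ψ, hψ⟩ : ∃ ψ : ℕ → ℕ, ∀ h ∈ H, (h : ℤ) = (σ : ℤ) ^ 2 * ψ h + r ∧ (2 * M : ℤ) ∣ (ψ h : ℤ) - ρ := by
    classical
    refine ⟨fun h => if hh : h ∈ H then (hq h hh).choose else 0, fun h hh => ?_⟩
    simp only [hh, dif_pos]
    exact (hq h hh).choose_spec
  have hinj : Set.InjOn ψ (H : Set ℕ) := by
    intro h hh h' hh' heq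
    have h1 := (hψ h hh).1
    have h2 := (hψ h' hh').1
    rw [heq, ← h2] at h1
    exact_mod_cast h1
  have hmain := hA2 A hAA2 A1 hA1 α β (α ^ 2 + β ^ 2 + ρ) hα (H.image ψ) ?_ ?_ ?_ ?_ T ?_
  · refine hmain.trans ?_
    apply mul_le_mul_of_nonneg_right
    · have h1 : (v + δ / 2) / (1 + (v + δ / 2)) ≤ v / (1 + v) + δ / 2 := by
        have e1 : v / (1 + v) + δ / 2 = (v + δ / 2 * (1 + v)) / (1 + v) := by field_simp
        rw [e1, div_le_div_iff₀ (by positivity) (by positivity)]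
        nlinarith [mul_nonneg hv0 hδ.le, mul_nonneg (mul_nonneg hv0 hδ.le) hv0, mul_pos hδ hδ, mul_nonneg hv0 (mul_pos hδ hδ).le]
      linarith
    · have : (A : ℝ) ^ 2 ≤ ((A : ℝ) + A1) ^ 2 := by
        apply pow_le_pow_left₀ (by positivity)
        have : (0 : ℝ) ≤ A1 := by positivity
        linarith
      have h2 : 0 ≤ ((A : ℝ) + A1) ^ 2 - (A : ℝ) ^ 2 := by linarith
      positivity
  · intro h1 hh1
    rw [mem_image] at hh1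
    obtain ⟨h, hh, rfl⟩ := hh1
    refine le_trans ?_ (hH2 h hh)
    have e1 := (hψ h hh).1
    have e2 : (ψ h : ℤ) ≤ h := by
      rw [e1]
      have : (0 : ℤ) ≤ ψ h := by positivity
      nlinarith
    exact_mod_cast e2
  · intro h1 hh1
    rw [mem_image] at hh1
    obtain ⟨h, hh, rfl⟩ := hh1
    obtain ⟨k, hk⟩ := (hψ h hh).2
    exact ⟨-k, by linarith⟩
  · rw [card_image_of_injOn hinj]
    exact hH3
  · rw [card_image_of_injOn hinj, sum_image hinj]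
    refine le_trans ?_ (le_trans hH4 (le_of_eq (by ring)))
    apply sum_le_sum
    intro h hh
    rw [sum_filter, sum_image hinj, sum_filter]
    apply sum_le_sum
    intro h' hh'
    by_cases h0 : h' = h
    · rw [h0]
      simp
    · rw [if_pos (fun h1 => h0 (hinj hh' hh h1)), if_pos h0]
      have e1 := (hψ h hh).1
      have e2 := (hψ h' hh').1
      have e3 : (h : ℤ) - h' = (σ : ℤ) ^ 2 * ((ψ h : ℤ) - ψ h') := by rw [e1, e2]; ring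
      rw [e3]
      exact FM_scale M _ _ hσi.ne'
  · intro n hn
    obtain ⟨h1, h2, h3⟩ := hT n hn
    refine ⟨h1, h2, ?_⟩
    rintro ⟨h', hh', a, b, hab⟩
    apply h3
    rw [mem_image] at hh'
    obtain ⟨h, hh, rfl⟩ := hh'
    obtain ⟨i, j, hij⟩ := hH1 h hh
    have e1 := (hψ h hh).1
    refine ⟨σ * a.natAbs, σ * b.natAbs, c0 + E * i, d1 + E' * j, ?_⟩
    rw [hab]
    have e2 : (h : ℤ) = 3 ^ (c0 + E * i) + 5 ^ (d1 + E' * j) := by rw [hij]; push_cast; ring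
    push_cast
    rw [mul_pow, mul_pow, sq_abs, sq_abs]
    linarith

end Pool.Agent.H770Sun
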