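import Mathlib

set_option autoImplicit false

/-! The core counting lemma for pairs of sums of two squares in a flat box. -/

namespace Pool.Agent.H770Sun
open Finset

/-- the sum of the squares of the coordinates -/
def N2 (w : ℤ × ℤ) : ℤ := w.1 ^ 2 + w.2 ^ 2

/-- the points of a box in a residue class -/
noncomputable def Bx (M α β a0 a1 b0 b1 : ℤ) : Finset (ℤ × ℤ) :=
  ((Ioc a0 a1) ×ˢ (Ioc b0 b1)).filter (fun w => M ∣ w.1 - α ∧ M ∣ w.2 - β)

lemma mem_Bx {M α β a0 a1 b0 b1 : ℤ} {w : ℤ × ℤ} :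
    w ∈ Bx M α β a0 a1 b0 b1 ↔ (a0 < w.1 ∧ w.1 ≤ a1) ∧ (b0 < w.2 ∧ w.2 ≤ b1) ∧ M ∣ w.1 - α ∧ M ∣ w.2 - β := by
  unfold Bx
  rw [mem_filter, mem_product, mem_Ioc, mem_Ioc]
  tauto

/-- a set of integers that are congruent to each other, in a short interval -/
theorem card_cong (S : Finset ℤ) (q L : ℕ) (hq : 0 < q)
    (h : ∀ x ∈ S, ∀ y ∈ S, (q : ℤ) ∣ x - y ∧ x - y ≤ L) : S.card ≤ L / q + 1 := by
  rcases S.eq_empty_or_nonempty with h0 | h0
  · subst h0; simp
  · have hmS : S.min' h0 ∈ S := S.min'_mem h0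
    have hmin : ∀ x ∈ S, S.min' h0 ≤ x := fun x hx => S.min'_le x hx
    obtain ⟨m, hm⟩ : ∃ m, m = S.min' h0 := ⟨_, rfl⟩
    rw [← hm] at hmS hmin
    have hq' : (0 : ℤ) < q := by exact_mod_cast hq
    have h1 : S.card ≤ (range (L / q + 1)).card := by
      apply card_le_card_of_injOn (fun x => ((x - m) / q).toNat)
      · intro x hx
        rw [coe_range, Set.mem_Iio]
        have h2 := (h x hx m hmS).2
        have h3 : (x - m) / q ≤ (L : ℤ) / q := Int.ediv_le_ediv hq' h2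
        have h4 : (0 : ℤ) ≤ (x - m) / q := Int.ediv_nonneg (by have := hmin x hx; omega) hq'.le
        have h5 : ((L / q : ℕ) : ℤ) = (L : ℤ) / q := by push_cast; rfl
        simp only
        omega
      · intro x hx y hy hxy
        simp only at hxy
        have hx1 := (h x hx m hmS).1
        have hy1 := (h y hy m hmS).1
        have h4 : (0 : ℤ) ≤ (x - m) / q := Int.ediv_nonneg (by have := hmin x hx; omega) hq'.le
        have h5 : (0 : ℤ) ≤ (y - m) / q := Int.ediv_nonneg (by have := hmin y hy; omega) hq'.le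
        have h6 : (x - m) / q = (y - m) / q := by omega
        obtain ⟨c, hc⟩ := hx1
        obtain ⟨d, hd⟩ := hy1
        rw [hc, hd, Int.mul_ediv_cancel_left _ hq'.ne', Int.mul_ediv_cancel_left _ hq'.ne'] at h6
        subst h6
        omega
    rwa [card_range] at h1

/-- short vectors with a prescribed product -/
lemma exists_short (d e X : ℤ) (M K0 Q J D B r : ℕ) (hM : 0 < M) (hK0 : 0 < K0) (γ : ℕ) (hγ : 0 < γ)
    (hX : X = M * γ * Q) (hd : |d| ≤ D) (he : |e| ≤ B) (hMd : ((M * γ : ℕ) : ℤ) ∣ d) (hMe : ((M * γ : ℕ) : ℤ) ∣ e)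
    (hG : ((Int.gcd d e : ℕ) : ℤ) ∣ X) (hK : ((Int.gcd d e : ℕ) : ℤ) * K0 < |e|)
    (hr : M * Q * J + K0 * D ≤ K0 * r) (j : ℤ) (hj0 : 0 ≤ j) (hj : j ≤ J) :
    ∃ v : ℤ × ℤ, (M : ℤ) ∣ v.1 ∧ (M : ℤ) ∣ v.2 ∧ 0 ≤ v.1 ∧ v.1 ≤ B ∧ |v.2| ≤ r ∧ d * v.1 + e * v.2 = M * X * j := by
  have he0 : e ≠ 0 := by
    intro h
    rw [h, abs_zero] at hK
    have : (0 : ℤ) ≤ ((Int.gcd d 0 : ℕ) : ℤ) * K0 := by positivity
    omega
  have hGpos : 0 < Int.gcd d e := Int.gcd_pos_of_ne_zero_right _ he0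
  obtain ⟨G, hGdef⟩ : ∃ G : ℕ, G = Int.gcd d e := ⟨_, rfl⟩
  rw [← hGdef] at hG hK hGpos
  obtain ⟨d2, e2, hcop, hd2, he2⟩ : ∃ d2 e2 : ℤ, IsCoprime d2 e2 ∧ d = G * d2 ∧ e = G * e2 := by
    obtain ⟨d2, e2, h1, h2, h3⟩ := Int.exists_gcd_one (m := d) (n := e) (by rw [← hGdef]; exact hGpos)
    refine ⟨d2, e2, Int.isCoprime_iff_gcd_eq_one.2 h1, ?_, ?_⟩
    · rw [hGdef, mul_comm]; exact h2
    · rw [hGdef, mul_comm]; exact h3
  have hG' : (0 : ℤ) < G := by exact_mod_cast hGpos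
  have he20 : e2 ≠ 0 := by
    intro h
    rw [h, mul_zero] at he2
    exact he0 he2
  have he2abs : 0 < |e2| := abs_pos.2 he20
  -- `M γ ≤ G`
  have hMG : ((M * γ : ℕ) : ℤ) ≤ G := by
    have h1 : (M * γ) ∣ G := by
      rw [hGdef]
      exact Int.natCast_dvd_natCast.1 (Int.dvd_coe_gcd hMd hMe)
    exact_mod_cast Nat.le_of_dvd hGpos h1
  obtain ⟨ρ, hρ⟩ := hG
  have hρ0 : 0 ≤ ρ := by
    by_contra hneg
    push Not at hneg
    have h1 : (0 : ℤ) ≤ X := by rw [hX]; positivity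
    rw [hρ] at h1
    nlinarith
  have hρQ : ρ ≤ Q := by
    by_contra hneg
    push Not at hneg
    have h1 : (G : ℤ) * ρ = M * γ * Q := by rw [← hρ, hX]
    have h2 : ((M * γ : ℕ) : ℤ) * (Q : ℤ) < G * ρ := by
      calc ((M * γ : ℕ) : ℤ) * (Q : ℤ) ≤ G * Q := mul_le_mul_of_nonneg_right hMG (by positivity)
        _ < G * ρ := mul_lt_mul_of_pos_left hneg hG'
    rw [h1] at h2
    push_cast at h2
    exact lt_irrefl _ h2
  obtain ⟨s, t, hst⟩ := hcop
  obtain ⟨x, hx⟩ : ∃ x : ℤ, x = (s * (ρ * j)) % e2 := ⟨_, rfl⟩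
  have hx0 : 0 ≤ x := by rw [hx]; exact Int.emod_nonneg _ he20
  have hx1 : x < |e2| := by rw [hx]; exact Int.emod_lt_abs _ he20
  have hdvd : e2 ∣ ρ * j - d2 * x := by
    have h1 : e2 ∣ s * (ρ * j) - x := by
      rw [hx]
      exact Int.dvd_self_sub_emod
    have h2 : ρ * j - d2 * x = d2 * (s * (ρ * j) - x) + e2 * (t * (ρ * j)) := by
      have : ρ * j = (s * d2 + t * e2) * (ρ * j) := by rw [hst, one_mul]
      calc ρ * j - d2 * x = (s * d2 + t * e2) * (ρ * j) - d2 * x := by rw [← this]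
        _ = _ := by ring
    rw [h2]
    exact dvd_add (h1.mul_left _) (dvd_mul_right _ _)
  obtain ⟨y, hy⟩ := hdvd
  have hlin : d2 * x + e2 * y = ρ * j := by linarith
  have hMi : (0 : ℤ) < M := by exact_mod_cast hM
  have hMle : (M : ℤ) ≤ G := by
    have h1 : (M : ℤ) * 1 ≤ M * γ := mul_le_mul_of_nonneg_left (by exact_mod_cast hγ) hMi.le
    have h2 : ((M * γ : ℕ) : ℤ) = M * γ := by push_cast; rfl
    linarith
  refine ⟨(M * x, M * y), dvd_mul_right _ _, dvd_mul_right _ _, by positivity, ?_, ?_, ?_⟩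
  · -- the first coordinate
    have h1 : |e| = G * |e2| := by rw [he2, abs_mul, abs_of_pos hG']
    calc (M : ℤ) * x ≤ G * |e2| := mul_le_mul hMle hx1.le hx0 hG'.le
      _ ≤ B := by rw [← h1]; exact he
  · -- the second coordinate
    simp only
    have h1 : |e2| * |y| ≤ ρ * j + |d2| * |e2| := by
      rw [← abs_mul]
      have h2 : e2 * y = ρ * j - d2 * x := by linarith
      rw [h2]
      calc |ρ * j - d2 * x| ≤ |ρ * j| + |d2 * x| := abs_sub _ _
        _ = ρ * j + |d2| * x := by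
            rw [abs_mul d2 x, abs_of_nonneg hx0, abs_of_nonneg (mul_nonneg hρ0 hj0)]
        _ ≤ ρ * j + |d2| * |e2| := by
            have := mul_le_mul_of_nonneg_left hx1.le (abs_nonneg d2)
            linarith
    have h2 : (K0 : ℤ) < |e2| := by
      have h3 : |e| = G * |e2| := by rw [he2, abs_mul, abs_of_pos hG']
      rw [h3] at hK
      exact lt_of_mul_lt_mul_left hK hG'.le
    have h3 : (M : ℤ) * |d2| ≤ D := by
      calc (M : ℤ) * |d2| ≤ G * |d2| := mul_le_mul_of_nonneg_right hMle (abs_nonneg _)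
        _ = |d| := by rw [hd2, abs_mul, abs_of_pos hG']
        _ ≤ D := hd
    have hK0' : (0 : ℤ) < K0 := by exact_mod_cast hK0
    rw [abs_mul, abs_of_pos hMi]
    have h4 : ρ * j ≤ Q * J := mul_le_mul hρQ hj hj0 (by positivity)
    have hr' : (M : ℤ) * Q * J + K0 * D ≤ K0 * r := by exact_mod_cast hr
    -- `K0 (|y| - |d2|) ≤ Q J`
    have h5 : (K0 : ℤ) * (|y| - |d2|) ≤ Q * J := by
      by_cases hneg : |y| - |d2| ≤ 0
      · have : (K0 : ℤ) * (|y| - |d2|) ≤ 0 := mul_nonpos_of_nonneg_of_nonpos hK0'.le hneg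
        have : (0 : ℤ) ≤ Q * J := by positivity
        linarith
      · push Not at hneg
        calc (K0 : ℤ) * (|y| - |d2|) ≤ |e2| * (|y| - |d2|) := mul_le_mul_of_nonneg_right h2.le hneg.le
          _ = |e2| * |y| - |d2| * |e2| := by ring
          _ ≤ Q * J := by linarith
    have h6 : (K0 : ℤ) * (M * |y|) ≤ K0 * r := by
      calc (K0 : ℤ) * (M * |y|) = M * (K0 * (|y| - |d2|)) + K0 * (M * |d2|) := by ring
        _ ≤ M * (Q * J) + K0 * D := add_le_add (mul_le_mul_of_nonneg_left h5 hMi.le) (mul_le_mul_of_nonneg_left h3 hK0'.le)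
        _ = M * Q * J + K0 * D := by ring
        _ ≤ K0 * r := hr'
    exact le_of_mul_le_mul_left h6 hK0'
  · simp only
    rw [hd2, he2, hρ]
    have : (G : ℤ) * d2 * (M * x) + G * e2 * (M * y) = M * G * (d2 * x + e2 * y) := by ring
    rw [this, hlin]
    ring

end Pool.Agent.H770Sun
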