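import Pool.Agent.H770Sun.Core

set_option autoImplicit false

/-! The core counting lemma for pairs of sums of two squares in a flat box. -/

namespace Pool.Agent.H770Sun
open Finset

/-- the pairs of points at the distances `k + 2 M² γ Q j` -/
noncomputable def Tg (M γ Q J : ℕ) (k : ℤ) (Ω : Finset (ℤ × ℤ)) : Finset ((ℤ × ℤ) × (ℤ × ℤ)) :=
  open scoped Classical in
  (Ω ×ˢ Ω).filter (fun p => ((M * γ : ℕ) : ℤ) ∣ p.2.1 - p.1.1 ∧ ((M * γ : ℕ) : ℤ) ∣ p.2.2 - p.1.2 ∧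
    ∃ j : ℕ, 1 ≤ j ∧ j ≤ J ∧ N2 p.2 - N2 p.1 = k + 2 * M * (M * γ * Q) * j)

lemma mem_Tg {M γ Q J : ℕ} {k : ℤ} {Ω : Finset (ℤ × ℤ)} {p : (ℤ × ℤ) × (ℤ × ℤ)} :
    p ∈ Tg M γ Q J k Ω ↔ p.1 ∈ Ω ∧ p.2 ∈ Ω ∧ ((M * γ : ℕ) : ℤ) ∣ p.2.1 - p.1.1 ∧ ((M * γ : ℕ) : ℤ) ∣ p.2.2 - p.1.2 ∧
    ∃ j : ℕ, 1 ≤ j ∧ j ≤ J ∧ N2 p.2 - N2 p.1 = k + 2 * M * (M * γ * Q) * j := by
  classical
  unfold Tg
  rw [mem_filter, mem_product]
  tauto

/-- the count of the second points -/
theorem card_Tg (M γ Q J A A2 r B : ℕ) (hM4 : 4 ∣ M) (hM : 0 < M) (hγ : 0 < γ) (hQ : 0 < Q) (hA : 0 < A)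
    (hQM : ∀ p : ℕ, p.Prime → p ∣ Q → p ∣ M) (α β k : ℤ) (hα : IsCoprime α (M : ℤ)) :
    (Tg M γ Q J k (Bx M α β A A2 (-(r : ℤ)) (B + r))).card ≤
      ((J / A + 1) * ((B + 2 * r) / (M * γ) + 1)) * (Bx M α β A A2 (-(r : ℤ)) (B + r)).card := by
  classical
  set Ω := Bx (M : ℤ) α β A A2 (-(r : ℤ)) (B + r) with hΩ
  apply card_le_mul_card_image_of_maps_to (f := fun p : (ℤ × ℤ) × (ℤ × ℤ) => p.1)
  · intro p hp
    exact (mem_Tg.1 hp).1
  intro w hw
  obtain ⟨M2, hM2⟩ := hM4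
  have hMi : (0 : ℤ) < M := by exact_mod_cast hM
  have hγi : (0 : ℤ) < γ := by exact_mod_cast hγ
  have hQi : (0 : ℤ) < Q := by exact_mod_cast hQ
  have hAi : (0 : ℤ) < A := by exact_mod_cast hA
  have hwΩ := mem_Bx.1 hw
  -- the second coordinates of the second points
  set F := (Tg M γ Q J k Ω).filter (fun p => p.1 = w) with hF
  set Y := F.image (fun p => p.2.2) with hY
  have h1 : F.card ≤ (J / A + 1) * Y.card := by
    apply card_le_mul_card_image_of_maps_to (f := fun p : (ℤ × ℤ) × (ℤ × ℤ) => p.2.2)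
    · intro p hp
      exact mem_image_of_mem _ hp
    intro y hy
    set F2 := F.filter (fun p => p.2.2 = y) with hF2
    have h2 : F2.card = (F2.image (fun p => p.2.1)).card := by
      rw [card_image_of_injOn]
      rintro ⟨p1, p2⟩ hp ⟨q1, q2⟩ hq hpq
      rw [mem_coe, hF2, mem_filter, hF, mem_filter] at hp hq
      simp only at hp hq hpq
      ext
      · rw [hp.1.2, hq.1.2]
      · rw [hp.1.2, hq.1.2]
      · exact hpq
      · simp only
        rw [hp.2, hq.2]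
    rw [h2]
    have hdiv : J / A = (M * (M * γ * Q) * J / A) / (M * (M * γ * Q)) := by
      rw [Nat.div_div_eq_div_mul, mul_comm A, Nat.mul_div_mul_left]
      positivity
    rw [hdiv]
    apply card_cong
    · positivity
    intro x1 hx1 x2 hx2
    obtain ⟨⟨p1, p2⟩, hp, hpx⟩ := mem_image.1 hx1
    obtain ⟨⟨q1, q2⟩, hq, hqx⟩ := mem_image.1 hx2
    rw [hF2, mem_filter, hF, mem_filter, mem_Tg] at hp hq
    simp only at hp hq hpx hqx
    obtain ⟨⟨⟨_, hpΩ, hpd1, hpd2, j1, hj1, hj1J, hpN⟩, hpw⟩, hpy⟩ := hp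
    obtain ⟨⟨⟨_, hqΩ, hqd1, hqd2, j2, hj2, hj2J, hqN⟩, hqw⟩, hqy⟩ := hq
    subst hpw
    rw [hqw] at hqN hqd1 hqd2
    have hpb := mem_Bx.1 hpΩ
    have hqb := mem_Bx.1 hqΩ
    unfold N2 at hpN hqN
    rw [hpy] at hpN hpd2
    rw [hqy] at hqN hqd2
    rw [hpx] at hpN hpd1 hpb
    rw [hqx] at hqN hqd1 hqb
    obtain ⟨X, hX⟩ : ∃ X : ℤ, X = M * γ * Q := ⟨_, rfl⟩
    rw [← hX] at hpN hqN
    have hXpos : 0 < X := by rw [hX]; positivity
    have hdiff : x1 ^ 2 - x2 ^ 2 = 2 * M * X * ((j1 : ℤ) - j2) := by linarith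
    constructor
    · -- the congruence
      obtain ⟨s1, hs1⟩ := hpd1
      obtain ⟨s2, hs2⟩ := hqd1
      push_cast at hs1 hs2
      have hx1e : x1 = p1.1 + M * γ * s1 := by linarith
      have hx2e : x2 = p1.1 + M * γ * s2 := by linarith
      -- divide
      have h3 : (s1 - s2) * (2 * p1.1 + M * γ * (s1 + s2)) = 2 * M * Q * ((j1 : ℤ) - j2) := by
        have h4 : (M * γ : ℤ) * ((s1 - s2) * (2 * p1.1 + M * γ * (s1 + s2))) = (M * γ) * (2 * M * Q * ((j1 : ℤ) - j2)) := by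
          calc (M * γ : ℤ) * ((s1 - s2) * (2 * p1.1 + M * γ * (s1 + s2))) = x1 ^ 2 - x2 ^ 2 := by rw [hx1e, hx2e]; ring
            _ = 2 * M * X * ((j1 : ℤ) - j2) := hdiff
            _ = _ := by rw [hX]; ring
        exact mul_left_cancel₀ (by positivity) h4
      have hM2' : (M : ℤ) = 4 * M2 := by rw [hM2]; push_cast; ring
      have h5 : (s1 - s2) * (p1.1 + 2 * M2 * γ * (s1 + s2)) = M * Q * ((j1 : ℤ) - j2) := by
        have h6 : 2 * ((s1 - s2) * (p1.1 + 2 * M2 * γ * (s1 + s2))) = 2 * (M * Q * ((j1 : ℤ) - j2)) := by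
          calc 2 * ((s1 - s2) * (p1.1 + 2 * M2 * γ * (s1 + s2))) = (s1 - s2) * (2 * p1.1 + (4 * M2) * γ * (s1 + s2)) := by ring
            _ = (s1 - s2) * (2 * p1.1 + M * γ * (s1 + s2)) := by rw [hM2']
            _ = _ := by rw [h3]; ring
        exact mul_left_cancel₀ (by norm_num) h6
      have hcop : IsCoprime ((M : ℤ) * Q) (p1.1 + 2 * M2 * γ * (s1 + s2)) := by
        -- every prime factor of `M Q` divides `2 M2`
        rw [Int.isCoprime_iff_gcd_eq_one]
        by_contra hne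
        obtain ⟨p, hp, hpd⟩ := Nat.exists_prime_and_dvd hne
        have h7 : (p : ℤ) ∣ (M : ℤ) * Q := (Int.natCast_dvd_natCast.2 hpd).trans (Int.gcd_dvd_left _ _)
        have h8 : (p : ℤ) ∣ p1.1 + 2 * M2 * γ * (s1 + s2) := (Int.natCast_dvd_natCast.2 hpd).trans (Int.gcd_dvd_right _ _)
        have h9 : p ∣ M := by
          have h10 : p ∣ M * Q := by
            have : ((p : ℕ) : ℤ) ∣ ((M * Q : ℕ) : ℤ) := by push_cast; exact h7
            exact Int.natCast_dvd_natCast.1 this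
          rcases (Nat.Prime.dvd_mul hp).1 h10 with h | h
          · exact h
          · exact hQM p hp h
        have h11 : p ∣ 2 * M2 := by
          rw [hM2, show 4 * M2 = 2 * (2 * M2) by ring] at h9
          rcases (Nat.Prime.dvd_mul hp).1 h9 with h | h
          · exact h.mul_right _
          · exact h
        have h12 : (p : ℤ) ∣ 2 * M2 := by
          have := Int.natCast_dvd_natCast.2 h11
          push_cast at this
          exact this
        have h13 : (p : ℤ) ∣ p1.1 := by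
          have h14 : (p : ℤ) ∣ 2 * M2 * γ * (s1 + s2) := (h12.mul_right _).mul_right _
          exact (Int.dvd_add_left h14).1 h8
        have h14 : (p : ℤ) ∣ α := by
          have h15 : (p : ℤ) ∣ p1.1 - α := (Int.natCast_dvd_natCast.2 h9).trans hwΩ.2.2.1
          have := dvd_sub h13 h15
          simpa using this
        have h15 : (p : ℤ) ∣ (M : ℤ) := Int.natCast_dvd_natCast.2 h9
        have h16 := hα.isUnit_of_dvd' h14 h15
        exact (Nat.prime_iff_prime_int.1 hp).not_isUnit h16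
      have h17 : (M : ℤ) * Q ∣ s1 - s2 := by
        apply hcop.dvd_of_dvd_mul_right
        rw [h5]
        exact dvd_mul_right _ _
      obtain ⟨c, hc⟩ := h17
      refine ⟨c, ?_⟩
      push_cast
      rw [hx1e, hx2e]
      calc p1.1 + M * γ * s1 - (p1.1 + M * γ * s2) = M * γ * (s1 - s2) := by ring
        _ = _ := by rw [hc]; ring
    · -- the size
      by_cases hle : x1 - x2 ≤ 0
      · have : (0 : ℤ) ≤ ((M * (M * γ * Q) * J / A : ℕ) : ℤ) := by positivity
        linarith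
      push Not at hle
      push_cast
      rw [Int.le_ediv_iff_mul_le hAi]
      have h3 : (x1 - x2) * (2 * A) ≤ (x1 - x2) * (x1 + x2) := by
        apply mul_le_mul_of_nonneg_left _ hle.le
        have := hpb.1.1
        have := hqb.1.1
        linarith
      have h4 : (x1 - x2) * (x1 + x2) = 2 * M * X * ((j1 : ℤ) - j2) := by rw [← hdiff]; ring
      have h5 : ((j1 : ℤ) - j2) ≤ J := by
        have : (j1 : ℤ) ≤ J := by exact_mod_cast hj1J
        have : (0 : ℤ) ≤ j2 := by positivity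
        linarith
      have h6 : 2 * M * X * ((j1 : ℤ) - j2) ≤ 2 * M * X * J := mul_le_mul_of_nonneg_left h5 (by positivity)
      rw [hX] at h4 h6
      linarith
  have h2 : Y.card ≤ (B + 2 * r) / (M * γ) + 1 := by
    apply card_cong
    · positivity
    intro y1 hy1 y2 hy2
    obtain ⟨⟨p1, p2⟩, hp, hpx⟩ := mem_image.1 hy1
    obtain ⟨⟨q1, q2⟩, hq, hqx⟩ := mem_image.1 hy2
    rw [hF, mem_filter, mem_Tg] at hp hq
    simp only at hp hq hpx hqx
    obtain ⟨⟨_, hpΩ, _, hpd2, _⟩, hpw⟩ := hp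
    obtain ⟨⟨_, hqΩ, _, hqd2, _⟩, hqw⟩ := hq
    rw [hpw, hpx] at hpd2
    rw [hqw, hqx] at hqd2
    have hpb := mem_Bx.1 hpΩ
    have hqb := mem_Bx.1 hqΩ
    rw [hpx] at hpb
    rw [hqx] at hqb
    constructor
    · have := dvd_sub hpd2 hqd2
      simpa using this
    · have h3 := hpb.2.1.2
      have h4 := hqb.2.1.1
      push_cast
      linarith
  calc F.card ≤ (J / A + 1) * Y.card := h1
    _ ≤ _ := Nat.mul_le_mul_left _ h2

end Pool.Agent.H770Sun
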