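import Pool.Agent.H770Sun.Core2

set_option autoImplicit false

/-! The core counting lemma for pairs of sums of two squares in a flat box. -/

namespace Pool.Agent.H770Sun
open Finset

/-- the difference vectors that are treated together -/
def Adm (M γ Q K0 D B : ℕ) (u : ℤ × ℤ) : Prop :=
  |u.1| ≤ D ∧ |u.2| ≤ B ∧ ((M * γ : ℕ) : ℤ) ∣ u.1 ∧ ((M * γ : ℕ) : ℤ) ∣ u.2 ∧
    ((Int.gcd u.1 u.2 : ℕ) : ℤ) ∣ (M : ℤ) * γ * Q ∧ ((Int.gcd u.1 u.2 : ℕ) : ℤ) * K0 < |u.2|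

/-- the injection -/
theorem core_inj (M γ Q J A A1 r B K0 D : ℕ) (hM : 0 < M) (hγ : 0 < γ) (hQ : 0 < Q) (hK0 : 0 < K0)
    (hr : M * Q * J + K0 * D ≤ K0 * r) (α β k : ℤ) (P : Finset ((ℤ × ℤ) × (ℤ × ℤ)))
    (hP : ∀ p ∈ P, p.1 ∈ Bx M α β A (A + A1) 0 B ∧ p.2 ∈ Bx M α β A (A + A1) 0 B ∧ N2 p.2 - N2 p.1 = k ∧
      Adm M γ Q K0 D B (p.2.1 - p.1.1, p.2.2 - p.1.2)) :
    P.card * J ≤ (Tg M γ Q J k (Bx M α β A ((A + A1 + B : ℕ) : ℤ) (-(r : ℤ)) (B + r))).card := by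
  classical
  have key : ∀ (u : ℤ × ℤ) (j : ℕ), ∃ v : ℤ × ℤ, Adm M γ Q K0 D B u → 1 ≤ j → j ≤ J →
      ((M : ℤ) ∣ v.1 ∧ (M : ℤ) ∣ v.2 ∧ 0 ≤ v.1 ∧ v.1 ≤ B ∧ |v.2| ≤ r ∧ u.1 * v.1 + u.2 * v.2 = M * (M * γ * Q) * j) := by
    intro u j
    by_cases h : Adm M γ Q K0 D B u ∧ 1 ≤ j ∧ j ≤ J
    · obtain ⟨⟨h1, h2, h3, h4, h5, h6⟩, h7, h8⟩ := h
      obtain ⟨v, hv⟩ := exists_short u.1 u.2 (M * γ * Q) M K0 Q J D B r hM hK0 γ hγ rfl h1 h2 h3 h4 h5 h6 hr j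
        (by positivity) (by exact_mod_cast h8)
      exact ⟨v, fun _ _ _ => hv⟩
    · refine ⟨0, fun h1 h2 h3 => ?_⟩
      exact absurd ⟨h1, h2, h3⟩ h
  choose v hv using key
  have hcard : P.card * J = (P ×ˢ (Icc 1 J)).card := by
    rw [card_product, Nat.card_Icc, Nat.add_sub_cancel]
  rw [hcard]
  apply card_le_card_of_injOn (fun q : ((ℤ × ℤ) × (ℤ × ℤ)) × ℕ =>
    (q.1.1 + v (q.1.2.1 - q.1.1.1, q.1.2.2 - q.1.1.2) q.2, q.1.2 + v (q.1.2.1 - q.1.1.1, q.1.2.2 - q.1.1.2) q.2))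
  · rintro ⟨⟨w, z⟩, j⟩ hq
    rw [mem_coe, mem_product, mem_Icc] at hq
    obtain ⟨hp, hj1, hjJ⟩ := hq
    obtain ⟨hw, hz, hN, hadm⟩ := hP _ hp
    simp only at hw hz hN hadm hj1 hjJ
    obtain ⟨v1, v2, v3, v4, v5, v6⟩ := hv _ j hadm hj1 hjJ
    simp only at v6
    obtain ⟨V, hV⟩ : ∃ V, V = v (z.1 - w.1, z.2 - w.2) j := ⟨_, rfl⟩
    rw [← hV] at v1 v2 v3 v4 v5 v6
    rw [mem_coe, mem_Tg]
    simp only
    rw [← hV]
    have hw' := mem_Bx.1 hw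
    have hz' := mem_Bx.1 hz
    have hv5 := abs_le.1 v5
    refine ⟨?_, ?_, ?_, ?_, j, hj1, hjJ, ?_⟩
    · rw [mem_Bx]
      refine ⟨⟨?_, ?_⟩, ⟨?_, ?_⟩, ?_, ?_⟩
      · rw [Prod.fst_add]; linarith [hw'.1.1]
      · rw [Prod.fst_add]; push_cast; linarith [hw'.1.2]
      · rw [Prod.snd_add]; linarith [hw'.2.1.1]
      · rw [Prod.snd_add]; linarith [hw'.2.1.2]
      · rw [Prod.fst_add, show w.1 + V.1 - α = (w.1 - α) + V.1 by ring]; exact dvd_add hw'.2.2.1 v1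
      · rw [Prod.snd_add, show w.2 + V.2 - β = (w.2 - β) + V.2 by ring]; exact dvd_add hw'.2.2.2 v2
    · rw [mem_Bx]
      refine ⟨⟨?_, ?_⟩, ⟨?_, ?_⟩, ?_, ?_⟩
      · rw [Prod.fst_add]; linarith [hz'.1.1]
      · rw [Prod.fst_add]; push_cast; linarith [hz'.1.2]
      · rw [Prod.snd_add]; linarith [hz'.2.1.1]
      · rw [Prod.snd_add]; linarith [hz'.2.1.2]
      · rw [Prod.fst_add, show z.1 + V.1 - α = (z.1 - α) + V.1 by ring]; exact dvd_add hz'.2.2.1 v1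
      · rw [Prod.snd_add, show z.2 + V.2 - β = (z.2 - β) + V.2 by ring]; exact dvd_add hz'.2.2.2 v2
    · rw [Prod.fst_add, Prod.fst_add, show z.1 + V.1 - (w.1 + V.1) = z.1 - w.1 by ring]
      exact hadm.2.2.1
    · rw [Prod.snd_add, Prod.snd_add, show z.2 + V.2 - (w.2 + V.2) = z.2 - w.2 by ring]
      exact hadm.2.2.2.1
    · unfold N2 at hN ⊢
      rw [Prod.fst_add, Prod.snd_add, Prod.fst_add, Prod.snd_add]
      have : (z.1 + V.1) ^ 2 + (z.2 + V.2) ^ 2 - ((w.1 + V.1) ^ 2 + (w.2 + V.2) ^ 2) =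
          (z.1 ^ 2 + z.2 ^ 2 - (w.1 ^ 2 + w.2 ^ 2)) + 2 * ((z.1 - w.1) * V.1 + (z.2 - w.2) * V.2) := by ring
      rw [this, hN, v6]
      ring
  · rintro ⟨⟨w, z⟩, j⟩ hq ⟨⟨w', z'⟩, j'⟩ hq' heq
    rw [mem_coe, mem_product, mem_Icc] at hq hq'
    obtain ⟨hp, hj1, hjJ⟩ := hq
    obtain ⟨hp', hj1', hjJ'⟩ := hq'
    obtain ⟨hw, hz, hN, hadm⟩ := hP _ hp
    obtain ⟨hw', hz', hN', hadm'⟩ := hP _ hp'
    simp only at hw hz hN hadm hj1 hjJ hw' hz' hN' hadm' hj1' hjJ'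
    obtain ⟨v1, v2, v3, v4, v5, v6⟩ := hv _ j hadm hj1 hjJ
    obtain ⟨v1', v2', v3', v4', v5', v6'⟩ := hv _ j' hadm' hj1' hjJ'
    simp only at v6 v6'
    simp only [Prod.mk.injEq] at heq
    obtain ⟨he1, he2⟩ := heq
    -- the difference vectors agree
    have hu1 : z.1 - w.1 = z'.1 - w'.1 := by
      have h1 := congrArg Prod.fst he1
      have h2 := congrArg Prod.fst he2
      simp only [Prod.fst_add] at h1 h2
      linarith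
    have hu2 : z.2 - w.2 = z'.2 - w'.2 := by
      have h1 := congrArg Prod.snd he1
      have h2 := congrArg Prod.snd he2
      simp only [Prod.snd_add] at h1 h2
      linarith
    rw [← hu1, ← hu2] at he1 he2 v6'
    -- the numbers `j` agree
    have hj : j = j' := by
      obtain ⟨V, hV⟩ : ∃ V, V = v (z.1 - w.1, z.2 - w.2) j := ⟨_, rfl⟩
      obtain ⟨V', hV'⟩ : ∃ V', V' = v (z.1 - w.1, z.2 - w.2) j' := ⟨_, rfl⟩
      rw [← hV, ← hV'] at he1 he2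
      rw [← hV] at v6
      rw [← hV'] at v6'
      have hn1 : N2 (w + V) = N2 (w' + V') := by rw [he1]
      have hn2 : N2 (z + V) = N2 (z' + V') := by rw [he2]
      unfold N2 at hn1 hn2 hN hN'
      simp only [Prod.fst_add, Prod.snd_add] at hn1 hn2
      have e1 : (z.1 + V.1) ^ 2 + (z.2 + V.2) ^ 2 - ((w.1 + V.1) ^ 2 + (w.2 + V.2) ^ 2) =
          (z.1 ^ 2 + z.2 ^ 2 - (w.1 ^ 2 + w.2 ^ 2)) + 2 * ((z.1 - w.1) * V.1 + (z.2 - w.2) * V.2) := by ring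
      have e2 : (z'.1 + V'.1) ^ 2 + (z'.2 + V'.2) ^ 2 - ((w'.1 + V'.1) ^ 2 + (w'.2 + V'.2) ^ 2) =
          (z'.1 ^ 2 + z'.2 ^ 2 - (w'.1 ^ 2 + w'.2 ^ 2)) + 2 * ((z'.1 - w'.1) * V'.1 + (z'.2 - w'.2) * V'.2) := by ring
      rw [← hu1, ← hu2] at e2
      rw [hN, v6] at e1
      rw [hN', v6'] at e2
      have e3 : k + 2 * ((M : ℤ) * (M * γ * Q) * j) = k + 2 * (M * (M * γ * Q) * j') := by
        rw [← e1, ← e2, hn1, hn2]
      have e4 : (2 * ((M : ℤ) * (M * γ * Q))) * j = (2 * (M * (M * γ * Q))) * j' := by linarith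
      have hpos : (2 * ((M : ℤ) * (M * γ * Q))) ≠ 0 := by positivity
      exact_mod_cast mul_left_cancel₀ hpos e4
    subst hj
    simp only [Prod.mk.injEq, and_true]
    exact ⟨add_right_cancel he1, add_right_cancel he2⟩

/-- the core bound -/
theorem core_bound (M γ Q J A A1 r B K0 D : ℕ) (hM4 : 4 ∣ M) (hM : 0 < M) (hγ : 0 < γ) (hQ : 0 < Q) (hK0 : 0 < K0)
    (hA : 0 < A) (hQM : ∀ p : ℕ, p.Prime → p ∣ Q → p ∣ M)
    (hr : M * Q * J + K0 * D ≤ K0 * r) (α β k : ℤ) (hα : IsCoprime α (M : ℤ)) (P : Finset ((ℤ × ℤ) × (ℤ × ℤ)))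
    (hP : ∀ p ∈ P, p.1 ∈ Bx M α β A (A + A1) 0 B ∧ p.2 ∈ Bx M α β A (A + A1) 0 B ∧ N2 p.2 - N2 p.1 = k ∧
      Adm M γ Q K0 D B (p.2.1 - p.1.1, p.2.2 - p.1.2)) :
    P.card * J ≤ ((J / A + 1) * ((B + 2 * r) / (M * γ) + 1)) *
      (Bx M α β A ((A + A1 + B : ℕ) : ℤ) (-(r : ℤ)) (B + r)).card :=
  (core_inj M γ Q J A A1 r B K0 D hM hγ hQ hK0 hr α β k P hP).trans
    (card_Tg M γ Q J A (A + A1 + B) r B hM4 hM hγ hQ hA hQM α β k hα)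

end Pool.Agent.H770Sun
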