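import Pool.Agent.H770Sun.Class

set_option autoImplicit false

/-! From blocks to the density. -/

namespace Pool.Agent.H770Sun
open Finset Filter

lemma telescoping (bad : ℤ → Prop) (u m : ℝ) (hu : 0 ≤ u) (hm : 0 < m)
    (h : ∀ K : ℕ, 0 < K → ∀ δ : ℝ, 0 < δ → ∃ A0 : ℕ, ∀ A ≥ A0, ∀ A1 : ℕ, A ≤ K * A1 → ∀ T : Finset ℤ,
      (∀ n ∈ T, n ∈ Ioc ((A : ℤ) ^ 2) (((A : ℤ) + A1) ^ 2) ∧ bad n) →
      (T.card : ℝ) ≤ (u + A1 / (2 * A) + δ) * ((((A : ℝ) + A1) ^ 2 - (A : ℝ) ^ 2) / m)) (δ : ℝ) (hδ : 0 < δ) :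
    ∃ C : ℝ, 0 ≤ C ∧ ∀ A : ℕ, ∀ T : Finset ℤ, (∀ n ∈ T, 0 < n ∧ n ≤ (A : ℤ) ^ 2 ∧ bad n) →
      (T.card : ℝ) ≤ C + (u + δ) * ((A : ℝ) ^ 2 / m) := by
  classical
  obtain ⟨K, hKd⟩ : ∃ K, K = ⌈2 / δ⌉₊ + 2 := ⟨_, rfl⟩
  have hK2 : 2 ≤ K := by omega
  have hKδ : 2 / δ ≤ K := by
    refine (Nat.le_ceil _).trans ?_
    rw [hKd]
    push_cast
    linarith
  have hKr : (2 : ℝ) ≤ K := by exact_mod_cast hK2
  obtain ⟨A0, hA0⟩ := h K (by omega) (δ / 2) (by positivity)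
  obtain ⟨A00, hA00⟩ : ∃ A00, A00 = 2 * A0 + K * (K + 1) + 1 := ⟨_, rfl⟩
  refine ⟨(A00 : ℝ) ^ 2, by positivity, fun A => ?_⟩
  induction A using Nat.strong_induction_on with
  | _ A ih =>
    intro T hT
    rcases lt_or_ge A A00 with hA | hA
    · have h1 : T ⊆ Ioc 0 ((A : ℤ) ^ 2) := fun n hn => mem_Ioc.2 ⟨(hT n hn).1, (hT n hn).2.1⟩
      have h2 := card_le_card h1
      rw [Int.card_Ioc, sub_zero] at h2
      have h3 : (((A : ℤ) ^ 2).toNat : ℤ) = (A : ℤ) ^ 2 := Int.toNat_of_nonneg (by positivity)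
      have h4 : (T.card : ℤ) ≤ (A : ℤ) ^ 2 := by rw [← h3]; exact_mod_cast h2
      have h5 : (T.card : ℝ) ≤ (A : ℝ) ^ 2 := by exact_mod_cast h4
      have h6 : (A : ℝ) ^ 2 ≤ (A00 : ℝ) ^ 2 := by
        apply pow_le_pow_left₀ (by positivity)
        exact_mod_cast hA.le
      have h7 : 0 ≤ (u + δ) * ((A : ℝ) ^ 2 / m) := by positivity
      linarith
    · obtain ⟨A1, hA1⟩ : ∃ A1, A1 = A / (K + 1) + 1 := ⟨_, rfl⟩
      have hAr : (0 : ℝ) < A := by exact_mod_cast (by omega : 0 < A)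
      have e1 : A < (K + 1) * A1 := by rw [hA1]; exact Nat.lt_mul_div_succ A (by omega)
      -- `A1 ≤ A / K`
      have e2 : K * A1 ≤ A := by
        have h1 : (K + 1) * (A / (K + 1)) ≤ A := Nat.mul_div_le _ _
        have h2 : K ≤ A / (K + 1) := by
          rw [Nat.le_div_iff_mul_le (by omega)]
          omega
        rw [hA1]
        have h3 : K * (A / (K + 1) + 1) = K * (A / (K + 1)) + K := by ring
        have h4 : (K + 1) * (A / (K + 1)) = K * (A / (K + 1)) + A / (K + 1) := by ring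
        omega
      have e3 : A1 ≤ A := le_trans (Nat.le_mul_of_pos_left _ (by omega)) e2
      obtain ⟨A', hA'⟩ : ∃ A', A' = A - A1 := ⟨_, rfl⟩
      have e4 : A' + A1 = A := by omega
      have e5 : A' ≤ K * A1 := by
        have : (K + 1) * A1 = K * A1 + A1 := by ring
        omega
      have e6 : 2 * A1 ≤ A := le_trans (Nat.mul_le_mul_right _ hK2) e2
      have e7 : A ≤ 2 * A' := by omega
      have e8 : A0 ≤ A' := by omega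
      have e9 : A' < A := by
        have : 0 < A1 := by rw [hA1]; exact Nat.succ_pos _
        omega
      have hA'r : (0 : ℝ) < A' := by
        have : (A : ℝ) ≤ 2 * A' := by exact_mod_cast e7
        linarith
      have e10 : (A1 : ℝ) / (2 * A') ≤ δ / 2 := by
        rw [div_le_iff₀ (by positivity)]
        have h1 : (K : ℝ) * A1 ≤ A := by exact_mod_cast e2
        have h2 : (A : ℝ) ≤ 2 * A' := by exact_mod_cast e7
        rw [div_le_iff₀ hδ] at hKδ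
        have h3 : (2 : ℝ) * A1 ≤ δ * A := by
          calc (2 : ℝ) * A1 ≤ (K * δ) * A1 := mul_le_mul_of_nonneg_right hKδ (by positivity)
            _ = δ * (K * A1) := by ring
            _ ≤ δ * A := mul_le_mul_of_nonneg_left h1 hδ.le
        have h4 : δ * A ≤ δ * (2 * A') := mul_le_mul_of_nonneg_left h2 hδ.le
        linarith
      have h1 := ih A' e9 (T.filter (fun n => n ≤ (A' : ℤ) ^ 2)) (fun n hn => by
        obtain ⟨h1, h2⟩ := mem_filter.1 hn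
        exact ⟨(hT n h1).1, h2, (hT n h1).2.2⟩)
      have hAi : (A' : ℤ) + A1 = A := by exact_mod_cast e4
      have h2 := hA0 A' e8 A1 e5 (T.filter (fun n => ¬ n ≤ (A' : ℤ) ^ 2)) (fun n hn => by
        obtain ⟨h1, h2⟩ := mem_filter.1 hn
        rw [hAi, mem_Ioc]
        exact ⟨⟨by omega, (hT n h1).2.1⟩, (hT n h1).2.2⟩)
      have h3 : T.card = (T.filter (fun n => n ≤ (A' : ℤ) ^ 2)).card + (T.filter (fun n => ¬ n ≤ (A' : ℤ) ^ 2)).card := by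
        rw [card_filter_add_card_filter_not]
      have hAr2 : (A' : ℝ) + A1 = A := by exact_mod_cast e4
      rw [hAr2] at h2
      rw [h3]
      push_cast
      have h4 : 0 ≤ ((A : ℝ) ^ 2 - (A' : ℝ) ^ 2) / m := by
        apply div_nonneg _ hm.le
        have : (A' : ℝ) ^ 2 ≤ (A : ℝ) ^ 2 := by
          apply pow_le_pow_left₀ hA'r.le
          exact_mod_cast e9.le
        linarith
      have h5 : (u + A1 / (2 * A') + δ / 2) * (((A : ℝ) ^ 2 - (A' : ℝ) ^ 2) / m) ≤ (u + δ) * (((A : ℝ) ^ 2 - (A' : ℝ) ^ 2) / m) :=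
        mul_le_mul_of_nonneg_right (by linarith) h4
      have h6 : (u + δ) * (((A : ℝ) ^ 2 - (A' : ℝ) ^ 2) / m) + (u + δ) * ((A' : ℝ) ^ 2 / m) = (u + δ) * ((A : ℝ) ^ 2 / m) := by ring
      linarith

lemma dens (bad : ℤ → Prop) (u m : ℝ) (hu : 0 ≤ u) (hm : 0 < m)
    (h : ∀ K : ℕ, 0 < K → ∀ δ : ℝ, 0 < δ → ∃ A0 : ℕ, ∀ A ≥ A0, ∀ A1 : ℕ, A ≤ K * A1 → ∀ T : Finset ℤ,
      (∀ n ∈ T, n ∈ Ioc ((A : ℤ) ^ 2) (((A : ℤ) + A1) ^ 2) ∧ bad n) →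
      (T.card : ℝ) ≤ (u + A1 / (2 * A) + δ) * ((((A : ℝ) + A1) ^ 2 - (A : ℝ) ^ 2) / m)) (δ : ℝ) (hδ : 0 < δ) :
    ∃ X0 : ℝ, 0 < X0 ∧ ∀ X : ℝ, X0 ≤ X → ∀ T : Finset ℤ, (∀ n ∈ T, 0 < n ∧ (n : ℝ) ≤ X ∧ bad n) →
      (T.card : ℝ) ≤ (u + δ) * (X / m) := by
  obtain ⟨C, hC0, hC⟩ := telescoping bad u m hu hm h (δ / 2) (by positivity)
  obtain ⟨S0, hS0⟩ : ∃ S0, S0 = max 1 (2 * (C * m + 3 * (u + δ / 2)) / δ) := ⟨_, rfl⟩
  refine ⟨S0 ^ 2, by rw [hS0]; positivity, fun X hX T hT => ?_⟩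
  have hS1 : 1 ≤ S0 := by rw [hS0]; exact le_max_left _ _
  have hS2 : 2 * (C * m + 3 * (u + δ / 2)) / δ ≤ S0 := by rw [hS0]; exact le_max_right _ _
  have hX0 : 0 < X := lt_of_lt_of_le (by positivity) hX
  obtain ⟨w, hw⟩ : ∃ w, w = √X := ⟨_, rfl⟩
  have hw2 : w ^ 2 = X := by rw [hw, Real.sq_sqrt hX0.le]
  have hw0 : 0 ≤ w := by rw [hw]; exact Real.sqrt_nonneg _
  have hwS : S0 ≤ w := by rw [hw]; exact Real.le_sqrt_of_sq_le hX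
  obtain ⟨A, hA⟩ : ∃ A : ℕ, A = ⌊w⌋₊ + 1 := ⟨_, rfl⟩
  have hA1 : w ≤ A := by rw [hA]; push_cast; exact (Nat.lt_floor_add_one w).le
  have hA2 : (A : ℝ) ≤ w + 1 := by
    rw [hA]; push_cast
    have := Nat.floor_le hw0
    linarith
  have h1 := hC A T (fun n hn => by
    obtain ⟨h1, h2, h3⟩ := hT n hn
    refine ⟨h1, ?_, h3⟩
    have h4 : (n : ℝ) ≤ (A : ℝ) ^ 2 := by
      rw [← hw2] at h2
      exact h2.trans (pow_le_pow_left₀ hw0 hA1 2)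
    exact_mod_cast h4)
  refine h1.trans ?_
  have h2 : (A : ℝ) ^ 2 ≤ X + 3 * w := by
    calc (A : ℝ) ^ 2 ≤ (w + 1) ^ 2 := pow_le_pow_left₀ (by positivity) hA2 2
      _ = w ^ 2 + 2 * w + 1 := by ring
      _ ≤ X + 3 * w := by rw [hw2]; linarith
  have h3 : (u + δ / 2) * ((A : ℝ) ^ 2 / m) ≤ (u + δ / 2) * ((X + 3 * w) / m) :=
    mul_le_mul_of_nonneg_left (div_le_div_of_nonneg_right h2 hm.le) (by positivity)
  have h4 : C + (u + δ / 2) * ((X + 3 * w) / m) ≤ (u + δ) * (X / m) := by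
    have e1 : C + (u + δ / 2) * ((X + 3 * w) / m) = (C * m + (u + δ / 2) * (X + 3 * w)) / m := by field_simp
    have e2 : (u + δ) * (X / m) = ((u + δ) * X) / m := by ring
    rw [e1, e2]
    apply div_le_div_of_nonneg_right _ hm.le
    rw [div_le_iff₀ hδ] at hS2
    have e3 : (C * m + 3 * (u + δ / 2)) * w ≤ (δ / 2) * X := by
      calc (C * m + 3 * (u + δ / 2)) * w ≤ (S0 * δ / 2) * w := mul_le_mul_of_nonneg_right (by linarith) hw0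
        _ ≤ (w * δ / 2) * w := by
            apply mul_le_mul_of_nonneg_right _ hw0
            apply div_le_div_of_nonneg_right _ (by norm_num)
            exact mul_le_mul_of_nonneg_right hwS hδ.le
        _ = (δ / 2) * w ^ 2 := by ring
        _ = _ := by rw [hw2]
    have e4 : C * m ≤ C * m * w := le_mul_of_one_le_right (by positivity) (hS1.trans hwS)
    nlinarith
  linarith

/-- **the density of the integers of a class that are not of the form `a ^ 2 + b ^ 2 + 3 ^ c + 5 ^ d`** -/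
theorem class_density (E E' M σ c0 d1 : ℕ) (hE : 0 < E) (hE' : 0 < E') (hM4 : 4 ∣ M) (hM : 0 < M) (hM3 : 3 ∣ M) (hσ : 0 < σ)
    (v : ℝ) (hv : ∀ P : Finset ℕ, (∀ p ∈ P, p.Prime ∧ ¬ p ∣ M) → ∑ T ∈ P.powerset.erase ∅, wT T / oT E T ≤ v)
    (α β : ℤ) (hα : IsCoprime α (M : ℤ))
    (hc : ∀ i : ℕ, ((2 * M * σ ^ 2 : ℕ) : ℤ) ∣ 3 ^ (c0 + E * i) - 3 ^ c0)
    (hd : ∀ j : ℕ, ((2 * M * σ ^ 2 : ℕ) : ℤ) ∣ 5 ^ (d1 + E' * j) - 5 ^ d1)
    (δ : ℝ) (hδ : 0 < δ) :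
    ∃ N0 : ℕ, ∀ N ≥ N0, ∀ S : Finset ℕ, (∀ n ∈ S, 1 ≤ n ∧ n ≤ N ∧
      ((2 * M * σ ^ 2 : ℕ) : ℤ) ∣ (n : ℤ) - ((σ : ℤ) ^ 2 * (α ^ 2 + β ^ 2) + 3 ^ c0 + 5 ^ d1) ∧ ¬ Rp n) →
      (S.card : ℝ) ≤ (v / (1 + v) + δ) * (N / (2 * M * σ ^ 2)) := by
  classical
  have hv0 : 0 ≤ v := by
    have := hv ∅ (by simp)
    simpa using this
  have hσi : (0 : ℤ) < (σ : ℤ) ^ 2 := by positivity
  have hσr : (0 : ℝ) < (σ : ℝ) ^ 2 := by positivity
  have hMr : (0 : ℝ) < M := by exact_mod_cast hM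
  obtain ⟨ρ, hρ⟩ : ∃ ρ : ℤ, ρ = (3 ^ c0 + 5 ^ d1) / (σ : ℤ) ^ 2 := ⟨_, rfl⟩
  obtain ⟨r, hr⟩ : ∃ r : ℤ, r = (3 ^ c0 + 5 ^ d1) % (σ : ℤ) ^ 2 := ⟨_, rfl⟩
  have hrρ : (3 : ℤ) ^ c0 + 5 ^ d1 = (σ : ℤ) ^ 2 * ρ + r := by rw [hρ, hr]; exact (Int.mul_ediv_add_emod _ _).symm
  have hr0 : 0 ≤ r := by rw [hr]; exact Int.emod_nonneg _ hσi.ne'
  have hr1 : r < (σ : ℤ) ^ 2 := by rw [hr]; exact Int.emod_lt_of_pos _ hσi
  obtain ⟨X0, hX0, hX⟩ := dens (fun n => (2 * M : ℤ) ∣ n - (α ^ 2 + β ^ 2 + ρ) ∧ ¬ Rp ((σ : ℤ) ^ 2 * n + r)) (v / (1 + v)) (2 * M)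
    (by positivity) (by positivity)
    (fun K hK δ' hδ' => class_block E E' M σ c0 d1 hE hE' hM4 hM hM3 hσ v hv α β hα hc hd r ρ hrρ hr0 hr1 K hK δ' hδ')
    (δ / 2) (by positivity)
  refine ⟨⌈max (X0 * σ ^ 2) (2 * (2 * M * σ ^ 2) / δ)⌉₊, fun N hN S hS => ?_⟩
  have hN' := (Nat.le_ceil _).trans (by exact_mod_cast hN : ((⌈max (X0 * σ ^ 2) (2 * (2 * M * σ ^ 2) / δ)⌉₊ : ℕ) : ℝ) ≤ (N : ℝ))
  have hN1 : X0 * σ ^ 2 ≤ N := (le_max_left _ _).trans hN'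
  have hN2 : 2 * (2 * M * σ ^ 2) / δ ≤ N := (le_max_right _ _).trans hN'
  -- the quotients
  have hdata : ∀ n ∈ S, ∃ q : ℤ, (n : ℤ) = (σ : ℤ) ^ 2 * q + r ∧ 0 ≤ q ∧ (2 * M : ℤ) ∣ q - (α ^ 2 + β ^ 2 + ρ) := by
    intro n hn
    obtain ⟨h1, h2, h3, h4⟩ := hS n hn
    obtain ⟨k, hk⟩ := h3
    refine ⟨α ^ 2 + β ^ 2 + ρ + 2 * M * k, ?_, ?_, ⟨k, by ring⟩⟩
    · push_cast at hk
      have : (n : ℤ) = (σ : ℤ) ^ 2 * (α ^ 2 + β ^ 2) + (3 ^ c0 + 5 ^ d1) + 2 * M * σ ^ 2 * k := by linarith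
      rw [this, hrρ]
      ring
    · by_contra hcon
      push Not at hcon
      have h5 : (n : ℤ) = (σ : ℤ) ^ 2 * (α ^ 2 + β ^ 2 + ρ + 2 * M * k) + r := by
        push_cast at hk
        have : (n : ℤ) = (σ : ℤ) ^ 2 * (α ^ 2 + β ^ 2) + (3 ^ c0 + 5 ^ d1) + 2 * M * σ ^ 2 * k := by linarith
        rw [this, hrρ]
        ring
      have h6 : (σ : ℤ) ^ 2 * (α ^ 2 + β ^ 2 + ρ + 2 * M * k) ≤ -(σ : ℤ) ^ 2 := by nlinarith
      have h7 : (0 : ℤ) ≤ n := by positivity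
      linarith
  obtain ⟨ψ, hψ⟩ : ∃ ψ : ℕ → ℤ, ∀ n ∈ S, (n : ℤ) = (σ : ℤ) ^ 2 * ψ n + r ∧ 0 ≤ ψ n ∧ (2 * M : ℤ) ∣ ψ n - (α ^ 2 + β ^ 2 + ρ) := by
    refine ⟨fun n => if hn : n ∈ S then (hdata n hn).choose else 0, fun n hn => ?_⟩
    simp only [hn, dif_pos]
    exact (hdata n hn).choose_spec
  have hinj : Set.InjOn ψ (S : Set ℕ) := by
    intro n hn n' hn' heq
    have h1 := (hψ n hn).1
    have h2 := (hψ n' hn').1
    rw [heq, ← h2] at h1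
    exact_mod_cast h1
  have hcard : (S.image ψ).card ≤ ((S.image ψ).filter (fun q => 0 < q)).card + 1 := by
    have h1 : S.image ψ ⊆ insert 0 ((S.image ψ).filter (fun q => 0 < q)) := by
      intro q hq
      rw [mem_insert, mem_filter]
      obtain ⟨n, hn, rfl⟩ := mem_image.1 hq
      rcases lt_or_eq_of_le (hψ n hn).2.1 with h | h
      · exact Or.inr ⟨hq, h⟩
      · exact Or.inl h.symm
    exact (card_le_card h1).trans (card_insert_le _ _)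
  rw [card_image_of_injOn hinj] at hcard
  have hmain := hX (N / σ ^ 2) (by rw [le_div_iff₀ hσr]; exact hN1) ((S.image ψ).filter (fun q => 0 < q)) (fun q hq => by
    obtain ⟨h1, h2⟩ := mem_filter.1 hq
    obtain ⟨n, hn, rfl⟩ := mem_image.1 h1
    obtain ⟨e1, e2, e3⟩ := hψ n hn
    obtain ⟨f1, f2, f3, f4⟩ := hS n hn
    refine ⟨h2, ?_, e3, ?_⟩
    · rw [le_div_iff₀ hσr]
      have g1 : (ψ n) * (σ : ℤ) ^ 2 ≤ N := by
        have : (n : ℤ) ≤ N := by exact_mod_cast f2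
        linarith
      exact_mod_cast g1
    · rw [← e1]
      exact f4)
  have hcardr : (S.card : ℝ) ≤ (((S.image ψ).filter (fun q => 0 < q)).card : ℝ) + 1 := by exact_mod_cast hcard
  have h1 : (1 : ℝ) ≤ (δ / 2) * (N / (2 * M * σ ^ 2)) := by
    rw [mul_div_assoc', le_div_iff₀ (by positivity), one_mul]
    rw [div_le_iff₀ hδ] at hN2
    linarith
  have h2 : (v / (1 + v) + δ / 2) * (N / σ ^ 2 / (2 * M)) = (v / (1 + v) + δ / 2) * (N / (2 * M * σ ^ 2)) := by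
    rw [div_div]
    ring
  rw [h2] at hmain
  calc (S.card : ℝ) ≤ (v / (1 + v) + δ / 2) * (N / (2 * M * σ ^ 2)) + (δ / 2) * (N / (2 * M * σ ^ 2)) := by linarith
    _ = _ := by ring

end Pool.Agent.H770Sun
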