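import Mathlib

set_option autoImplicit false

/-! Local representability. -/

namespace Pool.Agent.H770Sun

/-- `n` is locally representable (with the bound `s`): for every modulus `Q` there are `a`, `b`, `c`, `d` with `c ≥ Q` and `d ≥ Q`
such that `n` is congruent to `a ^ 2 + b ^ 2 + 3 ^ c + 5 ^ d` modulo `Q` and the greatest common divisor of `a`, `b` and `Q`
divides `s` -/
def LocRep (s n : ℕ) : Prop := ∀ Q : ℕ, 0 < Q → ∃ a b c d : ℕ, Q ≤ c ∧ Q ≤ d ∧ Nat.gcd (Nat.gcd a b) Q ∣ s ∧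
  n ≡ a ^ 2 + b ^ 2 + 3 ^ c + 5 ^ d [MOD Q]

end Pool.Agent.H770Sun
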