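import Pool.Agent.H770Sun.Sing6

set_option autoImplicit false

/-! The sum over the sets of primes is small for suitable moduli. -/

namespace Pool.Agent.H770Sun
open Finset Filter

lemma aux_G (C1 L : ℝ) (hC1 : 0 < C1) (hL : 1 ≤ L) : 2 * (C1 * L) + (C1 * L) ^ 2 * L ≤ (2 * C1 + C1 ^ 2) * L ^ 3 := by
  have h1 : L ≤ L ^ 3 := le_self_pow₀ hL (by norm_num)
  have h2 : (C1 * L) ^ 2 * L = C1 ^ 2 * L ^ 3 := by ring
  rw [h2]
  nlinarith

/-- the bound for the primes dividing `3 ^ (E t) - 1` -/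
lemma St_bound : ∃ D : ℝ, 0 < D ∧ ∀ y : ℕ, 5 ≤ y → ∀ t : ℕ, 1 ≤ t → t ≤ y ^ 10 → ∀ S : Finset ℕ,
    (∀ p ∈ S, p.Prime ∧ p ≠ 3 ∧ p ∣ 3 ^ (Ey y * t) - 1 ∧ ¬ p ∣ 3 ^ (Ey y) - 1) →
    ∑ p ∈ S, 1 / ((p : ℝ) - 1) ≤ D * ((Real.log y) ^ 4 / √(y : ℝ)) := by
  obtain ⟨C1, hC10, hC1⟩ := mertens_prod
  obtain ⟨D1, hD1, hdiv⟩ := div_small
  refine ⟨D1 * (2 * (2 * C1 + C1 ^ 2) + 1), by positivity, fun y hy t ht hty S hS => ?_⟩
  have hyr5 : (5 : ℝ) ≤ y := by exact_mod_cast hy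
  have hyr : (0 : ℝ) < y := by linarith
  obtain ⟨L, hL⟩ : ∃ L, L = Real.log y := ⟨_, rfl⟩
  have hL1 : 1 ≤ L := by
    rw [hL, ← Real.log_exp 1]
    apply Real.log_le_log (Real.exp_pos _)
    have := Real.exp_one_lt_d9
    linarith
  have hF : ∑ g ∈ (Ey y).divisors, 1 / (g : ℝ) ≤ C1 * L := by
    refine le_trans ?_ (le_trans (hC1 y (by omega)) (le_of_eq (by rw [hL])))
    apply sum_div_le
    · intro g hg
      exact (Nat.pos_of_mem_divisors hg).ne'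
    · intro p hp
      exact (mem_filter.1 hp).2
    · intro g hg p hp hpg
      rw [mem_filter, mem_Icc]
      exact ⟨⟨hp.one_lt.le, Ey_prime y p hp (hpg.trans (Nat.dvd_of_mem_divisors hg))⟩, hp⟩
  have hG := sum_bF (Ey y) y (Ey_pos y) (by omega) (fun q hq hqE => Ey_prime y q hq hqE) _ hF
  rw [← hL] at hG
  have hG2 := hG.trans (aux_G C1 L hC10 hL1)
  have h1 := sum_St (Ey y) y (y ^ 3) (Ey_pos y) (by omega) (fun q hq hqy => Ey_dvd y q hq hqy) _ hG2 t ht S hS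
  refine h1.trans ?_
  have h2 := Ey_small y hy
  have h3 := hdiv y t ht hty
  rw [← hL]
  have h4 : (2 * C1 + C1 ^ 2) * L ^ 3 * ((1 + L) / y) + ((Ey y).divisors.card : ℝ) * bF (2 ^ (y ^ 3)) ≤
      (2 * (2 * C1 + C1 ^ 2) + 1) * L ^ 4 / y := by
    have e1 : (1 + L) / y ≤ 2 * L / y := div_le_div_of_nonneg_right (by linarith) hyr.le
    have e2 : (2 * C1 + C1 ^ 2) * L ^ 3 * ((1 + L) / y) ≤ (2 * C1 + C1 ^ 2) * L ^ 3 * (2 * L / y) :=
      mul_le_mul_of_nonneg_left e1 (by positivity)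
    have e3 : 1 / (y : ℝ) ≤ L ^ 4 / y := div_le_div_of_nonneg_right (one_le_pow₀ hL1) hyr.le
    calc _ ≤ (2 * C1 + C1 ^ 2) * L ^ 3 * (2 * L / y) + L ^ 4 / y := add_le_add e2 (h2.trans e3)
      _ = _ := by ring
  have h5 : 0 ≤ (2 * C1 + C1 ^ 2) * L ^ 3 * ((1 + L) / y) + ((Ey y).divisors.card : ℝ) * bF (2 ^ (y ^ 3)) := by
    have := bF_nonneg (2 ^ (y ^ 3)) (one_le_pow₀ (by norm_num))
    positivity
  have hs0 : 0 < √(y : ℝ) := Real.sqrt_pos.2 hyr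
  have hs2 : √(y : ℝ) * √(y : ℝ) = y := Real.mul_self_sqrt hyr.le
  calc (t.divisors.card : ℝ) * _ ≤ (D1 * √(y : ℝ)) * ((2 * (2 * C1 + C1 ^ 2) + 1) * L ^ 4 / y) :=
        mul_le_mul h3 h4 h5 (by positivity)
    _ = _ := by
        rw [mul_div_assoc', mul_div_assoc', div_eq_div_iff hyr.ne' hs0.ne']
        calc _ = D1 * (2 * (2 * C1 + C1 ^ 2) + 1) * L ^ 4 * (√(y : ℝ) * √(y : ℝ)) := by ring
          _ = _ := by rw [hs2]

lemma tail_bound (C : ℝ) (hC : 0 < C) (ε : ℝ) (hε : 0 < ε) : ∃ Y : ℕ, ∀ y : ℕ, Y ≤ y → ∀ x : ℕ, y ^ 10 < x →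
    C * Real.log ((2 * Ey y * x ^ 2 : ℕ) : ℝ) ≤ ε * √(x : ℝ) := by
  refine ⟨max 2 ⌈16 * C / ε⌉₊, fun y hy x hx => ?_⟩
  have hy2 : 2 ≤ y := (le_max_left _ _).trans hy
  have hyC : 16 * C / ε ≤ y := (Nat.le_ceil _).trans (by exact_mod_cast ((le_max_right _ _).trans hy))
  have hyr : (2 : ℝ) ≤ y := by exact_mod_cast hy2
  have hxr : (y : ℝ) ^ 10 ≤ x := by exact_mod_cast hx.le
  have hx0 : (0 : ℝ) < x := lt_of_lt_of_le (by positivity) hxr
  have hE := log_Ey y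
  have hE0 : (0 : ℝ) < Ey y := by exact_mod_cast Ey_pos y
  have h1 : Real.log ((2 * Ey y * x ^ 2 : ℕ) : ℝ) ≤ 3 * (y : ℝ) ^ 4 + 2 * Real.log x := by
    push_cast
    rw [Real.log_mul (by positivity) (by positivity), Real.log_mul (by norm_num) hE0.ne', Real.log_pow]
    push_cast
    have := Real.log_two_lt_d9
    have : (1 : ℝ) ≤ (y : ℝ) ^ 4 := one_le_pow₀ (by linarith)
    linarith
  obtain ⟨u, hu⟩ : ∃ u, u = √(x : ℝ) := ⟨_, rfl⟩
  have hu0 : 0 < u := by rw [hu]; exact Real.sqrt_pos.2 hx0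
  have hu2 : u ^ 2 = x := by rw [hu, Real.sq_sqrt hx0.le]
  have huy : (y : ℝ) ^ 5 ≤ u := by
    rw [hu]
    apply Real.le_sqrt_of_sq_le
    rw [← pow_mul]
    exact hxr
  obtain ⟨w, hw⟩ : ∃ w, w = √u := ⟨_, rfl⟩
  have hw0 : 0 < w := by rw [hw]; exact Real.sqrt_pos.2 hu0
  have hw2 : w ^ 2 = u := by rw [hw, Real.sq_sqrt hu0.le]
  have hwy : (y : ℝ) ≤ w := by
    rw [hw]
    apply Real.le_sqrt_of_sq_le
    refine le_trans ?_ huy
    exact pow_le_pow_right₀ (by linarith) (by norm_num)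
  have hlog : Real.log x ≤ 4 * w := by
    rw [← hu2, ← hw2, ← pow_mul, Real.log_pow]
    have := Real.log_le_self hw0.le
    push_cast
    linarith
  rw [← hu]
  rw [div_le_iff₀ hε] at hyC
  have h2 : C * (3 * (y : ℝ) ^ 4) ≤ (ε / 2) * u := by
    calc C * (3 * (y : ℝ) ^ 4) = (3 * C) * (y : ℝ) ^ 4 := by ring
      _ ≤ (y * ε / 2) * (y : ℝ) ^ 4 := by
          apply mul_le_mul_of_nonneg_right _ (by positivity)
          linarith
      _ = (ε / 2) * (y : ℝ) ^ 5 := by ring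
      _ ≤ _ := mul_le_mul_of_nonneg_left huy (by positivity)
  have h3 : C * (2 * (4 * w)) ≤ (ε / 2) * u := by
    calc C * (2 * (4 * w)) = (16 * C) * w / 2 := by ring
      _ ≤ (y * ε) * w / 2 := by
          apply div_le_div_of_nonneg_right _ (by norm_num)
          exact mul_le_mul_of_nonneg_right hyC hw0.le
      _ ≤ (w * ε) * w / 2 := by
          apply div_le_div_of_nonneg_right _ (by norm_num)
          apply mul_le_mul_of_nonneg_right _ hw0.le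
          exact mul_le_mul_of_nonneg_right hwy hε.le
      _ = (ε / 2) * w ^ 2 := by ring
      _ = _ := by rw [hw2]
  calc C * Real.log ((2 * Ey y * x ^ 2 : ℕ) : ℝ) ≤ C * (3 * (y : ℝ) ^ 4 + 2 * (4 * w)) := by
        apply mul_le_mul_of_nonneg_left _ hC.le
        linarith
    _ = C * (3 * (y : ℝ) ^ 4) + C * (2 * (4 * w)) := by ring
    _ ≤ (ε / 2) * u + (ε / 2) * u := add_le_add h2 h3
    _ = _ := by ring

/-- **the sums over the sets of primes are small** -/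
theorem small_v (v : ℝ) (hv : 0 < v) : ∃ Y : ℕ, ∀ y : ℕ, Y ≤ y → ∀ P : Finset ℕ,
    (∀ p ∈ P, p.Prime ∧ p ≠ 3 ∧ ¬ p ∣ 3 ^ (Ey y) - 1) → ∑ T ∈ P.powerset.erase ∅, wT T / oT (Ey y) T ≤ v := by
  obtain ⟨D, hD0, hD⟩ := St_bound
  obtain ⟨C, hC0, hC⟩ := A_le
  obtain ⟨Y1, hY1⟩ := tail_bound C hC0 (v / 6) (by positivity)
  -- the small exponents
  obtain ⟨c, hc⟩ : ∃ c, c = min v 1 / (44 * 32 * D) := ⟨_, rfl⟩
  have hc0 : 0 < c := by rw [hc]; positivity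
  have h0 := (Real.isLittleO_pow_log_id_atTop (n := 5)).bound hc0
  obtain ⟨U, hU⟩ := eventually_atTop.1 h0
  refine ⟨max (max Y1 5) ⌈(max U 1) ^ 2⌉₊, fun y hy P hP => ?_⟩
  have hyY : Y1 ≤ y := (le_max_left _ _).trans ((le_max_left _ _).trans hy)
  have hy5 : 5 ≤ y := (le_max_right _ _).trans ((le_max_left _ _).trans hy)
  have hyU : (max U 1) ^ 2 ≤ y := (Nat.le_ceil _).trans (by exact_mod_cast ((le_max_right _ _).trans hy))
  have hyr : (0 : ℝ) < y := by exact_mod_cast (by omega : 0 < y)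
  obtain ⟨L, hL⟩ : ∃ L, L = Real.log y := ⟨_, rfl⟩
  have hL1 : 1 ≤ L := by
    rw [hL, ← Real.log_exp 1]
    apply Real.log_le_log (Real.exp_pos _)
    have := Real.exp_one_lt_d9
    have : (5 : ℝ) ≤ y := by exact_mod_cast hy5
    linarith
  obtain ⟨u, hu⟩ : ∃ u, u = √(y : ℝ) := ⟨_, rfl⟩
  have hu0 : 0 < u := by rw [hu]; exact Real.sqrt_pos.2 hyr
  have huU : U ≤ u := by
    refine (le_max_left U 1).trans ?_
    rw [hu]
    exact Real.le_sqrt_of_sq_le hyU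
  have hL5 : L ^ 5 ≤ 32 * (c * u) := by
    have h1 := hU u huU
    rw [id, Real.norm_eq_abs, Real.norm_eq_abs, abs_of_pos hu0] at h1
    have h2 : L = 2 * Real.log u := by rw [hL, hu, Real.log_sqrt hyr.le]; ring
    have h3 := (le_abs_self _).trans h1
    rw [h2, mul_pow]
    norm_num
    linarith
  -- the bound `s`
  obtain ⟨s, hs⟩ : ∃ s, s = D * (L ^ 4 / u) := ⟨_, rfl⟩
  have hs0 : 0 ≤ s := by rw [hs]; positivity
  have hsL : s * L ≤ min v 1 / 44 := by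
    have h1 : s * L = D * (L ^ 5 / u) := by rw [hs]; ring
    rw [h1]
    have h2 : L ^ 5 / u ≤ 32 * c := by
      rw [div_le_iff₀ hu0]
      linarith
    calc D * (L ^ 5 / u) ≤ D * (32 * c) := mul_le_mul_of_nonneg_left h2 hD0.le
      _ = _ := by rw [hc]; field_simp
  have hmin1 : min v 1 ≤ 1 := min_le_right _ _
  have hmin2 : min v 1 ≤ v := min_le_left _ _
  have hs1 : s ≤ 1 := by
    have : s ≤ s * L := le_mul_of_one_le_right hs0 hL1
    linarith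
  have hPp : ∀ p ∈ P, p.Prime ∧ p ≠ 3 := fun p hp => ⟨(hP p hp).1, (hP p hp).2.1⟩
  have h1 : ∀ t : ℕ, 1 ≤ t → t ≤ y ^ 10 → ∑ T ∈ (P.powerset.erase ∅).filter (fun T => oT (Ey y) T = t), wT T ≤ 2 * s := by
    intro t ht hty
    apply alpha_le (Ey y) P hPp t s hs1
    rw [hs, hL, hu]
    apply hD y hy5 t ht hty
    intro p hp
    rw [mem_filter] at hp
    exact ⟨(hP p hp.1).1, (hP p hp.1).2.1, hp.2, (hP p hp.1).2.2⟩
  have h2 : ∀ x : ℕ, y ^ 10 < x → ∑ T ∈ (P.powerset.erase ∅).filter (fun T => oT (Ey y) T ≤ x), wT T ≤ (v / 6) * √(x : ℝ) := by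
    intro x hx
    refine le_trans (hC (Ey y) P (Ey_pos y) hPp x ?_) (hY1 y hyY x hx)
    have e1 : 1 ≤ Ey y := Ey_pos y
    have e2 : 1 < x := lt_of_le_of_lt (Nat.one_le_pow _ _ (by omega)) hx
    nlinarith
  have h3 := sum_sets (Ey y) P hPp (y ^ 10) (Nat.one_le_pow _ _ (by omega)) (2 * s) (v / 6) (by linarith) (by positivity) h1 h2
  refine h3.trans ?_
  have h4 : Real.log ((y ^ 10 : ℕ) : ℝ) = 10 * L := by
    push_cast
    rw [Real.log_pow, hL]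
    push_cast
    ring
  rw [h4]
  have h5 : 2 * s * (1 + 10 * L) ≤ 22 * (s * L) := by nlinarith
  linarith

end Pool.Agent.H770Sun
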