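import Pool.Agent.H770Sun.Dens
import Pool.Agent.H770Sun.Sing7
import Pool.Agent.H770Sun.Glue
import Pool.Agent.H770Sun.LocRep

set_option autoImplicit false

/-! The local-global principle for almost all integers. -/

namespace Pool.Agent.H770Sun
open Finset Filter

lemma dvd_Ey (m y : ℕ) (hm : m ≠ 0) (hmy : m ≤ y) : m ∣ Ey y := by
  rw [Nat.dvd_iff_prime_pow_dvd_dvd]
  intro p k hp hpk
  rcases Nat.eq_zero_or_pos k with h | h
  · rw [h, pow_zero]
    exact one_dvd _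
  · have h1 : p ^ k ≤ m := Nat.le_of_dvd (Nat.pos_of_ne_zero hm) hpk
    have h2 : p ≤ y := (Nat.le_self_pow h.ne' p).trans (h1.trans hmy)
    have h3 : k < p ^ k := Nat.lt_pow_self hp.one_lt
    have h4 : k ≤ y ^ 3 := by
      have : y ≤ y ^ 3 := Nat.le_self_pow (by norm_num) y
      omega
    exact (pow_dvd_pow p h4).trans (Ey_dvd y p hp h2)

/-- the product of the odd primes dividing `3 ^ E - 1` -/
def Rad3 (E : ℕ) : ℕ := ∏ p ∈ (3 ^ E - 1).primeFactors.erase 2, p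

lemma Rad3_pos (E : ℕ) : 0 < Rad3 E := by
  unfold Rad3
  apply prod_pos
  intro p hp
  exact (Nat.prime_of_mem_primeFactors (mem_of_mem_erase hp)).pos

lemma Rad3_fac (E p : ℕ) (hE : 0 < E) : (Rad3 E).factorization p ≤ (3 ^ E - 1).factorization p ∧ (Rad3 E).factorization p ≤ 1 := by
  have h0 : 3 ^ E - 1 ≠ 0 := by
    have : 3 ^ 1 ≤ 3 ^ E := Nat.pow_le_pow_right (by norm_num) hE
    omega
  have h1 : Rad3 E ∣ ∏ p ∈ (3 ^ E - 1).primeFactors, p := by
    unfold Rad3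
    exact prod_dvd_prod_of_subset _ _ _ (erase_subset _ _)
  have h2 : Rad3 E ∣ 3 ^ E - 1 := h1.trans (Nat.prod_primeFactors_dvd _)
  constructor
  · exact (Nat.factorization_le_iff_dvd (Rad3_pos E).ne' h0).2 h2 p
  · apply Squarefree.natFactorization_le_one
    apply Squarefree.squarefree_of_dvd h1
    apply Finset.squarefree_prod_of_pairwise_isCoprime
    · intro p hp p' hp' hne
      rw [mem_coe] at hp hp'
      rw [Function.onFun]
      exact (Nat.coprime_iff_isRelPrime.1 ((Nat.coprime_primes (Nat.prime_of_mem_primeFactors hp) (Nat.prime_of_mem_primeFactors hp')).2 hne))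
    · intro p hp
      exact (Nat.prime_of_mem_primeFactors hp).prime.squarefree

lemma rad_dvd (E m : ℕ) (hE : 0 < E) (hm : m ≠ 0) (h : m ^ 2 ∣ 3 ^ E - 1) : m * Rad3 E ∣ 3 ^ E - 1 := by
  have h0 : 3 ^ E - 1 ≠ 0 := by
    have : 3 ^ 1 ≤ 3 ^ E := Nat.pow_le_pow_right (by norm_num) hE
    omega
  have hR := (Rad3_pos E).ne'
  rw [← Nat.factorization_prime_le_iff_dvd (mul_ne_zero hm hR) h0]
  intro p hp
  rw [Nat.factorization_mul hm hR]
  simp only [Finsupp.add_apply]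
  obtain ⟨h1, h2⟩ := Rad3_fac E p hE
  have h3 := (Nat.factorization_le_iff_dvd (pow_ne_zero 2 hm) h0).2 h p
  rw [Nat.factorization_pow] at h3
  simp only [Finsupp.smul_apply, smul_eq_mul] at h3
  rcases Nat.eq_zero_or_pos (m.factorization p) with h4 | h4
  · omega
  · omega

/-- **almost all locally representable integers are representable** -/
theorem local_global (s : ℕ) (hs : 0 < s) (η : ℝ) (hη : 0 < η) : ∀ᶠ N : ℕ in atTop, ∀ S : Finset ℕ,
    (∀ n ∈ S, 1 ≤ n ∧ n ≤ N ∧ LocRep s n ∧ ¬ Rp n) → (S.card : ℝ) ≤ η * N := by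
  classical
  have hsr : (0 : ℝ) < s := by exact_mod_cast hs
  obtain ⟨v, hv⟩ : ∃ v, v = η / (2 * (s : ℝ) ^ 2) := ⟨_, rfl⟩
  have hv0 : 0 < v := by rw [hv]; positivity
  obtain ⟨Y, hY⟩ := small_v v hv0
  -- the part of `24 s ^ 2` that is prime to `3`
  obtain ⟨k3, m3, hm3, hq3⟩ := Nat.exists_eq_pow_mul_and_not_dvd (show 24 * s ^ 2 ≠ 0 by positivity) 3 (by norm_num)
  have hm30 : m3 ≠ 0 := by
    intro h
    rw [h, mul_zero] at hq3
    have : 0 < 24 * s ^ 2 := by positivity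
    omega
  obtain ⟨y, hy⟩ : ∃ y, y = max Y (Nat.totient (m3 ^ 2)) := ⟨_, rfl⟩
  have hyY : Y ≤ y := by rw [hy]; exact le_max_left _ _
  have hyt : Nat.totient (m3 ^ 2) ≤ y := by rw [hy]; exact le_max_right _ _
  obtain ⟨E, hEy⟩ : ∃ E, E = Ey y := ⟨_, rfl⟩
  have hE : 0 < E := by rw [hEy]; exact Ey_pos y
  have hsv := hY y hyY
  rw [← hEy] at hsv
  -- the divisibility
  have hmE : m3 ^ 2 ∣ 3 ^ E - 1 := by
    have h1 : Nat.totient (m3 ^ 2) ∣ E := by
      rw [hEy]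
      exact dvd_Ey _ y (Nat.totient_pos.2 (by positivity)).ne' hyt
    have h2 : Nat.Coprime 3 (m3 ^ 2) := by
      apply Nat.Coprime.pow_right
      exact (Nat.Prime.coprime_iff_not_dvd Nat.prime_three).2 hm3
    have h3 : m3 ^ 2 ∣ 3 ^ (Nat.totient (m3 ^ 2)) - 1 :=
      (Nat.modEq_iff_dvd' (Nat.one_le_pow _ _ (by norm_num))).1 (Nat.ModEq.pow_totient h2).symm
    exact h3.trans (Nat.pow_sub_one_dvd_pow_sub_one 3 h1)
  have hmR := rad_dvd E m3 hE hm30 hmE
  obtain ⟨R, hR⟩ : ∃ R, R = Rad3 E := ⟨_, rfl⟩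
  rw [← hR] at hmR
  have hR0 : 0 < R := by rw [hR]; exact Rad3_pos E
  obtain ⟨M, hM⟩ : ∃ M, M = 12 * R := ⟨_, rfl⟩
  have hM0 : 0 < M := by omega
  have hM4 : 4 ∣ M := by rw [hM]; exact Dvd.dvd.mul_right (by norm_num) _
  have hM3 : 3 ∣ M := by rw [hM]; exact Dvd.dvd.mul_right (by norm_num) _
  have hMv : ∀ P : Finset ℕ, (∀ p ∈ P, p.Prime ∧ ¬ p ∣ M) → ∑ T ∈ P.powerset.erase ∅, wT T / oT E T ≤ v := by
    intro P hP
    apply hsv P
    intro p hp
    obtain ⟨h1, h2⟩ := hP p hp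
    refine ⟨h1, fun h => h2 (by rw [h]; exact hM3), fun h => h2 ?_⟩
    by_cases hp2 : p = 2
    · rw [hp2, hM]
      exact Dvd.dvd.mul_right (by norm_num) _
    · rw [hM, hR]
      apply Dvd.dvd.mul_left
      unfold Rad3
      apply dvd_prod_of_mem
      rw [mem_erase, Nat.mem_primeFactors]
      refine ⟨hp2, h1, h, ?_⟩
      have : 3 ^ 1 ≤ 3 ^ E := Nat.pow_le_pow_right (by norm_num) hE
      omega
  obtain ⟨Q, hQ⟩ : ∃ Q, Q = 2 * M * s ^ 2 := ⟨_, rfl⟩
  have hQ0 : 0 < Q := by rw [hQ]; positivity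
  have hQ2 : Q = 3 ^ k3 * (m3 * R) := by
    calc Q = (24 * s ^ 2) * R := by rw [hQ, hM]; ring
      _ = _ := by rw [hq3]; ring
  -- the periods
  have hper3 : ∀ c : ℕ, Q ≤ c → ∀ i : ℕ, (Q : ℤ) ∣ 3 ^ (c + E * i) - 3 ^ c := by
    intro c hc i
    have hk : k3 ≤ c := by
      have h1 : k3 < 3 ^ k3 := Nat.lt_pow_self (by norm_num)
      have h2 : 3 ^ k3 ≤ Q := by
        rw [hQ2]
        exact Nat.le_mul_of_pos_right _ (Nat.mul_pos (Nat.pos_of_ne_zero hm30) hR0)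
      omega
    have h1 : m3 * R ∣ 3 ^ (E * i) - 1 := hmR.trans (Nat.pow_sub_one_dvd_pow_sub_one 3 (dvd_mul_right E i))
    have h2 : ((m3 * R : ℕ) : ℤ) ∣ (3 : ℤ) ^ (E * i) - 1 := by
      have h3 : ((3 ^ (E * i) - 1 : ℕ) : ℤ) = (3 : ℤ) ^ (E * i) - 1 := by
        rw [Nat.cast_sub (Nat.one_le_pow _ _ (by norm_num))]
        push_cast
        rfl
      rw [← h3]
      exact_mod_cast h1
    rw [pow_add, ← mul_sub_one, hQ2, Nat.cast_mul (3 ^ k3)]
    apply mul_dvd_mul _ h2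
    push_cast
    exact pow_dvd_pow _ hk
  obtain ⟨E', hE', hper5⟩ := period 5 Q (by norm_num) hQ0.ne'
  -- one class
  have hclass : ∀ ρ ∈ range Q, ∀ᶠ N : ℕ in atTop, ∀ S : Finset ℕ,
      (∀ n ∈ S, 1 ≤ n ∧ n ≤ N ∧ LocRep s n ∧ ¬ Rp n ∧ n % Q = ρ) → (S.card : ℝ) ≤ (v + v) * (N / (2 * M)) := by
    intro ρ _
    by_cases hex : ∃ n0, LocRep s n0 ∧ n0 % Q = ρ
    · obtain ⟨n0, hn0, hn0ρ⟩ := hex
      obtain ⟨a, b, c, d, hc, hd, hg, hmod⟩ := hn0 Q hQ0
      obtain ⟨σ, hσ⟩ : ∃ σ, σ = Nat.gcd (Nat.gcd a b) Q := ⟨_, rfl⟩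
      rw [← hσ] at hg
      have hσ0 : 0 < σ := by rw [hσ]; exact Nat.gcd_pos_of_pos_right _ hQ0
      have hσa : σ ∣ a := by rw [hσ]; exact (Nat.gcd_dvd_left _ _).trans (Nat.gcd_dvd_left _ _)
      have hσb : σ ∣ b := by rw [hσ]; exact (Nat.gcd_dvd_left _ _).trans (Nat.gcd_dvd_right _ _)
      obtain ⟨a2, ha2⟩ := hσa
      obtain ⟨b2, hb2⟩ := hσb
      have hσQ : 2 * M * σ ^ 2 ∣ Q := by
        rw [hQ]
        exact mul_dvd_mul_left _ (pow_dvd_pow_of_dvd hg 2)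
      -- one of the two is a unit
      have hunit : ∀ p : ℕ, p.Prime → p ∣ 2 * M → ¬ ((p : ℤ) ∣ (a2 : ℤ) ∧ (p : ℤ) ∣ (b2 : ℤ)) := by
        rintro p hp hpM ⟨h1, h2⟩
        have h1' : p ∣ a2 := by exact_mod_cast h1
        have h2' : p ∣ b2 := by exact_mod_cast h2
        have h3 : σ * p ∣ σ := by
          conv_rhs => rw [hσ]
          apply Nat.dvd_gcd
          · apply Nat.dvd_gcd
            · rw [ha2]; exact mul_dvd_mul_left _ h1'
            · rw [hb2]; exact mul_dvd_mul_left _ h2'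
          · refine dvd_trans ?_ hσQ
            have : 2 * M * σ ^ 2 = σ * (2 * M * σ) := by ring
            rw [this]
            exact mul_dvd_mul_left _ (hpM.mul_right _)
        have h4 := Nat.le_of_dvd hσ0 h3
        have h5 := hp.two_le
        nlinarith
      obtain ⟨α, β, hα, hαβ⟩ := swap (2 * M) (by positivity) (a2 : ℤ) (b2 : ℤ) hunit
      have hα' : IsCoprime α (M : ℤ) := by
        push_cast at hα
        exact IsCoprime.of_mul_right_right hα
      have h2M : ((2 * M * σ ^ 2 : ℕ) : ℤ) ∣ (Q : ℤ) := by exact_mod_cast hσQ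
      obtain ⟨N0, hN0⟩ := class_density E E' M σ c d hE hE' hM4 hM0 hM3 hσ0 v hMv α β hα'
        (fun i => h2M.trans (hper3 c hc i)) (fun j => h2M.trans (by exact_mod_cast hper5 d hd j)) v hv0
      filter_upwards [eventually_ge_atTop N0] with N hN S hS
      refine (hN0 N hN S ?_).trans ?_
      · intro n hn
        obtain ⟨h1, h2, h3, h4, h5⟩ := hS n hn
        refine ⟨h1, h2, ?_, h4⟩
        -- `n ≡ n0`
        have e1 : (Q : ℤ) ∣ (n : ℤ) - n0 := by
          have : n0 ≡ n [MOD Q] := by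
            rw [Nat.ModEq, h5, hn0ρ]
          exact Nat.modEq_iff_dvd.1 this
        have e2 : (Q : ℤ) ∣ (n0 : ℤ) - (a ^ 2 + b ^ 2 + 3 ^ c + 5 ^ d) := by
          have := Nat.modEq_iff_dvd.1 hmod.symm
          push_cast at this
          exact this
        have e3 : ((2 * M * σ ^ 2 : ℕ) : ℤ) ∣ (σ : ℤ) ^ 2 * (α ^ 2 + β ^ 2 - ((a2 : ℤ) ^ 2 + (b2 : ℤ) ^ 2)) := by
          push_cast at hαβ ⊢
          rw [mul_comm]
          exact mul_dvd_mul_left _ hαβ
        have e4 : (n : ℤ) - ((σ : ℤ) ^ 2 * (α ^ 2 + β ^ 2) + 3 ^ c + 5 ^ d) =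
            ((n : ℤ) - n0) + ((n0 : ℤ) - (a ^ 2 + b ^ 2 + 3 ^ c + 5 ^ d)) - (σ : ℤ) ^ 2 * (α ^ 2 + β ^ 2 - ((a2 : ℤ) ^ 2 + (b2 : ℤ) ^ 2)) := by
          rw [ha2, hb2]
          push_cast
          ring
        rw [e4]
        exact dvd_sub (dvd_add (h2M.trans e1) (h2M.trans e2)) e3
      · have hσr : (1 : ℝ) ≤ (σ : ℝ) ^ 2 := by
          have : (1 : ℝ) ≤ σ := by exact_mod_cast hσ0
          exact one_le_pow₀ this
        have hMr : (0 : ℝ) < M := by exact_mod_cast hM0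
        have h1 : v / (1 + v) ≤ v := div_le_self hv0.le (by linarith)
        apply mul_le_mul (by linarith) _ (by positivity) (by positivity)
        apply div_le_div_of_nonneg_left (by positivity) (by positivity)
        exact le_mul_of_one_le_right (by positivity) hσr
    · filter_upwards with N S hS
      have : S = ∅ := by
        rw [eq_empty_iff_forall_notMem]
        intro n hn
        exact hex ⟨n, (hS n hn).2.2.1, (hS n hn).2.2.2.2⟩
      rw [this, card_empty, Nat.cast_zero]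
      positivity
  have hall := (eventually_all_finset (range Q)).2 hclass
  filter_upwards [hall] with N hN S hS
  have h1 : S.card = ∑ ρ ∈ range Q, (S.filter (fun n => n % Q = ρ)).card := by
    apply card_eq_sum_card_fiberwise
    intro n _
    rw [mem_coe, mem_range]
    exact Nat.mod_lt _ hQ0
  have h2 : (S.card : ℝ) ≤ ∑ ρ ∈ range Q, (v + v) * (N / (2 * M)) := by
    rw [h1]
    push_cast
    apply sum_le_sum
    intro ρ hρ
    apply hN ρ hρ
    intro n hn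
    obtain ⟨h3, h4⟩ := mem_filter.1 hn
    obtain ⟨g1, g2, g3, g4⟩ := hS n h3
    exact ⟨g1, g2, g3, g4, h4⟩
  refine h2.trans (le_of_eq ?_)
  rw [sum_const, card_range, nsmul_eq_mul, hQ, hv]
  have hMr : (0 : ℝ) < M := by exact_mod_cast hM0
  push_cast
  field_simp
  ring

end Pool.Agent.H770Sun
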