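import Mathlib

set_option autoImplicit false

/-! Counting residues by the Chinese remainder theorem. -/

namespace Pool.Agent.H770Sun
open Finset

lemma crt_two (m k : ℕ) (hm : 0 < m) (hk : 0 < k) (h : Nat.Coprime m k) (P Q : ℕ → Prop) [DecidablePred P] [DecidablePred Q]
    (hP : ∀ t, P t ↔ P (t % m)) (hQ : ∀ t, Q t ↔ Q (t % k)) :
    ((range (m * k)).filter (fun t => P t ∧ Q t)).card = ((range m).filter P).card * ((range k).filter Q).card := by
  rw [← card_product]
  apply card_bij (fun t _ => (t % m, t % k))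
  · intro t ht
    rw [mem_filter, mem_range] at ht
    rw [mem_product, mem_filter, mem_filter, mem_range, mem_range]
    exact ⟨⟨Nat.mod_lt _ hm, (hP t).1 ht.2.1⟩, ⟨Nat.mod_lt _ hk, (hQ t).1 ht.2.2⟩⟩
  · intro t ht t' ht' heq
    rw [mem_filter, mem_range] at ht ht'
    rw [Prod.mk.injEq] at heq
    have h1 : t ≡ t' [MOD m * k] := (Nat.modEq_and_modEq_iff_modEq_mul h).1 ⟨heq.1, heq.2⟩
    rwa [Nat.ModEq, Nat.mod_eq_of_lt ht.1, Nat.mod_eq_of_lt ht'.1] at h1
  · rintro ⟨x, y⟩ hxy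
    rw [mem_product, mem_filter, mem_filter, mem_range, mem_range] at hxy
    simp only at hxy
    obtain ⟨⟨hx1, hx2⟩, hy1, hy2⟩ := hxy
    have hc := (Nat.chineseRemainder h x y).2
    have e1 : (Nat.chineseRemainder h x y : ℕ) % m = x := by
      have := hc.1
      rwa [Nat.ModEq, Nat.mod_eq_of_lt hx1] at this
    have e2 : (Nat.chineseRemainder h x y : ℕ) % k = y := by
      have := hc.2
      rwa [Nat.ModEq, Nat.mod_eq_of_lt hy1] at this
    refine ⟨(Nat.chineseRemainder h x y : ℕ), ?_, ?_⟩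
    · rw [mem_filter, mem_range]
      refine ⟨Nat.chineseRemainder_lt_mul h x y hm.ne' hk.ne', ?_, ?_⟩
      · rw [hP, e1]; exact hx2
      · rw [hQ, e2]; exact hy2
    · rw [e1, e2]

open Classical in
theorem crt_count (P : Finset ℕ) (hP : ∀ p ∈ P, p.Prime) (R : ℕ → ℕ → Prop) (hR : ∀ p ∈ P, ∀ t, R p t ↔ R p (t % p)) :
    ((range (∏ p ∈ P, p)).filter (fun t => ∀ p ∈ P, R p t)).card = ∏ p ∈ P, ((range p).filter (fun t => R p t)).card := by
  induction P using Finset.induction_on with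
  | empty => simp
  | insert a s ha ih =>
    rw [prod_insert ha, prod_insert ha]
    have hap := hP a (mem_insert_self _ _)
    have hsp : ∀ p ∈ s, p.Prime := fun p hp => hP p (mem_insert_of_mem hp)
    have hcop : Nat.Coprime a (∏ p ∈ s, p) := by
      apply Nat.Coprime.prod_right
      intro p hp
      rw [Nat.coprime_primes hap (hsp p hp)]
      rintro rfl
      exact ha hp
    have h1 := crt_two a (∏ p ∈ s, p) hap.pos (prod_pos (fun p hp => (hsp p hp).pos)) hcop (fun t => R a t)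
      (fun t => ∀ p ∈ s, R p t) (hR a (mem_insert_self _ _)) (fun t => by
        apply forall₂_congr
        intro p hp
        rw [hR p (mem_insert_of_mem hp) t, hR p (mem_insert_of_mem hp) (t % ∏ p ∈ s, p)]
        rw [Nat.mod_mod_of_dvd _ (dvd_prod_of_mem _ hp)])
    rw [ih hsp (fun p hp => hR p (mem_insert_of_mem hp))] at h1
    rw [← h1]
    congr 1
    apply filter_congr
    intro t _
    rw [forall_mem_insert]

/-- one residue -/
lemma one_res (p : ℕ) (hp : p.Prime) (m : ℕ) (hm : ¬ p ∣ m) (a : ℤ) :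
    ∃ t0 ∈ range p, ∀ t ∈ range p, ((p : ℤ) ∣ a + m * t ↔ t = t0) := by
  have hpi : Prime (p : ℤ) := Nat.prime_iff_prime_int.1 hp
  have hcop : IsCoprime (m : ℤ) (p : ℤ) := by
    rw [Nat.isCoprime_iff_coprime]
    exact ((Nat.Prime.coprime_iff_not_dvd hp).2 hm).symm
  obtain ⟨u, v, huv⟩ := hcop
  have hp0 : (0 : ℤ) < p := by exact_mod_cast hp.pos
  obtain ⟨t0, ht0⟩ : ∃ t0 : ℕ, (t0 : ℤ) = (-a * u) % p := ⟨((-a * u) % p).toNat, Int.toNat_of_nonneg (Int.emod_nonneg _ hp0.ne')⟩
  have ht0lt : t0 < p := by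
    have := Int.emod_lt_of_pos (-a * u) hp0
    rw [← ht0] at this
    exact_mod_cast this
  have hdvd : (p : ℤ) ∣ a + m * t0 := by
    have h1 : (p : ℤ) ∣ (-a * u) - t0 := by
      rw [ht0]
      exact Int.dvd_self_sub_emod
    obtain ⟨c, hc⟩ := h1
    refine ⟨a * v - m * c, ?_⟩
    have : (t0 : ℤ) = -a * u - p * c := by linarith
    rw [this]
    have h2 : u * m = 1 - v * p := by linarith
    linear_combination (-a) * h2
  refine ⟨t0, mem_range.2 ht0lt, fun t ht => ⟨fun h => ?_, fun h => by rw [h]; exact hdvd⟩⟩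
  rw [mem_range] at ht
  have h1 := dvd_sub h hdvd
  have h2 : a + (m : ℤ) * t - (a + m * t0) = m * ((t : ℤ) - t0) := by ring
  rw [h2] at h1
  rcases hpi.dvd_or_dvd h1 with h3 | h3
  · exact absurd (by exact_mod_cast h3) hm
  · have h4 : ((t : ℤ) - t0) = 0 := by
      apply Int.eq_zero_of_abs_lt_dvd h3
      rw [abs_lt]
      constructor <;> omega
    omega

/-- the number of residues avoiding one class -/
lemma count_one (p : ℕ) (hp : p.Prime) (m : ℕ) (hm : ¬ p ∣ m) (a : ℤ) :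
    ((range p).filter (fun t : ℕ => ¬ (p : ℤ) ∣ a + m * t)).card = p - 1 := by
  obtain ⟨t0, ht0, h⟩ := one_res p hp m hm a
  have h1 : (range p).filter (fun t : ℕ => ¬ (p : ℤ) ∣ a + m * t) = (range p).erase t0 := by
    ext t
    rw [mem_filter, mem_erase]
    constructor
    · rintro ⟨h1, h2⟩
      exact ⟨fun h3 => h2 ((h t h1).2 h3), h1⟩
    · rintro ⟨h1, h2⟩
      exact ⟨h2, fun h3 => h1 ((h t h2).1 h3)⟩
  rw [h1, card_erase_of_mem ht0, card_range]

/-- the number of residues avoiding two classes -/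
lemma count_two (p : ℕ) (hp : p.Prime) (m : ℕ) (hm : ¬ p ∣ m) (a a' : ℤ) :
    (((range p).filter (fun t : ℕ => ¬ (p : ℤ) ∣ a + m * t ∧ ¬ (p : ℤ) ∣ a' + m * t)).card : ℝ) ≤
      (((p : ℝ) - 1) ^ 2 / p) * (if (p : ℤ) ∣ a - a' then (1 + 1 / ((p : ℝ) - 1)) else 1) := by
  obtain ⟨t0, ht0, h⟩ := one_res p hp m hm a
  obtain ⟨t1, ht1, h'⟩ := one_res p hp m hm a'
  have hp1 : (1 : ℝ) < p := by exact_mod_cast hp.one_lt
  have hp0 : (0 : ℝ) < p := by linarith
  have hpm : (p : ℝ) - 1 ≠ 0 := by linarith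
  have h1 : (range p).filter (fun t : ℕ => ¬ (p : ℤ) ∣ a + m * t ∧ ¬ (p : ℤ) ∣ a' + m * t) = ((range p).erase t0).erase t1 := by
    ext t
    rw [mem_filter, mem_erase, mem_erase]
    constructor
    · rintro ⟨h1, h2, h3⟩
      exact ⟨fun h4 => h3 ((h' t h1).2 h4), fun h4 => h2 ((h t h1).2 h4), h1⟩
    · rintro ⟨h1, h2, h3⟩
      exact ⟨h3, fun h4 => h2 ((h t h3).1 h4), fun h4 => h1 ((h' t h3).1 h4)⟩
  rw [h1]
  have hcast : ((p - 1 : ℕ) : ℝ) = (p : ℝ) - 1 := by
    rw [Nat.cast_sub hp.one_lt.le]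
    simp
  split_ifs with hd
  · have h2 : (((range p).erase t0).erase t1).card ≤ p - 1 := by
      refine (card_le_card (erase_subset _ _)).trans ?_
      rw [card_erase_of_mem ht0, card_range]
    have h3 : ((((range p).erase t0).erase t1).card : ℝ) ≤ (p : ℝ) - 1 := by
      rw [← hcast]
      exact_mod_cast h2
    refine h3.trans (le_of_eq ?_)
    field_simp
    ring
  · have hne : t1 ≠ t0 := by
      intro h2
      apply hd
      have e1 := (h t0 ht0).2 rfl
      have e2 := (h' t1 ht1).2 rfl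
      rw [h2] at e2
      have e3 := dvd_sub e1 e2
      have e4 : a + (m : ℤ) * t0 - (a' + m * t0) = a - a' := by ring
      rwa [e4] at e3
    have h2 : (((range p).erase t0).erase t1).card = p - 2 := by
      rw [card_erase_of_mem (mem_erase.2 ⟨hne, ht1⟩), card_erase_of_mem ht0, card_range]
      omega
    rw [h2, Nat.cast_sub hp.two_le, mul_one, le_div_iff₀ hp0]
    push_cast
    nlinarith

end Pool.Agent.H770Sun
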