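import Pool.Agent.H770Sun.NB1

set_option autoImplicit false

/-! Partial sums over sets of primes. -/

namespace Pool.Agent.H770Sun
open Finset

/-- the admissible sets of primes -/
def AdmP (P : Finset ℕ) : Prop := ∀ p ∈ P, p.Prime ∧ p % 4 = 3 ∧ p ≠ 3 ∧ ¬ p ∣ 3 ^ 360 - 1

/-- partial sums -/
noncomputable def bet (P : Finset ℕ) (x : ℕ) : ℝ := ∑ T ∈ (P.powerset.erase ∅).filter (fun T => oT 360 T ≤ x), wT T

/-- truncated sums -/
noncomputable def Vt (P : Finset ℕ) (t : ℕ) : ℝ := ∑ T ∈ P.powerset.erase ∅, wT T / ((max (oT 360 T) t : ℕ) : ℝ)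

lemma wT_nn (P : Finset ℕ) (hP : AdmP P) : ∀ T ∈ P.powerset.erase ∅, 0 ≤ wT T := by
  intro T hT
  rw [mem_erase, mem_powerset] at hT
  exact wT_nonneg T (fun p hp => (hP p (hT.2 hp)).1)

lemma Vt_step (P : Finset ℕ) (hP : AdmP P) (t t' : ℕ) (ht : 1 ≤ t) (htt : t < t') :
    Vt P t ≤ bet P (t' - 1) * (1 / (t : ℝ) - 1 / t') + Vt P t' := by
  unfold Vt bet
  rw [sum_filter, sum_mul, ← sum_add_distrib]
  apply sum_le_sum
  intro T hT
  have hw := wT_nn P hP T hT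
  have ht0 : (0 : ℝ) < t := by exact_mod_cast ht
  have ht0' : (0 : ℝ) < t' := by exact_mod_cast (by omega : 0 < t')
  split_ifs with h
  · have h1 : max (oT 360 T) t' = t' := by omega
    rw [h1]
    have h2 : wT T / ((max (oT 360 T) t : ℕ) : ℝ) ≤ wT T / t := by
      apply div_le_div_of_nonneg_left hw ht0
      exact_mod_cast le_max_right _ _
    have h3 : wT T * (1 / (t : ℝ) - 1 / t') + wT T / t' = wT T / t := by ring
    rw [h3]
    exact h2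
  · have h1 : max (oT 360 T) t' = max (oT 360 T) t := by omega
    rw [h1, zero_mul, zero_add]

lemma Vt_one (P : Finset ℕ) (hP : AdmP P) : ∑ T ∈ P.powerset.erase ∅, wT T / oT 360 T = Vt P 1 := by
  unfold Vt
  apply sum_congr rfl
  intro T hT
  rw [mem_erase, mem_powerset] at hT
  have h := (oT_pos 360 T (fun p hp => ⟨(hP p (hT.2 hp)).1, (hP p (hT.2 hp)).2.2.1⟩)).1
  rw [max_eq_left h]

lemma bet_le_prod (P : Finset ℕ) (hP : AdmP P) (x : ℕ) :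
    bet P x + 1 ≤ ∏ p ∈ P.filter (fun p => p ∣ prodS ((x + 1) / 2)), (1 + 1 / ((p : ℝ) - 1)) := by
  classical
  obtain ⟨Q, hQ⟩ : ∃ Q, Q = P.filter (fun p => p ∣ prodS ((x + 1) / 2)) := ⟨_, rfl⟩
  rw [← hQ, prod_eq_wT]
  have h0 : ∅ ∈ Q.powerset := empty_mem_powerset _
  rw [← sum_erase_add _ _ h0]
  have h1 : wT ∅ = 1 := by
    unfold wT
    simp
  rw [h1]
  have h2 : bet P x ≤ ∑ T ∈ Q.powerset.erase ∅, wT T := by
    unfold bet
    apply sum_le_sum_of_subset_of_nonneg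
    · intro T hT
      rw [mem_filter, mem_erase, mem_powerset] at hT
      obtain ⟨⟨h1, h2⟩, h3⟩ := hT
      rw [mem_erase, mem_powerset]
      refine ⟨h1, ?_⟩
      intro p hp
      have h4 := oT_pos 360 T (fun p hp => ⟨(hP p (h2 hp)).1, (hP p (h2 hp)).2.2.1⟩)
      obtain ⟨hp1, hp2, hp3, _⟩ := hP p (h2 hp)
      obtain ⟨n, hn, hpn⟩ := odd_exp p _ hp1 hp2 hp3 h4.1 (h4.2 p hp)
      rw [hQ, mem_filter]
      exact ⟨h2 hp, hpn.trans (dvd_prodS _ n (by omega))⟩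
    · intro T hT _
      rw [mem_erase, mem_powerset] at hT
      exact wT_nonneg T (fun p hp => (hP p (mem_filter.1 (hQ ▸ hT.2 hp)).1).1)
  linarith

lemma card_large (S : Finset ℕ) (y : ℕ) (hS : ∀ p ∈ S, p.Prime ∧ 2 ^ 21 ≤ p ∧ p ∣ prodS y) : S.card ≤ 143 * y ^ 2 / 21 := by
  have h1 : (2 ^ 21) ^ S.card ≤ ∏ p ∈ S, p := Finset.pow_card_le_prod _ _ _ (fun p hp => (hS p hp).2.1)
  have h2 : ∏ p ∈ S, p ∣ prodS y := by
    apply Finset.prod_primes_dvd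
    · intro p hp
      exact (hS p hp).1.prime
    · intro p hp
      exact (hS p hp).2.2
  have h3 := (h1.trans (Nat.le_of_dvd (prodS_pos y) h2)).trans (prodS_le y)
  rw [← pow_mul] at h3
  have h4 := (Nat.pow_le_pow_iff_right (by norm_num)).1 h3
  omega

/-- the large primes -/
lemma large_bound (S : Finset ℕ) (y : ℕ) (hS : ∀ p ∈ S, p.Prime ∧ p % 4 = 3 ∧ 2 ^ 21 ≤ p ∧ p ∣ prodS y) :
    (∏ p ∈ S, (1 + 1 / ((p : ℝ) - 1))) ^ 4 ≤ (524288 + ((143 * y ^ 2 / 21 : ℕ) : ℝ)) / 524288 := by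
  have h1 := card_large S y (fun p hp => ⟨(hS p hp).1, (hS p hp).2.2⟩)
  have h2 := prod_large 524288 (143 * y ^ 2 / 21) (by norm_num) S (by
    intro p hp
    obtain ⟨_, h3, h4, _⟩ := hS p hp
    exact ⟨h3, by omega⟩) h1
  push_cast at h2 ⊢
  exact h2

lemma prodS_mono (a b : ℕ) (h : a ≤ b) : prodS a ∣ prodS b := by
  induction b with
  | zero =>
    have : a = 0 := by omega
    rw [this]
  | succ b ih =>
    rcases Nat.lt_or_ge b a with h1 | h1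
    · have : a = b + 1 := by omega
      rw [this]
    · rw [prodS_succ]
      exact (ih h1).mul_right _

/-- the bound at one threshold -/
lemma bet_bound (hLL : ∀ p : ℕ, p.Prime → p % 4 = 3 → p ≠ 3 → ¬ p ∣ 3 ^ 360 - 1 → p < 2 ^ 21 → p ∣ prodS 312 → p ∈ LL)
    (hLL2 : ∀ q ∈ LL, 2 ≤ q)
    (P : Finset ℕ) (hP : AdmP P) (x y k B li : ℕ) (hxy : (x + 1) / 2 ≤ y) (hy : y ≤ 312)
    (hg : Nat.gcd (prodS y) (prodL (LL.drop k)) = 1) (hB : foldB (LL.take k) 1000000000000 = B)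
    (hli : (524288 + 143 * y ^ 2 / 21) * 10 ^ 24 ≤ li ^ 4 * 524288) :
    bet P x ≤ (B : ℝ) * li / 10 ^ 18 - 1 := by
  classical
  have h1 := bet_le_prod P hP x
  obtain ⟨Q, hQ⟩ : ∃ Q, Q = P.filter (fun p => p ∣ prodS ((x + 1) / 2)) := ⟨_, rfl⟩
  rw [← hQ] at h1
  rw [← prod_filter_mul_prod_filter_not Q (fun p => p < 2 ^ 21)] at h1
  have hQp : ∀ p ∈ Q, p.Prime ∧ p % 4 = 3 ∧ p ≠ 3 ∧ ¬ p ∣ 3 ^ 360 - 1 ∧ p ∣ prodS y := by
    intro p hp
    rw [hQ, mem_filter] at hp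
    obtain ⟨h2, h3, h4, h5⟩ := hP p hp.1
    exact ⟨h2, h3, h4, h5, hp.2.trans (prodS_mono _ _ hxy)⟩
  have hs : (∏ p ∈ Q.filter (fun p => p < 2 ^ 21), (1 + 1 / ((p : ℝ) - 1))) * ((1000000000000 : ℕ) : ℝ) ≤ B := by
    rw [← hB]
    apply foldB_bound
    · intro q hq
      exact hLL2 q (List.mem_of_mem_take hq)
    · intro p hp
      rw [mem_filter] at hp
      obtain ⟨h2, h3, h4, h5, h6⟩ := hQp p hp.1
      have h7 := hLL p h2 h3 h4 h5 hp.2 (h6.trans (prodS_mono _ _ hy))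
      rw [← List.take_append_drop k LL, List.mem_append] at h7
      rcases h7 with h7 | h7
      · exact h7
      · exfalso
        have h8 := Nat.dvd_gcd h6 (prodL_dvd _ _ h7)
        rw [hg] at h8
        exact h2.one_lt.ne' (Nat.dvd_one.1 h8)
    · intro p hp
      exact (hQp p (mem_filter.1 hp).1).1
  have hl := large_bound (Q.filter (fun p => ¬ p < 2 ^ 21)) y (by
    intro p hp
    rw [mem_filter] at hp
    obtain ⟨h2, h3, h4, h5, h6⟩ := hQp p hp.1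
    exact ⟨h2, h3, by omega, h6⟩)
  have hl0 : 1 ≤ ∏ p ∈ Q.filter (fun p => ¬ p < 2 ^ 21), (1 + 1 / ((p : ℝ) - 1)) :=
    prod_ge_one _ (fun p hp => (hQp p (mem_filter.1 hp).1).1)
  have hs0 : 1 ≤ ∏ p ∈ Q.filter (fun p => p < 2 ^ 21), (1 + 1 / ((p : ℝ) - 1)) :=
    prod_ge_one _ (fun p hp => (hQp p (mem_filter.1 hp).1).1)
  obtain ⟨s, hsd⟩ : ∃ s, s = ∏ p ∈ Q.filter (fun p => p < 2 ^ 21), (1 + 1 / ((p : ℝ) - 1)) := ⟨_, rfl⟩
  obtain ⟨l, hld⟩ : ∃ l, l = ∏ p ∈ Q.filter (fun p => ¬ p < 2 ^ 21), (1 + 1 / ((p : ℝ) - 1)) := ⟨_, rfl⟩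
  rw [← hsd] at h1 hs hs0
  rw [← hld] at h1 hl hl0
  have hl4 : l ≤ (li : ℝ) / 10 ^ 6 := by
    have h2 : l ^ 4 ≤ ((li : ℝ) / 10 ^ 6) ^ 4 := by
      refine hl.trans ?_
      rw [div_pow, div_le_div_iff₀ (by norm_num) (by norm_num)]
      have h3 : (((524288 + 143 * y ^ 2 / 21) * 10 ^ 24 : ℕ) : ℝ) ≤ ((li ^ 4 * 524288 : ℕ) : ℝ) := by exact_mod_cast hli
      push_cast at h3 ⊢
      have h4 : ((10 : ℝ) ^ 6) ^ 4 = 1000000000000000000000000 := by norm_num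
      rw [h4]
      exact h3
    exact le_of_pow_le_pow_left₀ (by norm_num) (by positivity) h2
  have h2 : s * l ≤ (B : ℝ) / 10 ^ 12 * ((li : ℝ) / 10 ^ 6) := by
    apply mul_le_mul _ hl4 (by linarith) (by positivity)
    rw [le_div_iff₀ (by norm_num)]
    push_cast at hs
    norm_num at hs ⊢
    exact hs
  have h3 : (B : ℝ) / 10 ^ 12 * ((li : ℝ) / 10 ^ 6) = (B : ℝ) * li / 10 ^ 18 := by ring
  rw [h3] at h2
  linarith

/-- nothing below the first threshold -/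
lemma bet_two (P : Finset ℕ) (hP : AdmP P) : bet P 2 ≤ 0 := by
  classical
  have h1 := bet_le_prod P hP 2
  have h2 : P.filter (fun p => p ∣ prodS ((2 + 1) / 2)) = ∅ := by
    apply filter_eq_empty_iff.2
    intro p hp hpd
    have h3 : prodS ((2 + 1) / 2) = 3 ^ 90 - 1 := by decide +kernel
    rw [h3] at hpd
    exact (hP p hp).2.2.2 (hpd.trans (Nat.pow_sub_one_dvd_pow_sub_one 3 (by norm_num)))
  rw [h2, prod_empty] at h1
  linarith

/-- the tail -/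
lemma Vt_tail (P : Finset ℕ) (hP : AdmP P) (X : ℕ) (hX : 1 ≤ X) (c : ℝ) (hc : 0 ≤ c)
    (h : ∀ x : ℕ, X ≤ x → bet P x ≤ c * √(x : ℝ) - 1) : Vt P X ≤ 2 * c / √(X : ℝ) - 1 / X := by
  classical
  -- the induction
  have ind : ∀ n : ℕ, Vt P X ≤ c * (2 / √(X : ℝ) - 2 / √((X + n : ℕ) : ℝ)) - (1 / (X : ℝ) - 1 / ((X + n : ℕ) : ℝ)) + Vt P (X + n) := by
    intro n
    induction n with
    | zero => simp
    | succ n ih =>
      have h1 := Vt_step P hP (X + n) (X + n + 1) (by omega) (by omega)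
      rw [Nat.add_sub_cancel] at h1
      have h2 := h (X + n) (by omega)
      have h3 := sqrt_step (X + n) (by omega)
      have hx0 : (0 : ℝ) < ((X + n : ℕ) : ℝ) := by exact_mod_cast (by omega : 0 < X + n)
      have h4 : 1 / ((X + n : ℕ) : ℝ) - 1 / ((X + n + 1 : ℕ) : ℝ) = 1 / (((X + n : ℕ) : ℝ) * (((X + n : ℕ) : ℝ) + 1)) := by
        have : ((X + n + 1 : ℕ) : ℝ) = ((X + n : ℕ) : ℝ) + 1 := by push_cast; ring
        rw [this]
        have h5 : ((X + n : ℕ) : ℝ) + 1 ≠ 0 := by linarith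
        field_simp
        ring
      have h5 : bet P (X + n) * (1 / ((X + n : ℕ) : ℝ) - 1 / ((X + n + 1 : ℕ) : ℝ)) ≤
          c * (2 / √((X + n : ℕ) : ℝ) - 2 / √(((X + n : ℕ) : ℝ) + 1)) - (1 / ((X + n : ℕ) : ℝ) - 1 / ((X + n + 1 : ℕ) : ℝ)) := by
        have h6 : 0 ≤ 1 / ((X + n : ℕ) : ℝ) - 1 / ((X + n + 1 : ℕ) : ℝ) := by
          rw [h4]
          positivity
        have h7 := mul_le_mul_of_nonneg_right h2 h6
        have h8 : c * (√((X + n : ℕ) : ℝ) / (((X + n : ℕ) : ℝ) * (((X + n : ℕ) : ℝ) + 1))) ≤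
            c * (2 / √((X + n : ℕ) : ℝ) - 2 / √(((X + n : ℕ) : ℝ) + 1)) := mul_le_mul_of_nonneg_left h3 hc
        have h9 : (c * √((X + n : ℕ) : ℝ) - 1) * (1 / ((X + n : ℕ) : ℝ) - 1 / ((X + n + 1 : ℕ) : ℝ)) =
            c * (√((X + n : ℕ) : ℝ) / (((X + n : ℕ) : ℝ) * (((X + n : ℕ) : ℝ) + 1))) - (1 / ((X + n : ℕ) : ℝ) - 1 / ((X + n + 1 : ℕ) : ℝ)) := by
          rw [h4]
          ring
        linarith
      have h10 : ((X + (n + 1) : ℕ) : ℝ) = ((X + n : ℕ) : ℝ) + 1 := by push_cast; ring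
      have h11 : ((X + n + 1 : ℕ) : ℝ) = ((X + n : ℕ) : ℝ) + 1 := by push_cast; ring
      rw [h11] at h1 h5
      rw [h10]
      have h12 : X + (n + 1) = X + n + 1 := by omega
      rw [h12]
      linarith
  -- the end
  obtain ⟨n, hn⟩ : ∃ n, n = ∑ T ∈ P.powerset.erase ∅, oT 360 T := ⟨_, rfl⟩
  have hon : ∀ T ∈ P.powerset.erase ∅, oT 360 T ≤ X + n := by
    intro T hT
    have := single_le_sum (f := fun T => oT 360 T) (fun _ _ => Nat.zero_le _) hT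
    omega
  have h1 := ind n
  obtain ⟨N, hN⟩ : ∃ N, N = X + n := ⟨_, rfl⟩
  rw [← hN] at h1 hon
  have hN0 : (0 : ℝ) < N := by exact_mod_cast (by omega : 0 < N)
  have h2 : Vt P N = bet P N / N := by
    unfold Vt bet
    rw [sum_div, filter_true_of_mem hon]
    apply sum_congr rfl
    intro T hT
    rw [max_eq_right (hon T hT)]
  have h3 := h N (by omega)
  have h4 : bet P N / N ≤ (c * √(N : ℝ) - 1) / N := div_le_div_of_nonneg_right h3 hN0.le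
  have h5 : √(N : ℝ) / N = 1 / √(N : ℝ) := Real.sqrt_div_self'
  have h6 : (c * √(N : ℝ) - 1) / N = c * (1 / √(N : ℝ)) - 1 / N := by
    rw [← h5]
    ring
  have h7 : 0 ≤ c * (1 / √(N : ℝ)) := by positivity
  have h8 : c * (2 / √(X : ℝ) - 2 / √(N : ℝ)) = 2 * c / √(X : ℝ) - 2 * (c * (1 / √(N : ℝ))) := by ring
  rw [h2] at h1
  linarith

end Pool.Agent.H770Sun
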