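import Pool.Agent.H770Sun.NData

set_option autoImplicit false

/-! Kernel certificate, block 1. -/

namespace Pool.Agent.H770Sun

set_option maxHeartbeats 4000000 in
theorem certP1 : Nat.gcd (prodS 312) (treeP 17 1) = 1 := by decide +kernel

set_option maxHeartbeats 4000000 in
theorem certS1 : treeS 17 1 = 25633800794 := by decide +kernel

end Pool.Agent.H770Sun
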