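import Pool.Agent.H770Sun.NData

set_option autoImplicit false

/-! Kernel certificates for the thresholds. -/

namespace Pool.Agent.H770Sun

theorem certG0 : Nat.gcd (prodS 2) (prodL (LL.drop 4)) = 1 := by decide +kernel

theorem certB0 : foldB (LL.take 4) 1000000000000 = 1000555088977 := by decide +kernel

theorem certG1 : Nat.gcd (prodS 3) (prodL (LL.drop 9)) = 1 := by decide +kernel

theorem certB1 : foldB (LL.take 9) 1000000000000 = 1007773996166 := by decide +kernel

theorem certG2 : Nat.gcd (prodS 4) (prodL (LL.drop 18)) = 1 := by decide +kernel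

theorem certB2 : foldB (LL.take 18) 1000000000000 = 1065727002996 := by decide +kernel

theorem certG3 : Nat.gcd (prodS 5) (prodL (LL.drop 22)) = 1 := by decide +kernel

theorem certB3 : foldB (LL.take 22) 1000000000000 = 1073943595997 := by decide +kernel

theorem certG4 : Nat.gcd (prodS 6) (prodL (LL.drop 34)) = 1 := by decide +kernel

theorem certB4 : foldB (LL.take 34) 1000000000000 = 1151132095208 := by decide +kernel

theorem certG5 : Nat.gcd (prodS 8) (prodL (LL.drop 40)) = 1 := by decide +kernel

theorem certB5 : foldB (LL.take 40) 1000000000000 = 1176346519315 := by decide +kernel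

theorem certG6 : Nat.gcd (prodS 9) (prodL (LL.drop 48)) = 1 := by decide +kernel

theorem certB6 : foldB (LL.take 48) 1000000000000 = 1194556272911 := by decide +kernel

theorem certG7 : Nat.gcd (prodS 11) (prodL (LL.drop 55)) = 1 := by decide +kernel

theorem certB7 : foldB (LL.take 55) 1000000000000 = 1207070975812 := by decide +kernel

theorem certG8 : Nat.gcd (prodS 14) (prodL (LL.drop 72)) = 1 := by decide +kernel

theorem certB8 : foldB (LL.take 72) 1000000000000 = 1254444113200 := by decide +kernel

theorem certG9 : Nat.gcd (prodS 20) (prodL (LL.drop 95)) = 1 := by decide +kernel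

theorem certB9 : foldB (LL.take 95) 1000000000000 = 1292725200731 := by decide +kernel

theorem certG10 : Nat.gcd (prodS 26) (prodL (LL.drop 122)) = 1 := by decide +kernel

theorem certB10 : foldB (LL.take 122) 1000000000000 = 1326723192799 := by decide +kernel

theorem certG11 : Nat.gcd (prodS 35) (prodL (LL.drop 144)) = 1 := by decide +kernel

theorem certB11 : foldB (LL.take 144) 1000000000000 = 1347497018386 := by decide +kernel

theorem certG12 : Nat.gcd (prodS 41) (prodL (LL.drop 169)) = 1 := by decide +kernel

theorem certB12 : foldB (LL.take 169) 1000000000000 = 1359139170811 := by decide +kernel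

theorem certG13 : Nat.gcd (prodS 53) (prodL (LL.drop 206)) = 1 := by decide +kernel

theorem certB13 : foldB (LL.take 206) 1000000000000 = 1390687915414 := by decide +kernel

theorem certG14 : Nat.gcd (prodS 65) (prodL (LL.drop 255)) = 1 := by decide +kernel

theorem certB14 : foldB (LL.take 255) 1000000000000 = 1416545635957 := by decide +kernel

theorem certG15 : Nat.gcd (prodS 86) (prodL (LL.drop 325)) = 1 := by decide +kernel

theorem certB15 : foldB (LL.take 325) 1000000000000 = 1439772435486 := by decide +kernel

theorem certG16 : Nat.gcd (prodS 116) (prodL (LL.drop 425)) = 1 := by decide +kernel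

theorem certB16 : foldB (LL.take 425) 1000000000000 = 1476080573795 := by decide +kernel

theorem certG17 : Nat.gcd (prodS 161) (prodL (LL.drop 544)) = 1 := by decide +kernel

theorem certB17 : foldB (LL.take 544) 1000000000000 = 1516077044658 := by decide +kernel

theorem certG18 : Nat.gcd (prodS 221) (prodL (LL.drop 706)) = 1 := by decide +kernel

theorem certB18 : foldB (LL.take 706) 1000000000000 = 1545416617130 := by decide +kernel

theorem certG19 : Nat.gcd (prodS 312) (prodL (LL.drop 924)) = 1 := by decide +kernel

theorem certB19 : foldB (LL.take 924) 1000000000000 = 1575572276019 := by decide +kernel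

theorem certR : Nat.gcd (prodS 312) (prodL RestL) = 1 := by decide +kernel

theorem certSM : foldB SM 1000000000000 = 1471523096540 := by decide +kernel

/-- the members of the list are at least `2` -/
theorem LL_two : ∀ q ∈ LL, 2 ≤ q := by decide +kernel

theorem SM_two : ∀ q ∈ SM, 2 ≤ q := by decide +kernel

theorem LL_chk : ∀ q ∈ LL, q ≤ 1448 ∨ (Nat.gcd q F0 = 1 ∧ q < 2097152) := by decide +kernel

theorem ex_chk : ∀ q ∈ [387631, 755551], q ≤ 1448 ∨ (Nat.gcd q F0 = 1 ∧ q < 2097152) := by decide +kernel

theorem small_chk : ∀ p < 1449, p % 4 = 3 → p = 3 ∨ p ∈ [7, 11, 19, 31, 271] ∨ p ∈ SM ∨ ∃ m < 39, 2 ≤ m ∧ m ∣ p ∧ m < p := by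
  decide +kernel

theorem SM_chk : ∀ p ∈ SM, p ∈ LL ∨ p ∈ RestL := by decide +kernel

theorem ex_dvd : ∀ p ∈ [7, 11, 19, 31, 271, 387631, 755551], (3 ^ 360 - 1) % p = 0 := by decide +kernel

end Pool.Agent.H770Sun
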