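import Pool.Agent.H770Sun.NB2
import Pool.Agent.H770Sun.NC0
import Pool.Agent.H770Sun.NC1
import Pool.Agent.H770Sun.NC2
import Pool.Agent.H770Sun.NC3
import Pool.Agent.H770Sun.NCT

set_option autoImplicit false

/-! The small primes. -/

namespace Pool.Agent.H770Sun
open Finset

lemma treeP_succ (k i : ℕ) : treeP (k + 1) i = treeP k (2 * i) * treeP k (2 * i + 1) := rfl

lemma treeS_succ (k i : ℕ) : treeS (k + 1) i = treeS k (2 * i) + treeS k (2 * i + 1) := rfl

lemma treeP_zero (i : ℕ) : treeP 0 i = gW (4 * i + 3) := rfl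

lemma treeS_zero (i : ℕ) : treeS 0 i = gS (4 * i + 3) := rfl

lemma gW_eq (n : ℕ) (h : Nat.gcd n Big = 1) : gW n = n := by
  have h1 : Nat.beq (Nat.gcd n Big) 1 = true := by rw [h]; rfl
  show cond (Nat.beq (Nat.gcd n Big) 1) n 1 = n
  rw [h1]
  rfl

lemma gS_eq (n : ℕ) (h : Nat.gcd n F0 = 1) : gS n = 1000000000000 / (n - 1) + 1 := by
  have h1 : Nat.beq (Nat.gcd n F0) 1 = true := by rw [h]; rfl
  show cond (Nat.beq (Nat.gcd n F0) 1) (1000000000000 / (n - 1) + 1) 0 = 1000000000000 / (n - 1) + 1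
  rw [h1]
  rfl

lemma F0_dvd (m : ℕ) (h1 : 1 ≤ m) (h2 : m ≤ 1448) : m ∣ F0 := Nat.dvd_factorial h1 h2

lemma F0_cop (p : ℕ) (hp : p.Prime) (h : 1448 < p) : Nat.gcd p F0 = 1 := by
  apply (Nat.Prime.coprime_iff_not_dvd hp).2
  intro hd
  have := (Nat.Prime.dvd_factorial hp).1 hd
  omega

attribute [local irreducible] treeP treeS gW gS F0 prodS prodL

lemma Big_eq : Big = F0 * (prodL LL * (387631 * 755551)) := by
  unfold Big
  rw [Nat.mul_eq, Nat.mul_eq, Nat.mul_eq]

attribute [local irreducible] Big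

lemma treeP_dvd (k : ℕ) : ∀ i j : ℕ, j < 2 ^ k → gW (4 * (2 ^ k * i + j) + 3) ∣ treeP k i := by
  induction k with
  | zero =>
    intro i j hj
    have : j = 0 := by
      rw [pow_zero] at hj
      omega
    rw [this, treeP_zero, pow_zero, one_mul, add_zero]
  | succ k ih =>
    intro i j hj
    rw [treeP_succ]
    rcases Nat.lt_or_ge j (2 ^ k) with h | h
    · have h1 := ih (2 * i) j h
      have h2 : 2 ^ (k + 1) * i + j = 2 ^ k * (2 * i) + j := by ring
      rw [h2]
      exact h1.mul_right _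
    · have h1 := ih (2 * i + 1) (j - 2 ^ k) (by rw [pow_succ] at hj; omega)
      have h2 : 2 ^ (k + 1) * i + j = 2 ^ k * (2 * i + 1) + (j - 2 ^ k) := by
        have h3 : 2 ^ (k + 1) * i + j = 2 ^ k * (2 * i) + j := by ring
        have h4 : 2 ^ k * (2 * i + 1) = 2 ^ k * (2 * i) + 2 ^ k := by ring
        rw [h3, h4]
        omega
      rw [h2]
      exact h1.mul_left _

lemma tree_sum (g : ℕ → ℕ) (T : ℕ → ℕ → ℕ) (hz : ∀ i, T 0 i = g (4 * i + 3))
    (hs : ∀ k i, T (k + 1) i = T k (2 * i) + T k (2 * i + 1)) (k : ℕ) :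
    ∀ i : ℕ, T k i = ∑ j ∈ range (2 ^ k), g (4 * (2 ^ k * i + j) + 3) := by
  induction k with
  | zero =>
    intro i
    rw [hz, pow_zero, sum_range_one, one_mul, add_zero]
  | succ k ih =>
    intro i
    rw [hs, ih, ih]
    have h1 : 2 ^ (k + 1) = 2 ^ k + 2 ^ k := by ring
    rw [h1, sum_range_add]
    congr 1
    · apply sum_congr rfl
      intro j _
      congr 2
      ring
    · apply sum_congr rfl
      intro j _
      congr 2
      ring

lemma tree_sum4 (g : ℕ → ℕ) (T : ℕ → ℕ → ℕ) (hz : ∀ i, T 0 i = g (4 * i + 3))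
    (hs : ∀ k i, T (k + 1) i = T k (2 * i) + T k (2 * i + 1)) (k a b c d : ℕ)
    (h0 : T k 0 = a) (h1 : T k 1 = b) (h2 : T k 2 = c) (h3 : T k 3 = d) :
    ∑ j ∈ range (2 ^ (k + 1 + 1)), g (4 * j + 3) = (a + b) + (c + d) := by
  have e1 := tree_sum g T hz hs (k + 1 + 1) 0
  have e2 : ∑ j ∈ range (2 ^ (k + 1 + 1)), g (4 * (2 ^ (k + 1 + 1) * 0 + j) + 3) = ∑ j ∈ range (2 ^ (k + 1 + 1)), g (4 * j + 3) := by
    apply sum_congr rfl
    intro j _
    rw [mul_zero, zero_add]
  rw [← e2, ← e1, hs, hs, hs]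
  have f0 : T k (2 * (2 * 0)) = a := h0
  have f1 : T k (2 * (2 * 0) + 1) = b := h1
  have f2 : T k (2 * (2 * 0 + 1)) = c := h2
  have f3 : T k (2 * (2 * 0 + 1) + 1) = d := h3
  rw [f0, f1, f2, f3]

lemma certP_all (i : ℕ) (hi : i < 4) : Nat.gcd (prodS 312) (treeP 17 i) = 1 := by
  interval_cases i
  · exact certP0
  · exact certP1
  · exact certP2
  · exact certP3

lemma eq_of_chk (p q : ℕ) (hp1 : 1448 < p) (h : p ∣ q) (hq : 2 ≤ q)
    (hc : q ≤ 1448 ∨ (Nat.gcd q F0 = 1 ∧ q < 2097152)) : q = p := by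
  rcases hc with hc | ⟨hc1, hc2⟩
  · have := Nat.le_of_dvd (by omega) h
    omega
  · obtain ⟨m, rfl⟩ := h
    have hm0 : 1 ≤ m := by
      rcases Nat.eq_zero_or_pos m with h0 | h0
      · rw [h0] at hq; omega
      · exact h0
    have hm : m ≤ 1448 := by
      by_contra hm
      have : 1449 * 1449 ≤ p * m := Nat.mul_le_mul (by omega) (by omega)
      omega
    have h1 := Nat.dvd_gcd (dvd_mul_left m p) (F0_dvd m hm0 hm)
    rw [hc1] at h1
    rw [Nat.dvd_one.1 h1, mul_one]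

/-- the primes with a small exponent are in the list -/
theorem in_LL (p : ℕ) (hp : p.Prime) (hp4 : p % 4 = 3) (hp3 : p ≠ 3) (hpd : ¬ p ∣ 3 ^ 360 - 1) (hlt : p < 2 ^ 21)
    (hps : p ∣ prodS 312) : p ∈ LL := by
  have hex : ∀ q ∈ [7, 11, 19, 31, 271, 387631, 755551], p ≠ q := by
    intro q hq hpq
    apply hpd
    rw [hpq]
    exact Nat.dvd_of_mod_eq_zero (ex_dvd q hq)
  by_cases hsm : p < 1449
  · rcases small_chk p hsm hp4 with h | h | h | ⟨m, _, hm2, hmp, hmlt⟩
    · exact absurd h hp3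
    · exfalso
      apply hex p _ rfl
      simp only [List.mem_cons, List.not_mem_nil, or_false] at h ⊢
      tauto
    · rcases SM_chk p h with h | h
      · exact h
      · exfalso
        have h8 := Nat.dvd_gcd hps (prodL_dvd _ _ h)
        rw [certR] at h8
        exact hp.one_lt.ne' (Nat.dvd_one.1 h8)
    · exfalso
      rcases (Nat.dvd_prime hp).1 hmp with h | h
      · omega
      · omega
  · have hp1 : 1448 < p := by omega
    obtain ⟨k, hk⟩ : ∃ k, k = p / 4 := ⟨_, rfl⟩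
    have hpk : p = 4 * k + 3 := by omega
    by_cases hB : Nat.gcd p Big = 1
    · exfalso
      have h1 := treeP_dvd 17 (k / 2 ^ 17) (k % 2 ^ 17) (Nat.mod_lt _ (by norm_num))
      rw [Nat.div_add_mod, ← hpk, gW_eq p hB] at h1
      have h2 := Nat.dvd_gcd hps h1
      rw [certP_all (k / 2 ^ 17) (by omega)] at h2
      exact hp.one_lt.ne' (Nat.dvd_one.1 h2)
    · have h1 : p ∣ Big := by
        by_contra h
        exact hB ((Nat.Prime.coprime_iff_not_dvd hp).2 h)
      rw [Big_eq] at h1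
      rcases (Nat.Prime.dvd_mul hp).1 h1 with h2 | h2
      · exfalso
        exact (Nat.Prime.coprime_iff_not_dvd hp).1 (F0_cop p hp hp1) h2
      · rcases (Nat.Prime.dvd_mul hp).1 h2 with h3 | h3
        · obtain ⟨q, hq, hpq⟩ := prodL_prime LL p hp h3
          have h4 := eq_of_chk p q hp1 hpq (LL_two q hq) (LL_chk q hq)
          rw [← h4]
          exact hq
        · exfalso
          rcases (Nat.Prime.dvd_mul hp).1 h3 with h4 | h4
          · have h5 := eq_of_chk p 387631 hp1 h4 (by norm_num) (ex_chk _ (by simp))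
            exact hex 387631 (by simp) h5.symm
          · have h5 := eq_of_chk p 755551 hp1 h4 (by norm_num) (ex_chk _ (by simp))
            exact hex 755551 (by simp) h5.symm

lemma sum_mid (S : Finset ℕ) (hS : ∀ p ∈ S, p.Prime ∧ p % 4 = 3 ∧ 1448 < p ∧ p < 2 ^ 21) :
    ∑ p ∈ S, 1 / ((p : ℝ) - 1) ≤ 0.347729068562 := by
  have h1 : ∀ p ∈ S, 1 / ((p : ℝ) - 1) ≤ ((gS p : ℕ) : ℝ) / 1000000000000 := by
    intro p hp
    obtain ⟨h1, h2, h3, h4⟩ := hS p hp
    rw [gS_eq p (F0_cop p h1 h3)]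
    have h5 : (1000000000000 : ℝ) / ((p - 1 : ℕ) : ℝ) ≤ ((1000000000000 / (p - 1) : ℕ) : ℝ) + 1 := by
      have h6 := Nat.lt_succ_floor (((1000000000000 : ℕ) : ℝ) / ((p - 1 : ℕ) : ℝ))
      rw [Nat.floor_div_natCast, Nat.floor_natCast] at h6
      push_cast at h6 ⊢
      exact h6.le
    have h7 : ((p - 1 : ℕ) : ℝ) = p - 1 := by
      rw [Nat.cast_sub (by omega)]
      norm_num
    rw [h7] at h5
    have h8 : (0 : ℝ) < p - 1 := by
      have : (1 : ℝ) < p := by exact_mod_cast h1.one_lt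
      linarith
    rw [le_div_iff₀ (by norm_num)]
    push_cast at h5 ⊢
    calc 1 / ((p : ℝ) - 1) * 1000000000000 = 1000000000000 / ((p : ℝ) - 1) := by ring
      _ ≤ _ := h5
  have h2 : ∑ p ∈ S, gS p ≤ ∑ j ∈ range (2 ^ 19), gS (4 * j + 3) := by
    have e1 : ∑ p ∈ S, gS p = ∑ j ∈ S.image (fun p => p / 4), gS (4 * j + 3) := by
      rw [sum_image]
      · apply sum_congr rfl
        intro p hp
        have := hS p hp
        congr 1
        omega
      · intro p hp q hq hpq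
        have := hS p hp
        have := hS q hq
        simp only at hpq
        omega
    rw [e1]
    apply sum_le_sum_of_subset
    intro j hj
    rw [mem_image] at hj
    obtain ⟨p, hp, rfl⟩ := hj
    have := hS p hp
    rw [mem_range]
    omega
  have h3 : ∑ j ∈ range (2 ^ 19), gS (4 * j + 3) = 347729068562 := by
    have e1 := tree_sum4 gS treeS treeS_zero treeS_succ 17 _ _ _ _ certS0 certS1 certS2 certS3
    exact e1
  rw [h3] at h2
  calc ∑ p ∈ S, 1 / ((p : ℝ) - 1) ≤ ∑ p ∈ S, ((gS p : ℕ) : ℝ) / 1000000000000 := sum_le_sum h1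
    _ = ((∑ p ∈ S, gS p : ℕ) : ℝ) / 1000000000000 := by rw [← sum_div]; push_cast; rfl
    _ ≤ ((347729068562 : ℕ) : ℝ) / 1000000000000 := by
        apply div_le_div_of_nonneg_right _ (by norm_num)
        exact_mod_cast h2
    _ ≤ 0.347729068562 := by norm_num

lemma prod_le_exp_sum (S : Finset ℕ) (hS : ∀ p ∈ S, p.Prime) : ∏ p ∈ S, (1 + 1 / ((p : ℝ) - 1)) ≤ Real.exp (∑ p ∈ S, 1 / ((p : ℝ) - 1)) := by
  rw [Real.exp_sum]
  apply prod_le_prod
  · intro p hp
    have := fac_ge_one p (hS p hp)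
    linarith
  · intro p _
    have := Real.add_one_le_exp (1 / ((p : ℝ) - 1))
    linarith

lemma exp_mid : Real.exp 0.347729068562 ≤ 1.415850 := by
  refine (Real.exp_bound' (x := 0.347729068562) (by norm_num) (by norm_num) (n := 8) (by norm_num)).trans ?_
  norm_num [Finset.sum_range_succ, Nat.factorial]

/-- all the primes below `2 ^ 21` -/
lemma all_small (S : Finset ℕ) (hS : ∀ p ∈ S, p.Prime ∧ p % 4 = 3 ∧ p ≠ 3 ∧ ¬ p ∣ 3 ^ 360 - 1 ∧ p < 2 ^ 21) :
    ∏ p ∈ S, (1 + 1 / ((p : ℝ) - 1)) ≤ 2.0835 := by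
  classical
  rw [← prod_filter_mul_prod_filter_not S (fun p => p < 1449)]
  have h1 : (∏ p ∈ S.filter (fun p => p < 1449), (1 + 1 / ((p : ℝ) - 1))) * ((1000000000000 : ℕ) : ℝ) ≤ ((1471523096540 : ℕ) : ℝ) := by
    rw [← certSM]
    apply foldB_bound SM SM_two
    · intro p hp
      rw [mem_filter] at hp
      obtain ⟨h1, h2, h3, h4, h5⟩ := hS p hp.1
      have hex : ∀ q ∈ [7, 11, 19, 31, 271, 387631, 755551], p ≠ q := by
        intro q hq hpq
        apply h4
        rw [hpq]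
        exact Nat.dvd_of_mod_eq_zero (ex_dvd q hq)
      rcases small_chk p hp.2 h2 with h | h | h | ⟨m, _, hm2, hmp, hmlt⟩
      · exact absurd h h3
      · exfalso
        apply hex p _ rfl
        simp only [List.mem_cons, List.not_mem_nil, or_false] at h ⊢
        tauto
      · exact h
      · exfalso
        rcases (Nat.dvd_prime h1).1 hmp with h | h
        · omega
        · omega
    · intro p hp
      exact (hS p (mem_filter.1 hp).1).1
  have h2 := sum_mid (S.filter (fun p => ¬ p < 1449)) (by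
    intro p hp
    rw [mem_filter] at hp
    obtain ⟨h1, h2, h3, h4, h5⟩ := hS p hp.1
    exact ⟨h1, h2, by omega, h5⟩)
  have h3 := prod_le_exp_sum (S.filter (fun p => ¬ p < 1449)) (fun p hp => (hS p (mem_filter.1 hp).1).1)
  have h4 := h3.trans ((Real.exp_le_exp.2 h2).trans exp_mid)
  have h5 : ∏ p ∈ S.filter (fun p => p < 1449), (1 + 1 / ((p : ℝ) - 1)) ≤ 1.471523097 := by
    push_cast at h1
    linarith
  have h6 : 0 ≤ ∏ p ∈ S.filter (fun p => ¬ p < 1449), (1 + 1 / ((p : ℝ) - 1)) :=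
    le_trans zero_le_one (prod_ge_one _ (fun p hp => (hS p (mem_filter.1 hp).1).1))
  calc _ ≤ (1.471523097 : ℝ) * 1.415850 := mul_le_mul h5 h4 h6 (by norm_num)
    _ ≤ 2.0835 := by norm_num

end Pool.Agent.H770Sun
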