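import Pool.Agent.H770Sun.Core3

set_option autoImplicit false

/-! The number of pairs of points of a flat box whose norms have a given nonzero difference. -/

namespace Pool.Agent.H770Sun
open Finset

/-- the pairs of points whose norms have the difference `k` -/
noncomputable def Pk (M α β : ℤ) (A A1 B : ℕ) (k : ℤ) : Finset ((ℤ × ℤ) × (ℤ × ℤ)) :=
  ((Bx M α β A (A + A1) 0 B) ×ˢ (Bx M α β A (A + A1) 0 B)).filter (fun p => N2 p.2 - N2 p.1 = k)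

lemma mem_Pk {M α β : ℤ} {A A1 B : ℕ} {k : ℤ} {p : (ℤ × ℤ) × (ℤ × ℤ)} :
    p ∈ Pk M α β A A1 B k ↔ p.1 ∈ Bx M α β A (A + A1) 0 B ∧ p.2 ∈ Bx M α β A (A + A1) 0 B ∧ N2 p.2 - N2 p.1 = k := by
  unfold Pk
  rw [mem_filter, mem_product]
  tauto

/-- the sum of the reciprocals of the divisors prime to `M` -/
noncomputable def FM (M : ℕ) (k : ℤ) : ℝ := ∑ γ ∈ (k.natAbs.divisors).filter (fun γ => Nat.Coprime γ M), (1 / (γ : ℝ))

lemma N2_diff (w z : ℤ × ℤ) : N2 z - N2 w = (z.1 - w.1) * (2 * w.1 + (z.1 - w.1)) + (z.2 - w.2) * (2 * w.2 + (z.2 - w.2)) := by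
  unfold N2; ring

lemma abs_d_le {M α β : ℤ} {A A1 B : ℕ} (hA : 0 < A) {k : ℤ} (hk : |k| ≤ (B : ℤ) ^ 2) {p : (ℤ × ℤ) × (ℤ × ℤ)}
    (hp : p ∈ Pk M α β A A1 B k) : |p.2.1 - p.1.1| ≤ ((B ^ 2 / A : ℕ) : ℤ) := by
  obtain ⟨h1, h2, h3⟩ := mem_Pk.1 hp
  have h1' := mem_Bx.1 h1
  have h2' := mem_Bx.1 h2
  have hAi : (0 : ℤ) < A := by exact_mod_cast hA
  push_cast
  rw [Int.le_ediv_iff_mul_le hAi]
  unfold N2 at h3
  have e1 : (p.2.1 - p.1.1) * (p.2.1 + p.1.1) = k - (p.2.2 ^ 2 - p.1.2 ^ 2) := by linarith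
  have h4 : |p.2.1 - p.1.1| * (2 * A) ≤ |p.2.1 - p.1.1| * |p.2.1 + p.1.1| := by
    apply mul_le_mul_of_nonneg_left _ (abs_nonneg _)
    rw [abs_of_pos (by linarith [h1'.1.1, h2'.1.1])]
    linarith [h1'.1.1, h2'.1.1]
  rw [← abs_mul, e1] at h4
  have h5 : |p.2.2 ^ 2 - p.1.2 ^ 2| ≤ (B : ℤ) ^ 2 := by
    have b1 := h1'.2.1
    have b2 := h2'.2.1
    rw [abs_le]
    constructor <;> nlinarith [b1.1, b1.2, b2.1, b2.2]
  have h6 : |k - (p.2.2 ^ 2 - p.1.2 ^ 2)| ≤ |k| + |p.2.2 ^ 2 - p.1.2 ^ 2| := abs_sub _ _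
  linarith

lemma abs_e_lt {M α β : ℤ} {A A1 B : ℕ} {k : ℤ} {p : (ℤ × ℤ) × (ℤ × ℤ)}
    (hp : p ∈ Pk M α β A A1 B k) : |p.2.2 - p.1.2| < (B : ℤ) := by
  obtain ⟨h1, h2, h3⟩ := mem_Pk.1 hp
  have h1' := mem_Bx.1 h1
  have h2' := mem_Bx.1 h2
  rw [abs_lt]
  constructor <;> linarith [h1'.2.1.1, h1'.2.1.2, h2'.2.1.1, h2'.2.1.2]

/-- signed divisors -/
lemma card_signed (m : ℤ) (hm : m ≠ 0) (S : Finset ℤ) (hS : ∀ x ∈ S, x ∣ m) : S.card ≤ 2 * m.natAbs.divisors.card := by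
  classical
  have h1 : S ⊆ (m.natAbs.divisors.image (fun n : ℕ => (n : ℤ))) ∪ (m.natAbs.divisors.image (fun n : ℕ => -(n : ℤ))) := by
    intro x hx
    have h2 := hS x hx
    have h3 : x.natAbs ∈ m.natAbs.divisors := by
      rw [Nat.mem_divisors]
      exact ⟨Int.natAbs_dvd_natAbs.2 h2, by simpa using hm⟩
    rw [mem_union, mem_image, mem_image]
    rcases le_total 0 x with h | h
    · exact Or.inl ⟨x.natAbs, h3, by omega⟩
    · exact Or.inr ⟨x.natAbs, h3, by omega⟩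
  have h2 := card_le_card h1
  have h3 := card_union_le (m.natAbs.divisors.image (fun n : ℕ => (n : ℤ))) (m.natAbs.divisors.image (fun n : ℕ => -(n : ℤ)))
  have h4 : (m.natAbs.divisors.image (fun n : ℕ => (n : ℤ))).card ≤ _ := card_image_le
  have h5 : (m.natAbs.divisors.image (fun n : ℕ => -(n : ℤ))).card ≤ _ := card_image_le
  omega

/-- the pairs with equal first coordinates -/
lemma crude_d0 (M α β : ℤ) (A A1 B τ : ℕ) (k : ℤ) (hk0 : k ≠ 0) (hk : |k| ≤ (B : ℤ) ^ 2)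
    (hτ : ∀ n : ℕ, 1 ≤ n → n ≤ 3 * B ^ 2 → n.divisors.card ≤ τ) :
    ((Pk M α β A A1 B k).filter (fun p => p.2.1 - p.1.1 = 0)).card ≤ A1 * (2 * τ) := by
  classical
  set P := (Pk M α β A A1 B k).filter (fun p => p.2.1 - p.1.1 = 0) with hP
  have hmem : ∀ p ∈ P, p ∈ Pk M α β A A1 B k ∧ p.2.1 - p.1.1 = 0 := fun p hp => mem_filter.1 hp
  have heq : ∀ p ∈ P, (p.2.2 - p.1.2) * (2 * p.1.2 + (p.2.2 - p.1.2)) = k := by
    intro p hp
    obtain ⟨h1, h2⟩ := hmem p hp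
    have h3 := (mem_Pk.1 h1).2.2
    rw [N2_diff, h2] at h3
    linarith
  have hkn : 1 ≤ k.natAbs := by omega
  have hkn2 : k.natAbs ≤ 3 * B ^ 2 := by
    have : (k.natAbs : ℤ) ≤ (B : ℤ) ^ 2 := by rw [Int.natCast_natAbs]; exact hk
    have h2 : k.natAbs ≤ B ^ 2 := by exact_mod_cast this
    omega
  have h1 : P.card ≤ ((Ioc (A : ℤ) (A + A1)) ×ˢ (P.image (fun p => p.2.2 - p.1.2))).card := by
    apply card_le_card_of_injOn (fun p => (p.1.1, p.2.2 - p.1.2))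
    · intro p hp
      rw [mem_coe, mem_product, mem_Ioc]
      have h2 := (mem_Bx.1 (mem_Pk.1 (hmem p hp).1).1).1
      exact ⟨h2, mem_image_of_mem _ hp⟩
    · rintro ⟨⟨a, b⟩, ⟨a', b'⟩⟩ hp ⟨⟨x, y⟩, ⟨x', y'⟩⟩ hq hpq
      have e1 := heq _ hp
      have e2 := heq _ hq
      have z1 := (hmem _ hp).2
      have z2 := (hmem _ hq).2
      simp only [Prod.mk.injEq] at e1 e2 z1 z2 hpq ⊢
      obtain ⟨h2, h3⟩ := hpq
      have hne : b' - b ≠ 0 := by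
        intro h
        rw [h] at e1
        apply hk0
        linarith
      rw [← h3] at e2
      have h4 : 2 * b + (b' - b) = 2 * y + (b' - b) := mul_left_cancel₀ hne (by rw [e1, e2])
      refine ⟨⟨h2, by linarith⟩, by linarith, by linarith⟩
  refine h1.trans ?_
  rw [card_product, Int.card_Ioc]
  apply Nat.mul_le_mul
  · omega
  · refine (card_signed k hk0 _ ?_).trans (Nat.mul_le_mul_left _ (hτ _ hkn hkn2))
    intro x hx
    obtain ⟨p, hp, hpx⟩ := mem_image.1 hx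
    rw [← hpx, ← heq p hp]
    exact dvd_mul_right _ _

/-- the pairs with different first coordinates and a small primitive second coordinate -/
lemma crude_d1 (M α β : ℤ) (A A1 B τ K0 : ℕ) (k : ℤ) (hk0 : k ≠ 0) (hk : |k| ≤ (B : ℤ) ^ 2)
    (hτ : ∀ n : ℕ, 1 ≤ n → n ≤ 3 * B ^ 2 → n.divisors.card ≤ τ) :
    ((Pk M α β A A1 B k).filter (fun p => p.2.1 - p.1.1 ≠ 0 ∧
      |p.2.2 - p.1.2| ≤ ((Int.gcd (p.2.1 - p.1.1) (p.2.2 - p.1.2) : ℕ) : ℤ) * K0)).card ≤ (τ * (2 * K0 + 1) * B) * (2 * τ) := by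
  classical
  set P := (Pk M α β A A1 B k).filter (fun p => p.2.1 - p.1.1 ≠ 0 ∧
      |p.2.2 - p.1.2| ≤ ((Int.gcd (p.2.1 - p.1.1) (p.2.2 - p.1.2) : ℕ) : ℤ) * K0) with hP
  have hmem : ∀ p ∈ P, p ∈ Pk M α β A A1 B k ∧ p.2.1 - p.1.1 ≠ 0 ∧
      |p.2.2 - p.1.2| ≤ ((Int.gcd (p.2.1 - p.1.1) (p.2.2 - p.1.2) : ℕ) : ℤ) * K0 := fun p hp => mem_filter.1 hp
  have heq : ∀ p ∈ P, (p.2.1 - p.1.1) * (2 * p.1.1 + (p.2.1 - p.1.1)) = k - (p.2.2 - p.1.2) * (2 * p.1.2 + (p.2.2 - p.1.2)) := by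
    intro p hp
    have h3 := (mem_Pk.1 (hmem p hp).1).2.2
    rw [N2_diff] at h3
    linarith
  have hkn : 1 ≤ k.natAbs := by omega
  have hkn2 : k.natAbs ≤ 3 * B ^ 2 := by
    have : (k.natAbs : ℤ) ≤ (B : ℤ) ^ 2 := by rw [Int.natCast_natAbs]; exact hk
    have h2 : k.natAbs ≤ B ^ 2 := by exact_mod_cast this
    omega
  set E : Finset ℤ := (k.natAbs.divisors ×ˢ (Icc (-(K0 : ℤ)) K0)).image (fun q => (q.1 : ℤ) * q.2) with hE
  have hEcard : E.card ≤ τ * (2 * K0 + 1) := by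
    refine card_image_le.trans ?_
    rw [card_product, Int.card_Icc]
    apply Nat.mul_le_mul (hτ _ hkn hkn2)
    omega
  have hmaps : ∀ p ∈ P, (p.2.2 - p.1.2, p.1.2) ∈ E ×ˢ (Ioc (0 : ℤ) B) := by
    intro p hp
    obtain ⟨h1, h2, h3⟩ := hmem p hp
    rw [mem_product, mem_Ioc]
    refine ⟨?_, (mem_Bx.1 (mem_Pk.1 h1).1).2.1⟩
    rw [hE, mem_image]
    set G := Int.gcd (p.2.1 - p.1.1) (p.2.2 - p.1.2) with hG
    have hGpos : 0 < G := Int.gcd_pos_of_ne_zero_left _ h2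
    obtain ⟨e2, he2⟩ : (G : ℤ) ∣ p.2.2 - p.1.2 := Int.gcd_dvd_right _ _
    refine ⟨(G, e2), ?_, he2.symm⟩
    rw [mem_product, Nat.mem_divisors, mem_Icc]
    refine ⟨⟨?_, by omega⟩, ?_⟩
    · have h4 : (G : ℤ) ∣ k := by
        have h5 := heq p hp
        have h6 : k = (p.2.1 - p.1.1) * (2 * p.1.1 + (p.2.1 - p.1.1)) + (p.2.2 - p.1.2) * (2 * p.1.2 + (p.2.2 - p.1.2)) := by linarith
        rw [h6]
        exact dvd_add ((Int.gcd_dvd_left _ _).mul_right _) ((Int.gcd_dvd_right _ _).mul_right _)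
      have := Int.natAbs_dvd_natAbs.2 h4
      simpa using this
    · have hGi : (0 : ℤ) < G := by exact_mod_cast hGpos
      rw [he2, abs_mul, abs_of_pos hGi] at h3
      have h4 := le_of_mul_le_mul_left h3 hGi
      exact abs_le.1 h4
  have h1 : P.card ≤ (2 * τ) * (E ×ˢ (Ioc (0 : ℤ) B)).card := by
    apply card_le_mul_card_image_of_maps_to (f := fun p : (ℤ × ℤ) × (ℤ × ℤ) => (p.2.2 - p.1.2, p.1.2)) hmaps
    intro q hq
    set F := P.filter (fun p => (p.2.2 - p.1.2, p.1.2) = q) with hF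
    rcases F.eq_empty_or_nonempty with h0 | ⟨p0, hp0⟩
    · rw [h0]; simp
    have hp0' := mem_filter.1 hp0
    obtain ⟨K1, hK1⟩ : ∃ K1, K1 = k - q.1 * (2 * q.2 + q.1) := ⟨_, rfl⟩
    have hF2 : ∀ p ∈ F, (p.2.1 - p.1.1) * (2 * p.1.1 + (p.2.1 - p.1.1)) = K1 ∧ p.2.1 - p.1.1 ≠ 0 ∧ 0 < 2 * p.1.1 + (p.2.1 - p.1.1) := by
      intro p hp
      obtain ⟨hp1, hp2⟩ := mem_filter.1 hp
      refine ⟨?_, (hmem p hp1).2.1, ?_⟩
      · rw [heq p hp1, hK1, ← hp2]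
      · have a1 := (mem_Bx.1 (mem_Pk.1 (hmem p hp1).1).1).1.1
        have a2 := (mem_Bx.1 (mem_Pk.1 (hmem p hp1).1).2.1).1.1
        have : (0 : ℤ) ≤ A := by positivity
        linarith
    have hK10 : K1 ≠ 0 := by
      obtain ⟨h2, h3, h4⟩ := hF2 p0 hp0
      rw [← h2]
      exact mul_ne_zero h3 h4.ne'
    have hK1b : K1.natAbs ≤ 3 * B ^ 2 := by
      have h2 := abs_e_lt (hmem p0 hp0'.1).1
      have b1 := (mem_Bx.1 (mem_Pk.1 (hmem p0 hp0'.1).1).1).2.1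
      have b2 := (mem_Bx.1 (mem_Pk.1 (hmem p0 hp0'.1).1).2.1).2.1
      have h3 : |K1| ≤ 3 * (B : ℤ) ^ 2 := by
        rw [hK1, ← hp0'.2]
        simp only
        have h4 : |(p0.2.2 - p0.1.2) * (2 * p0.1.2 + (p0.2.2 - p0.1.2))| ≤ (B : ℤ) * (2 * B) := by
          rw [abs_mul]
          apply mul_le_mul h2.le _ (abs_nonneg _) (by positivity)
          rw [abs_of_nonneg (by linarith)]
          linarith
        have h5 := abs_sub k ((p0.2.2 - p0.1.2) * (2 * p0.1.2 + (p0.2.2 - p0.1.2)))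
        nlinarith
      have h4 : (K1.natAbs : ℤ) ≤ 3 * (B : ℤ) ^ 2 := by rw [Int.natCast_natAbs]; exact h3
      exact_mod_cast h4
    have h2 : F.card = (F.image (fun p => p.2.1 - p.1.1)).card := by
      rw [card_image_of_injOn]
      rintro ⟨⟨a, b⟩, ⟨a', b'⟩⟩ hp ⟨⟨x, y⟩, ⟨x', y'⟩⟩ hp' hpq
      obtain ⟨e1, e2, e3⟩ := hF2 _ hp
      obtain ⟨f1, f2, f3⟩ := hF2 _ hp'
      have g1 := (mem_filter.1 hp).2
      have g2 := (mem_filter.1 hp').2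
      rw [← g2, Prod.mk.injEq] at g1
      simp only at e1 e2 e3 f1 f2 f3 g1 hpq
      rw [← hpq] at f1
      have h4 : 2 * a + (a' - a) = 2 * x + (a' - a) := mul_left_cancel₀ e2 (by rw [e1, f1])
      simp only [Prod.mk.injEq]
      refine ⟨⟨by linarith, by linarith [g1.2]⟩, by linarith, by linarith [g1.1, g1.2]⟩
    rw [h2]
    refine (card_signed K1 hK10 _ ?_).trans (Nat.mul_le_mul_left _ (hτ _ (by omega) hK1b))
    intro x hx
    obtain ⟨p, hp, hpx⟩ := mem_image.1 hx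
    rw [← hpx, ← (hF2 p hp).1]
    exact dvd_mul_right _ _
  refine h1.trans ?_
  rw [card_product, Int.card_Ioc, mul_comm]
  apply Nat.mul_le_mul_right
  apply Nat.mul_le_mul hEcard
  omega

end Pool.Agent.H770Sun
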