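import Pool.Agent.H770Sun.Pair

set_option autoImplicit false

/-! The number of pairs of points of a flat box whose norms have a given nonzero difference. -/

namespace Pool.Agent.H770Sun
open Finset

/-- the enlarged box -/
noncomputable def Ox (M α β : ℤ) (A A1 B r : ℕ) : Finset (ℤ × ℤ) := Bx M α β A ((A + A1 + B : ℕ) : ℤ) (-(r : ℤ)) (B + r)

/-- the core bound in real form -/
lemma fib_bound (M γ Q J A A1 r B K0 D : ℕ) (hM4 : 4 ∣ M) (hM : 0 < M) (hγ : 0 < γ) (hQ : 0 < Q) (hK0 : 0 < K0)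
    (hA : 0 < A) (hJ : 0 < J) (hQM : ∀ p : ℕ, p.Prime → p ∣ Q → p ∣ M)
    (hr : M * Q * J + K0 * D ≤ K0 * r) (α β k : ℤ) (hα : IsCoprime α (M : ℤ)) (hγB : M * γ * K0 < B)
    (P : Finset ((ℤ × ℤ) × (ℤ × ℤ)))
    (hP : ∀ p ∈ P, p ∈ Pk M α β A A1 B k ∧ Adm M γ Q K0 D B (p.2.1 - p.1.1, p.2.2 - p.1.2)) :
    (P.card : ℝ) ≤ ((1 / (A : ℝ) + 1 / J) * ((B + 2 * r + B / K0) / M) * (Ox M α β A A1 B r).card) * (1 / γ) := by
  have h1 := core_bound M γ Q J A A1 r B K0 D hM4 hM hγ hQ hK0 hA hQM hr α β k hα P (by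
    intro p hp
    obtain ⟨h2, h3⟩ := hP p hp
    obtain ⟨h4, h5, h6⟩ := mem_Pk.1 h2
    exact ⟨h4, h5, h6, h3⟩)
  change _ ≤ _ * (Ox M α β A A1 B r).card at h1
  have hJr : (0 : ℝ) < J := by exact_mod_cast hJ
  have hAr : (0 : ℝ) < A := by exact_mod_cast hA
  have hMr : (0 : ℝ) < M := by exact_mod_cast hM
  have hγr : (0 : ℝ) < γ := by exact_mod_cast hγ
  have hKr : (0 : ℝ) < K0 := by exact_mod_cast hK0
  have h2 : (P.card : ℝ) * J ≤ ((((J / A : ℕ) : ℝ) + 1) * ((((B + 2 * r) / (M * γ) : ℕ) : ℝ) + 1)) * (Ox M α β A A1 B r).card := by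
    exact_mod_cast h1
  have h3 : ((J / A : ℕ) : ℝ) ≤ J / A := Nat.cast_div_le
  have h4 : (((B + 2 * r) / (M * γ) : ℕ) : ℝ) ≤ (B + 2 * r) / (M * γ) := by
    have := @Nat.cast_div_le ℝ _ _ _ (B + 2 * r) (M * γ)
    push_cast at this
    exact this
  have h5 : (1 : ℝ) ≤ (B / K0) / (M * γ) := by
    rw [le_div_iff₀ (by positivity), le_div_iff₀ hKr, one_mul]
    exact_mod_cast hγB.le
  have h6 : (((J / A : ℕ) : ℝ) + 1) * ((((B + 2 * r) / (M * γ) : ℕ) : ℝ) + 1) ≤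
      ((J : ℝ) / A + 1) * ((B + 2 * r + B / K0) / (M * γ)) := by
    apply mul_le_mul (by linarith) _ (by positivity) (by positivity)
    have : ((B : ℝ) + 2 * r + B / K0) / (M * γ) = (B + 2 * r) / (M * γ) + (B / K0) / (M * γ) := by ring
    rw [this]
    linarith
  have h7 : (P.card : ℝ) * J ≤ (((J : ℝ) / A + 1) * ((B + 2 * r + B / K0) / (M * γ))) * (Ox M α β A A1 B r).card :=
    h2.trans (mul_le_mul_of_nonneg_right h6 (by positivity))
  have h8 : ((1 / (A : ℝ) + 1 / J) * ((B + 2 * r + B / K0) / M) * (Ox M α β A A1 B r).card) * (1 / γ) =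
      ((((J : ℝ) / A + 1) * ((B + 2 * r + B / K0) / (M * γ))) * (Ox M α β A A1 B r).card) / J := by
    field_simp
  rw [h8, le_div_iff₀ hJr]
  exact h7

/-- the pairs in general position -/
lemma main_part (M κ J A A1 r B K0 τ : ℕ) (hM4 : 4 ∣ M) (hM : 0 < M) (hK0 : 0 < K0)
    (hA : 0 < A) (hJ : 0 < J)
    (hr : M * M ^ κ * J + K0 * (B ^ 2 / A) ≤ K0 * r) (α β k : ℤ) (hα : IsCoprime α (M : ℤ)) (hk0 : k ≠ 0) (hk : |k| ≤ (B : ℤ) ^ 2)
    (hτ : ∀ n : ℕ, 1 ≤ n → n ≤ 3 * B ^ 2 → n.divisors.card ≤ τ) :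
    (((Pk M α β A A1 B k).filter (fun p => p.2.1 - p.1.1 ≠ 0 ∧
      ((Int.gcd (p.2.1 - p.1.1) (p.2.2 - p.1.2) : ℕ) : ℤ) * K0 < |p.2.2 - p.1.2|)).card : ℝ) ≤
      ((1 / (A : ℝ) + 1 / J) * ((B + 2 * r + B / K0) / M) * (Ox M α β A A1 B r).card) * (FM M k + τ / 2 ^ κ) := by
  classical
  obtain ⟨W, hW⟩ : ∃ W : ℝ, W = (1 / (A : ℝ) + 1 / J) * ((B + 2 * r + B / K0) / M) * (Ox M α β A A1 B r).card := ⟨_, rfl⟩
  have hW0 : 0 ≤ W := by rw [hW]; positivity
  rw [← hW]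
  set P := (Pk M α β A A1 B k).filter (fun p => p.2.1 - p.1.1 ≠ 0 ∧
      ((Int.gcd (p.2.1 - p.1.1) (p.2.2 - p.1.2) : ℕ) : ℤ) * K0 < |p.2.2 - p.1.2|) with hP
  have hMi : (0 : ℤ) < M := by exact_mod_cast hM
  have hkn : 1 ≤ k.natAbs := by omega
  have hkn2 : k.natAbs ≤ 3 * B ^ 2 := by
    have : (k.natAbs : ℤ) ≤ (B : ℤ) ^ 2 := by rw [Int.natCast_natAbs]; exact hk
    have h2 : k.natAbs ≤ B ^ 2 := by exact_mod_cast this
    omega
  have hr1 : M * 1 * J + K0 * (B ^ 2 / A) ≤ K0 * r := by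
    have h1 : 1 ≤ M ^ κ := Nat.one_le_pow _ _ hM
    have h2 : M * 1 * J ≤ M * M ^ κ * J := Nat.mul_le_mul_right _ (Nat.mul_le_mul_left _ h1)
    omega
  -- the data of a pair
  set G : (ℤ × ℤ) × (ℤ × ℤ) → ℕ := fun p => Int.gcd (p.2.1 - p.1.1) (p.2.2 - p.1.2) with hG
  set g : (ℤ × ℤ) × (ℤ × ℤ) → ℕ := fun p => G p / M with hg
  set g' : (ℤ × ℤ) × (ℤ × ℤ) → ℕ := fun p => g p / Nat.gcd (g p) (M ^ κ) with hg'
  have hdata : ∀ p ∈ P, p ∈ Pk M α β A A1 B k ∧ 0 < G p ∧ G p = M * g p ∧ 0 < g p ∧ g p ∣ k.natAbs ∧ M * g p * K0 < B ∧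
      (G p : ℤ) * K0 < |p.2.2 - p.1.2| := by
    intro p hp
    obtain ⟨h1, h2, h3⟩ := mem_filter.1 hp
    obtain ⟨h4, h5, h6⟩ := mem_Pk.1 h1
    have hw := mem_Bx.1 h4
    have hz := mem_Bx.1 h5
    have hGpos : 0 < G p := Int.gcd_pos_of_ne_zero_left _ h2
    have hd1 : (M : ℤ) ∣ p.2.1 - p.1.1 := by
      have := dvd_sub hz.2.2.1 hw.2.2.1
      simpa using this
    have hd2 : (M : ℤ) ∣ p.2.2 - p.1.2 := by
      have := dvd_sub hz.2.2.2 hw.2.2.2
      simpa using this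
    have hMG : M ∣ G p := Int.natCast_dvd_natCast.1 (Int.dvd_coe_gcd hd1 hd2)
    have hGg : G p = M * g p := (Nat.mul_div_cancel' hMG).symm
    have hgpos : 0 < g p := by
      rcases Nat.eq_zero_or_pos (g p) with h | h
      · rw [h, mul_zero] at hGg
        omega
      · exact h
    have hGk : (G p : ℤ) ∣ k := by
      rw [← h6, N2_diff]
      exact dvd_add ((Int.gcd_dvd_left _ _).mul_right _) ((Int.gcd_dvd_right _ _).mul_right _)
    have hGk2 : G p ∣ k.natAbs := by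
      have := Int.natAbs_dvd_natAbs.2 hGk
      simpa using this
    refine ⟨h1, hGpos, hGg, hgpos, ?_, ?_, h3⟩
    · exact (dvd_trans (by rw [hGg]; exact dvd_mul_left _ _) hGk2)
    · have h7 := abs_e_lt h1
      have h8 : (G p : ℤ) * K0 < B := lt_trans h3 h7
      rw [← hGg]
      exact_mod_cast h8
  -- admissibility
  have hadm1 : ∀ p ∈ P, Nat.Coprime (g' p) M → Adm M (g' p) (M ^ κ) K0 (B ^ 2 / A) B (p.2.1 - p.1.1, p.2.2 - p.1.2) := by
    intro p hp hc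
    obtain ⟨h1, h2, h3, h4, h5, h6, h7⟩ := hdata p hp
    have hsplit : g p = Nat.gcd (g p) (M ^ κ) * g' p := (Nat.mul_div_cancel' (Nat.gcd_dvd_left _ _)).symm
    have hMg' : M * g' p ∣ G p := by
      rw [h3]
      apply Nat.mul_dvd_mul_left
      exact Dvd.intro_left _ hsplit.symm
    refine ⟨abs_d_le hA hk h1, (abs_e_lt h1).le, ?_, ?_, ?_, h7⟩
    · exact (Int.natCast_dvd_natCast.2 hMg').trans (Int.gcd_dvd_left _ _)
    · exact (Int.natCast_dvd_natCast.2 hMg').trans (Int.gcd_dvd_right _ _)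
    · have h8 : G p ∣ M * g' p * M ^ κ := by
        rw [h3, mul_assoc]
        apply Nat.mul_dvd_mul_left
        have h9 : Nat.gcd (g p) (M ^ κ) * g' p ∣ g' p * M ^ κ := by
          rw [mul_comm (g' p)]
          exact Nat.mul_dvd_mul_right (Nat.gcd_dvd_right _ _) _
        rwa [← hsplit] at h9
      have := Int.natCast_dvd_natCast.2 h8
      push_cast at this
      exact this
  have hadm2 : ∀ p ∈ P, Adm M (g p) 1 K0 (B ^ 2 / A) B (p.2.1 - p.1.1, p.2.2 - p.1.2) := by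
    intro p hp
    obtain ⟨h1, h2, h3, h4, h5, h6, h7⟩ := hdata p hp
    refine ⟨abs_d_le hA hk h1, (abs_e_lt h1).le, ?_, ?_, ?_, h7⟩
    · rw [← h3]; exact Int.gcd_dvd_left _ _
    · rw [← h3]; exact Int.gcd_dvd_right _ _
    · have h8 : (G p : ℤ) = M * g p := by rw [h3]; push_cast; rfl
      rw [Nat.cast_one, mul_one, ← h8]
  have hbig : ∀ p ∈ P, ¬ Nat.Coprime (g' p) M → 2 ^ κ ≤ g p := by
    intro p hp hc
    obtain ⟨h1, h2, h3, h4, h5, h6, h7⟩ := hdata p hp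
    obtain ⟨q, hq, hq1, hq2⟩ := Nat.Prime.not_coprime_iff_dvd.1 hc
    have hsplit : g p = Nat.gcd (g p) (M ^ κ) * g' p := (Nat.mul_div_cancel' (Nat.gcd_dvd_left _ _)).symm
    have hg'0 : g' p ≠ 0 := by
      intro h
      rw [h, mul_zero] at hsplit
      omega
    have hgcd0 : Nat.gcd (g p) (M ^ κ) ≠ 0 := by
      intro h
      rw [h, zero_mul] at hsplit
      omega
    have e1 : (g p).factorization q = (Nat.gcd (g p) (M ^ κ)).factorization q + (g' p).factorization q := by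
      conv_lhs => rw [hsplit]
      rw [Nat.factorization_mul hgcd0 hg'0]
      rfl
    have e2 : (Nat.gcd (g p) (M ^ κ)).factorization q = min ((g p).factorization q) ((M ^ κ).factorization q) := by
      rw [Nat.factorization_gcd h4.ne' (pow_ne_zero _ hM.ne')]
      rfl
    have e3 : 1 ≤ (g' p).factorization q := (hq.dvd_iff_one_le_factorization hg'0).1 hq1
    have e4 : 1 ≤ M.factorization q := (hq.dvd_iff_one_le_factorization hM.ne').1 hq2
    have e5 : (M ^ κ).factorization q = κ * M.factorization q := by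
      rw [Nat.factorization_pow]
      rfl
    have e6 : κ ≤ (M ^ κ).factorization q := by
      rw [e5]
      exact Nat.le_mul_of_pos_right _ e4
    have e7 : κ ≤ (g p).factorization q := by
      rcases min_cases ((g p).factorization q) ((M ^ κ).factorization q) with h | h <;> omega
    calc 2 ^ κ ≤ q ^ κ := Nat.pow_le_pow_left hq.two_le _
      _ ≤ q ^ (g p).factorization q := Nat.pow_le_pow_right hq.pos e7
      _ ≤ g p := Nat.ordProj_le q h4.ne'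
  -- split
  set P1 := P.filter (fun p => Nat.Coprime (g' p) M) with hP1
  set P2 := P.filter (fun p => ¬ Nat.Coprime (g' p) M) with hP2
  have hsum : (P.card : ℝ) = P1.card + P2.card := by
    rw [hP1, hP2, ← Nat.cast_add, card_filter_add_card_filter_not]
  -- the first part
  have h1 : (P1.card : ℝ) ≤ W * FM M k := by
    have hmaps : ∀ p ∈ P1, g' p ∈ (k.natAbs.divisors).filter (fun γ => Nat.Coprime γ M) := by
      intro p hp
      obtain ⟨hp1, hp2⟩ := mem_filter.1 hp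
      obtain ⟨h1, h2, h3, h4, h5, h6, h7⟩ := hdata p hp1
      rw [mem_filter, Nat.mem_divisors]
      refine ⟨⟨(Nat.div_dvd_of_dvd (Nat.gcd_dvd_left _ _)).trans h5, by omega⟩, hp2⟩
    rw [card_eq_sum_card_fiberwise hmaps]
    push_cast
    unfold FM
    rw [mul_sum]
    apply sum_le_sum
    intro γ hγ
    rcases (P1.filter (fun p => g' p = γ)).eq_empty_or_nonempty with h0 | ⟨p0, hp0⟩
    · rw [h0]
      simp only [card_empty, Nat.cast_zero]
      positivity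
    obtain ⟨hp01, hp02⟩ := mem_filter.1 hp0
    obtain ⟨hp03, hp04⟩ := mem_filter.1 hp01
    obtain ⟨h1, h2, h3, h4, h5, h6, h7⟩ := hdata p0 hp03
    have hg'pos : 0 < g' p0 := Nat.div_pos (Nat.gcd_le_left _ h4) (Nat.gcd_pos_of_pos_left _ h4)
    have hg'le : g' p0 ≤ g p0 := Nat.div_le_self _ _
    rw [hW]
    apply fib_bound M γ (M ^ κ) J A A1 r B K0 (B ^ 2 / A) hM4 hM (by rw [← hp02]; exact hg'pos) (by positivity) hK0 hA hJ
      (fun q hq hqd => hq.dvd_of_dvd_pow hqd) hr α β k hα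
    · rw [← hp02]
      calc M * g' p0 * K0 ≤ M * g p0 * K0 := Nat.mul_le_mul_right _ (Nat.mul_le_mul_left _ hg'le)
        _ < B := h6
    · intro p hp
      obtain ⟨hp1, hp2⟩ := mem_filter.1 hp
      obtain ⟨hp3, hp4⟩ := mem_filter.1 hp1
      rw [← hp2]
      exact ⟨(hdata p hp3).1, hadm1 p hp3 hp4⟩
  -- the second part
  have h2 : (P2.card : ℝ) ≤ W * (τ / 2 ^ κ) := by
    have hmaps : ∀ p ∈ P2, g p ∈ (k.natAbs.divisors).filter (fun γ => 2 ^ κ ≤ γ) := by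
      intro p hp
      obtain ⟨hp1, hp2⟩ := mem_filter.1 hp
      obtain ⟨h1, h2, h3, h4, h5, h6, h7⟩ := hdata p hp1
      rw [mem_filter, Nat.mem_divisors]
      exact ⟨⟨h5, by omega⟩, hbig p hp1 hp2⟩
    rw [card_eq_sum_card_fiberwise hmaps]
    push_cast
    have h3 : ∀ γ ∈ (k.natAbs.divisors).filter (fun γ => 2 ^ κ ≤ γ), ((P2.filter (fun p => g p = γ)).card : ℝ) ≤ W * (1 / 2 ^ κ) := by
      intro γ hγ
      have hγ2 := (mem_filter.1 hγ).2
      rcases (P2.filter (fun p => g p = γ)).eq_empty_or_nonempty with h0 | ⟨p0, hp0⟩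
      · rw [h0]
        simp only [card_empty, Nat.cast_zero]
        positivity
      obtain ⟨hp01, hp02⟩ := mem_filter.1 hp0
      obtain ⟨hp03, hp04⟩ := mem_filter.1 hp01
      obtain ⟨h1, h2, h3, h4, h5, h6, h7⟩ := hdata p0 hp03
      have h8 : ((P2.filter (fun p => g p = γ)).card : ℝ) ≤ W * (1 / γ) := by
        rw [hW]
        apply fib_bound M γ 1 J A A1 r B K0 (B ^ 2 / A) hM4 hM (by rw [← hp02]; exact h4) (by norm_num) hK0 hA hJ
          (fun q hq hqd => absurd (Nat.le_of_dvd (by norm_num) hqd) (by have := hq.two_le; omega)) hr1 α β k hα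
        · rw [← hp02]; exact h6
        · intro p hp
          obtain ⟨hp1, hp2⟩ := mem_filter.1 hp
          obtain ⟨hp3, hp4⟩ := mem_filter.1 hp1
          rw [← hp2]
          exact ⟨(hdata p hp3).1, hadm2 p hp3⟩
      refine h8.trans (mul_le_mul_of_nonneg_left ?_ hW0)
      apply one_div_le_one_div_of_le (by positivity)
      exact_mod_cast hγ2
    refine (sum_le_sum h3).trans ?_
    rw [sum_const, nsmul_eq_mul]
    have h4 : (((k.natAbs.divisors).filter (fun γ => 2 ^ κ ≤ γ)).card : ℝ) ≤ τ := by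
      exact_mod_cast (card_filter_le _ _).trans (hτ _ hkn hkn2)
    calc _ ≤ (τ : ℝ) * (W * (1 / 2 ^ κ)) := mul_le_mul_of_nonneg_right h4 (by positivity)
      _ = _ := by ring
  rw [hsum, mul_add]
  linarith

/-- **the number of pairs of points whose norms have the difference `k ≠ 0`** -/
theorem Pk_bound (M κ J A A1 r B K0 τ : ℕ) (hM4 : 4 ∣ M) (hM : 0 < M) (hK0 : 0 < K0)
    (hA : 0 < A) (hJ : 0 < J)
    (hr : M * M ^ κ * J + K0 * (B ^ 2 / A) ≤ K0 * r) (α β k : ℤ) (hα : IsCoprime α (M : ℤ)) (hk0 : k ≠ 0) (hk : |k| ≤ (B : ℤ) ^ 2)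
    (hτ : ∀ n : ℕ, 1 ≤ n → n ≤ 3 * B ^ 2 → n.divisors.card ≤ τ) :
    ((Pk M α β A A1 B k).card : ℝ) ≤
      ((1 / (A : ℝ) + 1 / J) * ((B + 2 * r + B / K0) / M) * (Ox M α β A A1 B r).card) * (FM M k + τ / 2 ^ κ) +
      (A1 * (2 * τ) + (τ * (2 * K0 + 1) * B) * (2 * τ)) := by
  classical
  have h1 := main_part M κ J A A1 r B K0 τ hM4 hM hK0 hA hJ hr α β k hα hk0 hk hτ
  have h2 := crude_d0 M α β A A1 B τ k hk0 hk hτ
  have h3 := crude_d1 M α β A A1 B τ K0 k hk0 hk hτ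
  have h4 : (Pk M α β A A1 B k).card ≤ ((Pk M α β A A1 B k).filter (fun p => p.2.1 - p.1.1 ≠ 0 ∧
      ((Int.gcd (p.2.1 - p.1.1) (p.2.2 - p.1.2) : ℕ) : ℤ) * K0 < |p.2.2 - p.1.2|)).card +
      (((Pk M α β A A1 B k).filter (fun p => p.2.1 - p.1.1 = 0)).card +
      ((Pk M α β A A1 B k).filter (fun p => p.2.1 - p.1.1 ≠ 0 ∧
      |p.2.2 - p.1.2| ≤ ((Int.gcd (p.2.1 - p.1.1) (p.2.2 - p.1.2) : ℕ) : ℤ) * K0)).card) := by
    refine le_trans ?_ (Nat.add_le_add_left (card_union_le _ _) _)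
    refine le_trans ?_ (card_union_le _ _)
    apply card_le_card
    intro p hp
    rw [mem_union, mem_union, mem_filter, mem_filter, mem_filter]
    by_cases h : p.2.1 - p.1.1 = 0
    · exact Or.inr (Or.inl ⟨hp, h⟩)
    · rcases lt_or_ge (((Int.gcd (p.2.1 - p.1.1) (p.2.2 - p.1.2) : ℕ) : ℤ) * K0) |p.2.2 - p.1.2| with h' | h'
      · exact Or.inl ⟨hp, h, h'⟩
      · exact Or.inr (Or.inr ⟨hp, h, h'⟩)
  have h5 : ((Pk M α β A A1 B k).card : ℝ) ≤ (((Pk M α β A A1 B k).filter (fun p => p.2.1 - p.1.1 ≠ 0 ∧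
      ((Int.gcd (p.2.1 - p.1.1) (p.2.2 - p.1.2) : ℕ) : ℤ) * K0 < |p.2.2 - p.1.2|)).card : ℝ) +
      ((((Pk M α β A A1 B k).filter (fun p => p.2.1 - p.1.1 = 0)).card : ℝ) +
      (((Pk M α β A A1 B k).filter (fun p => p.2.1 - p.1.1 ≠ 0 ∧
      |p.2.2 - p.1.2| ≤ ((Int.gcd (p.2.1 - p.1.1) (p.2.2 - p.1.2) : ℕ) : ℤ) * K0)).card : ℝ)) := by exact_mod_cast h4
  have h2' : (((Pk M α β A A1 B k).filter (fun p => p.2.1 - p.1.1 = 0)).card : ℝ) ≤ A1 * (2 * τ) := by exact_mod_cast h2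
  have h3' : (((Pk M α β A A1 B k).filter (fun p => p.2.1 - p.1.1 ≠ 0 ∧
      |p.2.2 - p.1.2| ≤ ((Int.gcd (p.2.1 - p.1.1) (p.2.2 - p.1.2) : ℕ) : ℤ) * K0)).card : ℝ) ≤
      (τ * (2 * K0 + 1) * B) * (2 * τ) := by exact_mod_cast h3
  linarith

end Pool.Agent.H770Sun
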