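import Pool.Agent.H770Sun.Pair
import Pool.Agent.Helper256.KM.Mertens

set_option autoImplicit false

/-! Weights of sets of primes. -/

namespace Pool.Agent.H770Sun
open Finset

/-- the weight of a set of primes -/
noncomputable def wT (T : Finset ℕ) : ℝ := ∏ p ∈ T, 1 / ((p : ℝ) - 1)

lemma wT_nonneg (T : Finset ℕ) (hT : ∀ p ∈ T, p.Prime) : 0 ≤ wT T := by
  apply prod_nonneg
  intro p hp
  have : (1 : ℝ) < p := by exact_mod_cast (hT p hp).one_lt
  have h2 : (0 : ℝ) < p - 1 := by linarith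
  positivity

lemma prod_eq_wT (S : Finset ℕ) : ∏ p ∈ S, (1 + 1 / ((p : ℝ) - 1)) = ∑ T ∈ S.powerset, wT T := by
  classical
  rw [Finset.prod_one_add]
  rfl

lemma fac_ge_one (p : ℕ) (hp : p.Prime) : 1 ≤ 1 + 1 / ((p : ℝ) - 1) := by
  have : (1 : ℝ) < p := by exact_mod_cast hp.one_lt
  have h2 : (0 : ℝ) < p - 1 := by linarith
  have : 0 < 1 / ((p : ℝ) - 1) := by positivity
  linarith

lemma prod_mono_fac (S S' : Finset ℕ) (hS' : ∀ p ∈ S', p.Prime) (h : S ⊆ S') :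
    ∏ p ∈ S, (1 + 1 / ((p : ℝ) - 1)) ≤ ∏ p ∈ S', (1 + 1 / ((p : ℝ) - 1)) := by
  classical
  rw [← prod_sdiff h]
  have h1 : 1 ≤ ∏ p ∈ S' \ S, (1 + 1 / ((p : ℝ) - 1)) := by
    have h2 : ∏ p ∈ S' \ S, (1 : ℝ) ≤ ∏ p ∈ S' \ S, (1 + 1 / ((p : ℝ) - 1)) := by
      apply prod_le_prod
      · intro p _; exact zero_le_one
      · intro p hp
        exact fac_ge_one p (hS' p (mem_sdiff.1 hp).1)
    rwa [prod_const_one] at h2
  have h3 : 0 ≤ ∏ p ∈ S, (1 + 1 / ((p : ℝ) - 1)) := by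
    apply prod_nonneg
    intro p hp
    exact zero_le_one.trans (fac_ge_one p (hS' p (h hp)))
  exact le_mul_of_one_le_left h3 h1

lemma prod_ge_one (S : Finset ℕ) (hS : ∀ p ∈ S, p.Prime) : 1 ≤ ∏ p ∈ S, (1 + 1 / ((p : ℝ) - 1)) := by
  have := prod_mono_fac ∅ S hS (empty_subset _)
  simpa using this

/-- the sum of the reciprocals of the divisors -/
lemma sum_div_le (D S : Finset ℕ) (hD : ∀ γ ∈ D, γ ≠ 0) (hS : ∀ p ∈ S, p.Prime) (hDS : ∀ γ ∈ D, ∀ p, p.Prime → p ∣ γ → p ∈ S) :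
    ∑ γ ∈ D, (1 / (γ : ℝ)) ≤ ∏ p ∈ S, (1 + 1 / ((p : ℝ) - 1)) := by
  set f : ℕ →* ℝ := (invMonoidWithZeroHom : ℝ →*₀ ℝ).toMonoidHom.comp (Nat.castRingHom ℝ).toMonoidHom with hf
  have hfa : ∀ m : ℕ, f m = (m : ℝ)⁻¹ := fun m => rfl
  have h1 := EulerProduct.summable_and_hasSum_factoredNumbers_prod_filter_prime_geometric (f := f)
    (fun {p} hp => by
      rw [hfa, norm_inv, RCLike.norm_natCast]
      exact inv_lt_one_of_one_lt₀ (by exact_mod_cast hp.one_lt)) S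
  obtain ⟨h2, h3⟩ := h1
  have h4 : ∏ p ∈ S with p.Prime, (1 - f p)⁻¹ = ∏ p ∈ S, (1 + 1 / ((p : ℝ) - 1)) := by
    rw [filter_true_of_mem hS]
    apply prod_congr rfl
    intro p hp
    rw [hfa]
    have : (1 : ℝ) < p := by exact_mod_cast (hS p hp).one_lt
    have h5 : (p : ℝ) ≠ 0 := by linarith
    have h6 : (p : ℝ) - 1 ≠ 0 := by linarith
    have h7 : 1 - (p : ℝ)⁻¹ = ((p : ℝ) - 1) / p := by field_simp
    rw [h7, inv_div]
    field_simp
    ring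
  rw [h4] at h3
  have hmem : ∀ γ ∈ D, γ ∈ Nat.factoredNumbers S := by
    intro γ hγ
    rw [Nat.mem_factoredNumbers]
    refine ⟨hD γ hγ, fun p hp => ?_⟩
    have hp' := Nat.mem_primeFactorsList (hD γ hγ) |>.1 hp
    exact hDS γ hγ p hp'.1 hp'.2
  have h5 : ∑ γ ∈ D.attach, f γ.1 ≤ ∏ p ∈ S, (1 + 1 / ((p : ℝ) - 1)) := by
    have h6 : ∑ x ∈ (D.attach.map ⟨fun γ => (⟨γ.1, hmem γ.1 γ.2⟩ : Nat.factoredNumbers S), by
        intro a b hab
        simp only [Subtype.mk.injEq] at hab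
        exact Subtype.ext hab⟩), f x ≤ ∏ p ∈ S, (1 + 1 / ((p : ℝ) - 1)) := by
      apply sum_le_hasSum _ _ h3
      intro i _
      rw [hfa]
      positivity
    rw [sum_map] at h6
    exact h6
  rw [sum_attach D (fun γ => f γ)] at h5
  refine le_trans (le_of_eq ?_) h5
  apply sum_congr rfl
  intro γ _
  rw [hfa, one_div]

lemma FM_le (M : ℕ) (k : ℤ) (hk : k ≠ 0) :
    FM M k ≤ ∏ p ∈ (k.natAbs.primeFactors).filter (fun p => ¬ p ∣ M), (1 + 1 / ((p : ℝ) - 1)) := by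
  unfold FM
  have hk' : k.natAbs ≠ 0 := Int.natAbs_ne_zero.2 hk
  apply sum_div_le
  · intro γ hγ
    rw [mem_filter, Nat.mem_divisors] at hγ
    exact (Nat.pos_of_dvd_of_pos hγ.1.1 (Nat.pos_of_ne_zero hk')).ne'
  · intro p hp
    exact Nat.prime_of_mem_primeFactors (mem_filter.1 hp).1
  · intro γ hγ p hp hpγ
    rw [mem_filter, Nat.mem_divisors] at hγ
    rw [mem_filter]
    refine ⟨Nat.mem_primeFactors.2 ⟨hp, hpγ.trans hγ.1.1, hk'⟩, fun hpM => ?_⟩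
    exact Nat.not_coprime_of_dvd_of_dvd hp.one_lt hpγ hpM hγ.2

/-- the product over small primes -/
theorem mertens_prod : ∃ C : ℝ, 0 < C ∧ ∀ N : ℕ, 3 ≤ N →
    ∏ p ∈ (Icc 1 N).filter Nat.Prime, (1 + 1 / ((p : ℝ) - 1)) ≤ C * Real.log N := by
  obtain ⟨C, hC⟩ := Pool.Agent.Helper256.KM.mertens_inv
  have hs : Summable (fun n : ℕ => 1 / (n : ℝ) ^ 2) := Real.summable_one_div_nat_pow.2 (by norm_num)
  obtain ⟨D, hD⟩ : ∃ D, D = ∑' n : ℕ, 1 / (n : ℝ) ^ 2 := ⟨_, rfl⟩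
  refine ⟨Real.exp (C + 2 * D), Real.exp_pos _, fun N hN => ?_⟩
  have hlog : 0 < Real.log N := Real.log_pos (by exact_mod_cast (by omega : 1 < N))
  have h1 : ∏ p ∈ (Icc 1 N).filter Nat.Prime, (1 + 1 / ((p : ℝ) - 1)) ≤
      Real.exp (∑ p ∈ (Icc 1 N).filter Nat.Prime, (1 / (p : ℝ) + 2 * (1 / (p : ℝ) ^ 2))) := by
    rw [Real.exp_sum]
    apply prod_le_prod
    · intro p hp
      exact zero_le_one.trans (fac_ge_one p (mem_filter.1 hp).2)
    · intro p hp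
      have hp2 : (2 : ℝ) ≤ p := by exact_mod_cast (mem_filter.1 hp).2.two_le
      have h2 : 1 / ((p : ℝ) - 1) ≤ 1 / (p : ℝ) + 2 * (1 / (p : ℝ) ^ 2) := by
        have e : 1 / (p : ℝ) + 2 * (1 / (p : ℝ) ^ 2) = (p + 2) / (p : ℝ) ^ 2 := by
          field_simp
        rw [e, div_le_div_iff₀ (by linarith) (by positivity)]
        nlinarith
      have h3 := Real.add_one_le_exp (1 / (p : ℝ) + 2 * (1 / (p : ℝ) ^ 2))
      linarith
  refine h1.trans ?_
  have h2 : ∑ p ∈ (Icc 1 N).filter Nat.Prime, (1 / (p : ℝ) + 2 * (1 / (p : ℝ) ^ 2)) ≤ Real.log (Real.log N) + (C + 2 * D) := by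
    rw [sum_add_distrib, ← mul_sum]
    have h3 := (abs_le.1 (hC N hN)).2
    have h4 : ∑ p ∈ (Icc 1 N).filter Nat.Prime, 1 / (p : ℝ) ^ 2 ≤ D := by
      rw [hD]
      exact hs.sum_le_tsum _ (fun _ _ => by positivity)
    linarith
  calc Real.exp (∑ p ∈ (Icc 1 N).filter Nat.Prime, (1 / (p : ℝ) + 2 * (1 / (p : ℝ) ^ 2)))
      ≤ Real.exp (Real.log (Real.log N) + (C + 2 * D)) := Real.exp_le_exp.2 h2
    _ = Real.exp (C + 2 * D) * Real.log N := by rw [Real.exp_add, Real.exp_log hlog]; ring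

/-- products over many primes -/
theorem prod_U : ∃ C : ℝ, 0 < C ∧ ∀ (S : Finset ℕ) (N : ℕ), (∀ p ∈ S, p.Prime) → 3 ≤ N → S.card ≤ N →
    ∏ p ∈ S, (1 + 1 / ((p : ℝ) - 1)) ≤ C * Real.log N := by
  classical
  obtain ⟨C, hC0, hC⟩ := mertens_prod
  refine ⟨3 * C, by positivity, fun S N hS hN hcard => ?_⟩
  have hN0 : (0 : ℝ) < N := by exact_mod_cast (by omega : 0 < N)
  rw [← prod_filter_mul_prod_filter_not S (fun p => p ≤ N)]
  have h1 : ∏ p ∈ S.filter (fun p => p ≤ N), (1 + 1 / ((p : ℝ) - 1)) ≤ C * Real.log N := by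
    refine le_trans (prod_mono_fac _ _ (fun p hp => (mem_filter.1 hp).2) ?_) (hC N hN)
    intro p hp
    rw [mem_filter] at hp
    rw [mem_filter, mem_Icc]
    exact ⟨⟨(hS p hp.1).one_lt.le, hp.2⟩, hS p hp.1⟩
  have h2 : ∏ p ∈ S.filter (fun p => ¬ p ≤ N), (1 + 1 / ((p : ℝ) - 1)) ≤ 3 := by
    have h3 : ∏ p ∈ S.filter (fun p => ¬ p ≤ N), (1 + 1 / ((p : ℝ) - 1)) ≤ ∏ _p ∈ S.filter (fun p => ¬ p ≤ N), (1 + 1 / (N : ℝ)) := by
      apply prod_le_prod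
      · intro p hp
        exact zero_le_one.trans (fac_ge_one p (hS p (mem_filter.1 hp).1))
      · intro p hp
        rw [mem_filter] at hp
        have : (N : ℝ) + 1 ≤ p := by exact_mod_cast (by omega : N + 1 ≤ p)
        have := one_div_le_one_div_of_le hN0 (by linarith : (N : ℝ) ≤ (p : ℝ) - 1)
        linarith
    rw [prod_const] at h3
    refine h3.trans ?_
    have h4 : (1 + 1 / (N : ℝ)) ^ (S.filter (fun p => ¬ p ≤ N)).card ≤ (1 + 1 / (N : ℝ)) ^ N :=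
      pow_le_pow_right₀ (by have : (0 : ℝ) < 1 / N := by positivity
                            linarith) ((card_filter_le _ _).trans hcard)
    refine h4.trans ?_
    have h5 : (1 + 1 / (N : ℝ)) ^ N ≤ Real.exp (1 / N) ^ N := by
      apply pow_le_pow_left₀ (by positivity)
      rw [add_comm]
      exact Real.add_one_le_exp _
    refine h5.trans ?_
    rw [← Real.exp_nat_mul]
    have : (N : ℝ) * (1 / N) = 1 := by field_simp
    rw [this]
    have := Real.exp_one_lt_d9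
    linarith
  have h3 : 0 ≤ ∏ p ∈ S.filter (fun p => p ≤ N), (1 + 1 / ((p : ℝ) - 1)) :=
    zero_le_one.trans (prod_ge_one _ (fun p hp => hS p (mem_filter.1 hp).1))
  have hl : 0 ≤ C * Real.log N := h3.trans h1
  calc _ ≤ (C * Real.log N) * 3 := mul_le_mul h1 h2 (zero_le_one.trans (prod_ge_one _ (fun p hp => hS p (mem_filter.1 hp).1))) hl
    _ = _ := by ring

end Pool.Agent.H770Sun
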