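import Pool.Agent.H770Sun.Sing2

set_option autoImplicit false

/-! The primes with a given order of `3`. -/

namespace Pool.Agent.H770Sun
open Finset

lemma sum_inv_le_harmonic (n : ℕ) : ∀ J : Finset ℕ, J.card = n → (∀ j ∈ J, 1 ≤ j) → ∑ j ∈ J, (1 / (j : ℝ)) ≤ ((harmonic n : ℚ) : ℝ) := by
  induction n with
  | zero =>
    intro J hJ _
    rw [card_eq_zero] at hJ
    rw [hJ]
    simp
  | succ n ih =>
    intro J hJ hJ1
    have hne : J.Nonempty := card_pos.1 (by omega)
    obtain ⟨m, hm⟩ : ∃ m, m = J.max' hne := ⟨_, rfl⟩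
    have hmJ : m ∈ J := by rw [hm]; exact max'_mem _ _
    have hmax : ∀ j ∈ J, j ≤ m := fun j hj => by rw [hm]; exact le_max' _ _ hj
    have hcard : (J.erase m).card = n := by rw [card_erase_of_mem hmJ, hJ]; rfl
    have h1 := ih (J.erase m) hcard (fun j hj => hJ1 j (mem_of_mem_erase hj))
    rw [← add_sum_erase J _ hmJ, harmonic_succ]
    push_cast
    have h2 : J ⊆ Icc 1 m := fun j hj => mem_Icc.2 ⟨hJ1 j hj, hmax j hj⟩
    have h3 : n + 1 ≤ m := by
      have := card_le_card h2
      rw [hJ, Nat.card_Icc] at this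
      omega
    have h4 : 1 / (m : ℝ) ≤ ((n : ℝ) + 1)⁻¹ := by
      rw [one_div]
      apply inv_anti₀ (by positivity)
      exact_mod_cast h3
    linarith

/-- the bound for the primes with a given order -/
noncomputable def bF (m : ℝ) : ℝ := (1 + Real.log (2 * m)) / m

lemma bF_anti (x z : ℝ) (hz : 1 ≤ z) (h : z ≤ x) : bF x ≤ bF z := by
  unfold bF
  have hz0 : 0 < z := by linarith
  have hx0 : 0 < x := by linarith
  rw [div_le_div_iff₀ hx0 hz0]
  have h1 : Real.log (2 * x) ≤ Real.log (2 * z) + (x / z - 1) := by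
    have e : 2 * x = (2 * z) * (x / z) := by field_simp
    rw [e, Real.log_mul (by positivity) (by positivity)]
    have := Real.log_le_sub_one_of_pos (show 0 < x / z by positivity)
    linarith
  have h2 : 0 ≤ Real.log (2 * z) := Real.log_nonneg (by linarith)
  calc (1 + Real.log (2 * x)) * z ≤ (1 + (Real.log (2 * z) + (x / z - 1))) * z :=
        mul_le_mul_of_nonneg_right (by linarith) hz0.le
    _ = Real.log (2 * z) * z + x := by field_simp; ring
    _ ≤ Real.log (2 * z) * x + x := by
        have := mul_le_mul_of_nonneg_left h h2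
        linarith
    _ = _ := by ring

lemma log_anti (x z : ℝ) (hz : 1 ≤ z) (h : z ≤ x) : (1 + Real.log x) / x ≤ (1 + Real.log z) / z := by
  have hz0 : 0 < z := by linarith
  have hx0 : 0 < x := by linarith
  rw [div_le_div_iff₀ hx0 hz0]
  have h1 : Real.log x ≤ Real.log z + (x / z - 1) := by
    have e : x = z * (x / z) := by field_simp
    conv_lhs => rw [e]
    rw [Real.log_mul (by positivity) (by positivity)]
    have := Real.log_le_sub_one_of_pos (show 0 < x / z by positivity)
    linarith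
  have h2 : 0 ≤ Real.log z := Real.log_nonneg (by linarith)
  calc (1 + Real.log x) * z ≤ (1 + (Real.log z + (x / z - 1))) * z :=
        mul_le_mul_of_nonneg_right (by linarith) hz0.le
    _ = Real.log z * z + x := by field_simp; ring
    _ ≤ Real.log z * x + x := by
        have := mul_le_mul_of_nonneg_left h h2
        linarith
    _ = _ := by ring

lemma bF_mul (g t : ℝ) (hg : 1 ≤ g) (ht : 1 ≤ t) : bF (g * t) ≤ bF g * ((1 + Real.log t) / t) := by
  unfold bF
  have hg0 : 0 < g := by linarith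
  have ht0 : 0 < t := by linarith
  rw [div_mul_div_comm]
  apply div_le_div_of_nonneg_right _ (by positivity)
  have e : 2 * (g * t) = (2 * g) * t := by ring
  rw [e, Real.log_mul (by positivity) (by positivity)]
  have h1 : 0 ≤ Real.log (2 * g) := Real.log_nonneg (by linarith)
  have h2 : 0 ≤ Real.log t := Real.log_nonneg ht
  have h3 := mul_nonneg h1 h2
  linarith

lemma bF_nonneg (m : ℝ) (hm : 1 ≤ m) : 0 ≤ bF m := by
  unfold bF
  have h1 : 0 ≤ Real.log (2 * m) := Real.log_nonneg (by linarith)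
  apply div_nonneg <;> linarith

/-- the primes with a given order of `3` -/
lemma sum_order (m : ℕ) (hm : 1 ≤ m) (S : Finset ℕ) (hS : ∀ p ∈ S, p.Prime ∧ p ≠ 3 ∧ orderOf (3 : ZMod p) = m) :
    ∑ p ∈ S, 1 / ((p : ℝ) - 1) ≤ bF m := by
  have hmr : (0 : ℝ) < m := by exact_mod_cast (by omega : 0 < m)
  -- divisibility
  have hdvd1 : ∀ p ∈ S, m ∣ p - 1 := by
    intro p hp
    obtain ⟨h1, h2, h3⟩ := hS p hp
    have := Fact.mk h1
    rw [← h3]
    apply ZMod.orderOf_dvd_card_sub_one
    intro h
    have h4 : ((3 : ℕ) : ZMod p) = 0 := by exact_mod_cast h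
    rw [ZMod.natCast_eq_zero_iff] at h4
    exact h2 ((Nat.prime_dvd_prime_iff_eq h1 Nat.prime_three).1 h4)
  have hdvd2 : ∀ p ∈ S, p ∣ 3 ^ m - 1 := by
    intro p hp
    obtain ⟨h1, h2, h3⟩ := hS p hp
    have := Fact.mk h1
    have h4 : (3 : ZMod p) ^ m = 1 := by rw [← h3]; exact pow_orderOf_eq_one _
    rw [← ZMod.natCast_eq_zero_iff, Nat.cast_sub (Nat.one_le_pow _ _ (by norm_num))]
    push_cast
    rw [h4, sub_self]
  have hcard : S.card ≤ 2 * m := by
    have h1 : 2 ^ S.card ≤ ∏ p ∈ S, p := Finset.pow_card_le_prod _ _ _ (fun p hp => (hS p hp).1.two_le)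
    have h2 : ∏ p ∈ S, p ∣ 3 ^ m - 1 := by
      apply Finset.prod_primes_dvd
      · intro p hp
        exact (hS p hp).1.prime
      · exact hdvd2
    have h0 : 0 < 3 ^ m - 1 := by
      have : 3 ^ 1 ≤ 3 ^ m := Nat.pow_le_pow_right (by norm_num) hm
      omega
    have h3 := Nat.le_of_dvd h0 h2
    have h4 : 3 ^ m - 1 ≤ 2 ^ (2 * m) := by
      have : 3 ^ m ≤ 4 ^ m := Nat.pow_le_pow_left (by norm_num) m
      rw [pow_mul]
      norm_num
      omega
    exact (Nat.pow_le_pow_iff_right (by norm_num)).1 (h1.trans (h3.trans h4))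
  -- the quotients
  have hval : ∀ p ∈ S, m * ((p - 1) / m) = p - 1 := fun p hp => Nat.mul_div_cancel' (hdvd1 p hp)
  have hinj : Set.InjOn (fun p => (p - 1) / m) (S : Set ℕ) := by
    intro p hp q hq hpq
    simp only at hpq
    have h1 := hval p hp
    have h2 := hval q hq
    rw [hpq, h2] at h1
    have := (hS p hp).1.one_lt
    have := (hS q hq).1.one_lt
    omega
  have h1 : ∑ p ∈ S, 1 / ((p : ℝ) - 1) = (1 / m) * ∑ j ∈ S.image (fun p => (p - 1) / m), (1 / (j : ℝ)) := by
    rw [sum_image hinj, mul_sum]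
    apply sum_congr rfl
    intro p hp
    have h2 := hval p hp
    have h3 : ((p - 1 : ℕ) : ℝ) = (p : ℝ) - 1 := by
      rw [Nat.cast_sub (hS p hp).1.one_lt.le]
      simp
    rw [← h3, ← h2]
    push_cast
    rw [one_div_mul_one_div]
    congr 2
    rw [h2]
  rw [h1]
  have h2 := sum_inv_le_harmonic _ (S.image (fun p => (p - 1) / m)) rfl (fun j hj => by
    rw [mem_image] at hj
    obtain ⟨p, hp, rfl⟩ := hj
    have h2 := hval p hp
    have h3 := (hS p hp).1.one_lt
    rcases Nat.eq_zero_or_pos ((p - 1) / m) with h | h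
    · rw [h] at h2; omega
    · exact h)
  rw [card_image_of_injOn hinj] at h2
  have h3 : ((harmonic S.card : ℚ) : ℝ) ≤ 1 + Real.log (2 * m) := by
    rcases Nat.eq_zero_or_pos S.card with h | h
    · rw [h]
      simp only [harmonic_zero, Rat.cast_zero]
      have : 0 ≤ Real.log (2 * (m : ℝ)) := Real.log_nonneg (by
        have : (1 : ℝ) ≤ m := by exact_mod_cast hm
        linarith)
      linarith
    · refine (harmonic_le_one_add_log _).trans ?_
      have : Real.log S.card ≤ Real.log (2 * m) := by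
        apply Real.log_le_log (by exact_mod_cast h)
        exact_mod_cast hcard
      linarith
  unfold bF
  calc (1 / (m : ℝ)) * _ ≤ (1 / m) * (1 + Real.log (2 * m)) := mul_le_mul_of_nonneg_left (h2.trans h3) (by positivity)
    _ = _ := by ring

end Pool.Agent.H770Sun
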