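import Pool.Agent.H770Sun.Sing3

set_option autoImplicit false

/-! Sums over the divisors of a power of a primorial. -/

namespace Pool.Agent.H770Sun
open Finset

/-- the sum of `log g / g` over the divisors -/
lemma sum_log_div (E y : ℕ) (hE : 0 < E) (hy : 1 ≤ y) (hEy : ∀ q, q.Prime → q ∣ E → q ≤ y) :
    ∑ g ∈ E.divisors, Real.log g / g ≤ (∑ g ∈ E.divisors, 1 / (g : ℝ)) ^ 2 * Real.log y := by
  have hyr : (1 : ℝ) ≤ y := by exact_mod_cast hy
  have hlogy : 0 ≤ Real.log y := Real.log_nonneg hyr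
  obtain ⟨F, hF⟩ : ∃ F, F = ∑ g ∈ E.divisors, 1 / (g : ℝ) := ⟨_, rfl⟩
  have hF0 : 0 ≤ F := by rw [hF]; positivity
  have h1 : ∀ g ∈ E.divisors, Real.log g / g = ∑ d ∈ E.divisors, (if d ∣ g then ArithmeticFunction.vonMangoldt d / g else 0) := by
    intro g hg
    rw [Nat.mem_divisors] at hg
    rw [← ArithmeticFunction.vonMangoldt_sum, sum_div, ← sum_filter]
    apply sum_congr _ (fun _ _ => rfl)
    ext d
    rw [mem_filter, Nat.mem_divisors, Nat.mem_divisors]
    constructor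
    · rintro ⟨h1, h2⟩
      exact ⟨⟨h1.trans hg.1, hg.2⟩, h1⟩
    · rintro ⟨_, h2⟩
      exact ⟨h2, (Nat.pos_of_dvd_of_pos hg.1 hE).ne'⟩
  rw [sum_congr rfl h1, sum_comm]
  have h2 : ∀ d ∈ E.divisors, ∑ g ∈ E.divisors, (if d ∣ g then ArithmeticFunction.vonMangoldt d / (g : ℝ) else 0) ≤
      (Real.log y * F) * (1 / (d : ℝ)) := by
    intro d hd
    rw [Nat.mem_divisors] at hd
    have hdpos : 0 < d := Nat.pos_of_dvd_of_pos hd.1 hE
    have hdr : (0 : ℝ) < d := by exact_mod_cast hdpos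
    rw [← sum_filter]
    have hΛ0 : 0 ≤ ArithmeticFunction.vonMangoldt d := ArithmeticFunction.vonMangoldt_nonneg
    have hΛ : ArithmeticFunction.vonMangoldt d ≤ Real.log y := by
      rw [ArithmeticFunction.vonMangoldt_apply]
      split_ifs with h
      · have hd1 : d ≠ 1 := h.ne_one
        have h3 : d.minFac ≤ y := hEy _ (Nat.minFac_prime hd1) ((Nat.minFac_dvd d).trans hd.1)
        apply Real.log_le_log
        · exact_mod_cast (Nat.minFac_prime hd1).pos
        · exact_mod_cast h3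
      · exact hlogy
    have h3 : ∑ g ∈ E.divisors.filter (fun g => d ∣ g), ArithmeticFunction.vonMangoldt d / (g : ℝ) =
        ArithmeticFunction.vonMangoldt d * (1 / d) * ∑ g ∈ E.divisors.filter (fun g => d ∣ g), 1 / ((g / d : ℕ) : ℝ) := by
      rw [mul_sum]
      apply sum_congr rfl
      intro g hg
      rw [mem_filter] at hg
      rw [Nat.cast_div hg.2 hdr.ne']
      have : (g : ℝ) ≠ 0 := by
        have := Nat.pos_of_mem_divisors hg.1
        positivity
      field_simp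
    have h4 : ∑ g ∈ E.divisors.filter (fun g => d ∣ g), 1 / ((g / d : ℕ) : ℝ) ≤ F := by
      rw [hF]
      have h5 : ∑ g ∈ E.divisors.filter (fun g => d ∣ g), 1 / ((g / d : ℕ) : ℝ) =
          ∑ x ∈ (E.divisors.filter (fun g => d ∣ g)).image (fun g => g / d), 1 / (x : ℝ) := by
        rw [sum_image]
        intro a ha b hb hab
        rw [mem_coe, mem_filter] at ha hb
        simp only at hab
        rw [← Nat.mul_div_cancel' ha.2, ← Nat.mul_div_cancel' hb.2, hab]
      rw [h5]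
      apply sum_le_sum_of_subset_of_nonneg
      · intro x hx
        rw [mem_image] at hx
        obtain ⟨g, hg, rfl⟩ := hx
        rw [mem_filter, Nat.mem_divisors] at hg
        rw [Nat.mem_divisors]
        exact ⟨(Nat.div_dvd_of_dvd hg.2).trans hg.1.1, hE.ne'⟩
      · intro _ _ _
        positivity
    rw [h3]
    calc _ ≤ ArithmeticFunction.vonMangoldt d * (1 / d) * F := mul_le_mul_of_nonneg_left h4 (by positivity)
      _ ≤ Real.log y * (1 / d) * F := by
          apply mul_le_mul_of_nonneg_right _ hF0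
          exact mul_le_mul_of_nonneg_right hΛ (by positivity)
      _ = _ := by ring
  refine (sum_le_sum h2).trans ?_
  rw [← mul_sum, ← hF]
  apply le_of_eq
  ring

lemma sum_bF (E y : ℕ) (hE : 0 < E) (hy : 1 ≤ y) (hEy : ∀ q, q.Prime → q ∣ E → q ≤ y) (F : ℝ) (hF : ∑ g ∈ E.divisors, 1 / (g : ℝ) ≤ F) :
    ∑ g ∈ E.divisors, bF g ≤ 2 * F + F ^ 2 * Real.log y := by
  have h1 := sum_log_div E y hE hy hEy
  have hyr : (1 : ℝ) ≤ y := by exact_mod_cast hy
  have hlogy : 0 ≤ Real.log y := Real.log_nonneg hyr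
  have h0 : 0 ≤ ∑ g ∈ E.divisors, 1 / (g : ℝ) := by positivity
  have h2 : ∑ g ∈ E.divisors, bF g ≤ ∑ g ∈ E.divisors, (2 * (1 / (g : ℝ)) + Real.log g / g) := by
    apply sum_le_sum
    intro g hg
    have hg0 : 0 < g := Nat.pos_of_mem_divisors hg
    have hgr : (0 : ℝ) < g := by exact_mod_cast hg0
    unfold bF
    rw [Real.log_mul (by norm_num) hgr.ne']
    have h3 := Real.log_two_lt_d9
    have h4 : 2 * (1 / (g : ℝ)) + Real.log g / g = (2 + Real.log g) / g := by ring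
    rw [h4]
    apply div_le_div_of_nonneg_right _ hgr.le
    linarith
  refine h2.trans ?_
  rw [sum_add_distrib, ← mul_sum]
  have h3 : (∑ g ∈ E.divisors, 1 / (g : ℝ)) ^ 2 * Real.log y ≤ F ^ 2 * Real.log y := by
    apply mul_le_mul_of_nonneg_right _ hlogy
    exact pow_le_pow_left₀ h0 hF 2
  linarith

/-- the primes dividing `3 ^ (E t) - 1` but not `3 ^ E - 1` -/
lemma sum_St (E y K : ℕ) (hE : 0 < E) (hy : 1 ≤ y) (h1 : ∀ q, q.Prime → q ≤ y → q ^ K ∣ E)
    (G : ℝ) (hG : ∑ g ∈ E.divisors, bF g ≤ G) (t : ℕ) (ht : 1 ≤ t)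
    (S : Finset ℕ) (hS : ∀ p ∈ S, p.Prime ∧ p ≠ 3 ∧ p ∣ 3 ^ (E * t) - 1 ∧ ¬ p ∣ 3 ^ E - 1) :
    ∑ p ∈ S, 1 / ((p : ℝ) - 1) ≤ t.divisors.card * (G * ((1 + Real.log y) / y) + E.divisors.card * bF (2 ^ K)) := by
  classical
  have hyr : (1 : ℝ) ≤ y := by exact_mod_cast hy
  have hlogy : 0 ≤ Real.log y := Real.log_nonneg hyr
  have hord : ∀ p ∈ S, orderOf (3 : ZMod p) ∣ E * t ∧ ¬ orderOf (3 : ZMod p) ∣ E := by
    intro p hp
    obtain ⟨h1, h2, h3, h4⟩ := hS p hp
    have key : ∀ n : ℕ, p ∣ 3 ^ n - 1 ↔ (3 : ZMod p) ^ n = 1 := by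
      intro n
      rw [← ZMod.natCast_eq_zero_iff, Nat.cast_sub (Nat.one_le_pow _ _ (by norm_num))]
      push_cast
      exact sub_eq_zero
    rw [key] at h3 h4
    exact ⟨orderOf_dvd_of_pow_eq_one h3, fun h => h4 (orderOf_dvd_iff_pow_eq_one.1 h)⟩
  set 𝓜 := (E * t).divisors.filter (fun m => ¬ m ∣ E) with h𝓜
  have hmaps : ∀ p ∈ S, orderOf (3 : ZMod p) ∈ 𝓜 := by
    intro p hp
    rw [h𝓜, mem_filter, Nat.mem_divisors]
    exact ⟨⟨(hord p hp).1, by positivity⟩, (hord p hp).2⟩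
  rw [← sum_fiberwise_of_maps_to hmaps]
  have h2 : ∀ m ∈ 𝓜, ∑ p ∈ S.filter (fun p => orderOf (3 : ZMod p) = m), 1 / ((p : ℝ) - 1) ≤
      bF (Nat.gcd m E : ℕ) * ((1 + Real.log y) / y) + bF (2 ^ K) := by
    intro m hm
    rw [h𝓜, mem_filter, Nat.mem_divisors] at hm
    obtain ⟨⟨hm1, _⟩, hm2⟩ := hm
    have hm0 : 0 < m := Nat.pos_of_dvd_of_pos hm1 (by positivity)
    have h3 := sum_order m hm0 (S.filter (fun p => orderOf (3 : ZMod p) = m)) (fun p hp => by
      obtain ⟨h4, h5⟩ := mem_filter.1 hp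
      exact ⟨(hS p h4).1, (hS p h4).2.1, h5⟩)
    refine h3.trans ?_
    obtain ⟨g, hg⟩ : ∃ g, g = Nat.gcd m E := ⟨_, rfl⟩
    rw [← hg]
    have hg0 : 0 < g := by rw [hg]; exact Nat.gcd_pos_of_pos_left _ hm0
    have hgm : g ∣ m := by rw [hg]; exact Nat.gcd_dvd_left _ _
    have hgE : g ∣ E := by rw [hg]; exact Nat.gcd_dvd_right _ _
    obtain ⟨τ, hτ⟩ := hgm
    have hτ0 : 0 < τ := by
      rcases Nat.eq_zero_or_pos τ with h | h
      · rw [h] at hτ; omega
      · exact h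
    have hτ1 : τ ≠ 1 := by
      intro h
      rw [h, mul_one] at hτ
      rw [hτ] at hm2
      exact hm2 hgE
    have hgr : (1 : ℝ) ≤ g := by exact_mod_cast hg0
    have hτr : (1 : ℝ) ≤ τ := by exact_mod_cast hτ0
    have hb0 : 0 ≤ bF g := bF_nonneg _ hgr
    have hb1 : 0 ≤ bF (2 ^ K) := bF_nonneg _ (one_le_pow₀ (by norm_num))
    rcases le_or_gt y τ with h4 | h4
    · have h5 : bF m ≤ bF g * ((1 + Real.log τ) / τ) := by
        rw [hτ]
        push_cast
        exact bF_mul _ _ hgr hτr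
      have h6 : (1 + Real.log τ) / (τ : ℝ) ≤ (1 + Real.log y) / y := log_anti _ _ hyr (by exact_mod_cast h4)
      have h7 := mul_le_mul_of_nonneg_left h6 hb0
      linarith
    · obtain ⟨q, hq, hqτ⟩ := Nat.exists_prime_and_dvd hτ1
      have hqy : q ≤ y := (Nat.le_of_dvd hτ0 hqτ).trans h4.le
      have hqE := h1 q hq hqy
      -- `q ^ K ∣ g`
      have hqg : q ^ K ∣ g := by
        have hE0 : E ≠ 0 := hE.ne'
        rw [hq.pow_dvd_iff_le_factorization hg0.ne']
        rw [hq.pow_dvd_iff_le_factorization hE0] at hqE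
        have e1 : g.factorization q = min (m.factorization q) (E.factorization q) := by
          rw [hg, Nat.factorization_gcd hm0.ne' hE0]
          rfl
        have e2 : m.factorization q = g.factorization q + τ.factorization q := by
          rw [hτ, Nat.factorization_mul hg0.ne' hτ0.ne']
          rfl
        have e3 : 1 ≤ τ.factorization q := (hq.dvd_iff_one_le_factorization hτ0.ne').1 hqτ
        rcases min_cases (m.factorization q) (E.factorization q) with h | h <;> omega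
      have h5 : 2 ^ K ≤ m := by
        calc 2 ^ K ≤ q ^ K := Nat.pow_le_pow_left hq.two_le K
          _ ≤ g := Nat.le_of_dvd hg0 hqg
          _ ≤ g * τ := Nat.le_mul_of_pos_right _ hτ0
          _ = m := hτ.symm
      have h6 : bF m ≤ bF (2 ^ K) := bF_anti _ _ (one_le_pow₀ (by norm_num)) (by exact_mod_cast h5)
      have h7 : 0 ≤ bF g * ((1 + Real.log y) / y) := by positivity
      linarith
  refine (sum_le_sum h2).trans ?_
  -- the map to the pairs
  have h3 : ∑ m ∈ 𝓜, (bF (Nat.gcd m E : ℕ) * ((1 + Real.log y) / y) + bF (2 ^ K)) ≤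
      ∑ x ∈ t.divisors ×ˢ E.divisors, (bF (x.2 : ℕ) * ((1 + Real.log y) / y) + bF (2 ^ K)) := by
    have hinj : Set.InjOn (fun m => (m / Nat.gcd m E, Nat.gcd m E)) (𝓜 : Set ℕ) := by
      intro a _ b _ hab
      simp only [Prod.mk.injEq] at hab
      rw [← Nat.div_mul_cancel (Nat.gcd_dvd_left a E), ← Nat.div_mul_cancel (Nat.gcd_dvd_left b E), hab.1, hab.2]
    have h4 : ∑ m ∈ 𝓜, (bF (Nat.gcd m E : ℕ) * ((1 + Real.log y) / y) + bF (2 ^ K)) =
        ∑ x ∈ 𝓜.image (fun m => (m / Nat.gcd m E, Nat.gcd m E)), (bF (x.2 : ℕ) * ((1 + Real.log y) / y) + bF (2 ^ K)) := by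
      rw [sum_image hinj]
    rw [h4]
    apply sum_le_sum_of_subset_of_nonneg
    · intro x hx
      rw [mem_image] at hx
      obtain ⟨m, hm, rfl⟩ := hx
      rw [h𝓜, mem_filter, Nat.mem_divisors] at hm
      obtain ⟨⟨hm1, _⟩, hm2⟩ := hm
      have hm0 : 0 < m := Nat.pos_of_dvd_of_pos hm1 (by positivity)
      rw [mem_product, Nat.mem_divisors, Nat.mem_divisors]
      refine ⟨⟨?_, by omega⟩, Nat.gcd_dvd_right _ _, hE.ne'⟩
      simp only
      have hgpos : 0 < Nat.gcd m E := Nat.gcd_pos_of_pos_left _ hm0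
      have hcop : Nat.Coprime (m / Nat.gcd m E) (E / Nat.gcd m E) := Nat.coprime_div_gcd_div_gcd hgpos
      apply hcop.dvd_of_dvd_mul_left
      have e1 : E * t = Nat.gcd m E * (E / Nat.gcd m E * t) := by
        rw [← mul_assoc, Nat.mul_div_cancel' (Nat.gcd_dvd_right m E)]
      have e2 : m = Nat.gcd m E * (m / Nat.gcd m E) := (Nat.mul_div_cancel' (Nat.gcd_dvd_left m E)).symm
      have e3 : Nat.gcd m E * (m / Nat.gcd m E) ∣ Nat.gcd m E * (E / Nat.gcd m E * t) := by
        rw [← e1, ← e2]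
        exact hm1
      exact Nat.dvd_of_mul_dvd_mul_left hgpos e3
    · intro x hx _
      rw [mem_product] at hx
      have h5 : 0 < x.2 := Nat.pos_of_mem_divisors hx.2
      have h6 : (1 : ℝ) ≤ x.2 := by exact_mod_cast h5
      have h7 := bF_nonneg _ h6
      have hb1 : 0 ≤ bF (2 ^ K) := bF_nonneg _ (one_le_pow₀ (by norm_num))
      positivity
  refine h3.trans ?_
  rw [sum_product]
  simp only
  rw [sum_const, nsmul_eq_mul]
  apply mul_le_mul_of_nonneg_left _ (by positivity)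
  rw [sum_add_distrib, sum_const, nsmul_eq_mul, ← sum_mul]
  apply add_le_add _ le_rfl
  exact mul_le_mul_of_nonneg_right hG (by positivity)

end Pool.Agent.H770Sun
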