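import Pool.Agent.H770Sun.Sing2

set_option autoImplicit false

/-! The sum over the sets of primes, by partial summation. -/

namespace Pool.Agent.H770Sun
open Finset

lemma sqrt_step (m : ℕ) (hm : 1 ≤ m) : √(m : ℝ) / ((m : ℝ) * (m + 1)) ≤ 2 / √(m : ℝ) - 2 / √((m : ℝ) + 1) := by
  have hm0 : (0 : ℝ) < m := by exact_mod_cast hm
  obtain ⟨a, ha⟩ : ∃ a, a = √(m : ℝ) := ⟨_, rfl⟩
  obtain ⟨c, hc⟩ : ∃ c, c = √((m : ℝ) + 1) := ⟨_, rfl⟩
  have ha0 : 0 < a := by rw [ha]; exact Real.sqrt_pos.2 hm0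
  have hc0 : 0 < c := by rw [hc]; exact Real.sqrt_pos.2 (by linarith)
  have ha2 : (m : ℝ) = a ^ 2 := by rw [ha, Real.sq_sqrt hm0.le]
  have hc2 : (m : ℝ) + 1 = c ^ 2 := by rw [hc, Real.sq_sqrt (by linarith)]
  have hac : a ≤ c := by rw [ha, hc]; exact Real.sqrt_le_sqrt (by linarith)
  rw [← ha, ← hc, hc2, ha2]
  have h1 : c ^ 2 - a ^ 2 = 1 := by linarith
  have h2 : a / (a ^ 2 * c ^ 2) = 1 / (a * c ^ 2) := by field_simp
  have h3 : 2 / a - 2 / c = 2 * (c - a) / (a * c) := by field_simp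
  rw [h2, h3, div_le_div_iff₀ (by positivity) (by positivity)]
  have h4 : 1 ≤ 2 * c * (c - a) := by nlinarith
  have h5 : 0 ≤ a * c := by positivity
  calc 1 * (a * c) ≤ (2 * c * (c - a)) * (a * c) := mul_le_mul_of_nonneg_right h4 h5
    _ = _ := by ring

/-- partial summation -/
lemma abel_sum (α : ℕ → ℝ) (C : ℝ) (hC : 0 ≤ C)
    (hA : ∀ m : ℕ, 1 ≤ m → ∑ o ∈ Icc 1 m, α o ≤ C * √(m : ℝ)) (n : ℕ) :
    ∑ o ∈ Icc 1 n, α o / o ≤ (∑ o ∈ Icc 1 n, α o) / (n + 1) + C * (2 - 2 / √((n : ℝ) + 1)) := by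
  induction n with
  | zero =>
    simp
  | succ n ih =>
    rw [sum_Icc_succ_top (by omega), sum_Icc_succ_top (by omega)]
    have h1 := hA (n + 1) (by omega)
    rw [sum_Icc_succ_top (by omega)] at h1
    obtain ⟨S, hS⟩ : ∃ S, S = ∑ o ∈ Icc 1 n, α o := ⟨_, rfl⟩
    rw [← hS] at h1 ih ⊢
    have hs := sqrt_step (n + 1) (by omega)
    have hn0 : (0 : ℝ) ≤ n := Nat.cast_nonneg _
    have h2 : (S + α (n + 1)) / (((n + 1 : ℕ) : ℝ) * (((n + 1 : ℕ) : ℝ) + 1)) ≤ C * (2 / √((n + 1 : ℕ) : ℝ) - 2 / √(((n + 1 : ℕ) : ℝ) + 1)) := by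
      calc (S + α (n + 1)) / (((n + 1 : ℕ) : ℝ) * (((n + 1 : ℕ) : ℝ) + 1)) ≤
            (C * √((n + 1 : ℕ) : ℝ)) / (((n + 1 : ℕ) : ℝ) * (((n + 1 : ℕ) : ℝ) + 1)) :=
            div_le_div_of_nonneg_right h1 (by positivity)
        _ = C * (√((n + 1 : ℕ) : ℝ) / (((n + 1 : ℕ) : ℝ) * (((n + 1 : ℕ) : ℝ) + 1))) := by ring
        _ ≤ _ := mul_le_mul_of_nonneg_left hs hC
    have h3 : (S + α (n + 1)) / (((n + 1 : ℕ) : ℝ)) = (S + α (n + 1)) / (((n + 1 : ℕ) : ℝ) + 1) +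
        (S + α (n + 1)) / (((n + 1 : ℕ) : ℝ) * (((n + 1 : ℕ) : ℝ) + 1)) := by
      have : ((n + 1 : ℕ) : ℝ) ≠ 0 := by positivity
      have : ((n + 1 : ℕ) : ℝ) + 1 ≠ 0 := by positivity
      field_simp
    have h4 : √((n : ℝ) + 1) = √((n + 1 : ℕ) : ℝ) := by push_cast; rfl
    have h5 : S / ((n : ℝ) + 1) = S / ((n + 1 : ℕ) : ℝ) := by push_cast; rfl
    rw [h4, h5] at ih
    have h6 : (S + α (n + 1)) / (((n + 1 : ℕ) : ℝ)) = S / ((n + 1 : ℕ) : ℝ) + α (n + 1) / ((n + 1 : ℕ) : ℝ) := by ring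
    linarith

/-- the existence of the exponents -/
lemma oT_pos (E : ℕ) (T : Finset ℕ) (hT : ∀ p ∈ T, p.Prime ∧ p ≠ 3) : 1 ≤ oT E T ∧ ∀ p ∈ T, p ∣ 3 ^ (E * oT E T) - 1 := by
  apply oT_mem E T (∏ p ∈ T, (p - 1))
  · apply Nat.one_le_iff_ne_zero.2
    rw [prod_ne_zero_iff]
    intro p hp
    have := (hT p hp).1.one_lt
    omega
  · intro p hp
    obtain ⟨h1, h2⟩ := hT p hp
    have h3 : p - 1 ∣ E * ∏ p ∈ T, (p - 1) := (dvd_prod_of_mem _ hp).mul_left _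
    have h4 : Nat.Coprime 3 p := (Nat.coprime_primes Nat.prime_three h1).2 (Ne.symm h2)
    have h5 : p ∣ 3 ^ (p - 1) - 1 := by
      have h6 := Nat.ModEq.pow_totient h4
      rw [Nat.totient_prime h1] at h6
      exact (Nat.modEq_iff_dvd' (Nat.one_le_pow _ _ (by norm_num))).1 h6.symm
    exact h5.trans (Nat.pow_sub_one_dvd_pow_sub_one 3 h3)

/-- the sets with a given exponent -/
lemma alpha_le (E : ℕ) (P : Finset ℕ) (hP : ∀ p ∈ P, p.Prime ∧ p ≠ 3) (t : ℕ) (s : ℝ) (hs1 : s ≤ 1)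
    (hs : ∑ p ∈ P.filter (fun p => p ∣ 3 ^ (E * t) - 1), 1 / ((p : ℝ) - 1) ≤ s) :
    ∑ T ∈ (P.powerset.erase ∅).filter (fun T => oT E T = t), wT T ≤ 2 * s := by
  set Q := P.filter (fun p => p ∣ 3 ^ (E * t) - 1) with hQ
  have hQp : ∀ p ∈ Q, p.Prime := fun p hp => (hP p (mem_filter.1 hp).1).1
  have hs0 : 0 ≤ ∑ p ∈ Q, 1 / ((p : ℝ) - 1) := by
    apply sum_nonneg
    intro p hp
    have : (1 : ℝ) < p := by exact_mod_cast (hQp p hp).one_lt
    have h2 : (0 : ℝ) < p - 1 := by linarith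
    positivity
  have h1 : ∑ T ∈ (P.powerset.erase ∅).filter (fun T => oT E T = t), wT T ≤ ∑ T ∈ Q.powerset.erase ∅, wT T := by
    apply sum_le_sum_of_subset_of_nonneg
    · intro T hT
      rw [mem_filter, mem_erase, mem_powerset] at hT
      obtain ⟨⟨h1, h2⟩, h3⟩ := hT
      rw [mem_erase, mem_powerset]
      refine ⟨h1, fun p hp => ?_⟩
      rw [hQ, mem_filter, ← h3]
      exact ⟨h2 hp, (oT_pos E T (fun p hp => hP p (h2 hp))).2 p hp⟩
    · intro T hT _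
      rw [mem_erase, mem_powerset] at hT
      exact wT_nonneg T (fun p hp => hQp p (hT.2 hp))
  have h2 : ∑ T ∈ Q.powerset.erase ∅, wT T = ∏ p ∈ Q, (1 + 1 / ((p : ℝ) - 1)) - 1 := by
    rw [prod_eq_wT, ← Finset.add_sum_erase _ _ (empty_mem_powerset Q)]
    have e1 : wT ∅ = 1 := by unfold wT; rw [prod_empty]
    rw [e1]
    ring
  have h3 : ∏ p ∈ Q, (1 + 1 / ((p : ℝ) - 1)) ≤ Real.exp (∑ p ∈ Q, 1 / ((p : ℝ) - 1)) := by
    rw [Real.exp_sum]
    apply prod_le_prod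
    · intro p hp
      exact zero_le_one.trans (fac_ge_one p (hQp p hp))
    · intro p _
      rw [add_comm]
      exact Real.add_one_le_exp _
  have h4 : Real.exp (∑ p ∈ Q, 1 / ((p : ℝ) - 1)) ≤ Real.exp s := Real.exp_le_exp.2 hs
  have hs0' : 0 ≤ s := hs0.trans hs
  have h5 := Real.abs_exp_sub_one_le (x := s) (by rw [abs_of_nonneg hs0']; exact hs1)
  rw [abs_of_nonneg hs0'] at h5
  have h6 := (abs_le.1 h5).2
  linarith

/-- the sets with a bounded exponent -/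
theorem A_le : ∃ C : ℝ, 0 < C ∧ ∀ (E : ℕ) (P : Finset ℕ), 1 ≤ E → (∀ p ∈ P, p.Prime ∧ p ≠ 3) → ∀ x : ℕ, 3 ≤ 2 * E * x ^ 2 →
    ∑ T ∈ (P.powerset.erase ∅).filter (fun T => oT E T ≤ x), wT T ≤ C * Real.log ((2 * E * x ^ 2 : ℕ) : ℝ) := by
  classical
  obtain ⟨C, hC0, hC⟩ := prod_U
  refine ⟨C, hC0, fun E P hE hP x hx => ?_⟩
  set Q := P.filter (fun p => ∃ t ∈ Icc 1 x, p ∣ 3 ^ (E * t) - 1) with hQ
  have hQp : ∀ p ∈ Q, p.Prime := fun p hp => (hP p (mem_filter.1 hp).1).1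
  have h1 : ∑ T ∈ (P.powerset.erase ∅).filter (fun T => oT E T ≤ x), wT T ≤ ∑ T ∈ Q.powerset, wT T := by
    apply sum_le_sum_of_subset_of_nonneg
    · intro T hT
      rw [mem_filter, mem_erase, mem_powerset] at hT
      obtain ⟨⟨h1, h2⟩, h3⟩ := hT
      rw [mem_powerset]
      intro p hp
      have h4 := oT_pos E T (fun p hp => hP p (h2 hp))
      rw [hQ, mem_filter]
      exact ⟨h2 hp, oT E T, mem_Icc.2 ⟨h4.1, h3⟩, h4.2 p hp⟩
    · intro T hT _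
      rw [mem_powerset] at hT
      exact wT_nonneg T (fun p hp => hQp p (hT hp))
  refine h1.trans ?_
  rw [← prod_eq_wT]
  apply hC Q _ hQp hx
  -- the number of primes
  have h2 : 2 ^ Q.card ≤ ∏ p ∈ Q, p := Finset.pow_card_le_prod _ _ _ (fun p hp => (hQp p hp).two_le)
  have hpos : ∀ t ∈ Icc 1 x, 0 < 3 ^ (E * t) - 1 := by
    intro t ht
    have h3 : 1 ≤ E * t := Nat.one_le_iff_ne_zero.2 (Nat.mul_ne_zero (by omega) (by have := (mem_Icc.1 ht).1; omega))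
    have : 3 ^ 1 ≤ 3 ^ (E * t) := Nat.pow_le_pow_right (by norm_num) h3
    omega
  have h3 : ∏ p ∈ Q, p ∣ ∏ t ∈ Icc 1 x, (3 ^ (E * t) - 1) := by
    apply Finset.prod_primes_dvd
    · intro p hp
      exact (hQp p hp).prime
    · intro p hp
      obtain ⟨_, t, ht, hpt⟩ := mem_filter.1 hp
      exact hpt.trans (dvd_prod_of_mem _ ht)
  have h4 : ∏ t ∈ Icc 1 x, (3 ^ (E * t) - 1) ≤ 2 ^ (2 * E * x ^ 2) := by
    calc ∏ t ∈ Icc 1 x, (3 ^ (E * t) - 1) ≤ ∏ _t ∈ Icc 1 x, 2 ^ (2 * E * x) := by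
          apply prod_le_prod'
          intro t ht
          have h5 : t ≤ x := (mem_Icc.1 ht).2
          calc 3 ^ (E * t) - 1 ≤ 3 ^ (E * t) := Nat.sub_le _ _
            _ ≤ 4 ^ (E * t) := Nat.pow_le_pow_left (by norm_num) _
            _ ≤ 4 ^ (E * x) := Nat.pow_le_pow_right (by norm_num) (Nat.mul_le_mul_left _ h5)
            _ = 2 ^ (2 * E * x) := by rw [show (4 : ℕ) = 2 ^ 2 by norm_num, ← pow_mul]; congr 1; ring
      _ = 2 ^ (2 * E * x ^ 2) := by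
          rw [prod_const, Nat.card_Icc, ← pow_mul]
          congr 1
          simp only [Nat.add_sub_cancel]
          ring
  exact (Nat.pow_le_pow_iff_right (by norm_num)).1 (h2.trans ((Nat.le_of_dvd (prod_pos hpos) h3).trans h4))

/-- the sum over all the sets -/
theorem sum_sets (E : ℕ) (P : Finset ℕ) (hP : ∀ p ∈ P, p.Prime ∧ p ≠ 3) (X0 : ℕ) (hX0 : 1 ≤ X0) (η ε : ℝ) (hη : 0 ≤ η) (hε : 0 ≤ ε)
    (h1 : ∀ t : ℕ, 1 ≤ t → t ≤ X0 → ∑ T ∈ (P.powerset.erase ∅).filter (fun T => oT E T = t), wT T ≤ η)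
    (h2 : ∀ x : ℕ, X0 < x → ∑ T ∈ (P.powerset.erase ∅).filter (fun T => oT E T ≤ x), wT T ≤ ε * √(x : ℝ)) :
    ∑ T ∈ P.powerset.erase ∅, wT T / oT E T ≤ η * (1 + Real.log X0) + 3 * ε := by
  classical
  obtain ⟨α, hα⟩ : ∃ α : ℕ → ℝ, α = fun t => ∑ T ∈ (P.powerset.erase ∅).filter (fun T => oT E T = t), wT T := ⟨_, rfl⟩
  have hTp : ∀ T ∈ P.powerset.erase ∅, ∀ p ∈ T, p.Prime ∧ p ≠ 3 := by
    intro T hT p hp
    rw [mem_erase, mem_powerset] at hT
    exact hP p (hT.2 hp)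
  have hw : ∀ T ∈ P.powerset.erase ∅, 0 ≤ wT T := fun T hT => wT_nonneg T (fun p hp => (hTp T hT p hp).1)
  have hα0 : ∀ t, 0 ≤ α t := by
    intro t
    rw [hα]
    exact sum_nonneg fun T hT => hw T (mem_filter.1 hT).1
  obtain ⟨N, hN⟩ : ∃ N, N = X0 + ∑ T ∈ P.powerset.erase ∅, oT E T := ⟨_, rfl⟩
  have hmaps : ∀ T ∈ P.powerset.erase ∅, oT E T ∈ Icc 1 N := by
    intro T hT
    rw [mem_Icc]
    refine ⟨(oT_pos E T (hTp T hT)).1, ?_⟩
    rw [hN]
    have := single_le_sum (f := fun T => oT E T) (fun _ _ => Nat.zero_le _) hT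
    omega
  have h3 : ∑ T ∈ P.powerset.erase ∅, wT T / oT E T = ∑ t ∈ Icc 1 N, α t / t := by
    rw [← sum_fiberwise_of_maps_to hmaps]
    apply sum_congr rfl
    intro t _
    rw [hα, sum_div]
    apply sum_congr rfl
    intro T hT
    rw [(mem_filter.1 hT).2]
  rw [h3]
  obtain ⟨β, hβ⟩ : ∃ β : ℕ → ℝ, β = fun t => if t ≤ X0 then 0 else α t := ⟨_, rfl⟩
  have h4 : ∑ t ∈ Icc 1 N, α t / t ≤ ∑ t ∈ Icc 1 X0, η / t + ∑ t ∈ Icc 1 N, β t / t := by
    rw [← sum_filter_add_sum_filter_not (Icc 1 N) (fun t => t ≤ X0)]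
    apply add_le_add
    · have e1 : (Icc 1 N).filter (fun t => t ≤ X0) = Icc 1 X0 := by
        ext t
        rw [mem_filter, mem_Icc, mem_Icc]
        omega
      rw [e1]
      apply sum_le_sum
      intro t ht
      rw [mem_Icc] at ht
      apply div_le_div_of_nonneg_right _ (by positivity)
      rw [hα]
      exact h1 t ht.1 ht.2
    · rw [sum_filter]
      apply sum_le_sum
      intro t _
      rw [hβ]
      simp only
      by_cases h : t ≤ X0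
      · simp [h]
      · simp [h]
  have h5 : ∑ t ∈ Icc 1 X0, η / t ≤ η * (1 + Real.log X0) := by
    have e1 : ∑ t ∈ Icc 1 X0, η / (t : ℝ) = η * ∑ t ∈ Icc 1 X0, (1 / (t : ℝ)) := by
      rw [mul_sum]
      apply sum_congr rfl
      intro t _
      ring
    rw [e1]
    apply mul_le_mul_of_nonneg_left _ hη
    have e2 : ∑ t ∈ Icc 1 X0, (1 / (t : ℝ)) = ((harmonic X0 : ℚ) : ℝ) := by
      rw [harmonic_eq_sum_Icc]
      push_cast
      apply sum_congr rfl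
      intro t _
      rw [one_div]
    rw [e2]
    exact harmonic_le_one_add_log X0
  have h6 : ∀ m : ℕ, 1 ≤ m → ∑ o ∈ Icc 1 m, β o ≤ ε * √(m : ℝ) := by
    intro m hm
    rcases le_or_gt m X0 with h | h
    · have : ∑ o ∈ Icc 1 m, β o = 0 := by
        apply sum_eq_zero
        intro o ho
        rw [mem_Icc] at ho
        rw [hβ]
        simp only
        rw [if_pos (by omega)]
      rw [this]
      positivity
    · refine le_trans ?_ (h2 m h)
      have e1 : ∑ o ∈ Icc 1 m, β o ≤ ∑ o ∈ Icc 1 m, α o := by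
        apply sum_le_sum
        intro o _
        rw [hβ]
        simp only
        split_ifs
        · exact hα0 o
        · exact le_rfl
      refine e1.trans (le_of_eq ?_)
      rw [← sum_fiberwise_of_maps_to (s := (P.powerset.erase ∅).filter (fun T => oT E T ≤ m)) (t := Icc 1 m) (g := fun T => oT E T)]
      · apply sum_congr rfl
        intro o ho
        rw [hα]
        simp only
        apply sum_congr _ (fun _ _ => rfl)
        ext T
        rw [mem_filter, mem_filter, mem_filter]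
        rw [mem_Icc] at ho
        constructor
        · rintro ⟨h7, h8⟩
          exact ⟨⟨h7, by omega⟩, h8⟩
        · rintro ⟨⟨h7, _⟩, h8⟩
          exact ⟨h7, h8⟩
      · intro T hT
        rw [mem_filter] at hT
        rw [mem_Icc]
        exact ⟨(oT_pos E T (hTp T hT.1)).1, hT.2⟩
  have h7 := abel_sum β ε hε h6 N
  have h8 : (∑ o ∈ Icc 1 N, β o) / ((N : ℝ) + 1) ≤ ε := by
    rw [div_le_iff₀ (by positivity)]
    have hN1 : 1 ≤ N := by omega
    refine (h6 N hN1).trans ?_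
    apply mul_le_mul_of_nonneg_left _ hε
    have : √(N : ℝ) ≤ N := by
      rw [Real.sqrt_le_left (by positivity)]
      have : (1 : ℝ) ≤ N := by exact_mod_cast hN1
      nlinarith
    linarith
  have h9 : 0 ≤ ε * (2 / √((N : ℝ) + 1)) := by positivity
  linarith

end Pool.Agent.H770Sun
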