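import Pool.Agent.H770Sun.Sing4
import Pool.Agent.H770Sun.Sing5
import Pool.Agent.H505R2.DivB

set_option autoImplicit false

/-! The sum over the sets of primes is small for suitable moduli. -/

namespace Pool.Agent.H770Sun
open Finset

/-- the modulus of the exponents -/
def Ey (y : ℕ) : ℕ := (primorial y) ^ (y ^ 3)

lemma Ey_pos (y : ℕ) : 0 < Ey y := pow_pos (primorial_pos y) _

lemma Ey_dvd (y q : ℕ) (hq : q.Prime) (hqy : q ≤ y) : q ^ (y ^ 3) ∣ Ey y := by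
  unfold Ey
  apply pow_dvd_pow_of_dvd
  unfold primorial
  apply dvd_prod_of_mem
  rw [mem_filter, mem_range]
  exact ⟨by omega, hq⟩

lemma Ey_prime (y q : ℕ) (hq : q.Prime) (h : q ∣ Ey y) : q ≤ y := by
  unfold Ey at h
  have h1 := hq.dvd_of_dvd_pow h
  unfold primorial at h1
  rw [Prime.dvd_finsetProd_iff hq.prime] at h1
  obtain ⟨p, hp, hqp⟩ := h1
  rw [mem_filter, mem_range] at hp
  have := (Nat.prime_dvd_prime_iff_eq hq hp.2).1 hqp
  omega

lemma Ey_card (y : ℕ) : (Ey y).divisors.card ≤ (y ^ 3 + 1) ^ y := by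
  rw [Nat.card_divisors (Ey_pos y).ne']
  have h1 : (Ey y).primeFactors ⊆ Icc 1 y := by
    intro q hq
    rw [Nat.mem_primeFactors] at hq
    rw [mem_Icc]
    exact ⟨hq.1.one_lt.le, Ey_prime y q hq.1 hq.2.1⟩
  have h2 : ∀ q ∈ (Ey y).primeFactors, (Ey y).factorization q + 1 ≤ y ^ 3 + 1 := by
    intro q hq
    rw [Nat.mem_primeFactors] at hq
    unfold Ey
    rw [Nat.factorization_pow]
    have h3 : (primorial y).factorization q ≤ 1 := by
      apply Squarefree.natFactorization_le_one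
      unfold primorial
      apply Finset.squarefree_prod_of_pairwise_isCoprime
      · intro p hp p' hp' hne
        rw [mem_coe, mem_filter] at hp hp'
        rw [Function.onFun]
        exact (Nat.coprime_iff_isRelPrime.1 ((Nat.coprime_primes hp.2 hp'.2).2 hne))
      · intro p hp
        exact (mem_filter.1 hp).2.prime.squarefree
    simp only [Finsupp.smul_apply, smul_eq_mul]
    have := Nat.mul_le_mul_left (y ^ 3) h3
    omega
  calc ∏ q ∈ (Ey y).primeFactors, ((Ey y).factorization q + 1) ≤ ∏ _q ∈ (Ey y).primeFactors, (y ^ 3 + 1) := prod_le_prod' h2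
    _ = (y ^ 3 + 1) ^ (Ey y).primeFactors.card := by rw [prod_const]
    _ ≤ (y ^ 3 + 1) ^ y := by
        apply Nat.pow_le_pow_right (by omega)
        have := card_le_card h1
        rw [Nat.card_Icc] at this
        omega

lemma Ey_small (y : ℕ) (hy : 5 ≤ y) : ((Ey y).divisors.card : ℝ) * bF (2 ^ (y ^ 3)) ≤ 1 / y := by
  have hyr : (0 : ℝ) < y := by exact_mod_cast (by omega : 0 < y)
  have h1 : bF (2 ^ (y ^ 3)) ≤ ((y ^ 3 + 2 : ℕ) : ℝ) / 2 ^ (y ^ 3) := by
    unfold bF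
    apply div_le_div_of_nonneg_right _ (by positivity)
    rw [← pow_succ', Real.log_pow]
    have := Real.log_two_lt_d9
    push_cast
    have h2 : (0 : ℝ) ≤ (y : ℝ) ^ 3 := by positivity
    nlinarith
  have h2 : (Ey y).divisors.card * (y ^ 3 + 2) * y ≤ 2 ^ (y ^ 3) := by
    have e0 : y + 1 ≤ 2 ^ y := Nat.lt_two_pow_self
    have e1 : y ^ 3 + 1 ≤ 2 ^ (3 * y) := by
      calc y ^ 3 + 1 ≤ (y + 1) ^ 3 := by nlinarith [Nat.zero_le (y ^ 2), Nat.zero_le y]
        _ ≤ (2 ^ y) ^ 3 := Nat.pow_le_pow_left e0 3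
        _ = _ := by rw [← pow_mul]; congr 1; ring
    have e2 : (y ^ 3 + 1) ^ y ≤ 2 ^ (3 * y ^ 2) := by
      calc (y ^ 3 + 1) ^ y ≤ (2 ^ (3 * y)) ^ y := Nat.pow_le_pow_left e1 y
        _ = _ := by rw [← pow_mul]; congr 1; ring
    have e3 : y ^ 3 + 2 ≤ 2 ^ (3 * y + 1) := by
      have e4 : 2 ^ (3 * y + 1) = 2 ^ (3 * y) * 2 := pow_succ 2 (3 * y)
      have e5 : 1 ≤ 2 ^ (3 * y) := Nat.one_le_two_pow
      rw [e4]
      omega
    calc (Ey y).divisors.card * (y ^ 3 + 2) * y ≤ 2 ^ (3 * y ^ 2) * 2 ^ (3 * y + 1) * 2 ^ y := by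
          apply Nat.mul_le_mul _ (by omega)
          exact Nat.mul_le_mul ((Ey_card y).trans e2) e3
      _ = 2 ^ (3 * y ^ 2 + (3 * y + 1) + y) := by rw [← pow_add, ← pow_add]
      _ ≤ 2 ^ (y ^ 3) := by
          apply Nat.pow_le_pow_right (by norm_num)
          nlinarith
  have h3 : ((Ey y).divisors.card : ℝ) * ((y ^ 3 + 2 : ℕ) : ℝ) * y ≤ 2 ^ (y ^ 3) := by exact_mod_cast h2
  rw [le_div_iff₀ hyr]
  calc ((Ey y).divisors.card : ℝ) * bF (2 ^ (y ^ 3)) * y ≤ ((Ey y).divisors.card : ℝ) * (((y ^ 3 + 2 : ℕ) : ℝ) / 2 ^ (y ^ 3)) * y := by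
        apply mul_le_mul_of_nonneg_right _ hyr.le
        exact mul_le_mul_of_nonneg_left h1 (by positivity)
    _ = (((Ey y).divisors.card : ℝ) * ((y ^ 3 + 2 : ℕ) : ℝ) * y) / 2 ^ (y ^ 3) := by ring
    _ ≤ 1 := by
        rw [div_le_one (by positivity)]
        exact h3

lemma log_Ey (y : ℕ) : Real.log (Ey y) ≤ 2 * (y : ℝ) ^ 4 := by
  unfold Ey
  push_cast
  rw [Real.log_pow]
  have h1 : Real.log (primorial y) ≤ y * Real.log 4 := by
    rw [← Real.log_pow]
    apply Real.log_le_log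
    · exact_mod_cast primorial_pos y
    · exact_mod_cast primorial_le_four_pow y
  have h2 : Real.log 4 ≤ 2 := by
    rw [show (4 : ℝ) = 2 ^ 2 by norm_num, Real.log_pow]
    have := Real.log_two_lt_d9
    push_cast
    linarith
  have hy0 : (0 : ℝ) ≤ y := by positivity
  calc ((y ^ 3 : ℕ) : ℝ) * Real.log (primorial y) ≤ ((y ^ 3 : ℕ) : ℝ) * (y * 2) := by
        apply mul_le_mul_of_nonneg_left _ (by positivity)
        exact h1.trans (mul_le_mul_of_nonneg_left h2 hy0)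
    _ = _ := by push_cast; ring

/-- the divisor function at small arguments -/
lemma div_small : ∃ D : ℝ, 1 ≤ D ∧ ∀ y t : ℕ, 1 ≤ t → t ≤ y ^ 10 → (t.divisors.card : ℝ) ≤ D * √(y : ℝ) := by
  obtain ⟨K, hK⟩ : ∃ K : ℕ, K = 20 := ⟨_, rfl⟩
  have hK0 : 0 < K := by omega
  obtain ⟨C, hC⟩ : ∃ C : ℕ, C = (K ^ K * 2) ^ (2 ^ K) := ⟨_, rfl⟩
  have hC1 : 1 ≤ C := by rw [hC]; exact Nat.one_le_pow _ _ (by positivity)
  have hC1r : (1 : ℝ) ≤ C := by exact_mod_cast hC1
  refine ⟨√(C : ℝ), by rw [Real.one_le_sqrt]; exact hC1r, fun y t ht hty => ?_⟩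
  have h1 : t.divisors.card ^ 20 ≤ C * t := by
    have h0 := Pool.Agent.H505R2.card_divisors_pow_le K hK0 t (by omega)
    rw [← hC] at h0
    rwa [hK] at h0
  have h2 : (t.divisors.card ^ 2) ^ 10 ≤ (C * y) ^ 10 := by
    calc (t.divisors.card ^ 2) ^ 10 = t.divisors.card ^ 20 := by rw [← pow_mul]
      _ ≤ C * t := h1
      _ ≤ C * y ^ 10 := Nat.mul_le_mul_left _ hty
      _ ≤ C ^ 10 * y ^ 10 := Nat.mul_le_mul_right _ (Nat.le_self_pow (by norm_num) _)
      _ = _ := by rw [mul_pow]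
  have h3 : t.divisors.card ^ 2 ≤ C * y := (Nat.pow_le_pow_iff_left (by norm_num)).1 h2
  rw [← Real.sqrt_mul (by positivity)]
  apply Real.le_sqrt_of_sq_le
  exact_mod_cast h3

end Pool.Agent.H770Sun
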